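import Pool.Agent.Helper74.C5.A1e

/-!
# No double cuts with one further point
-/

set_option linter.unusedSectionVars false

open Finset

namespace Pool.Agent.Helper74.C5

open Pool.Agent.Helper20.C5

variable {α ι : Type} [DecidableEq α] [DecidableEq ι] [Fintype ι]

theorem D1.ws_dg {b : ι → Finset α} {V U : Finset α} {i0 j0 : ι} {a : α}
    {C : Fin 3 → Finset α} (h : D1 b V U i0 j0 a C) (hsys : Sys b V) (u : α) :
    ws b C u = dg b {u} U := by
  rw [← h.wsum hsys {u} (i := 0) (j := 1) (l := 2) (by decide) (by decide) (by decide)]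
  rfl

/-- **No double cuts with one further point** in a minimal counterexample with `e* ≤ -2`. -/
theorem MC.no1 {b : ι → Finset α} {V : Finset α} (mc : MC b V)
    (he : ee b V - ((sp b V).card : ℤ) ≤ -2) {U : Finset α} {i0 j0 : ι}
    (h1 : DV b V U i0 j0 1) : False := by
  obtain ⟨a, C, h⟩ := exists_D1 h1
  have hsys := mc.sys
  have nsp := mc.nosp kp fm he h1.p3
  have hge := (mc.face kp fm he h1.p3).2.2.1
  have hsum := h1.sum hsys
  rw [h.sum (fun D => ee b D - ((sp b V ∩ D).card : ℤ)) (i := 0) (j := 1) (l := 2) (by decide)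
    (by decide) (by decide)] at hsum
  have k0 : ee b (C 0) - ((sp b V ∩ C 0).card : ℤ) = eC b V C 0 := rfl
  have k1 : ee b (C 1) - ((sp b V ∩ C 1).card : ℤ) = eC b V C 1 := rfl
  have k2 : ee b (C 2) - ((sp b V ∩ C 2).card : ℤ) = eC b V C 2 := rfl
  rw [k0, k1, k2] at hsum
  have e0 : 0 ≤ eC b V C 0 := h1.nn kp hsys (h.mem 0)
  have e1 : 0 ≤ eC b V C 1 := h1.nn kp hsys (h.mem 1)
  have e2 : 0 ≤ eC b V C 2 := h1.nn kp hsys (h.mem 2)
  rw [nsp, card_empty] at he hge hsum
  rw [empty_inter, card_empty] at hsum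
  have hn2 : 2 ≤ (ins b V U).card := by
    obtain ⟨h2, h3, h4⟩ := h.ins2
    rw [← card_pair h4]
    apply card_le_card
    intro i hi
    rw [mem_insert, mem_singleton] at hi
    rcases hi with rfl | rfl
    · exact h2
    · exact h3
  push_cast at he hge hsum
  have hcx : Cx b V U i0 j0 a C (6 - (ins b V U).card) := by
    refine ⟨h, mc, nsp, mc.ring kp fm (by rw [nsp, card_empty]; push_cast; omega) h1.p3,
      mc.ring kp fm (by rw [nsp, card_empty]; push_cast; omega) h1.q3, ?_, ?_, ?_⟩
    · have hn : (ins b V U).card = 2 ∨ (ins b V U).card = 3 := by omega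
      rcases hn with hn | hn
      · left
        refine ⟨by omega, ?_⟩
        have : ∀ i : Fin 3, i = 0 ∨ i = 1 ∨ i = 2 := by decide
        intro i
        rcases this i with rfl | rfl | rfl <;> omega
      · right
        refine ⟨by omega, ?_⟩
        have : ∀ i : Fin 3, i = 0 ∨ i = 1 ∨ i = 2 := by decide
        intro i
        rcases this i with rfl | rfl | rfl <;> omega
    · intro u hu hua
      rw [h.ws_dg hsys u]
      have huV := (mem_sdiff.mp hu).1
      rcases h.all u hu with h2 | h2 | h2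
      · exact absurd h2 hua
      · have h3 := h.degP hsys (mem_inter.mpr ⟨h2, huV⟩)
        omega
      · have h3 := h.degQ hsys (mem_inter.mpr ⟨h2, huV⟩)
        omega
    · rw [h.ws_dg hsys a]
      have h3 := h.degA hsys
      omega
  have hr := hcx.r4
  have hn : (ins b V U).card = 2 := by omega
  rw [hn] at hsum
  have hs2 : eC b V C 0 + eC b V C 1 + eC b V C 2 ≤ 2 := by
    push_cast at hsum
    omega
  push_cast at hsum
  by_cases z01 : eC b V C 0 ≤ 0 ∧ eC b V C 1 ≤ 0
  · exact hcx.no00 hs2 (i := 0) (j := 1) (l := 2) (by decide) (by decide) (by decide) z01.1 z01.2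
  by_cases z02 : eC b V C 0 ≤ 0 ∧ eC b V C 2 ≤ 0
  · exact hcx.no00 hs2 (i := 0) (j := 2) (l := 1) (by decide) (by decide) (by decide) z02.1 z02.2
  by_cases z12 : eC b V C 1 ≤ 0 ∧ eC b V C 2 ≤ 0
  · exact hcx.no00 hs2 (i := 1) (j := 2) (l := 0) (by decide) (by decide) (by decide) z12.1 z12.2
  have hee : ee b V = -2 := by omega
  by_cases z0 : eC b V C 0 ≤ 0
  · exact hcx.no011 hs2 hee (i := 0) (j := 1) (l := 2) (by decide) (by decide) (by decide) z0
      (by omega) (by omega)
  by_cases z1 : eC b V C 1 ≤ 0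
  · exact hcx.no011 hs2 hee (i := 1) (j := 0) (l := 2) (by decide) (by decide) (by decide) z1
      (by omega) (by omega)
  · exact hcx.no011 hs2 hee (i := 2) (j := 0) (l := 1) (by decide) (by decide) (by decide)
      (by omega) (by omega) (by omega)

end Pool.Agent.Helper74.C5
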