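import Pool.Agent.Helper74.C5.Hall1
import Pool.Agent.Helper34.C5.Bas

/-!
# Double cuts with one further point: the data
-/

set_option linter.unusedSectionVars false

open Finset

namespace Pool.Agent.Helper74.C5

open Pool.Agent.Helper20.C5

variable {α ι : Type} [DecidableEq α] [DecidableEq ι] [Fintype ι]

/-- No special points in a minimal counterexample with `e* ≤ -2`. -/
theorem MC.nosp {b : ι → Finset α} {V : Finset α} (h : MC b V) (hKP : KP) (hFM : FM)
    (he : ee b V - ((sp b V).card : ℤ) ≤ -2) {i0 : ι} (hi0 : (b i0 ∩ V).card = 3) :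
    sp b V = ∅ := by
  have hge := (h.face hKP hFM he hi0).2.2.1
  have hsV : sp b V ⊆ V := filter_subset _ _
  have h1 := sum_deg (h.sys.mono hsV)
  have h2 : ∑ i ∈ mt b (sp b V), (b i ∩ sp b V).card ≤
      ∑ i, ((if (b i ∩ V).card = 1 then 1 else 0) + 2 * (if (b i ∩ V).card = 2 then 1 else 0)) := by
    refine le_trans (sum_le_sum_of_subset (subset_univ _)) (sum_le_sum ?_)
    intro i _
    have h3 := h.sys.sz i
    have h4 : (b i ∩ sp b V).card ≤ (b i ∩ V).card := card_le_card (inter_subset_inter_left hsV)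
    by_cases h5 : (b i ∩ V).card = 3
    · have h6 := (h.face hKP hFM he h5).2.1
      have h7 : b i ∩ sp b V = ∅ := by
        rw [eq_empty_iff_forall_notMem] at h6 ⊢
        intro x hx
        rw [mem_inter] at hx
        exact h6 x (mem_inter.mpr ⟨hx.2, mem_inter.mpr ⟨hx.1, hsV hx.2⟩⟩)
      rw [h7, card_empty]
      exact Nat.zero_le _
    · split_ifs <;> omega
  rw [sum_add_distrib, ← mul_sum, ← card_filter, ← card_filter, h1] at h2
  have h3 := two_sp_nk (b := b) (U := V)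
  have h4 := ee_nk h.sys
  have h5 := h.tf
  have h6 := h.neg
  have h7 := (show (univ.filter fun i => (b i ∩ V).card = 1).card = nk b V 1 from rfl)
  have h8 := (show (univ.filter fun i => (b i ∩ V).card = 2).card = nk b V 2 from rfl)
  rw [h7, h8] at h2
  unfold Pot at h6
  rw [← card_eq_zero]
  omega

/-- Labels: the capacity of a component. -/
theorem labels {b : ι → Finset α} {V U C : Finset α} (hsys : Sys b V) (hU : U ⊆ V)
    (hC : C ∈ cps b U) :
    3 * nb b C ≤ 5 * C.card + ∑ u ∈ V \ U, dg b {u} C + (2 * nk b V 1 + nk b V 2) := by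
  have hCU := cps_sub hC
  have hCV := hCU.trans hU
  have h1 := sum_deg (hsys.mono hCV)
  have h2 : ∑ u ∈ V \ U, dg b {u} C = ∑ i ∈ mt b C, (b i ∩ (V \ U)).card := by
    have h3 : ∀ i, (b i ∩ (V \ U)).card = ∑ u ∈ V \ U, if u ∈ b i then 1 else 0 := by
      intro i
      rw [← card_filter]
      congr 1
      ext x
      rw [mem_inter, mem_filter, and_comm]
    have h4 : ∀ u, dg b {u} C = ∑ i ∈ mt b C, if u ∈ b i then 1 else 0 := by
      intro u
      unfold dg
      rw [← card_filter]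
      congr 1
      ext i
      rw [mem_filter, mem_filter, mem_mt]
      constructor
      · rintro ⟨-, ⟨y, hy⟩, ⟨c, hc⟩⟩
        rw [mem_inter, mem_singleton] at hy
        rw [mem_inter] at hc
        exact ⟨⟨c, hc.2, hc.1⟩, hy.2 ▸ hy.1⟩
      · rintro ⟨⟨c, hc, hc2⟩, hu⟩
        exact ⟨mem_univ i, ⟨u, mem_inter.mpr ⟨hu, mem_singleton_self u⟩⟩,
          ⟨c, mem_inter.mpr ⟨hc2, hc⟩⟩⟩
    rw [sum_congr rfl fun u _ => h4 u, sum_comm, sum_congr rfl fun i _ => (h3 i).symm]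
  have h3 : ∑ i ∈ mt b C, (2 * (if (b i ∩ V).card = 1 then 1 else 0) +
      (if (b i ∩ V).card = 2 then 1 else 0)) ≤ 2 * nk b V 1 + nk b V 2 := by
    refine le_trans (sum_le_sum_of_subset (subset_univ _)) ?_
    rw [sum_add_distrib, ← mul_sum, ← card_filter, ← card_filter]
    exact le_rfl
  have h4 : ∑ _i ∈ mt b C, 3 ≤ ∑ i ∈ mt b C, ((b i ∩ C).card + (b i ∩ (V \ U)).card +
      (2 * (if (b i ∩ V).card = 1 then 1 else 0) + (if (b i ∩ V).card = 2 then 1 else 0))) := by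
    apply sum_le_sum
    intro i hi
    obtain ⟨x, hx, hxi⟩ := mem_mt.mp hi
    have h5 : (b i ∩ V).card ≤ (b i ∩ C).card + (b i ∩ (V \ U)).card := by
      refine (card_le_card ?_).trans (card_union_le _ _)
      intro y hy
      rw [mem_inter] at hy
      rw [mem_union, mem_inter, mem_inter, mem_sdiff]
      by_cases hyU : y ∈ U
      · left
        refine ⟨hy.1, ?_⟩
        by_contra hyC
        exact cps_sep hC i x hx y (mem_sdiff.mpr ⟨hyU, hyC⟩) hxi hy.1
      · exact Or.inr ⟨hy.1, hy.2, hyU⟩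
    have h6 := hsys.sz i
    have h7 := card_pos.mpr ⟨x, mem_inter.mpr ⟨hxi, hCV hx⟩⟩
    split_ifs <;> omega
  rw [sum_const, smul_eq_mul, sum_add_distrib, sum_add_distrib, h1, ← h2] at h4
  unfold nb
  omega

/-- A block meeting `C` has at most two points outside. -/
theorem dg_half {b : ι → Finset α} {V C G : Finset α} (hsys : Sys b V) (hC : C ⊆ V)
    (hG : G ⊆ V \ C) : ∑ u ∈ G, dg b {u} C ≤ 2 * dg b G C := by
  have h1 : ∀ u ∈ G, dg b {u} C = ∑ i ∈ univ.filter (fun i => (b i ∩ G).Nonempty ∧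
      (b i ∩ C).Nonempty), if u ∈ b i then 1 else 0 := by
    intro u hu
    rw [← card_filter]
    unfold dg
    congr 1
    ext i
    rw [mem_filter, mem_filter, mem_filter]
    constructor
    · rintro ⟨-, ⟨y, hy⟩, h2⟩
      rw [mem_inter, mem_singleton] at hy
      rw [hy.2] at hy
      exact ⟨⟨mem_univ i, ⟨u, mem_inter.mpr ⟨hy.1, hu⟩⟩, h2⟩, hy.1⟩
    · rintro ⟨⟨-, -, h2⟩, h3⟩
      exact ⟨mem_univ i, ⟨u, mem_inter.mpr ⟨h3, mem_singleton_self u⟩⟩, h2⟩
  rw [sum_congr rfl h1, sum_comm]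
  unfold dg
  rw [mul_comm, ← smul_eq_mul]
  apply sum_le_card_nsmul
  intro i hi
  obtain ⟨-, -, ⟨c, hc⟩⟩ := mem_filter.mp hi
  rw [mem_inter] at hc
  rw [← card_filter]
  have h2 : insert c (G.filter fun u => u ∈ b i) ⊆ b i ∩ V := by
    intro x hx
    rcases mem_insert.mp hx with rfl | hx
    · exact mem_inter.mpr ⟨hc.1, hC hc.2⟩
    · rw [mem_filter] at hx
      exact mem_inter.mpr ⟨hx.2, (mem_sdiff.mp (hG hx.1)).1⟩
  have h3 := card_le_card h2
  have h4 := hsys.sz i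
  rw [card_insert_of_notMem] at h3
  · omega
  · intro h5
    exact (mem_sdiff.mp (hG (mem_filter.mp h5).1)).2 hc.2

/-- The exact degree. -/
theorem dg_ins_eq {b : ι → Finset α} {V U : Finset α} (hsys : Sys b V) {x : α} (hx : x ∈ V) :
    dg b {x} U + ((ins b V U).filter fun i => x ∈ b i).card = 5 := by
  rw [← hsys.deg x hx]
  unfold dg
  rw [← card_union_of_disjoint]
  · congr 1
    ext i
    rw [mem_union, mem_filter, mem_filter, ins, mem_filter, mem_filter]
    constructor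
    · rintro (⟨-, ⟨y, hy⟩, -⟩ | ⟨-, h1⟩)
      · rw [mem_inter, mem_singleton] at hy
        rw [hy.2] at hy
        exact ⟨mem_univ i, hy.1⟩
      · exact ⟨mem_univ i, h1⟩
    · rintro ⟨-, h1⟩
      by_cases h : b i ∩ U = ∅
      · exact Or.inr ⟨⟨mem_univ i, ⟨x, mem_inter.mpr ⟨h1, hx⟩⟩, h⟩, h1⟩
      · exact Or.inl ⟨mem_univ i, ⟨x, mem_inter.mpr ⟨h1, mem_singleton_self x⟩⟩,
          nonempty_iff_ne_empty.mpr h⟩
  · rw [disjoint_left]
    intro i hi hi2
    obtain ⟨-, -, h1⟩ := mem_filter.mp hi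
    have h2 := (mem_filter.mp (mem_filter.mp hi2).1).2.2
    rw [h2] at h1
    exact not_nonempty_empty h1

/-- Symmetry of double cuts. -/
theorem DV.symm {b : ι → Finset α} {V U : Finset α} {i0 j0 : ι} {k : ℕ} (h : DV b V U i0 j0 k) :
    DV b V U j0 i0 k :=
  ⟨h.sub, h.q3, h.p3, h.pq.symm, h.qu, h.pu, h.tt, h.card, h.num, h.typ, h.tf, h.attQ, h.attP⟩

/-- A double cut with one further point. -/
structure D1 (b : ι → Finset α) (V U : Finset α) (i0 j0 : ι) (a : α) (C : Fin 3 → Finset α) :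
    Prop where
  dv : DV b V U i0 j0 1
  inj : Function.Injective C
  cs : cps b U = univ.image C
  ha : a ∈ V \ U
  ai : a ∉ b i0
  aj : a ∉ b j0
  all : ∀ x ∈ V \ U, x = a ∨ x ∈ b i0 ∨ x ∈ b j0

theorem D1.symm {b : ι → Finset α} {V U : Finset α} {i0 j0 : ι} {a : α} {C : Fin 3 → Finset α}
    (h : D1 b V U i0 j0 a C) : D1 b V U j0 i0 a C :=
  ⟨h.dv.symm, h.inj, h.cs, h.ha, h.aj, h.ai, fun x hx => by
    rcases h.all x hx with h1 | h1 | h1
    · exact Or.inl h1
    · exact Or.inr (Or.inr h1)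
    · exact Or.inr (Or.inl h1)⟩

theorem DV.subP {b : ι → Finset α} {V U : Finset α} {i0 j0 : ι} {k : ℕ}
    (h : DV b V U i0 j0 k) : b i0 ∩ V ⊆ V \ U := by
  intro x hx
  rw [mem_inter] at hx
  refine mem_sdiff.mpr ⟨hx.2, fun h1 => ?_⟩
  have h2 := h.pu
  rw [eq_empty_iff_forall_notMem] at h2
  exact h2 x (mem_inter.mpr ⟨hx.1, h1⟩)

theorem DV.subQ {b : ι → Finset α} {V U : Finset α} {i0 j0 : ι} {k : ℕ}
    (h : DV b V U i0 j0 k) : b j0 ∩ V ⊆ V \ U := h.symm.subP

theorem exists_D1 {b : ι → Finset α} {V U : Finset α} {i0 j0 : ι} (h : DV b V U i0 j0 1) :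
    ∃ a C, D1 b V U i0 j0 a C := by
  have h1 := h.scard
  have h2 : ((V \ U) \ ((b i0 ∩ V) ∪ (b j0 ∩ V))).card = 1 := by
    rw [card_sdiff_of_subset (union_subset h.subP h.subQ), card_union_of_disjoint h.pq, h.p3,
      h.q3, h1]
  obtain ⟨a, ha⟩ := card_eq_one.mp h2
  have ha1 : a ∈ (V \ U) \ ((b i0 ∩ V) ∪ (b j0 ∩ V)) := by
    rw [ha]
    exact mem_singleton_self a
  have h3 : (cps b U).card = Fintype.card (Fin 3) := by
    rw [h.num, Fintype.card_fin]
  rw [mem_sdiff, mem_union, mem_inter, mem_inter] at ha1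
  have haV := (mem_sdiff.mp ha1.1).1
  have e := (cps b U).equivFinOfCardEq h.num
  refine ⟨a, fun t => (e.symm t).1, h, ?_, ?_, ha1.1, fun h4 => ha1.2 (Or.inl ⟨h4, haV⟩),
    fun h4 => ha1.2 (Or.inr ⟨h4, haV⟩), ?_⟩
  · intro s t hst
    exact e.symm.injective (Subtype.ext hst)
  · ext D
    rw [mem_image]
    constructor
    · intro hD
      exact ⟨e ⟨D, hD⟩, mem_univ _, by rw [Equiv.symm_apply_apply]⟩
    · rintro ⟨t, -, rfl⟩
      exact (e.symm t).2
  · intro x hx
    by_cases h4 : x ∈ (b i0 ∩ V) ∪ (b j0 ∩ V)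
    · rw [mem_union, mem_inter, mem_inter] at h4
      rcases h4 with h4 | h4
      · exact Or.inr (Or.inl h4.1)
      · exact Or.inr (Or.inr h4.1)
    · left
      have h5 : x ∈ (V \ U) \ ((b i0 ∩ V) ∪ (b j0 ∩ V)) := mem_sdiff.mpr ⟨hx, h4⟩
      rw [ha, mem_singleton] at h5
      exact h5

/-- The weights. -/
def wt (b : ι → Finset α) (C : Fin 3 → Finset α) (i : Fin 3) (u : α) : ℕ := dg b {u} (C i)

/-- The excesses. -/
noncomputable def eC (b : ι → Finset α) (V : Finset α) (C : Fin 3 → Finset α) (i : Fin 3) : ℤ :=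
  ee b (C i) - ((sp b V ∩ C i).card : ℤ)

theorem sum_fin3 {M : Type} [AddCommMonoid M] (f : Fin 3 → M) {i j l : Fin 3} (hij : i ≠ j)
    (hjl : j ≠ l) (hil : i ≠ l) : ∑ t, f t = f i + f j + f l := by
  have h1 : (univ : Finset (Fin 3)) = {i, j, l} := by
    revert i j l
    decide
  rw [h1, sum_insert, sum_insert, sum_singleton, add_assoc]
  · rw [mem_singleton]
    exact hjl
  · rw [mem_insert, mem_singleton]
    rintro (h | h)
    · exact hij h
    · exact hil h

section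

variable {b : ι → Finset α} {V U : Finset α} {i0 j0 : ι} {a : α} {C : Fin 3 → Finset α}

theorem D1.mem (h : D1 b V U i0 j0 a C) (i : Fin 3) : C i ∈ cps b U := by
  rw [h.cs]
  exact mem_image_of_mem C (mem_univ i)

theorem D1.subV (h : D1 b V U i0 j0 a C) (i : Fin 3) : C i ⊆ V :=
  (cps_sub (h.mem i)).trans h.dv.sub

theorem D1.sum (h : D1 b V U i0 j0 a C) {M : Type} [AddCommMonoid M] (f : Finset α → M)
    {i j l : Fin 3} (hij : i ≠ j) (hjl : j ≠ l) (hil : i ≠ l) :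
    ∑ D ∈ cps b U, f D = f (C i) + f (C j) + f (C l) := by
  rw [h.cs, sum_image (fun s _ t _ hst => h.inj hst)]
  exact sum_fin3 (fun t => f (C t)) hij hjl hil

theorem D1.Umem (h : D1 b V U i0 j0 a C) {x : α} (hx : x ∈ U) {i j l : Fin 3} (hij : i ≠ j)
    (hjl : j ≠ l) (hil : i ≠ l) : x ∈ C i ∨ x ∈ C j ∨ x ∈ C l := by
  have h1 : Cmp b U x ∈ cps b U := mem_cps.mpr ⟨x, hx, rfl⟩
  have h2 := self_Cmp (b := b) hx
  rw [h.cs, mem_image] at h1
  obtain ⟨t, -, ht⟩ := h1
  rw [← ht] at h2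
  have h3 : ∀ i j l t : Fin 3, i ≠ j → j ≠ l → i ≠ l → t = i ∨ t = j ∨ t = l := by decide
  rcases h3 i j l t hij hjl hil with rfl | rfl | rfl
  · exact Or.inl h2
  · exact Or.inr (Or.inl h2)
  · exact Or.inr (Or.inr h2)

/-- The covering inequality. -/
theorem D1.cov (h : D1 b V U i0 j0 a C) (hcb : Cb b V) {i j l : Fin 3} (hij : i ≠ j)
    (hjl : j ≠ l) (hil : i ≠ l) {Ti Tj Tl R : Finset α} (hi : Ti ⊆ V \ U) (hj : Tj ⊆ V \ U)
    (hl : Tl ⊆ V \ U) {r : ℕ} (hR : Cv b R r) (hS : V \ U ⊆ Ti ∪ Tj ∪ Tl ∪ R) :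
    tau b (C i) + tau b (C j) + tau b (C l) + 2 ≤
      tau b (C i ∪ Ti) + tau b (C j ∪ Tj) + tau b (C l ∪ Tl) + r := by
  have hne1 : C j ≠ C i := fun h1 => hij (h.inj h1.symm)
  have hne2 : C l ≠ C i := fun h1 => hil (h.inj h1.symm)
  have hne3 : C l ≠ C j := fun h1 => hjl (h.inj h1.symm)
  have h1 := h.dv.cover hcb (fun D => if D = C i then Ti else if D = C j then Tj else
    if D = C l then Tl else ∅) (by
      intro D _
      show (if D = C i then Ti else if D = C j then Tj else if D = C l then Tl else ∅) ⊆ V \ U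
      split_ifs
      · exact hi
      · exact hj
      · exact hl
      · exact empty_subset _) hR (by
      intro x hx
      have h2 := hS hx
      rw [mem_union, mem_union, mem_union] at h2
      rw [mem_union, mem_biUnion]
      rcases h2 with ((h2 | h2) | h2) | h2
      · refine Or.inl ⟨C i, h.mem i, ?_⟩
        rw [if_pos rfl]
        exact h2
      · refine Or.inl ⟨C j, h.mem j, ?_⟩
        rw [if_neg hne1, if_pos rfl]
        exact h2
      · refine Or.inl ⟨C l, h.mem l, ?_⟩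
        rw [if_neg hne2, if_neg hne3, if_pos rfl]
        exact h2
      · exact Or.inr h2)
  rw [h.sum (fun D => tau b D) hij hjl hil, h.sum _ hij hjl hil] at h1
  simp only [if_true, if_neg hne1, if_neg hne2, if_neg hne3] at h1
  exact h1

/-- Absorption of one point. -/
theorem D1.abs1 (h : D1 b V U i0 j0 a C) (hsys : Sys b V) {i : Fin 3} {x : α}
    (hx : 1 ≤ wt b C i x) : tau b (C i ∪ {x}) ≤ tau b (C i) :=
  absorb_aj (hsys.cb.mono (h.subV i)) (h.dv.typ _ (h.mem i)) (dg_aj hx)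

/-- Degree sums. -/
theorem D1.wsum (h : D1 b V U i0 j0 a C) (hsys : Sys b V) (G : Finset α) {i j l : Fin 3}
    (hij : i ≠ j) (hjl : j ≠ l) (hil : i ≠ l) :
    dg b G (C i) + dg b G (C j) + dg b G (C l) = dg b G U := by
  rw [dg_cps (hsys.cb.mono h.dv.sub), h.sum (fun D => dg b G D) hij hjl hil]

theorem D1.ins2 (h : D1 b V U i0 j0 a C) : i0 ∈ ins b V U ∧ j0 ∈ ins b V U ∧ i0 ≠ j0 := by
  refine ⟨?_, ?_, ?_⟩
  · unfold ins
    rw [mem_filter]
    refine ⟨mem_univ _, card_pos.mp ?_, h.dv.pu⟩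
    rw [h.dv.p3]
    norm_num
  · unfold ins
    rw [mem_filter]
    refine ⟨mem_univ _, card_pos.mp ?_, h.dv.qu⟩
    rw [h.dv.q3]
    norm_num
  · intro h1
    have h2 := h.dv.pq
    rw [h1, disjoint_self] at h2
    have h3 := h.dv.q3
    rw [h2] at h3
    exact absurd h3 (by simp)

theorem D1.degP (h : D1 b V U i0 j0 a C) (hsys : Sys b V) {x : α} (hx : x ∈ b i0 ∩ V) :
    dg b {x} U ≤ 4 ∧ 6 ≤ dg b {x} U + (ins b V U).card := by
  rw [mem_inter] at hx
  have h1 := dg_ins_eq (U := U) hsys hx.2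
  obtain ⟨h2, h3, h4⟩ := h.ins2
  have h5 : i0 ∈ (ins b V U).filter fun i => x ∈ b i := mem_filter.mpr ⟨h2, hx.1⟩
  have h6 := card_pos.mpr ⟨i0, h5⟩
  have h7 : ((ins b V U).filter fun i => x ∈ b i) ⊆ (ins b V U).erase j0 := by
    intro i hi
    rw [mem_filter] at hi
    refine mem_erase.mpr ⟨?_, hi.1⟩
    rintro rfl
    exact (disjoint_left.mp h.dv.pq) (mem_inter.mpr hx) (mem_inter.mpr ⟨hi.2, hx.2⟩)
  have h8 := card_le_card h7
  rw [card_erase_of_mem h3] at h8
  have h9 := card_pos.mpr ⟨j0, h3⟩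
  omega

theorem D1.degQ (h : D1 b V U i0 j0 a C) (hsys : Sys b V) {x : α} (hx : x ∈ b j0 ∩ V) :
    dg b {x} U ≤ 4 ∧ 6 ≤ dg b {x} U + (ins b V U).card := h.symm.degP hsys hx

theorem D1.degA (h : D1 b V U i0 j0 a C) (hsys : Sys b V) :
    dg b {a} U ≤ 5 ∧ 7 ≤ dg b {a} U + (ins b V U).card := by
  have ha := h.ha
  rw [mem_sdiff] at ha
  have h1 := dg_ins_eq (U := U) hsys ha.1
  obtain ⟨h2, h3, h4⟩ := h.ins2
  have h7 : ((ins b V U).filter fun i => a ∈ b i) ⊆ ((ins b V U).erase j0).erase i0 := by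
    intro i hi
    rw [mem_filter] at hi
    refine mem_erase.mpr ⟨?_, mem_erase.mpr ⟨?_, hi.1⟩⟩
    · rintro rfl
      exact h.ai hi.2
    · rintro rfl
      exact h.aj hi.2
  have h8 := card_le_card h7
  have h10 : i0 ∈ (ins b V U).erase j0 := mem_erase.mpr ⟨h4, h2⟩
  rw [card_erase_of_mem h10, card_erase_of_mem h3] at h8
  have h9 := card_le_card (show ({i0, j0} : Finset ι) ⊆ ins b V U from by
    intro i hi
    rw [mem_insert, mem_singleton] at hi
    rcases hi with rfl | rfl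
    · exact h2
    · exact h3)
  rw [card_pair h4] at h9
  omega

end

end Pool.Agent.Helper74.C5
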