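import Pool.Agent.Helper74.C5.Kpf

/-!
# Hall conditions for the attachments
-/

set_option linter.unusedSectionVars false

open Finset

namespace Pool.Agent.Helper74.C5

open Pool.Agent.Helper20.C5

variable {α ι : Type} [DecidableEq α] [DecidableEq ι] [Fintype ι]

open Classical in
/-- A set of maximal defect is `S`. -/
theorem defect_max {b : ι → Finset α} {V S : Finset α} (hcb : Cb b V)
    (hvc : Vc b V) (hS : S ⊆ V) (hC : ∀ C ∈ cps b (V \ S), Vc b C) (Q : Finset α) (hQ : Q ⊆ S)
    (hmax : ∀ T, T ⊆ S → (T.card : ℤ) -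
      ((cps b (V \ S)).filter fun C => ∃ x ∈ T, Aj b x C).card ≤ (Q.card : ℤ) -
      ((cps b (V \ S)).filter fun C => ∃ x ∈ Q, Aj b x C).card) : Q = S := by
  have hcU : Cb b (V \ S) := hcb.mono sdiff_subset
  by_contra hne2
  have hSQ : (S \ Q).Nonempty := by
    rw [nonempty_iff_ne_empty]
    intro h1
    exact hne2 (Subset.antisymm hQ (sdiff_eq_empty_iff_subset.mp h1))
  have h1 := (Finset.all_card_le_biUnion_card_iff_exists_injective
    (fun x : {x // x ∈ S \ Q} => (cps b (V \ S)).filter fun C => Aj b x.1 C ∧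
      ∀ y ∈ Q, ¬ Aj b y C)).mp (by
      intro s
      have h2 := hmax (Q ∪ s.map (Function.Embedding.subtype _)) (by
        apply union_subset hQ
        intro x hx
        obtain ⟨y, -, rfl⟩ := mem_map.mp hx
        exact (mem_sdiff.mp y.2).1)
      have h3 : (Q ∪ s.map (Function.Embedding.subtype _)).card = Q.card + s.card := by
        rw [card_union_of_disjoint, card_map]
        rw [disjoint_right]
        intro x hx
        obtain ⟨y, -, rfl⟩ := mem_map.mp hx
        exact (mem_sdiff.mp y.2).2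
      have h4 : ((cps b (V \ S)).filter fun C =>
          ∃ x ∈ Q ∪ s.map (Function.Embedding.subtype _), Aj b x C) ⊆
          ((cps b (V \ S)).filter fun C => ∃ x ∈ Q, Aj b x C) ∪
          s.biUnion (fun x : {x // x ∈ S \ Q} => (cps b (V \ S)).filter fun C =>
            Aj b x.1 C ∧ ∀ y ∈ Q, ¬ Aj b y C) := by
        intro C hC
        obtain ⟨hC1, x, hx, hxC⟩ := mem_filter.mp hC
        rw [mem_union]
        by_cases h5 : ∃ x ∈ Q, Aj b x C
        · exact Or.inl (mem_filter.mpr ⟨hC1, h5⟩)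
        · right
          rcases mem_union.mp hx with hx | hx
          · exact absurd ⟨x, hx, hxC⟩ h5
          · obtain ⟨y, hy, rfl⟩ := mem_map.mp hx
            refine mem_biUnion.mpr ⟨y, hy, mem_filter.mpr ⟨hC1, hxC, ?_⟩⟩
            intro z hz hzC
            exact h5 ⟨z, hz, hzC⟩
      have h5 := (card_le_card h4).trans (card_union_le _ _)
      rw [h3] at h2
      push_cast at h2
      omega)
  obtain ⟨f, hf, hf2⟩ := h1
  -- the cover
  obtain ⟨s0, hs0⟩ := hSQ
  have hT : tau b V ≤ tau b (V \ (S \ Q)) := by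
    -- split the components
    have hA1 : V \ (S \ Q) = (Q ∪ ((cps b (V \ S)).filter fun C => ∃ y ∈ Q, Aj b y C).biUnion
        id) ∪ ((cps b (V \ S)).filter fun C => ¬ ∃ y ∈ Q, Aj b y C).biUnion id := by
      ext x
      rw [mem_sdiff, mem_sdiff, mem_union, mem_union, mem_biUnion, mem_biUnion]
      constructor
      · rintro ⟨h2, h3⟩
        by_cases hxQ : x ∈ Q
        · exact Or.inl (Or.inl hxQ)
        · have hxS : x ∉ S := fun h4 => h3 ⟨h4, hxQ⟩
          have hxU : x ∈ V \ S := mem_sdiff.mpr ⟨h2, hxS⟩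
          have hCx : Cmp b (V \ S) x ∈ cps b (V \ S) := mem_cps.mpr ⟨x, hxU, rfl⟩
          by_cases h5 : ∃ y ∈ Q, Aj b y (Cmp b (V \ S) x)
          · exact Or.inl (Or.inr ⟨_, mem_filter.mpr ⟨hCx, h5⟩, self_Cmp hxU⟩)
          · exact Or.inr ⟨_, mem_filter.mpr ⟨hCx, h5⟩, self_Cmp hxU⟩
      · rintro ((h2 | ⟨C, hC1, hxC⟩) | ⟨C, hC1, hxC⟩)
        · exact ⟨hS (hQ h2), fun h3 => h3.2 h2⟩
        · have h3 := mem_sdiff.mp (cps_sub (mem_filter.mp hC1).1 hxC)
          exact ⟨h3.1, fun h4 => h3.2 h4.1⟩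
        · have h3 := mem_sdiff.mp (cps_sub (mem_filter.mp hC1).1 hxC)
          exact ⟨h3.1, fun h4 => h3.2 h4.1⟩
    have hcA : Cb b (Q ∪ ((cps b (V \ S)).filter fun C => ∃ y ∈ Q, Aj b y C).biUnion id) := by
      apply hcb.mono
      intro x hx
      have h2 : x ∈ V \ (S \ Q) := by
        rw [hA1]
        exact mem_union_left _ hx
      exact (mem_sdiff.mp h2).1
    have hcB : Cb b (((cps b (V \ S)).filter fun C => ¬ ∃ y ∈ Q, Aj b y C).biUnion id) := by
      apply hcb.mono
      intro x hx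
      have h2 : x ∈ V \ (S \ Q) := by
        rw [hA1]
        exact mem_union_right _ hx
      exact (mem_sdiff.mp h2).1
    have hsep : Sep b (Q ∪ ((cps b (V \ S)).filter fun C => ∃ y ∈ Q, Aj b y C).biUnion id)
        (((cps b (V \ S)).filter fun C => ¬ ∃ y ∈ Q, Aj b y C).biUnion id) := by
      intro i x hx y hy hxi hyi
      obtain ⟨D, hD, hyD⟩ := mem_biUnion.mp hy
      obtain ⟨hD1, hD2⟩ := mem_filter.mp hD
      rcases mem_union.mp hx with hx | hx
      · exact hD2 ⟨x, hx, i, hxi, y, hyD, hyi⟩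
      · obtain ⟨C, hC1, hxC⟩ := mem_biUnion.mp hx
        obtain ⟨hC2, hC3⟩ := mem_filter.mp hC1
        have hne3 : D ≠ C := fun h2 => hD2 (h2 ▸ hC3)
        refine cps_sep hC2 i x hxC y (mem_sdiff.mpr ⟨cps_sub hD1 hyD, ?_⟩) hxi hyi
        intro h3
        exact (disjoint_left.mp (cps_disj hD1 hC2 hne3)) hyD h3
    have hts := tau_sep hsep hcA hcB
    -- tau of the second part
    have hB2 : tau b (((cps b (V \ S)).filter fun C => ¬ ∃ y ∈ Q, Aj b y C).biUnion id) =
        ∑ C ∈ (cps b (V \ S)).filter fun C => ¬ ∃ y ∈ Q, Aj b y C, tau b C := by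
      have key : ∀ F : Finset (Finset α), F ⊆ cps b (V \ S) →
          tau b (F.biUnion id) = ∑ C ∈ F, tau b C := by
        intro F
        induction F using Finset.induction_on with
        | empty => intro _; rw [biUnion_empty, tau_empty, sum_empty]
        | insert C F hCF ih =>
          intro hF
          rw [biUnion_insert, sum_insert hCF, ← ih fun D hD => hF (mem_insert_of_mem hD)]
          have hCc := hF (mem_insert_self C F)
          apply tau_sep
          · intro i x hx y hy hxi hyi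
            obtain ⟨D, hD, hyD⟩ := mem_biUnion.mp hy
            have hDc := hF (mem_insert_of_mem hD)
            have hne3 : D ≠ C := fun h2 => hCF (h2 ▸ hD)
            refine cps_sep hCc i x hx y (mem_sdiff.mpr ⟨cps_sub hDc hyD, ?_⟩) hxi hyi
            intro h3
            exact (disjoint_left.mp (cps_disj hDc hCc hne3)) hyD h3
          · exact hcU.mono (cps_sub hCc)
          · intro x hx
            obtain ⟨D, hD, hxD⟩ := mem_biUnion.mp hx
            exact hcU x (cps_sub (hF (mem_insert_of_mem hD)) hxD)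
      exact key _ (filter_subset _ _)
    rw [hA1, hts, hB2]
    -- the cover of `V`
    have hV : V ⊆ (Q ∪ ((cps b (V \ S)).filter fun C => ∃ y ∈ Q, Aj b y C).biUnion id) ∪
        ((cps b (V \ S)).filter fun C => ¬ ∃ y ∈ Q, Aj b y C).biUnion
          (fun C => C ∪ (S \ Q).filter fun x => ∃ hx, f ⟨x, hx⟩ = C) := by
      intro x hx
      by_cases hxSQ : x ∈ S \ Q
      · refine mem_union_right _ (mem_biUnion.mpr ⟨f ⟨x, hxSQ⟩, ?_, ?_⟩)
        · obtain ⟨h2, h3, h4⟩ := mem_filter.mp (hf2 ⟨x, hxSQ⟩)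
          exact mem_filter.mpr ⟨h2, fun ⟨y, hy, hyC⟩ => h4 y hy hyC⟩
        · exact mem_union_right _ (mem_filter.mpr ⟨hxSQ, hxSQ, rfl⟩)
      · have h2 : x ∈ V \ (S \ Q) := mem_sdiff.mpr ⟨hx, hxSQ⟩
        rw [hA1] at h2
        rcases mem_union.mp h2 with h3 | h3
        · exact mem_union_left _ h3
        · obtain ⟨C, hC1, hxC⟩ := mem_biUnion.mp h3
          exact mem_union_right _ (mem_biUnion.mpr ⟨C, hC1, mem_union_left _ hxC⟩)
    have hcT : ∀ C ∈ (cps b (V \ S)).filter (fun C => ¬ ∃ y ∈ Q, Aj b y C),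
        Cb b (C ∪ (S \ Q).filter fun x => ∃ hx, f ⟨x, hx⟩ = C) := by
      intro C hC1 x hx
      rcases mem_union.mp hx with hx | hx
      · exact hcU x (cps_sub (mem_filter.mp hC1).1 hx)
      · exact hcb x (hS (mem_sdiff.mp (mem_filter.mp hx).1).1)
    have hcBT : Cb b (((cps b (V \ S)).filter fun C => ¬ ∃ y ∈ Q, Aj b y C).biUnion
          (fun C => C ∪ (S \ Q).filter fun x => ∃ hx, f ⟨x, hx⟩ = C)) := by
      intro x hx
      obtain ⟨C, hC1, hx2⟩ := mem_biUnion.mp hx
      exact hcT C hC1 x hx2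
    refine le_trans (tau_mono ?_ hV) (le_trans (tau_union hcA hcBT) ?_)
    · intro x hx
      rcases mem_union.mp hx with hx | hx
      · exact hcA x hx
      · exact hcBT x hx
    · apply Nat.add_le_add_left
      refine (tau_biUnion _ _ hcT).trans (sum_le_sum ?_)
      intro C hC1
      have hCc := (mem_filter.mp hC1).1
      rcases ((S \ Q).filter fun x => ∃ hx, f ⟨x, hx⟩ = C).eq_empty_or_nonempty with h2 | h2
      · rw [h2, union_empty]
      · obtain ⟨x, hx⟩ := h2
        obtain ⟨hxS, hx', hfx⟩ := mem_filter.mp hx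
        have h3 : ((S \ Q).filter fun x => ∃ hx, f ⟨x, hx⟩ = C) = {x} := by
          ext y
          rw [mem_singleton, mem_filter]
          constructor
          · rintro ⟨hyS, hy', hfy⟩
            have h4 := hf (hfy.trans hfx.symm)
            exact congrArg Subtype.val h4
          · rintro rfl
            exact ⟨hxS, hx', hfx⟩
        rw [h3]
        have h4 := (mem_filter.mp (hf2 ⟨x, hx'⟩)).2.1
        rw [hfx] at h4
        exact absorb_aj (hcU.mono (cps_sub hCc)) (hC C hCc) h4
  have h2 := hvc s0 (hS (mem_sdiff.mp hs0).1)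
  have h3 : tau b (V \ (S \ Q)) ≤ tau b (V.erase s0) := by
    apply tau_mono (hcb.mono (erase_subset _ _))
    intro x hx
    rw [mem_sdiff] at hx
    exact mem_erase.mpr ⟨fun h4 => hx.2 (h4 ▸ hs0), hx.1⟩
  omega

open Classical in
/-- **Hall**: in the extremal case every proper subset sees enough components. -/
theorem hall {b : ι → Finset α} {V S : Finset α} (hcb : Cb b V) (hcon : Con b V)
    (hvc : Vc b V) (hS : S ⊆ V) (hne : S.Nonempty) (hC : ∀ C ∈ cps b (V \ S), Vc b C)
    (hmax : (cps b (V \ S)).card + 1 = S.card) {T : Finset α} (hT : T ⊆ S) (hTS : T ≠ S) :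
    T.card ≤ ((cps b (V \ S)).filter fun C => ∃ x ∈ T, Aj b x C).card := by
  by_contra hlt
  rw [not_le] at hlt
  have hN : ((cps b (V \ S)).filter fun C => ∃ x ∈ S, Aj b x C) = cps b (V \ S) := by
    rw [filter_eq_self]
    intro C hCc
    obtain ⟨x, hx, -, hxC⟩ := attach hcb hcon hvc hS hne hCc (hC C hCc) hne.choose
    exact ⟨x, hx, hxC⟩
  obtain ⟨Q, hQ, hmx⟩ := exists_max_image S.powerset (fun Q => (Q.card : ℤ) -
    ((cps b (V \ S)).filter fun C => ∃ x ∈ Q, Aj b x C).card) ⟨∅, empty_mem_powerset S⟩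
  rw [mem_powerset] at hQ
  have hmx' : ∀ T, T ⊆ S → (T.card : ℤ) -
      ((cps b (V \ S)).filter fun C => ∃ x ∈ T, Aj b x C).card ≤ (Q.card : ℤ) -
      ((cps b (V \ S)).filter fun C => ∃ x ∈ Q, Aj b x C).card := fun T hT =>
    hmx T (mem_powerset.mpr hT)
  have hQS := defect_max hcb hvc hS hC Q hQ hmx'
  apply hTS
  apply defect_max hcb hvc hS hC T hT
  intro T' hT'
  have h1 := hmx' T' hT'
  rw [hQS, hN] at h1
  omega

end Pool.Agent.Helper74.C5
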