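import Pool.Agent.Helper74.C5.RingB

/-!
# The class of critical connected sets: pair cap, number of components
-/

set_option linter.unusedSectionVars false

open Finset

namespace Pool.Agent.Helper74.C5

open Pool.Agent.Helper20.C5

variable {α ι : Type} [DecidableEq α] [DecidableEq ι] [Fintype ι]

/-- The claim for critical connected sets of defect zero, below `n`. -/
def ClV (n : ℕ) : Prop :=
  ∀ (α ι : Type) [DecidableEq α] [DecidableEq ι] [Fintype ι] (b : ι → Finset α) (U : Finset α),
    U.card < n → U.Nonempty → Sys b U → Con b U → Vc b U → 2 * tau b U = U.card → ¬ Dt b U →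
    0 ≤ Pot b U

/-- The claim `K+`. -/
def KP : Prop :=
  ∀ (α ι : Type) [DecidableEq α] [DecidableEq ι] [Fintype ι] (b : ι → Finset α) (U : Finset α),
    U.Nonempty → Sys b U → Con b U → Vc b U →
    ((sp b U).card : ℤ) ≤ ee b U + 3 * ((U.card : ℤ) - 2 * tau b U) + 3

/-- The claim `f ≥ -1`. -/
def FM : Prop :=
  ∀ (α ι : Type) [DecidableEq α] [DecidableEq ι] [Fintype ι] (b : ι → Finset α) (U : Finset α),
    U.Nonempty → Sys b U → Con b U → Vc b U → 2 * tau b U ≤ U.card + 1

section

variable {J K : Type} [DecidableEq J] [Fintype J] [DecidableEq K] [Fintype K]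

theorem tau_cb_inl {b : ι → Finset α} {W W' : Finset α} {I : J → Finset ι} {O : K → Finset J}
    (hc : Cb b W) (hW : W' ⊆ W) :
    tau (cb b W I O) (W'.map Function.Embedding.inl) = tau b W' := by
  classical
  apply le_antisymm
  · obtain ⟨s, hs, h1⟩ := tau_cv (hc.mono hW)
    apply tau_le
    refine ⟨s.map Function.Embedding.inl, by rw [card_map]; exact hs, ?_⟩
    intro z hz
    obtain ⟨x, hx, rfl⟩ := mem_map.mp hz
    obtain ⟨i, hi, hi2⟩ := h1 x hx
    exact ⟨Sum.inl i, mem_map_of_mem _ hi, inl_cb.mpr ⟨hi2, hW hx⟩⟩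
  · have hc' : Cb (cb b W I O) (W'.map Function.Embedding.inl) := by
      intro z hz
      obtain ⟨x, hx, rfl⟩ := mem_map.mp hz
      obtain ⟨i, hi⟩ := hc x (hW hx)
      exact ⟨Sum.inl i, inl_cb.mpr ⟨hi, hW hx⟩⟩
    obtain ⟨s, hs, h1⟩ := tau_cv hc'
    apply tau_le
    refine ⟨univ.filter fun i => Sum.inl i ∈ s, le_trans ?_ hs, ?_⟩
    · rw [← card_map (Function.Embedding.inl : ι ↪ ι ⊕ K)]
      apply card_le_card
      intro z hz
      obtain ⟨i, hi, rfl⟩ := mem_map.mp hz
      exact (mem_filter.mp hi).2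
    · intro x hx
      obtain ⟨z, hz, hz2⟩ := h1 (Sum.inl x) (mem_map_of_mem _ hx)
      cases z with
      | inl i => exact ⟨i, mem_filter.mpr ⟨mem_univ i, hz⟩, (inl_cb.mp hz2).1⟩
      | inr t => exact absurd hz2 inl_cb'

theorem vc_cb_inl {b : ι → Finset α} {W : Finset α} {I : J → Finset ι} {O : K → Finset J}
    (hc : Cb b W) (hv : Vc b W) : Vc (cb b W I O) (W.map Function.Embedding.inl) := by
  intro z hz
  obtain ⟨x, hx, rfl⟩ := mem_map.mp hz
  have h1 : (W.map Function.Embedding.inl).erase (Function.Embedding.inl x : α ⊕ J) =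
      (W.erase x).map Function.Embedding.inl := by
    rw [map_erase]
  rw [h1, tau_cb_inl hc (erase_subset x W), tau_cb_inl hc (Subset.refl W)]
  exact hv x hx

end

section

variable {b : ι → Finset α} {V W : Finset α} {g : Fin 2 → Finset α} {I : Fin 2 → Finset ι}
  {K : Type} [DecidableEq K] [Fintype K] {O : K → Finset (Fin 2)}

theorem cap_cover (h : Cap b V W g I O) {t0 : K} (ht0 : (0 : Fin 2) ∈ O t0)
    (ht1 : (1 : Fin 2) ∈ O t0) {W' : Finset α} (hW' : W' ⊆ W) :
    tau (cb b W I O) (W'.map Function.Embedding.inl ∪ univ.map Function.Embedding.inr) ≤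
      tau b W' + 1 := by
  have hcb := h.cap_sys.cb
  have hcW : Cb b W := (h.sys.mono h.sub).cb
  have hsub1 : W'.map (Function.Embedding.inl : α ↪ α ⊕ Fin 2) ⊆ cU (Fin 2) W := by
    intro z hz
    obtain ⟨x, hx, rfl⟩ := mem_map.mp hz
    exact inl_cU.mpr (hW' hx)
  have hsub2 : (univ : Finset (Fin 2)).map (Function.Embedding.inr : Fin 2 ↪ α ⊕ Fin 2) ⊆
      cU (Fin 2) W := by
    intro z hz
    obtain ⟨x, hx, rfl⟩ := mem_map.mp hz
    exact inr_cU
  have h1 := tau_union (hcb.mono hsub1) (hcb.mono hsub2)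
  rw [tau_cb_inl hcW hW'] at h1
  have h2 : tau (cb b W I O) ((univ : Finset (Fin 2)).map Function.Embedding.inr) ≤ 1 := by
    apply tau_le
    apply cv_block (Sum.inr t0)
    intro z hz
    obtain ⟨j, -, rfl⟩ := mem_map.mp hz
    refine inr_cb'.mpr ?_
    fin_cases j
    · exact ht0
    · exact ht1
  omega

/-- The value of `tau` of the capped system. -/
theorem cap_tau (h : Cap b V W g I O) (hA : Abs b W g O 1) {t0 : K}
    (ht0 : (0 : Fin 2) ∈ O t0) (ht1 : (1 : Fin 2) ∈ O t0) :
    tau (cb b W I O) (cU (Fin 2) W) = tau b W + 1 :=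
  le_antisymm (cap_cover h ht0 ht1 (Subset.refl W)) (h.tau_ge hA)

/-- The capped system is critical. -/
theorem cap_vc (h : Cap b V W g I O) (hA : Abs b W g O 1) (hv : Vc b W) {t0 : K}
    (ht0 : (0 : Fin 2) ∈ O t0) (ht1 : (1 : Fin 2) ∈ O t0) :
    Vc (cb b W I O) (cU (Fin 2) W) := by
  have hcb := h.cap_sys.cb
  have hcW : Cb b W := (h.sys.mono h.sub).cb
  intro z hz
  have h1 := tau_erase_le hcb hz
  rw [cap_tau h hA ht0 ht1] at h1 ⊢
  have h2 : tau (cb b W I O) ((cU (Fin 2) W).erase z) ≤ tau b W := by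
    cases z with
    | inl x =>
      rw [inl_cU] at hz
      have h3 := cap_cover h ht0 ht1 (erase_subset x W)
      have h4 := hv x hz
      refine le_trans (tau_mono ?_ ?_) (le_trans h3 h4.le)
      · apply hcb.mono
        intro z hz
        rcases mem_union.mp hz with hz | hz
        · obtain ⟨y, hy, rfl⟩ := mem_map.mp hz
          exact inl_cU.mpr (mem_of_mem_erase hy)
        · obtain ⟨y, -, rfl⟩ := mem_map.mp hz
          exact inr_cU
      · intro z hz
        rw [mem_erase] at hz
        cases z with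
        | inl y =>
          refine mem_union_left _ (mem_map_of_mem _ (mem_erase.mpr ⟨?_, inl_cU.mp hz.2⟩))
          rintro rfl
          exact hz.1 rfl
        | inr j => exact mem_union_right _ (mem_map_of_mem _ (mem_univ j))
    | inr j =>
      obtain ⟨i0, hi0⟩ := h.Ine (1 - j)
      obtain ⟨x0, hx0, hx1⟩ := h.IW (1 - j) i0 hi0
      have hv' := vc_cb_inl (I := I) (O := O) hcW hv
      have hcb1 : Cb (cb b W I O) (W.map Function.Embedding.inl) := by
        apply hcb.mono
        intro z hz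
        obtain ⟨y, hy, rfl⟩ := mem_map.mp hz
        exact inl_cU.mpr hy
      have h3 := absorb_aj (x := Sum.inr (1 - j)) hcb1 hv'
        ⟨Sum.inl i0, inr_cb.mpr hi0, Sum.inl x0, mem_map_of_mem _ hx0, inl_cb.mpr ⟨hx1, hx0⟩⟩
      rw [tau_cb_inl hcW (Subset.refl W)] at h3
      refine le_trans (tau_mono ?_ ?_) h3
      · apply hcb.mono
        intro z hz
        rcases mem_union.mp hz with hz | hz
        · obtain ⟨y, hy, rfl⟩ := mem_map.mp hz
          exact inl_cU.mpr hy
        · rw [mem_singleton.mp hz]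
          exact inr_cU
      · intro z hz
        rw [mem_erase] at hz
        cases z with
        | inl y => exact mem_union_left _ (mem_map_of_mem _ (inl_cU.mp hz.2))
        | inr i =>
          refine mem_union_right _ (mem_singleton.mpr ?_)
          have h4 : i ≠ j := fun h5 => hz.1 (by rw [h5])
          have h5 : ∀ i j : Fin 2, i ≠ j → i = 1 - j := by decide
          rw [h5 i j h4]
  omega

/-- **The pair cap in the class**, ordered form. -/
theorem pairV_aux (hsys : Sys b V) (hWV : W ⊆ V) (hne : W.Nonempty) (hcon : Con b W)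
    (hv : Vc b W) (hg : ∀ j, g j ⊆ V \ W) (hgd : Disjoint (g 0) (g 1))
    (hIW : ∀ j, ∀ i ∈ I j, ∃ x ∈ W, x ∈ b i) (hIg : ∀ j, ∀ i ∈ I j, ∃ y ∈ g j, y ∈ b i)
    {a c : ℕ} (ha : 1 ≤ a) (hac : a ≤ c) (hc : c ≤ 4) (h0 : (I 0).card = a)
    (h1 : (I 1).card = c)
    (habs : ∀ x ∈ g 0, ∀ y ∈ g 1, tau b W + 1 ≤ tau b (W ∪ {x, y})) :
    (KP → ((sp b V ∩ W).card : ℤ) + (if a + 2 ≤ c then 1 else 0) + 2 * a ≤
      ee b W + 3 * ((W.card : ℤ) - 2 * tau b W) + 6) ∧
    (∀ n, ClV n → W.card + 2 < n → 2 * tau b W = W.card →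
      34 * ((if a + 2 ≤ c then 1 else 0) + 2 * (a : ℤ)) ≤ PotX b V W + 108) := by
  obtain ⟨hCap, hA⟩ := pair_setup hsys hWV hne hcon hg hgd hIW hIg ha hac hc h0 h1 habs
  have ho : (0 : Fin 2) ∈ Op a c ⟨0, by omega⟩ ∧ (1 : Fin 2) ∈ Op a c ⟨0, by omega⟩ := by
    unfold Op
    rw [if_pos (by show 0 < 5 - c; omega)]
    simp
  have hcard : (cU (Fin 2) W).card = W.card + 2 := by
    rw [card_cU, Fintype.card_fin]
  have hta := cap_tau hCap hA ho.1 ho.2
  have hvc := cap_vc hCap hA hv ho.1 ho.2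
  have h4 := hCap.sp_ge
  have h5 := hCap.nb_le
  rw [Fintype.card_fin] at h5
  have h7 : ((5 - a : ℕ) : ℤ) = 5 - a := by omega
  have h9 : (if a + 2 ≤ c then (1 : ℤ) else 0) ≤ (sq (Op a c)).card := by
    split_ifs with h8
    · have := Op_sq h8 (by omega)
      exact_mod_cast this
    · positivity
  have hne2 : (cU (Fin 2) W).Nonempty := card_pos.mp (by rw [hcard]; omega)
  constructor
  · intro hKP
    have h3 := hKP (α ⊕ Fin 2) (ι ⊕ Fin (5 - a)) (cb b W I (Op a c)) (cU (Fin 2) W) hne2
      hCap.cap_sys hCap.cap_con hvc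
    unfold ee at h3 ⊢
    rw [h5, hcard, hta] at h3
    push_cast at h3
    rw [h7] at h3
    zify at h4
    linarith
  · intro n hIH hn hf
    have hnD : ¬ Dt (cb b W I (Op a c)) (cU (Fin 2) W) := by
      intro hD
      have h3 := dt_card hCap.cap_sys hD (Sum.inr ⟨0, by omega⟩)
        (mem_mt.mpr ⟨Sum.inr 0, inr_cU, inr_cb'.mpr ho.1⟩)
      have h4 : (cb b W I (Op a c) (Sum.inr ⟨0, by omega⟩) ∩ cU (Fin 2) W).card ≤ 2 := by
        refine (card_le_card inter_subset_left).trans ?_
        show ((Op a c ⟨0, by omega⟩).map Function.Embedding.inr).card ≤ 2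
        rw [card_map]
        exact (card_le_univ _).trans (by simp)
      omega
    have h3 := hIH (α ⊕ Fin 2) (ι ⊕ Fin (5 - a)) (cb b W I (Op a c)) (cU (Fin 2) W)
      (by rw [hcard]; exact hn) hne2 hCap.cap_sys hCap.cap_con hvc
      (by rw [hta, hcard]; omega) hnD
    unfold Pot ee at h3
    unfold PotX ee
    rw [h5, hcard, hta] at h3
    push_cast at h3
    rw [h7] at h3
    zify at h4 hf
    linarith

end

/-- **The pair cap in the class.** -/
theorem pairV {b : ι → Finset α} {V W : Finset α} (hsys : Sys b V) (hWV : W ⊆ V)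
    (hne : W.Nonempty) (hcon : Con b W) (hv : Vc b W) {G H : Finset α}
    (hG : G ⊆ V \ W) (hH : H ⊆ V \ W) (hGH : Disjoint G H) {a c : ℕ} (ha : 1 ≤ a) (hac : a ≤ c)
    (hc : c ≤ 4) (h0 : a ≤ dg b G W) (h1 : c ≤ dg b H W)
    (habs : ∀ x ∈ G, ∀ y ∈ H, tau b W + 1 ≤ tau b (W ∪ {x, y})) :
    (KP → ((sp b V ∩ W).card : ℤ) + (if a + 2 ≤ c then 1 else 0) + 2 * a ≤
      ee b W + 3 * ((W.card : ℤ) - 2 * tau b W) + 6) ∧
    (∀ n, ClV n → W.card + 2 < n → 2 * tau b W = W.card →
      34 * ((if a + 2 ≤ c then 1 else 0) + 2 * (a : ℤ)) ≤ PotX b V W + 108) := by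
  obtain ⟨I0, hI0, hI0c⟩ := exists_subset_card_eq h0
  obtain ⟨I1, hI1, hI1c⟩ := exists_subset_card_eq h1
  have key : ∀ (T : Finset α) (I : Finset ι),
      I ⊆ univ.filter (fun i => (b i ∩ T).Nonempty ∧ (b i ∩ W).Nonempty) →
      (∀ i ∈ I, ∃ x ∈ W, x ∈ b i) ∧ (∀ i ∈ I, ∃ y ∈ T, y ∈ b i) := by
    intro T I hI
    constructor
    · intro i hi
      obtain ⟨-, -, x, hx⟩ := mem_filter.mp (hI hi)
      rw [mem_inter] at hx
      exact ⟨x, hx.2, hx.1⟩
    · intro i hi
      obtain ⟨-, ⟨x, hx⟩, -⟩ := mem_filter.mp (hI hi)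
      rw [mem_inter] at hx
      exact ⟨x, hx.2, hx.1⟩
  have k0 := key G I0 hI0
  have k1 := key H I1 hI1
  refine pairV_aux (g := ![G, H]) (I := ![I0, I1]) hsys hWV hne hcon hv ?_ ?_ ?_ ?_ ha hac hc
    hI0c hI1c habs
  · intro j
    fin_cases j
    · exact hG
    · exact hH
  · exact hGH
  · intro j
    fin_cases j
    · exact k0.1
    · exact k1.1
  · intro j
    fin_cases j
    · exact k0.2
    · exact k1.2

open Classical in
/-- **The number of components**: `N ≤ |S| - 1`. -/
theorem comps_lt {b : ι → Finset α} {V S : Finset α} (hcb : Cb b V) (hcon : Con b V)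
    (hvc : Vc b V) (hS : S ⊆ V) (hne : S.Nonempty) (hC : ∀ C ∈ cps b (V \ S), Vc b C) :
    (cps b (V \ S)).card + 1 ≤ S.card := by
  have hcU : Cb b (V \ S) := hcb.mono sdiff_subset
  -- a set of maximal defect is `S`
  have key0 : ∀ Q, Q ⊆ S → (∀ T, T ⊆ S → (T.card : ℤ) -
      ((cps b (V \ S)).filter fun C => ∃ x ∈ T, Aj b x C).card ≤ (Q.card : ℤ) -
      ((cps b (V \ S)).filter fun C => ∃ x ∈ Q, Aj b x C).card) → Q = S := by
    intro Q hQ hmax
    by_contra hne2
    have hSQ : (S \ Q).Nonempty := by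
      rw [nonempty_iff_ne_empty]
      intro h1
      exact hne2 (Subset.antisymm hQ (sdiff_eq_empty_iff_subset.mp h1))
    have h1 := (Finset.all_card_le_biUnion_card_iff_exists_injective
      (fun x : {x // x ∈ S \ Q} => (cps b (V \ S)).filter fun C => Aj b x.1 C ∧
        ∀ y ∈ Q, ¬ Aj b y C)).mp (by
        intro s
        have h2 := hmax (Q ∪ s.map (Function.Embedding.subtype _)) (by
          apply union_subset hQ
          intro x hx
          obtain ⟨y, -, rfl⟩ := mem_map.mp hx
          exact (mem_sdiff.mp y.2).1)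
        have h3 : (Q ∪ s.map (Function.Embedding.subtype _)).card = Q.card + s.card := by
          rw [card_union_of_disjoint, card_map]
          rw [disjoint_right]
          intro x hx
          obtain ⟨y, -, rfl⟩ := mem_map.mp hx
          exact (mem_sdiff.mp y.2).2
        have h4 : ((cps b (V \ S)).filter fun C =>
            ∃ x ∈ Q ∪ s.map (Function.Embedding.subtype _), Aj b x C) ⊆
            ((cps b (V \ S)).filter fun C => ∃ x ∈ Q, Aj b x C) ∪
            s.biUnion (fun x : {x // x ∈ S \ Q} => (cps b (V \ S)).filter fun C =>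
              Aj b x.1 C ∧ ∀ y ∈ Q, ¬ Aj b y C) := by
          intro C hC
          obtain ⟨hC1, x, hx, hxC⟩ := mem_filter.mp hC
          rw [mem_union]
          by_cases h5 : ∃ x ∈ Q, Aj b x C
          · exact Or.inl (mem_filter.mpr ⟨hC1, h5⟩)
          · right
            rcases mem_union.mp hx with hx | hx
            · exact absurd ⟨x, hx, hxC⟩ h5
            · obtain ⟨y, hy, rfl⟩ := mem_map.mp hx
              refine mem_biUnion.mpr ⟨y, hy, mem_filter.mpr ⟨hC1, hxC, ?_⟩⟩
              intro z hz hzC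
              exact h5 ⟨z, hz, hzC⟩
        have h5 := (card_le_card h4).trans (card_union_le _ _)
        rw [h3] at h2
        push_cast at h2
        omega)
    obtain ⟨f, hf, hf2⟩ := h1
    -- the cover
    obtain ⟨s0, hs0⟩ := hSQ
    have hT : tau b V ≤ tau b (V \ (S \ Q)) := by
      -- split the components
      have hA1 : V \ (S \ Q) = (Q ∪ ((cps b (V \ S)).filter fun C => ∃ y ∈ Q, Aj b y C).biUnion
          id) ∪ ((cps b (V \ S)).filter fun C => ¬ ∃ y ∈ Q, Aj b y C).biUnion id := by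
        ext x
        rw [mem_sdiff, mem_sdiff, mem_union, mem_union, mem_biUnion, mem_biUnion]
        constructor
        · rintro ⟨h2, h3⟩
          by_cases hxQ : x ∈ Q
          · exact Or.inl (Or.inl hxQ)
          · have hxS : x ∉ S := fun h4 => h3 ⟨h4, hxQ⟩
            have hxU : x ∈ V \ S := mem_sdiff.mpr ⟨h2, hxS⟩
            have hCx : Cmp b (V \ S) x ∈ cps b (V \ S) := mem_cps.mpr ⟨x, hxU, rfl⟩
            by_cases h5 : ∃ y ∈ Q, Aj b y (Cmp b (V \ S) x)
            · exact Or.inl (Or.inr ⟨_, mem_filter.mpr ⟨hCx, h5⟩, self_Cmp hxU⟩)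
            · exact Or.inr ⟨_, mem_filter.mpr ⟨hCx, h5⟩, self_Cmp hxU⟩
        · rintro ((h2 | ⟨C, hC1, hxC⟩) | ⟨C, hC1, hxC⟩)
          · exact ⟨hS (hQ h2), fun h3 => h3.2 h2⟩
          · have h3 := mem_sdiff.mp (cps_sub (mem_filter.mp hC1).1 hxC)
            exact ⟨h3.1, fun h4 => h3.2 h4.1⟩
          · have h3 := mem_sdiff.mp (cps_sub (mem_filter.mp hC1).1 hxC)
            exact ⟨h3.1, fun h4 => h3.2 h4.1⟩
      have hcA : Cb b (Q ∪ ((cps b (V \ S)).filter fun C => ∃ y ∈ Q, Aj b y C).biUnion id) := by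
        apply hcb.mono
        intro x hx
        have h2 : x ∈ V \ (S \ Q) := by
          rw [hA1]
          exact mem_union_left _ hx
        exact (mem_sdiff.mp h2).1
      have hcB : Cb b (((cps b (V \ S)).filter fun C => ¬ ∃ y ∈ Q, Aj b y C).biUnion id) := by
        apply hcb.mono
        intro x hx
        have h2 : x ∈ V \ (S \ Q) := by
          rw [hA1]
          exact mem_union_right _ hx
        exact (mem_sdiff.mp h2).1
      have hsep : Sep b (Q ∪ ((cps b (V \ S)).filter fun C => ∃ y ∈ Q, Aj b y C).biUnion id)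
          (((cps b (V \ S)).filter fun C => ¬ ∃ y ∈ Q, Aj b y C).biUnion id) := by
        intro i x hx y hy hxi hyi
        obtain ⟨D, hD, hyD⟩ := mem_biUnion.mp hy
        obtain ⟨hD1, hD2⟩ := mem_filter.mp hD
        rcases mem_union.mp hx with hx | hx
        · exact hD2 ⟨x, hx, i, hxi, y, hyD, hyi⟩
        · obtain ⟨C, hC1, hxC⟩ := mem_biUnion.mp hx
          obtain ⟨hC2, hC3⟩ := mem_filter.mp hC1
          have hne3 : D ≠ C := fun h2 => hD2 (h2 ▸ hC3)
          refine cps_sep hC2 i x hxC y (mem_sdiff.mpr ⟨cps_sub hD1 hyD, ?_⟩) hxi hyi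
          intro h3
          exact (disjoint_left.mp (cps_disj hD1 hC2 hne3)) hyD h3
      have hts := tau_sep hsep hcA hcB
      -- tau of the second part
      have hB2 : tau b (((cps b (V \ S)).filter fun C => ¬ ∃ y ∈ Q, Aj b y C).biUnion id) =
          ∑ C ∈ (cps b (V \ S)).filter fun C => ¬ ∃ y ∈ Q, Aj b y C, tau b C := by
        have key : ∀ F : Finset (Finset α), F ⊆ cps b (V \ S) →
            tau b (F.biUnion id) = ∑ C ∈ F, tau b C := by
          intro F
          induction F using Finset.induction_on with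
          | empty => intro _; rw [biUnion_empty, tau_empty, sum_empty]
          | insert C F hCF ih =>
            intro hF
            rw [biUnion_insert, sum_insert hCF, ← ih fun D hD => hF (mem_insert_of_mem hD)]
            have hCc := hF (mem_insert_self C F)
            apply tau_sep
            · intro i x hx y hy hxi hyi
              obtain ⟨D, hD, hyD⟩ := mem_biUnion.mp hy
              have hDc := hF (mem_insert_of_mem hD)
              have hne3 : D ≠ C := fun h2 => hCF (h2 ▸ hD)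
              refine cps_sep hCc i x hx y (mem_sdiff.mpr ⟨cps_sub hDc hyD, ?_⟩) hxi hyi
              intro h3
              exact (disjoint_left.mp (cps_disj hDc hCc hne3)) hyD h3
            · exact hcU.mono (cps_sub hCc)
            · intro x hx
              obtain ⟨D, hD, hxD⟩ := mem_biUnion.mp hx
              exact hcU x (cps_sub (hF (mem_insert_of_mem hD)) hxD)
        exact key _ (filter_subset _ _)
      rw [hA1, hts, hB2]
      -- the cover of `V`
      have hV : V ⊆ (Q ∪ ((cps b (V \ S)).filter fun C => ∃ y ∈ Q, Aj b y C).biUnion id) ∪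
          ((cps b (V \ S)).filter fun C => ¬ ∃ y ∈ Q, Aj b y C).biUnion
            (fun C => C ∪ (S \ Q).filter fun x => ∃ hx, f ⟨x, hx⟩ = C) := by
        intro x hx
        by_cases hxSQ : x ∈ S \ Q
        · refine mem_union_right _ (mem_biUnion.mpr ⟨f ⟨x, hxSQ⟩, ?_, ?_⟩)
          · obtain ⟨h2, h3, h4⟩ := mem_filter.mp (hf2 ⟨x, hxSQ⟩)
            exact mem_filter.mpr ⟨h2, fun ⟨y, hy, hyC⟩ => h4 y hy hyC⟩
          · exact mem_union_right _ (mem_filter.mpr ⟨hxSQ, hxSQ, rfl⟩)
        · have h2 : x ∈ V \ (S \ Q) := mem_sdiff.mpr ⟨hx, hxSQ⟩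
          rw [hA1] at h2
          rcases mem_union.mp h2 with h3 | h3
          · exact mem_union_left _ h3
          · obtain ⟨C, hC1, hxC⟩ := mem_biUnion.mp h3
            exact mem_union_right _ (mem_biUnion.mpr ⟨C, hC1, mem_union_left _ hxC⟩)
      have hcT : ∀ C ∈ (cps b (V \ S)).filter (fun C => ¬ ∃ y ∈ Q, Aj b y C),
          Cb b (C ∪ (S \ Q).filter fun x => ∃ hx, f ⟨x, hx⟩ = C) := by
        intro C hC1 x hx
        rcases mem_union.mp hx with hx | hx
        · exact hcU x (cps_sub (mem_filter.mp hC1).1 hx)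
        · exact hcb x (hS (mem_sdiff.mp (mem_filter.mp hx).1).1)
      have hcBT : Cb b (((cps b (V \ S)).filter fun C => ¬ ∃ y ∈ Q, Aj b y C).biUnion
            (fun C => C ∪ (S \ Q).filter fun x => ∃ hx, f ⟨x, hx⟩ = C)) := by
        intro x hx
        obtain ⟨C, hC1, hx2⟩ := mem_biUnion.mp hx
        exact hcT C hC1 x hx2
      refine le_trans (tau_mono ?_ hV) (le_trans (tau_union hcA hcBT) ?_)
      · intro x hx
        rcases mem_union.mp hx with hx | hx
        · exact hcA x hx
        · exact hcBT x hx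
      · apply Nat.add_le_add_left
        refine (tau_biUnion _ _ hcT).trans (sum_le_sum ?_)
        intro C hC1
        have hCc := (mem_filter.mp hC1).1
        rcases ((S \ Q).filter fun x => ∃ hx, f ⟨x, hx⟩ = C).eq_empty_or_nonempty with h2 | h2
        · rw [h2, union_empty]
        · obtain ⟨x, hx⟩ := h2
          obtain ⟨hxS, hx', hfx⟩ := mem_filter.mp hx
          have h3 : ((S \ Q).filter fun x => ∃ hx, f ⟨x, hx⟩ = C) = {x} := by
            ext y
            rw [mem_singleton, mem_filter]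
            constructor
            · rintro ⟨hyS, hy', hfy⟩
              have h4 := hf (hfy.trans hfx.symm)
              exact congrArg Subtype.val h4
            · rintro rfl
              exact ⟨hxS, hx', hfx⟩
          rw [h3]
          have h4 := (mem_filter.mp (hf2 ⟨x, hx'⟩)).2.1
          rw [hfx] at h4
          exact absorb_aj (hcU.mono (cps_sub hCc)) (hC C hCc) h4
    have h2 := hvc s0 (hS (mem_sdiff.mp hs0).1)
    have h3 : tau b (V \ (S \ Q)) ≤ tau b (V.erase s0) := by
      apply tau_mono (hcb.mono (erase_subset _ _))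
      intro x hx
      rw [mem_sdiff] at hx
      exact mem_erase.mpr ⟨fun h4 => hx.2 (h4 ▸ hs0), hx.1⟩
    omega
  -- the maximum
  obtain ⟨Q, hQ, hmax⟩ := exists_max_image S.powerset (fun Q => (Q.card : ℤ) -
    ((cps b (V \ S)).filter fun C => ∃ x ∈ Q, Aj b x C).card) ⟨∅, empty_mem_powerset S⟩
  rw [mem_powerset] at hQ
  have hmax' : ∀ T, T ⊆ S → (T.card : ℤ) -
      ((cps b (V \ S)).filter fun C => ∃ x ∈ T, Aj b x C).card ≤ (Q.card : ℤ) -
      ((cps b (V \ S)).filter fun C => ∃ x ∈ Q, Aj b x C).card := fun T hT =>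
    hmax T (mem_powerset.mpr hT)
  have hQS := key0 Q hQ hmax'
  have hN : ((cps b (V \ S)).filter fun C => ∃ x ∈ S, Aj b x C) = cps b (V \ S) := by
    rw [filter_eq_self]
    intro C hCc
    obtain ⟨x, hx, -, hxC⟩ := attach hcb hcon hvc hS hne hCc (hC C hCc) hne.choose
    exact ⟨x, hx, hxC⟩
  by_contra hlt
  have h1 : ∅ = S := by
    apply key0 ∅ (empty_subset S)
    intro T hT
    have h2 := hmax' T hT
    rw [hQS, hN] at h2
    have h3 : ((cps b (V \ S)).filter fun C => ∃ x ∈ (∅ : Finset α), Aj b x C) = ∅ := by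
      rw [filter_eq_empty_iff]
      rintro C - ⟨x, hx, -⟩
      exact notMem_empty x hx
    rw [h3, card_empty, card_empty]
    push_cast
    omega
  exact hne.ne_empty h1.symm

end Pool.Agent.Helper74.C5
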