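import Pool.Agent.Helper74.C5.PairK

/-!
# Absorption, covering by components, attachment
-/

set_option linter.unusedSectionVars false

open Finset

namespace Pool.Agent.Helper74.C5

open Pool.Agent.Helper20.C5

variable {α ι : Type} [DecidableEq α] [DecidableEq ι] [Fintype ι]

/-- Every point is critical. -/
def Vc (b : ι → Finset α) (W : Finset α) : Prop :=
  ∀ c ∈ W, tau b (W.erase c) + 1 = tau b W

theorem KT.vc {b : ι → Finset α} {W : Finset α} (hc : Cb b W) (h : KT b W) : Vc b W := by
  intro c hcW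
  obtain ⟨ν, hν, hν0⟩ := h.fc c hcW
  have h1 := (cut_mt {c} hν.1).two_tau_le (hc.mono sdiff_subset)
  have h2 := cut_ex hν.1 (singleton_subset_iff.mpr hcW)
  have h3 : (ex ν {c}).card = 1 := by
    have : ex ν {c} = {c} := by
      ext x
      rw [mem_ex, mem_singleton]
      constructor
      · exact fun h => h.1
      · rintro rfl
        exact ⟨rfl, hν0⟩
    rw [this, card_singleton]
  have h4 : (({c} : Finset α).filter fun x => ν x ∉ ({c} : Finset α)).card = 0 := by
    rw [card_eq_zero, filter_eq_empty_iff]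
    intro x hx
    rw [mem_singleton] at hx
    subst hx
    rw [hν0, not_not]
    exact mem_singleton_self x
  rw [Om.ex_one h hν hcW hν0, card_singleton, h3, h4] at h2
  rw [sdiff_singleton_eq_erase] at h1 h2
  have h5 := card_erase_of_mem hcW
  have h6 := h.tau
  have h7 := tau_erase_le hc hcW
  have h8 := card_pos.mpr ⟨c, hcW⟩
  omega

theorem CT.vc {b : ι → Finset α} {W : Finset α} (h : CT b W) : Vc b W := h.cr

/-- Adjacency of a point and a set. -/
def Aj (b : ι → Finset α) (x : α) (W : Finset α) : Prop := ∃ i, x ∈ b i ∧ ∃ c ∈ W, c ∈ b i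

/-- **Absorption** through a block. -/
theorem absorb {b : ι → Finset α} {W : Finset α} (hc : Cb b W) (hv : Vc b W) {c : α}
    (hcW : c ∈ W) {i : ι} (hi : c ∈ b i) {T : Finset α} (hT : T ⊆ b i) :
    tau b (W ∪ T) ≤ tau b W := by
  have h1 := hv c hcW
  have h2 := tau_cv (hc.mono (erase_subset c W))
  have h3 : Cv b ({c} ∪ T) 1 := cv_block i (union_subset (singleton_subset_iff.mpr hi) hT)
  have h4 := cv_union h2 h3
  rw [← h1]
  apply tau_le
  refine h4.mono ?_ le_rfl
  intro x hx
  rw [mem_union] at hx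
  rw [mem_union, mem_union, mem_erase, mem_singleton]
  rcases hx with hx | hx
  · by_cases hxc : x = c
    · exact Or.inr (Or.inl hxc)
    · exact Or.inl ⟨hxc, hx⟩
  · exact Or.inr (Or.inr hx)

theorem absorb_aj {b : ι → Finset α} {W : Finset α} (hc : Cb b W) (hv : Vc b W) {x : α}
    (h : Aj b x W) : tau b (W ∪ {x}) ≤ tau b W := by
  obtain ⟨i, hi, c, hcW, hci⟩ := h
  exact absorb hc hv hcW hci (singleton_subset_iff.mpr hi)

/-- Covers of a union. -/
theorem tau_biUnion {b : ι → Finset α} (F : Finset (Finset α)) (T : Finset α → Finset α)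
    (hc : ∀ C ∈ F, Cb b (T C)) : tau b (F.biUnion T) ≤ ∑ C ∈ F, tau b (T C) := by
  induction F using Finset.induction_on with
  | empty => rw [biUnion_empty, tau_empty, sum_empty]
  | insert C S hC ih =>
    rw [biUnion_insert, sum_insert hC]
    have h1 : Cb b (S.biUnion T) := by
      intro x hx
      obtain ⟨D, hD, hx⟩ := mem_biUnion.mp hx
      exact hc D (mem_insert_of_mem hD) x hx
    refine (tau_union (hc C (mem_insert_self C S)) h1).trans ?_
    exact Nat.add_le_add_left (ih fun D hD => hc D (mem_insert_of_mem hD)) _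

/-- Saving: the components absorb all points of `S`. -/
theorem saved {b : ι → Finset α} {U S : Finset α} (hU : Cb b U) (hS : Cb b S)
    (T : Finset α → Finset α) (hT : ∀ C ∈ cps b U, tau b (C ∪ T C) ≤ tau b C)
    (hT2 : ∀ C ∈ cps b U, T C ⊆ S) (hS2 : S ⊆ (cps b U).biUnion T) :
    tau b (U ∪ S) ≤ tau b U := by
  rw [tau_cps hU]
  refine le_trans ?_ (sum_le_sum hT)
  refine le_trans ?_ (tau_biUnion (cps b U) (fun C => C ∪ T C) ?_)
  · apply tau_mono
    · intro x hx
      obtain ⟨C, hC, hx⟩ := mem_biUnion.mp hx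
      rcases mem_union.mp hx with hx | hx
      · exact hU x (cps_sub hC hx)
      · exact hS x (hT2 C hC hx)
    · intro x hx
      rw [mem_biUnion]
      rcases mem_union.mp hx with hx | hx
      · exact ⟨Cmp b U x, mem_cps.mpr ⟨x, hx, rfl⟩, mem_union_left _ (self_Cmp hx)⟩
      · obtain ⟨C, hC, hx⟩ := mem_biUnion.mp (hS2 hx)
        exact ⟨C, hC, mem_union_right _ hx⟩
  · intro C hC x hx
    rcases mem_union.mp hx with hx | hx
    · exact hU x (cps_sub hC hx)
    · exact hS x (hT2 C hC hx)

/-- A connected set has no proper separated subset. -/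
theorem con_not_sep {b : ι → Finset α} {V A : Finset α} (hV : Con b V) (hA : A ⊆ V)
    (hA1 : A.Nonempty) (hA2 : (V \ A).Nonempty) : ¬ Sep b A (V \ A) := by
  intro hs
  obtain ⟨x, hx⟩ := hA1
  obtain ⟨y, hy⟩ := hA2
  have key : ∀ (u w : α) (p : (Bg b V).Walk u w), u ∈ A → w ∈ A := by
    intro u w p
    induction p with
    | nil => exact fun h => h
    | @cons u v w hadj q ih =>
      intro hu
      obtain ⟨h1, h2, h3, i, h4, h5⟩ := hadj
      apply ih
      by_contra h6
      exact hs i u hu v (mem_sdiff.mpr ⟨h3, h6⟩) h4 h5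
  obtain ⟨p⟩ := hV x (hA hx) y (mem_sdiff.mp hy).1
  exact (mem_sdiff.mp hy).2 (key x y p hx)

/-- **Attachment**: a component is attached to at least two points of `S`. -/
theorem attach {b : ι → Finset α} {V S C : Finset α} (hc : Cb b V) (hV : Con b V)
    (hvV : Vc b V) (hS : S ⊆ V) (hSne : S.Nonempty) (hC : C ∈ cps b (V \ S)) (hvC : Vc b C)
    (v : α) : ∃ x ∈ S, x ≠ v ∧ Aj b x C := by
  by_contra hcon
  have h0 : ∀ x ∈ S, x ≠ v → ¬ Aj b x C := fun x hx hxv h => hcon ⟨x, hx, hxv, h⟩
  have hCV : C ⊆ V := (cps_sub hC).trans sdiff_subset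
  have hCne := cps_ne hC
  have hCS : Disjoint C S := by
    rw [disjoint_left]
    intro x hx hx2
    exact (mem_sdiff.mp (cps_sub hC hx)).2 hx2
  -- the rest
  have hsep : Sep b C ((V \ C).erase v) := by
    intro i x hx y hy hxi hyi
    rw [mem_erase, mem_sdiff] at hy
    by_cases hyS : y ∈ S
    · exact h0 y hyS hy.1 ⟨i, hyi, x, hx, hxi⟩
    · exact cps_sep hC i x hx y (mem_sdiff.mpr ⟨mem_sdiff.mpr ⟨hy.2.1, hyS⟩, hy.2.2⟩) hxi hyi
  have hne2 : (V \ C).Nonempty := by
    obtain ⟨x, hx⟩ := hSne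
    exact ⟨x, mem_sdiff.mpr ⟨hS hx, fun h => (disjoint_left.mp hCS) h hx⟩⟩
  by_cases hvA : v ∈ V \ C ∧ Aj b v C
  · obtain ⟨hv, hvA⟩ := hvA
    have h1 := absorb_aj (hc.mono hCV) hvC hvA
    have hR : (V \ C).erase v ⊆ V := (erase_subset _ _).trans sdiff_subset
    have h2 := tau_sep hsep (hc.mono hCV) (hc.mono hR)
    have h3 : C ∪ (V \ C).erase v = V.erase v := by
      ext x
      rw [mem_union, mem_erase, mem_sdiff, mem_erase]
      constructor
      · rintro (h | h)
        · exact ⟨fun h4 => (mem_sdiff.mp hv).2 (h4 ▸ h), hCV h⟩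
        · exact ⟨h.1, h.2.1⟩
      · rintro ⟨h, h4⟩
        by_cases h5 : x ∈ C
        · exact Or.inl h5
        · exact Or.inr ⟨h, h4, h5⟩
    have h4 := hvV v (mem_sdiff.mp hv).1
    have h5 : tau b ((C ∪ {v}) ∪ (V \ C).erase v) ≤
        tau b (C ∪ {v}) + tau b ((V \ C).erase v) := by
      apply tau_union
      · intro x hx
        rcases mem_union.mp hx with hx | hx
        · exact hc x (hCV hx)
        · rw [mem_singleton.mp hx]
          exact hc v (mem_sdiff.mp hv).1
      · exact hc.mono hR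
    have h6 : (C ∪ {v}) ∪ (V \ C).erase v = V := by
      ext x
      rw [mem_union, mem_union, mem_singleton, mem_erase, mem_sdiff]
      constructor
      · rintro ((h | h) | h)
        · exact hCV h
        · rw [h]
          exact (mem_sdiff.mp hv).1
        · exact h.2.1
      · intro h
        by_cases h5 : x ∈ C
        · exact Or.inl (Or.inl h5)
        · by_cases h6 : x = v
          · exact Or.inl (Or.inr h6)
          · exact Or.inr ⟨h6, h, h5⟩
    rw [h6] at h5
    rw [h3] at h2
    omega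
  · apply con_not_sep hV hCV hCne hne2
    intro i x hx y hy hxi hyi
    by_cases hyv : y = v
    · apply hvA
      rw [hyv] at hy hyi
      exact ⟨hy, i, hyi, x, hx, hxi⟩
    · exact hsep i x hx y (mem_erase.mpr ⟨hyv, hy⟩) hxi hyi

/-- The number of K-type components. -/
theorem kt_count {b : ι → Finset α} {U : Finset α} (hc : Cb b U)
    (h : ∀ C ∈ cps b U, KT b C ∨ CT b C) :
    ∃ F ⊆ cps b U, (∀ C ∈ F, KT b C) ∧ (∀ C ∈ cps b U, C ∉ F → CT b C) ∧
      2 * tau b U = U.card + F.card := by
  classical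
  refine ⟨(cps b U).filter fun C => KT b C, filter_subset _ _, fun C hC => (mem_filter.mp hC).2,
    ?_, ?_⟩
  · intro C hC hC2
    rcases h C hC with h1 | h1
    · exact absurd (mem_filter.mpr ⟨hC, h1⟩) hC2
    · exact h1
  · have h1 := tau_cps hc
    have h2 := card_cps hc
    rw [h1, h2, mul_sum, card_filter, ← sum_add_distrib]
    apply sum_congr rfl
    intro C hC
    split_ifs with h3
    · exact h3.tau
    · rcases h C hC with h4 | h4
      · exact absurd h4 h3
      · rw [h4.tau, add_zero]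

/-- Distinct representatives for the K-type components. -/
theorem kt_sdr {b : ι → Finset α} {V S : Finset α} (hS : S ⊆ V) {x : α} (hx : x ∈ S)
    {μ : α → α} (hμ : Mt b V μ) (hμ1 : ex μ V = {x}) {F : Finset (Finset α)}
    (hF : F ⊆ cps b (V \ S)) (hK : ∀ C ∈ F, KT b C) :
    ∃ g : Finset α → α, (∀ C ∈ F, g C ∈ S ∧ g C ≠ x ∧ Aj b (g C) C) ∧
      Set.InjOn g (F : Set (Finset α)) := by
  classical
  have key : ∀ C ∈ F, ∃ c ∈ C, μ c ∉ C := by
    intro C hC
    by_contra hcon
    have h1 : ∀ c ∈ C, μ c ∈ C := by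
      intro c hc
      by_contra h
      exact hcon ⟨c, hc, h⟩
    have h2 := parts_card (Z := C) hμ.inv h1
    have h3 := (hK C hC).tau
    have h4 : ex μ C = ∅ := by
      ext y
      rw [mem_ex]
      refine ⟨fun h => ?_, fun h => absurd h (notMem_empty y)⟩
      exfalso
      have h5 := mem_sdiff.mp (cps_sub (hF hC) h.1)
      have h6 : y ∈ ex μ V := mem_ex.mpr ⟨h5.1, h.2⟩
      rw [hμ1, mem_singleton] at h6
      rw [h6] at h5
      exact h5.2 hx
    rw [h4, card_empty] at h2
    omega
  have : Nonempty α := ⟨x⟩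
  choose! c hc hc2 using key
  refine ⟨fun C => μ (c C), ?_, ?_⟩
  · intro C hC
    have h1 := hc C hC
    have h2 := hc2 C hC
    have h3 := mem_sdiff.mp (cps_sub (hF hC) h1)
    have hne : μ (c C) ≠ c C := fun h => h2 (h.symm ▸ h1)
    obtain ⟨i, hi, hi2⟩ := hμ.adj _ hne
    have hmV := hμ.mem h3.1
    have hmS : μ (c C) ∈ S := by
      by_contra h4
      exact cps_sep (hF hC) i _ h1 _ (mem_sdiff.mpr ⟨mem_sdiff.mpr ⟨hmV, h4⟩, h2⟩) hi hi2
    refine ⟨hmS, ?_, i, hi2, c C, h1, hi⟩
    intro h4
    have h5 : μ x = x := by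
      have : x ∈ ex μ V := by
        rw [hμ1]
        exact mem_singleton_self x
      exact (mem_ex.mp this).2
    have h6 : c C = x := by
      rw [← hμ.inv (c C)]
      show μ (μ (c C)) = x
      have h7 : μ (c C) = x := h4
      rw [h7, h5]
    rw [h6] at h3
    exact h3.2 hx
  · intro C hC D hD hCD
    have h1 : c C = c D := by
      have h2 : μ (c C) = μ (c D) := hCD
      rw [← hμ.inv (c C), h2, hμ.inv]
    by_contra hne
    have h3 := hc C hC
    have h4 := hc D hD
    rw [h1] at h3
    exact (disjoint_left.mp (cps_disj (hF hC) (hF hD) hne)) h3 h4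

end Pool.Agent.Helper74.C5
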