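import Pool.Agent.Helper74.C5.Comb

/-!
# Cutting: components, budget, degrees
-/

set_option linter.unusedSectionVars false

open Finset

namespace Pool.Agent.Helper74.C5

open Pool.Agent.Helper20.C5

variable {α ι : Type} [DecidableEq α] [DecidableEq ι] [Fintype ι]

/-- A maximal redundant set. -/
theorem exists_crit {b : ι → Finset α} {W : Finset α} (hc : Cb b W) :
    ∃ A, A ⊆ W ∧ tau b (W \ A) = tau b W ∧ Crit b (W \ A) := by
  classical
  obtain ⟨A, hA, hmax⟩ := exists_max_image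
    (W.powerset.filter fun A => tau b (W \ A) = tau b W) card
    ⟨∅, by rw [mem_filter, mem_powerset, sdiff_empty]; exact ⟨empty_subset W, rfl⟩⟩
  rw [mem_filter, mem_powerset] at hA
  refine ⟨A, hA.1, hA.2, ?_⟩
  intro B hB hBne
  by_contra hcon
  have h1 := tau_mono (hc.mono (sdiff_subset : W \ A ⊆ W)) (sdiff_subset : (W \ A) \ B ⊆ W \ A)
  have h2 : tau b ((W \ A) \ B) = tau b W := by omega
  have h3 := hmax (A ∪ B) (by
    rw [mem_filter, mem_powerset]
    refine ⟨union_subset hA.1 (hB.trans sdiff_subset), ?_⟩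
    rwa [sdiff_sdiff_left] at h2)
  have h4 : Disjoint A B := disjoint_of_subset_right hB disjoint_sdiff
  rw [card_union_of_disjoint h4] at h3
  have h5 := card_pos.mpr hBne
  omega

theorem crit_cps {b : ι → Finset α} {U C : Finset α} (hc : Cb b U) (h : Crit b U)
    (hC : C ∈ cps b U) : Crit b C := by
  intro B hB hBne
  have hs := cps_sep hC
  have hCU := cps_sub hC
  have h1 := h B (hB.trans hCU) hBne
  have h2 : (C \ B) ∪ (U \ C) = U \ B := by
    ext x
    rw [mem_union, mem_sdiff, mem_sdiff, mem_sdiff]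
    constructor
    · rintro (h | h)
      · exact ⟨hCU h.1, h.2⟩
      · exact ⟨h.1, fun h3 => h.2 (hB h3)⟩
    · intro h3
      by_cases h4 : x ∈ C
      · exact Or.inl ⟨h4, h3.2⟩
      · exact Or.inr ⟨h3.1, h4⟩
  have h3 := tau_sep (hs.mono (sdiff_subset : C \ B ⊆ C) subset_rfl)
    (hc.mono (sdiff_subset.trans hCU)) (hc.mono sdiff_subset)
  have h4 := tau_sep hs (hc.mono hCU) (hc.mono sdiff_subset)
  rw [h2] at h3
  rw [union_sdiff_of_subset hCU] at h4
  omega

/-- The components of a critical set. -/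
theorem types {b : ι → Finset α} {U : Finset α} (hc : Cb b U) (hU : CC b U) (h : Crit b U) :
    ∀ C ∈ cps b U, KT b C ∨ CT b C := fun _ hC =>
  kt_or_ct (hc.mono (cps_sub hC)) (cps_cc hc hU hC) (cps_con hC) (crit_cps hc h hC) (cps_ne hC)

/-- The blocks meeting `V` and not `U`. -/
def ins (b : ι → Finset α) (V U : Finset α) : Finset ι :=
  univ.filter fun i => (b i ∩ V).Nonempty ∧ b i ∩ U = ∅

theorem nb_ins {b : ι → Finset α} {V U : Finset α} (hU : U ⊆ V) :
    nb b V = nb b U + (ins b V U).card := by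
  unfold nb
  rw [← card_union_of_disjoint]
  · congr 1
    ext i
    rw [mem_union, ins, mem_filter, mem_mt, mem_mt]
    constructor
    · rintro ⟨x, hx, hx2⟩
      by_cases h : b i ∩ U = ∅
      · exact Or.inr ⟨mem_univ i, ⟨x, mem_inter.mpr ⟨hx2, hx⟩⟩, h⟩
      · obtain ⟨y, hy⟩ := nonempty_iff_ne_empty.mpr h
        rw [mem_inter] at hy
        exact Or.inl ⟨y, hy.2, hy.1⟩
    · rintro (⟨x, hx, hx2⟩ | ⟨-, ⟨x, hx⟩, -⟩)
      · exact ⟨x, hU hx, hx2⟩
      · rw [mem_inter] at hx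
        exact ⟨x, hx.2, hx.1⟩
  · rw [disjoint_left]
    intro i hi hi2
    obtain ⟨x, hx, hx2⟩ := mem_mt.mp hi
    have h1 := (mem_filter.mp hi2).2.2
    have h2 : x ∈ b i ∩ U := mem_inter.mpr ⟨hx2, hx⟩
    rw [h1] at h2
    exact notMem_empty x h2

/-- The budget equation. -/
theorem ee_cut {b : ι → Finset α} {V U : Finset α} (hU : U ⊆ V) :
    ee b V + 11 * tau b V + 2 * U.card =
      ee b U + 11 * tau b U + 2 * V.card + 2 * (ins b V U).card := by
  unfold ee
  rw [nb_ins hU]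
  push_cast
  ring

/-- Blocks at special points. -/
theorem two_sp {b : ι → Finset α} {V T : Finset α} (hT : T ⊆ sp b V) :
    2 * T.card ≤ (univ.filter fun i => ∃ s ∈ T, b i ∩ V = {s}).card := by
  classical
  have h1 : (univ.filter fun i => ∃ s ∈ T, b i ∩ V = {s}) =
      T.biUnion fun s => univ.filter fun i => b i ∩ V = {s} := by
    ext i
    rw [mem_filter, mem_biUnion]
    constructor
    · rintro ⟨-, s, hs, hs2⟩
      exact ⟨s, hs, mem_filter.mpr ⟨mem_univ i, hs2⟩⟩
    · rintro ⟨s, hs, hs2⟩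
      exact ⟨mem_univ i, s, hs, (mem_filter.mp hs2).2⟩
  rw [h1, card_biUnion]
  · rw [mul_comm, ← smul_eq_mul]
    apply card_nsmul_le_sum
    intro s hs
    exact (mem_filter.mp (hT hs)).2
  · intro s _ t _ hst
    rw [Function.onFun, disjoint_left]
    intro i hi hi2
    apply hst
    have h2 := (mem_filter.mp hi).2
    have h3 := (mem_filter.mp hi2).2
    rw [h2] at h3
    exact singleton_injective h3

/-- Blocks inside the cut. -/
theorem sp_ins {b : ι → Finset α} {V U : Finset α} {i0 : ι} (hP : (b i0 ∩ V).card = 3)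
    (hPU : b i0 ∩ U = ∅) (hUV : U ⊆ V) :
    1 + 2 * (sp b V ∩ (V \ U)).card ≤ (ins b V U).card := by
  classical
  have h1 := two_sp (b := b) (V := V) (T := sp b V ∩ (V \ U)) inter_subset_left
  have h2 : insert i0 (univ.filter fun i => ∃ s ∈ sp b V ∩ (V \ U), b i ∩ V = {s}) ⊆
      ins b V U := by
    intro i hi
    unfold ins
    rw [mem_filter]
    rcases mem_insert.mp hi with rfl | hi
    · refine ⟨mem_univ i, ?_, hPU⟩
      rw [← card_pos, hP]
      norm_num
    · obtain ⟨-, s, hs, hs2⟩ := mem_filter.mp hi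
      refine ⟨mem_univ i, ⟨s, by rw [hs2]; exact mem_singleton_self s⟩, ?_⟩
      rw [eq_empty_iff_forall_notMem]
      intro x hx
      rw [mem_inter] at hx
      have h3 : x ∈ b i ∩ V := mem_inter.mpr ⟨hx.1, hUV hx.2⟩
      rw [hs2, mem_singleton] at h3
      rw [h3] at hx
      exact (mem_sdiff.mp (mem_inter.mp hs).2).2 hx.2
  have h3 := card_le_card h2
  rw [card_insert_of_notMem] at h3
  · omega
  · intro h4
    obtain ⟨-, s, hs, hs2⟩ := mem_filter.mp h4
    rw [hs2, card_singleton] at hP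
    omega

/-- The sum of the reduced excesses. -/
theorem sum_eX {b : ι → Finset α} {V U : Finset α} (hc : Cb b U) :
    ∑ C ∈ cps b U, (ee b C - ((sp b V ∩ C).card : ℤ)) = ee b U - ((sp b V ∩ U).card : ℤ) := by
  rw [sum_sub_distrib, ← ee_cps hc]
  have h1 := filter_cps hc (sp b V)
  rw [inter_comm, h1]
  push_cast
  congr 1
  apply sum_congr rfl
  intro C _
  rw [inter_comm]

/-- The number of blocks meeting both. -/
def dg (b : ι → Finset α) (G W : Finset α) : ℕ :=
  (univ.filter fun i => (b i ∩ G).Nonempty ∧ (b i ∩ W).Nonempty).card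

theorem dg_cps {b : ι → Finset α} {U G : Finset α} (hc : Cb b U) :
    dg b G U = ∑ C ∈ cps b U, dg b G C := by
  apply sum_cps hc
  · unfold dg
    rw [card_eq_zero, filter_eq_empty_iff]
    intro i _ h
    rw [inter_empty] at h
    exact (not_nonempty_empty h.2)
  · intro A B _ _ _ hs
    unfold dg
    rw [← card_union_of_disjoint]
    · congr 1
      ext i
      rw [mem_union, mem_filter, mem_filter, mem_filter, inter_union_distrib_left,
        union_nonempty]
      tauto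
    · rw [disjoint_left]
      intro i hi hi2
      obtain ⟨-, -, x, hx⟩ := mem_filter.mp hi
      obtain ⟨-, -, y, hy⟩ := mem_filter.mp hi2
      rw [mem_inter] at hx hy
      exact hs i x hx.2 y hy.2 hx.1 hy.1

/-- Degrees. -/
theorem dg_ins {b : ι → Finset α} {V U : Finset α} (hsys : Sys b V) {x : α} (hx : x ∈ V) :
    5 ≤ dg b {x} U + (ins b V U).card := by
  rw [← hsys.deg x hx]
  unfold dg
  refine le_trans (card_le_card ?_) (card_union_le _ _)
  intro i hi
  have h1 := (mem_filter.mp hi).2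
  rw [mem_union, ins, mem_filter, mem_filter]
  by_cases h : b i ∩ U = ∅
  · exact Or.inr ⟨mem_univ i, ⟨x, mem_inter.mpr ⟨h1, hx⟩⟩, h⟩
  · exact Or.inl ⟨mem_univ i, ⟨x, mem_inter.mpr ⟨h1, mem_singleton_self x⟩⟩,
      nonempty_iff_ne_empty.mpr h⟩

theorem dg_aj {b : ι → Finset α} {W : Finset α} {x : α} (h : 1 ≤ dg b {x} W) : Aj b x W := by
  unfold dg at h
  obtain ⟨i, hi⟩ := card_pos.mp h
  obtain ⟨-, ⟨y, hy⟩, ⟨c, hc⟩⟩ := mem_filter.mp hi
  rw [mem_inter, mem_singleton] at hy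
  rw [mem_inter] at hc
  exact ⟨i, hy.2 ▸ hy.1, c, hc.2, hc.1⟩

theorem aj_dg {b : ι → Finset α} {W : Finset α} {x : α} (h : Aj b x W) : 1 ≤ dg b {x} W := by
  obtain ⟨i, hi, c, hc, hci⟩ := h
  unfold dg
  apply card_pos.mpr
  exact ⟨i, mem_filter.mpr ⟨mem_univ i, ⟨x, mem_inter.mpr ⟨hi, mem_singleton_self x⟩⟩,
    ⟨c, mem_inter.mpr ⟨hci, hc⟩⟩⟩⟩

/-- Degree of a pair without commons. -/
theorem dg_pair {b : ι → Finset α} {W : Finset α} {x y : α}
    (h : ∀ i, x ∈ b i → y ∈ b i → ∀ c ∈ W, c ∉ b i) :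
    dg b {x, y} W = dg b {x} W + dg b {y} W := by
  unfold dg
  rw [← card_union_of_disjoint]
  · congr 1
    ext i
    rw [mem_union, mem_filter, mem_filter, mem_filter]
    have h1 : ({x, y} : Finset α) = {x} ∪ {y} := rfl
    rw [h1, inter_union_distrib_left, union_nonempty]
    tauto
  · rw [disjoint_left]
    intro i hi hi2
    obtain ⟨-, ⟨x', hx⟩, c, hc⟩ := mem_filter.mp hi
    obtain ⟨-, ⟨y', hy⟩, -⟩ := mem_filter.mp hi2
    rw [mem_inter, mem_singleton] at hx hy
    rw [mem_inter] at hc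
    rw [hx.2] at hx
    rw [hy.2] at hy
    exact h i hx.1 hy.1 c hc.2 hc.1

/-- **The pair cap for K-types.** -/
theorem pairK {b : ι → Finset α} {V W : Finset α} (hsys : Sys b V) {n : ℕ} (hIH : IHK n)
    (hWV : W ⊆ V) (hK : KT b W) (hn : W.card + 2 < n) {G H : Finset α} (hG : G ⊆ V \ W)
    (hH : H ⊆ V \ W) (hGH : Disjoint G H) {a c : ℕ} (ha : 1 ≤ a) (hac : a ≤ c) (hc : c ≤ 4)
    (h0 : a ≤ dg b G W) (h1 : c ≤ dg b H W)
    (habs : ∀ x ∈ G, ∀ y ∈ H, tau b W + 1 ≤ tau b (W ∪ {x, y})) :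
    ((sp b V ∩ W).card : ℤ) + (if a + 2 ≤ c then 1 else 0) + 2 * a ≤ ee b W + 3 := by
  obtain ⟨I0, hI0, hI0c⟩ := exists_subset_card_eq h0
  obtain ⟨I1, hI1, hI1c⟩ := exists_subset_card_eq h1
  have key : ∀ (T : Finset α) (I : Finset ι),
      I ⊆ univ.filter (fun i => (b i ∩ T).Nonempty ∧ (b i ∩ W).Nonempty) →
      (∀ i ∈ I, ∃ x ∈ W, x ∈ b i) ∧ (∀ i ∈ I, ∃ y ∈ T, y ∈ b i) := by
    intro T I hI
    constructor
    · intro i hi
      obtain ⟨-, -, x, hx⟩ := mem_filter.mp (hI hi)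
      rw [mem_inter] at hx
      exact ⟨x, hx.2, hx.1⟩
    · intro i hi
      obtain ⟨-, ⟨x, hx⟩, -⟩ := mem_filter.mp (hI hi)
      rw [mem_inter] at hx
      exact ⟨x, hx.2, hx.1⟩
  have k0 := key G I0 hI0
  have k1 := key H I1 hI1
  refine pairK_aux (g := ![G, H]) (I := ![I0, I1]) hsys hIH hWV hK hn ?_ ?_ ?_ ?_ ha hac hc
    hI0c hI1c habs
  · intro j
    fin_cases j
    · exact hG
    · exact hH
  · exact hGH
  · intro j
    fin_cases j
    · exact k0.1
    · exact k1.1
  · intro j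
    fin_cases j
    · exact k0.2
    · exact k1.2

end Pool.Agent.Helper74.C5
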