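import Pool.Agent.Helper74.C5.TLv

/-!
# Removing a component and the further point
-/

set_option linter.unusedSectionVars false

open Finset

namespace Pool.Agent.Helper74.C5

open Pool.Agent.Helper20.C5

variable {α ι : Type} [DecidableEq α] [DecidableEq ι] [Fintype ι]

theorem con_block {b : ι → Finset α} {X : Finset α} {i : ι} (h : X ⊆ b i) : Con b X := by
  intro x hx y hy
  by_cases hxy : x = y
  · subst hxy
    exact SimpleGraph.Reachable.refl x
  · exact SimpleGraph.Adj.reachable (show (Bg b X).Adj x y from ⟨hxy, hx, hy, i, h hx, h hy⟩)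

section

variable {b : ι → Finset α} {V U : Finset α} {i0 j0 : ι} {a : α} {C : Fin 3 → Finset α}

theorem D1.tauV (h : D1 b V U i0 j0 a C) (hcb : Cb b V) {i j l : Fin 3} (hij : i ≠ j)
    (hjl : j ≠ l) (hil : i ≠ l) : tau b (C i) + tau b (C j) + tau b (C l) + 2 = tau b V := by
  have h1 := tau_cps (hcb.mono h.dv.sub)
  rw [h.sum (fun D => tau b D) hij hjl hil] at h1
  have h2 := h.dv.tt
  omega

/-- Three covering parts. -/
theorem tau_three {b : ι → Finset α} {X A B : Finset α} {r : ℕ} (hA : Cb b A) (hB : Cb b B)
    {R : Finset α} (hR : Cv b R r) (h : X ⊆ A ∪ B ∪ R) : tau b X ≤ tau b A + tau b B + r :=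
  tau_le ((cv_union (cv_union (tau_cv hA) (tau_cv hB)) hR).mono h le_rfl)

/-- **The Q-lemma.** -/
theorem D1.qlem (h : D1 b V U i0 j0 a C) (mc : MC b V) (hsp : sp b V = ∅) {i j l : Fin 3}
    (hij : i ≠ j) (hjl : j ≠ l) (hil : i ≠ l) (ha : 1 ≤ wt b C i a)
    (hP : ∀ u ∈ b i0 ∩ V, ∃ s t, b i0 ∩ V ⊆ {u, s, t} ∧ 1 ≤ wt b C j s ∧ 1 ≤ wt b C l t)
    (hQ : ∀ u ∈ b j0 ∩ V, ∃ s t, b j0 ∩ V ⊆ {u, s, t} ∧ 1 ≤ wt b C j s ∧ 1 ≤ wt b C l t) :
    3 + ee b (C i) ≤ 2 * (dg b ((V \ U).erase a) (C i) : ℤ) := by
  have hsys := mc.sys
  have hcb := hsys.cb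
  have haV := mem_sdiff.mp h.ha
  have hKU := cps_sub (h.mem i)
  have hKV := h.subV i
  have hdj : Disjoint (C j) (C i) :=
    cps_disj (h.mem j) (h.mem i) fun h1 => hij (h.inj h1.symm)
  have hdl : Disjoint (C l) (C i) :=
    cps_disj (h.mem l) (h.mem i) fun h1 => hil (h.inj h1.symm)
  have haK : a ∉ C i := fun h1 => haV.2 (hKU h1)
  -- the set `R`
  have hRV : V \ insert a (C i) ⊆ V := sdiff_subset
  have hRmem : ∀ x ∈ V \ insert a (C i), x ∈ b i0 ∩ V ∨ x ∈ b j0 ∩ V ∨ x ∈ C j ∨ x ∈ C l := by
    intro x hx
    rw [mem_sdiff, mem_insert, not_or] at hx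
    by_cases hxU : x ∈ U
    · rcases h.Umem hxU hij hjl hil with h1 | h1 | h1
      · exact absurd h1 hx.2.2
      · exact Or.inr (Or.inr (Or.inl h1))
      · exact Or.inr (Or.inr (Or.inr h1))
    · rcases h.all x (mem_sdiff.mpr ⟨hx.1, hxU⟩) with h1 | h1 | h1
      · exact absurd h1 hx.2.1
      · exact Or.inl (mem_inter.mpr ⟨h1, hx.1⟩)
      · exact Or.inr (Or.inl (mem_inter.mpr ⟨h1, hx.1⟩))
  have hcj : Cb b (C j) := hcb.mono (h.subV j)
  have hcl : Cb b (C l) := hcb.mono (h.subV l)
  have hcj' : ∀ s ∈ V, Cb b (C j ∪ {s}) := by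
    intro s hs x hx
    rcases mem_union.mp hx with hx | hx
    · exact hcj x hx
    · rw [mem_singleton.mp hx]
      exact hcb s hs
  have hcl' : ∀ s ∈ V, Cb b (C l ∪ {s}) := by
    intro s hs x hx
    rcases mem_union.mp hx with hx | hx
    · exact hcl x hx
    · rw [mem_singleton.mp hx]
      exact hcb s hs
  have hPc : Cv b (b i0 ∩ V) 1 := cv_block i0 inter_subset_left
  have hQc : Cv b (b j0 ∩ V) 1 := cv_block j0 inter_subset_left
  have htV := h.tauV hcb hij hjl hil
  have hlow : tau b V ≤ tau b (C i) + tau b (V \ insert a (C i)) := by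
    have h1 := h.abs1 hsys ha
    have h2 : Cb b (C i ∪ {a}) := by
      intro x hx
      rcases mem_union.mp hx with hx | hx
      · exact hcb x (hKV hx)
      · rw [mem_singleton.mp hx]
        exact hcb a haV.1
    have h3 := tau_union h2 (hcb.mono hRV)
    have h4 : (C i ∪ {a}) ∪ (V \ insert a (C i)) = V := by
      ext x
      rw [mem_union, mem_union, mem_singleton, mem_sdiff, mem_insert]
      constructor
      · rintro ((h4 | h4) | h4)
        · exact hKV h4
        · rw [h4]
          exact haV.1
        · exact h4.1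
      · intro h4
        tauto
    rw [h4] at h3
    omega
  -- erasing a point
  have her : ∀ c ∈ V \ insert a (C i), tau b ((V \ insert a (C i)).erase c) ≤
      tau b (C j) + tau b (C l) + 1 := by
    intro c hc
    by_cases hcP : c ∈ b i0 ∩ V
    · obtain ⟨s, t, hst, hs, ht⟩ := hP c hcP
      have hmem : ∀ s, 1 ≤ wt b C j s ∨ 1 ≤ wt b C l s → (b i0 ∩ V ⊆ {c, s, t} → True) :=
        fun _ _ _ => trivial
      have hj := tau_le ((tau_cv (hcj' c (mem_inter.mp hcP).2)).mono (Subset.refl _) le_rfl)
      by_cases hsV : s ∈ V
      · by_cases htV' : t ∈ V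
        · have h1 := h.abs1 hsys hs
          have h2 := h.abs1 hsys ht
          have h3 := tau_three (X := (V \ insert a (C i)).erase c) (hcj' s hsV) (hcl' t htV')
            hQc (by
              intro x hx
              rw [mem_erase] at hx
              rw [mem_union, mem_union, mem_union, mem_union, mem_singleton, mem_singleton]
              rcases hRmem x hx.2 with h3 | h3 | h3 | h3
              · have h4 := hst h3
                rw [mem_insert, mem_insert, mem_singleton] at h4
                rcases h4 with h4 | h4 | h4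
                · exact absurd h4 hx.1
                · exact Or.inl (Or.inl (Or.inr h4))
                · exact Or.inl (Or.inr (Or.inr h4))
              · exact Or.inr h3
              · exact Or.inl (Or.inl (Or.inl h3))
              · exact Or.inl (Or.inr (Or.inl h3)))
          omega
        · exfalso
          have h1 := card_le_card hst
          have h2 : b i0 ∩ V ⊆ {c, s} := by
            intro x hx
            have h4 := hst hx
            rw [mem_insert, mem_insert, mem_singleton] at h4
            rw [mem_insert, mem_singleton]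
            rcases h4 with h4 | h4 | h4
            · exact Or.inl h4
            · exact Or.inr h4
            · rw [h4] at hx
              exact absurd (mem_inter.mp hx).2 htV'
          have h3 := (card_le_card h2).trans card_le_two
          rw [h.dv.p3] at h3
          omega
      · exfalso
        have h2 : b i0 ∩ V ⊆ {c, t} := by
          intro x hx
          have h4 := hst hx
          rw [mem_insert, mem_insert, mem_singleton] at h4
          rw [mem_insert, mem_singleton]
          rcases h4 with h4 | h4 | h4
          · exact Or.inl h4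
          · rw [h4] at hx
            exact absurd (mem_inter.mp hx).2 hsV
          · exact Or.inr h4
        have h3 := (card_le_card h2).trans card_le_two
        rw [h.dv.p3] at h3
        omega
    · by_cases hcQ : c ∈ b j0 ∩ V
      · obtain ⟨s, t, hst, hs, ht⟩ := hQ c hcQ
        by_cases hsV : s ∈ V
        · by_cases htV' : t ∈ V
          · have h1 := h.abs1 hsys hs
            have h2 := h.abs1 hsys ht
            have h3 := tau_three (X := (V \ insert a (C i)).erase c) (hcj' s hsV) (hcl' t htV')
              hPc (by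
                intro x hx
                rw [mem_erase] at hx
                rw [mem_union, mem_union, mem_union, mem_union, mem_singleton, mem_singleton]
                rcases hRmem x hx.2 with h3 | h3 | h3 | h3
                · exact Or.inr h3
                · have h4 := hst h3
                  rw [mem_insert, mem_insert, mem_singleton] at h4
                  rcases h4 with h4 | h4 | h4
                  · exact absurd h4 hx.1
                  · exact Or.inl (Or.inl (Or.inr h4))
                  · exact Or.inl (Or.inr (Or.inr h4))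
                · exact Or.inl (Or.inl (Or.inl h3))
                · exact Or.inl (Or.inr (Or.inl h3)))
            omega
          · exfalso
            have h2 : b j0 ∩ V ⊆ {c, s} := by
              intro x hx
              have h4 := hst hx
              rw [mem_insert, mem_insert, mem_singleton] at h4
              rw [mem_insert, mem_singleton]
              rcases h4 with h4 | h4 | h4
              · exact Or.inl h4
              · exact Or.inr h4
              · rw [h4] at hx
                exact absurd (mem_inter.mp hx).2 htV'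
            have h3 := (card_le_card h2).trans card_le_two
            rw [h.dv.q3] at h3
            omega
        · exfalso
          have h2 : b j0 ∩ V ⊆ {c, t} := by
            intro x hx
            have h4 := hst hx
            rw [mem_insert, mem_insert, mem_singleton] at h4
            rw [mem_insert, mem_singleton]
            rcases h4 with h4 | h4 | h4
            · exact Or.inl h4
            · rw [h4] at hx
              exact absurd (mem_inter.mp hx).2 hsV
            · exact Or.inr h4
          have h3 := (card_le_card h2).trans card_le_two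
          rw [h.dv.q3] at h3
          omega
      · have hPQ : Cv b ((b i0 ∩ V) ∪ (b j0 ∩ V)) (1 + 1) := cv_union hPc hQc
        rcases hRmem c hc with h1 | h1 | h1 | h1
        · exact absurd h1 hcP
        · exact absurd h1 hcQ
        · have h2 := h.dv.typ _ (h.mem j) c h1
          have h3 := tau_three (X := (V \ insert a (C i)).erase c)
            (hcj.mono (erase_subset c (C j))) hcl hPQ (by
              intro x hx
              rw [mem_erase] at hx
              rw [mem_union, mem_union, mem_union, mem_erase]
              rcases hRmem x hx.2 with h3 | h3 | h3 | h3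
              · exact Or.inr (Or.inl h3)
              · exact Or.inr (Or.inr h3)
              · exact Or.inl (Or.inl ⟨hx.1, h3⟩)
              · exact Or.inl (Or.inr h3))
          omega
        · have h2 := h.dv.typ _ (h.mem l) c h1
          have h3 := tau_three (X := (V \ insert a (C i)).erase c) hcj
            (hcl.mono (erase_subset c (C l))) hPQ (by
              intro x hx
              rw [mem_erase] at hx
              rw [mem_union, mem_union, mem_union, mem_erase]
              rcases hRmem x hx.2 with h3 | h3 | h3 | h3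
              · exact Or.inr (Or.inl h3)
              · exact Or.inr (Or.inr h3)
              · exact Or.inl (Or.inl h3)
              · exact Or.inl (Or.inr ⟨hx.1, h3⟩))
          omega
  have hPR : b i0 ∩ V ⊆ V \ insert a (C i) := by
    intro x hx
    have h1 := mem_sdiff.mp (h.dv.subP hx)
    rw [mem_sdiff, mem_insert, not_or]
    refine ⟨h1.1, ?_, fun h2 => h1.2 (hKU h2)⟩
    rintro rfl
    exact h.ai (mem_inter.mp hx).1
  have hQR : b j0 ∩ V ⊆ V \ insert a (C i) := by
    intro x hx
    have h1 := mem_sdiff.mp (h.dv.subQ hx)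
    rw [mem_sdiff, mem_insert, not_or]
    refine ⟨h1.1, ?_, fun h2 => h1.2 (hKU h2)⟩
    rintro rfl
    exact h.aj (mem_inter.mp hx).1
  have hCR : ∀ k : Fin 3, k ≠ i → C k ⊆ V \ insert a (C i) := by
    intro k hk x hx
    have h1 := cps_sub (h.mem k) hx
    rw [mem_sdiff, mem_insert, not_or]
    refine ⟨h.subV k hx, ?_, ?_⟩
    · rintro rfl
      exact haV.2 h1
    · exact fun h2 => (disjoint_left.mp (cps_disj (h.mem k) (h.mem i)
        fun h3 => hk (h.inj h3))) hx h2
  have hRne : (V \ insert a (C i)).Nonempty := by
    obtain ⟨x, hx⟩ : (b i0 ∩ V).Nonempty := card_pos.mp (by rw [h.dv.p3]; norm_num)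
    exact ⟨x, hPR hx⟩
  have hcR : Cb b (V \ insert a (C i)) := hcb.mono hRV
  have htR : tau b (V \ insert a (C i)) = tau b (C j) + tau b (C l) + 2 := by
    obtain ⟨c, hc⟩ := hRne
    have h1 := her c hc
    have h2 := tau_erase_le hcR hc
    omega
  have hvR : Vc b (V \ insert a (C i)) := by
    intro c hc
    have h1 := her c hc
    have h2 := tau_erase_le hcR hc
    omega
  -- the cardinality
  have hcard : (V \ insert a (C i)).card + (C i).card + 1 = V.card := by
    have h1 : insert a (C i) ⊆ V := insert_subset_iff.mpr ⟨haV.1, hKV⟩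
    have h2 := card_sdiff_add_card_eq_card h1
    rw [card_insert_of_notMem haK] at h2
    omega
  have hf := h.dv.tf (C i) (h.mem i)
  have hVf := mc.tf
  -- connectivity
  have hconR : Con b (V \ insert a (C i)) := by
    have h1 : V \ insert a (C i) = (((b i0 ∩ V) ∪ C j) ∪ (b j0 ∩ V)) ∪ C l := by
      ext x
      rw [mem_union, mem_union, mem_union]
      constructor
      · intro hx
        rcases hRmem x hx with h3 | h3 | h3 | h3
        · exact Or.inl (Or.inl (Or.inl h3))
        · exact Or.inl (Or.inr h3)
        · exact Or.inl (Or.inl (Or.inr h3))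
        · exact Or.inr h3
      · rintro (((h3 | h3) | h3) | h3)
        · exact hPR h3
        · exact hCR j hij.symm h3
        · exact hQR h3
        · exact hCR l hil.symm h3
    rw [h1]
    have hat : ∀ k, ∃ e, ∃ x ∈ b i0 ∩ V, x ∈ b e ∧ ∃ c ∈ C k, c ∈ b e := by
      intro k
      obtain ⟨x, hx, hxj, hxa, e, hxe, c, hc, hce⟩ := h.dv.attP (C k) (h.mem k) a
      refine ⟨e, x, ?_, hxe, c, hc, hce⟩
      rcases h.all x hx with h2 | h2 | h2
      · exact absurd h2 hxa
      · exact mem_inter.mpr ⟨h2, (mem_sdiff.mp hx).1⟩
      · exact absurd h2 hxj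
    have hat' : ∀ k, ∃ e, ∃ x ∈ b j0 ∩ V, x ∈ b e ∧ ∃ c ∈ C k, c ∈ b e := by
      intro k
      obtain ⟨x, hx, hxj, hxa, e, hxe, c, hc, hce⟩ := h.dv.attQ (C k) (h.mem k) a
      refine ⟨e, x, ?_, hxe, c, hc, hce⟩
      rcases h.all x hx with h2 | h2 | h2
      · exact absurd h2 hxa
      · exact absurd h2 hxj
      · exact mem_inter.mpr ⟨h2, (mem_sdiff.mp hx).1⟩
    obtain ⟨e1, x1, hx1, hx1e, c1, hc1, hc1e⟩ := hat j
    obtain ⟨e2, x2, hx2, hx2e, c2, hc2, hc2e⟩ := hat' j
    obtain ⟨e3, x3, hx3, hx3e, c3, hc3, hc3e⟩ := hat l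
    have k1 := Pool.Agent.Helper34.C5.con_union (con_block (b := b) (i := i0) inter_subset_left)
      (cps_con (h.mem j)) hx1 hx1e hc1 hc1e
    have k2 := Pool.Agent.Helper34.C5.con_union k1
      (con_block (b := b) (i := j0) (X := b j0 ∩ V) inter_subset_left)
      (mem_union_right _ hc2) hc2e hx2 hx2e
    exact Pool.Agent.Helper34.C5.con_union k2 (cps_con (h.mem l))
      (mem_union_left _ (mem_union_left _ hx3)) hx3e hc3 hc3e
  have hnD : ¬ Dt b (V \ insert a (C i)) := by
    apply not_dt hsys mc.con hRV hRne
    exact ⟨a, mem_sdiff.mpr ⟨haV.1, fun h1 => (mem_sdiff.mp h1).2 (mem_insert_self _ _)⟩⟩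
  have hlt : (V \ insert a (C i)).card < V.card := by omega
  have hih := mc.ih α ι b (V \ insert a (C i)) hlt hRne (hsys.mono hRV) hconR hvR
    (by omega) hnD
  -- the number of blocks
  have hnb : nb b (C i) ≤ dg b ((V \ U).erase a) (C i) + (ins b V (V \ insert a (C i))).card := by
    unfold nb dg ins
    refine (card_le_card ?_).trans (card_union_le _ _)
    intro e he
    obtain ⟨x, hx, hxe⟩ := mem_mt.mp he
    rw [mem_union, mem_filter, mem_filter]
    by_cases h1 : b e ∩ (V \ insert a (C i)) = ∅
    · exact Or.inr ⟨mem_univ e, ⟨x, mem_inter.mpr ⟨hxe, hKV hx⟩⟩, h1⟩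
    · left
      obtain ⟨y, hy⟩ := nonempty_iff_ne_empty.mpr h1
      rw [mem_inter] at hy
      refine ⟨mem_univ e, ⟨y, ?_⟩, ⟨x, mem_inter.mpr ⟨hxe, hx⟩⟩⟩
      rw [mem_inter, mem_erase]
      have hyR := hy.2
      rw [mem_sdiff, mem_insert, not_or] at hyR
      refine ⟨hy.1, hyR.2.1, mem_sdiff.mpr ⟨hyR.1, fun hyU => ?_⟩⟩
      exact cps_sep (h.mem i) e x hx y (mem_sdiff.mpr ⟨hyU, hyR.2.2⟩) hxe hy.1
  have hnb2 := nb_ins (b := b) hRV
  have hneg := mc.neg
  by_contra hcon
  unfold Pot at hih hneg
  rw [hsp, card_empty] at hneg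
  unfold ee at hih hneg hcon
  have hsp2 : (0 : ℤ) ≤ ((sp b (V \ insert a (C i))).card : ℤ) := by positivity
  push_cast at hih hneg hcon hnb hnb2
  omega

end

end Pool.Agent.Helper74.C5
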