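import Pool.Agent.Helper74.C5.NumA
import Pool.Agent.Helper74.C5.QR

/-!
# Double cuts with one further point: the weights of the further point
-/

set_option linter.unusedSectionVars false

open Finset

namespace Pool.Agent.Helper74.C5

open Pool.Agent.Helper20.C5

variable {α ι : Type} [DecidableEq α] [DecidableEq ι] [Fintype ι]

/-- Sum of the weights. -/
def ws (b : ι → Finset α) (C : Fin 3 → Finset α) (u : α) : ℕ :=
  wt b C 0 u + wt b C 1 u + wt b C 2 u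

theorem ws_eq (b : ι → Finset α) (C : Fin 3 → Finset α) (u : α) {i j l : Fin 3} (hij : i ≠ j)
    (hjl : j ≠ l) (hil : i ≠ l) : ws b C u = wt b C i u + wt b C j u + wt b C l u := by
  have h1 := sum_fin3 (fun t => wt b C t u) hij hjl hil
  have h2 := sum_fin3 (fun t => wt b C t u) (i := 0) (j := 1) (l := 2) (by decide) (by decide)
    (by decide)
  unfold ws
  rw [← h1, h2]

/-- Distinct representatives. -/
def SD (b : ι → Finset α) (C : Fin 3 → Finset α) (j l : Fin 3) (s t : α) : Prop :=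
  (1 ≤ wt b C j s ∧ 1 ≤ wt b C l t) ∨ (1 ≤ wt b C l s ∧ 1 ≤ wt b C j t)

theorem fin3_ex (i : Fin 3) : ∃ j l, i ≠ j ∧ j ≠ l ∧ i ≠ l := by
  revert i
  decide

/-- The context. -/
structure Cx (b : ι → Finset α) (V U : Finset α) (i0 j0 : ι) (a : α) (C : Fin 3 → Finset α)
    (r : ℕ) : Prop where
  h : D1 b V U i0 j0 a C
  mc : MC b V
  nsp : sp b V = ∅
  P : RF b V i0
  Q : RF b V j0
  rE : (r = 4 ∧ ∀ i, eC b V C i ≤ 2) ∨ (r = 3 ∧ ∀ i, eC b V C i ≤ 0)
  w : ∀ u ∈ V \ U, u ≠ a → r ≤ ws b C u ∧ ws b C u ≤ 4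
  wa : r + 1 ≤ ws b C a ∧ ws b C a ≤ 5

section

variable {b : ι → Finset α} {V U : Finset α} {i0 j0 : ι} {a : α} {C : Fin 3 → Finset α}
  {T : Finset α} {r : ℕ}

theorem Cx.symm (c : Cx b V U i0 j0 a C r) : Cx b V U j0 i0 a C r :=
  ⟨c.h.symm, c.mc, c.nsp, c.Q, c.P, c.rE, c.w, c.wa⟩

theorem Cx.tl (c : Cx b V U i0 j0 a C r) : TL b V U C (insert a (b j0 ∩ V)) :=
  c.h.tl c.mc.sys c.P

theorem Cx.wr (c : Cx b V U i0 j0 a C r) {u : α} (hu : u ∈ V \ U) : r ≤ ws b C u := by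
  by_cases h : u = a
  · have := c.wa
    rw [h]
    omega
  · exact (c.w u hu h).1

theorem Cx.e_nn (c : Cx b V U i0 j0 a C r) (i : Fin 3) : 0 ≤ eC b V C i :=
  c.h.dv.nn kp c.mc.sys (c.h.mem i)

theorem Cx.eq_ee (c : Cx b V U i0 j0 a C r) (i : Fin 3) : eC b V C i = ee b (C i) := by
  unfold eC
  rw [c.nsp, empty_inter, card_empty]
  simp

theorem Cx.cap (c : Cx b V U i0 j0 a C r) (t : TL b V U C T) {i j l : Fin 3} (hij : i ≠ j)
    (hjl : j ≠ l) (hil : i ≠ l) {p q u v : α} (hT : T = {p, q, u, v}) (hs : SD b C j l u v) :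
    capb (eC b V C i) (wt b C i p) (wt b C i q) :=
  t.cap c.h kp c.mc.sys hij hjl hil hT hs

theorem TL.na (t : TL b V U C T) {i j l : Fin 3} (hij : i ≠ j) (hjl : j ≠ l) (hil : i ≠ l)
    {p q u v : α} (hT : T = {p, q, u, v}) (hs : SD b C j l u v) :
    tau b (C i) + 1 ≤ tau b (C i ∪ {p, q}) := by
  rcases hs with hs | hs
  · exact t.NA i j l hij hjl hil p q u v hT hs.1 hs.2
  · exact t.NA i l j hil hjl.symm hij p q u v hT hs.1 hs.2

/-- **At most one heavy point** of a level at a component of excess zero. -/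
theorem Cx.lh (c : Cx b V U i0 j0 a C r) (t : TL b V U C T) {i : Fin 3}
    (hi : eC b V C i ≤ 0) {p q : α} (hp : p ∈ T) (hq : q ∈ T) (hpq : p ≠ q) :
    wt b C i p ≤ 1 ∨ wt b C i q ≤ 1 := by
  obtain ⟨j, l, hij, hjl, hil⟩ := fin3_ex i
  obtain ⟨s, u, hT⟩ := exists_four t.c4 hp hq hpq
  have hm := t.mem4 hT
  by_contra hcon
  rw [not_or, not_le, not_le] at hcon
  have hs := c.wr (t.sub hm.2.2.1)
  have hu := c.wr (t.sub hm.2.2.2)
  rw [ws_eq b C _ hij hjl hil] at hs hu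
  have c1 := fun hh => (c.cap t hij hjl hil hT hh).1 hi
  have c2 := fun hh => (c.cap t hij hjl hil (e_qs hT) hh).1 hi
  have c3 := fun hh => (c.cap t hij hjl hil (e_qs (e_pq hT)) hh).1 hi
  have c4 := fun hh => (c.cap t hij hjl hil (e_qs (e_st hT)) hh).1 hi
  have c5 := fun hh => (c.cap t hij hjl hil (e_qs (e_pq (e_st hT))) hh).1 hi
  -- `s, u` first
  have hT2 : T = {s, u, p, q} := e_qs (e_pq (e_st (e_qs hT)))
  have c6 := fun hh => c.cap t hij.symm hil hjl hT2 hh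
  have c7 := fun hh => c.cap t hil.symm hij hjl.symm hT2 hh
  have kj1 := t.at3 j (e_pq (e_qs hT))
  have kj2 := t.at3 j (e_pq (e_qs (e_st hT)))
  have kl1 := t.at3 l (e_pq (e_qs hT))
  have kl2 := t.at3 l (e_pq (e_qs (e_st hT)))
  have k3 := t.h2' hij hjl hil hT2
  rcases c.rE with ⟨hr, hE⟩ | ⟨hr, hE⟩
  · rw [hr] at hs hu
    exact num_lh4 (wt b C i p) (wt b C j p) (wt b C l p) (wt b C i q) (wt b C j q) (wt b C l q)
      (wt b C i s) (wt b C j s) (wt b C l s) (wt b C i u) (wt b C j u) (wt b C l u)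
      c1 c2 c3 c4 c5 (fun hh => (c6 hh).2.2 (hE j)) (fun hh => (c7 hh).2.2 (hE l))
      hs hu kj1 kj2 kl1 kl2 (by omega) hcon.1 hcon.2
  · rw [hr] at hs hu
    exact num_lh3 (wt b C i p) (wt b C j p) (wt b C l p) (wt b C i q) (wt b C j q) (wt b C l q)
      (wt b C i s) (wt b C j s) (wt b C l s) (wt b C i u) (wt b C j u) (wt b C l u)
      c1 c2 c3 c4 c5 (fun hh => (c6 hh).1 (hE j)) (fun hh => (c7 hh).1 (hE l))
      hs hu kj1 kj2 kl1 kl2 (by omega) hcon.1 hcon.2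

end

end Pool.Agent.Helper74.C5
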