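import Pool.Agent.Helper74.C5.A1a

/-!
# Double cuts with one further point: the case `e = (0, 0, *)`
-/

set_option linter.unusedSectionVars false

open Finset

namespace Pool.Agent.Helper74.C5

open Pool.Agent.Helper20.C5

variable {α ι : Type} [DecidableEq α] [DecidableEq ι] [Fintype ι]

theorem three_of {X : Finset α} (hX : X.card = 3) {u : α} (hu : u ∈ X) :
    ∃ s t, X = {u, s, t} ∧ s ≠ t := by
  have h1 : (X.erase u).card = 2 := by rw [card_erase_of_mem hu, hX]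
  obtain ⟨s, t, hst, h2⟩ := card_eq_two.mp h1
  exact ⟨s, t, by rw [← h2, insert_erase hu], hst⟩

section

variable {b : ι → Finset α} {V U : Finset α} {i0 j0 : ι} {a : α} {C : Fin 3 → Finset α}
  {T : Finset α} {r : ℕ}

/-- Representatives for all pairs of the face `X`. -/
def ASD (b : ι → Finset α) (C : Fin 3 → Finset α) (X : Finset α) (j l : Fin 3) : Prop :=
  ∀ u s t, X = {u, s, t} → SD b C j l s t

theorem SD.symm {j l : Fin 3} {s t : α} (h : SD b C j l s t) : SD b C l j s t := by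
  unfold SD at h ⊢
  tauto

theorem SD.comm {j l : Fin 3} {s t : α} (h : SD b C j l s t) : SD b C j l t s := by
  unfold SD at h ⊢
  tauto

theorem ASD.q {X : Finset α} {j l : Fin 3} (h : ASD b C X j l) (hX : X.card = 3) :
    ∀ u ∈ X, ∃ s t, X ⊆ {u, s, t} ∧ 1 ≤ wt b C j s ∧ 1 ≤ wt b C l t := by
  intro u hu
  obtain ⟨s, t, h1, -⟩ := three_of hX hu
  rcases h u s t h1 with h2 | h2
  · exact ⟨s, t, h1.subset, h2.1, h2.2⟩
  · refine ⟨t, s, ?_, h2.2, h2.1⟩
    rw [h1]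
    intro x hx
    simp only [mem_insert, mem_singleton] at hx ⊢
    tauto

theorem Cx.mem_erase_iff (c : Cx b V U i0 j0 a C r) {x : α} (hx : x ∈ (V \ U).erase a) :
    x ∈ b i0 ∩ V ∨ x ∈ b j0 ∩ V := by
  rw [mem_erase] at hx
  have h1 := (mem_sdiff.mp hx.2).1
  rcases c.h.all x hx.2 with h2 | h2 | h2
  · exact absurd h2 hx.1
  · exact Or.inl (mem_inter.mpr ⟨h2, h1⟩)
  · exact Or.inr (mem_inter.mpr ⟨h2, h1⟩)

theorem Cx.naA (c : Cx b V U i0 j0 a C r) {i j l : Fin 3} (hij : i ≠ j) (hjl : j ≠ l)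
    (hil : i ≠ l) (hQ : ASD b C (b j0 ∩ V) j l) {u : α} (hu : u ∈ b j0 ∩ V) :
    tau b (C i) + 1 ≤ tau b (C i ∪ {a, u}) := by
  obtain ⟨s, t, h1, -⟩ := three_of c.h.dv.q3 hu
  exact c.tl.na hij hjl hil (p := a) (q := u) (u := s) (v := t) (by rw [h1]) (hQ u s t h1)

/-- The cap at the further point and the Q-lemma. -/
theorem Cx.main (c : Cx b V U i0 j0 a C r) {i j l : Fin 3} (hij : i ≠ j) (hjl : j ≠ l)
    (hil : i ≠ l) (ha : 1 ≤ wt b C i a) (hP : ASD b C (b i0 ∩ V) j l)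
    (hQ : ASD b C (b j0 ∩ V) j l) :
    capb (eC b V C i) (wt b C i a) (dg b ((V \ U).erase a) (C i)) ∧
      3 + eC b V C i ≤ 2 * (dg b ((V \ U).erase a) (C i) : ℤ) := by
  constructor
  · apply c.h.capG kp c.mc.sys (singleton_subset_iff.mpr c.h.ha) (erase_subset _ _)
    · rw [disjoint_singleton_left]
      exact notMem_erase a _
    · intro x hx y hy
      rw [mem_singleton.mp hx]
      rcases c.mem_erase_iff hy with h1 | h1
      · exact c.symm.naA hij hjl hil hP h1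
      · exact c.naA hij hjl hil hQ h1
  · rw [c.eq_ee]
    exact c.h.qlem c.mc c.nsp hij hjl hil ha (hP.q c.h.dv.p3) (hQ.q c.h.dv.q3)

theorem Cx.insT (_c : Cx b V U i0 j0 a C r) {u s t : α} (h : b j0 ∩ V = {u, s, t}) :
    insert a (b j0 ∩ V) = {a, u, s, t} := by rw [h]

theorem Cx.memQ (c : Cx b V U i0 j0 a C r) {x : α} (hx : x ∈ b j0 ∩ V) :
    x ∈ V \ U ∧ x ≠ a := by
  refine ⟨c.h.dv.subQ hx, ?_⟩
  rintro rfl
  exact c.h.aj (mem_inter.mp hx).1

theorem Cx.asdA (c : Cx b V U i0 j0 a C r) {i j l : Fin 3} (hij : i ≠ j) (hjl : j ≠ l)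
    (hil : i ≠ l) (hi : eC b V C i ≤ 0) (ha : 2 ≤ wt b C i a) :
    ASD b C (b j0 ∩ V) j l := by
  intro u s t hQ
  have hT := c.insT hQ
  have tl := c.tl
  have hm := tl.mem4 hT
  have hne := four_ne tl.c4 hT
  have hs1 : wt b C i s ≤ 1 := by
    rcases c.lh tl hi hm.1 hm.2.2.1 hne.2.1 with h1 | h1
    · omega
    · exact h1
  have ht1 : wt b C i t ≤ 1 := by
    rcases c.lh tl hi hm.1 hm.2.2.2 hne.2.2.1 with h1 | h1
    · omega
    · exact h1
  have hs := c.wr (tl.sub hm.2.2.1)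
  have ht := c.wr (tl.sub hm.2.2.2)
  rw [ws_eq b C _ hij hjl hil] at hs ht
  -- `{s, t, a, u}`
  have hT2 : insert a (b j0 ∩ V) = {s, t, a, u} := e_qs (e_pq (e_st (e_qs hT)))
  have c1 := fun hh => c.cap tl hij.symm hil hjl hT2 hh
  have c2 := fun hh => c.cap tl hil.symm hij hjl.symm hT2 hh
  have kj := tl.at3 j hT
  have kl := tl.at3 l hT
  exact num_sdA (eC b V C j) (eC b V C l) r (by
    rcases c.rE with ⟨hr, hE⟩ | ⟨hr, hE⟩
    · exact Or.inl ⟨hr, hE j, hE l⟩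
    · exact Or.inr ⟨hr, hE j, hE l⟩)
    (wt b C i a) (wt b C j a) (wt b C l a) (wt b C i u) (wt b C j u) (wt b C l u)
    (wt b C i s) (wt b C j s) (wt b C l s) (wt b C i t) (wt b C j t) (wt b C l t)
    (by omega) c1 c2 hs ht hs1 ht1 kj kl

/-- **Lemma A**. -/
theorem Cx.lemA (c : Cx b V U i0 j0 a C r) {i : Fin 3} (hi : eC b V C i ≤ 0) :
    wt b C i a ≤ 1 := by
  by_contra hcon
  rw [not_le] at hcon
  obtain ⟨j, l, hij, hjl, hil⟩ := fin3_ex i
  have h1 := c.main hij hjl hil (by omega) (c.symm.asdA hij hjl hil hi hcon)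
    (c.asdA hij hjl hil hi hcon)
  have h2 := h1.1.1 hi
  have h3 := h1.2
  have h4 := c.e_nn i
  omega

/-- The case `r = 3` is impossible. -/
theorem Cx.r4 (c : Cx b V U i0 j0 a C r) : r = 4 := by
  rcases c.rE with ⟨hr, hE⟩ | ⟨hr, hE⟩
  · exact hr
  · exfalso
    have h0 := c.lemA (hE 0)
    have h1 := c.lemA (hE 1)
    have h2 := c.lemA (hE 2)
    have h3 := c.wa.1
    unfold ws at h3
    omega

theorem Cx.w4 (c : Cx b V U i0 j0 a C r) {x : α} (hx : x ∈ b j0 ∩ V) : ws b C x = 4 := by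
  have h1 := c.memQ hx
  have h2 := c.w x h1.1 h1.2
  have h3 := c.r4
  omega

theorem Cx.w5 (c : Cx b V U i0 j0 a C r) : ws b C a = 5 := by
  have h2 := c.wa
  have h3 := c.r4
  omega

theorem Cx.asdB (c : Cx b V U i0 j0 a C r)
    (hsum : eC b V C 0 + eC b V C 1 + eC b V C 2 ≤ 2) {i j l : Fin 3} (hij : i ≠ j) (hjl : j ≠ l)
    (hil : i ≠ l) (ha : 4 ≤ wt b C i a) : ASD b C (b j0 ∩ V) j l := by
  intro u s t hQ
  have hT := c.insT hQ
  have tl := c.tl
  have hm := tl.mem4 hT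
  have hs := c.w4 (x := s) (by rw [hQ]; simp)
  have ht := c.w4 (x := t) (by rw [hQ]; simp)
  rw [ws_eq b C _ hij hjl hil] at hs ht
  have hT2 : insert a (b j0 ∩ V) = {s, t, a, u} := e_qs (e_pq (e_st (e_qs hT)))
  have c1 := fun hh => c.cap tl hij.symm hil hjl hT2 hh
  have c2 := fun hh => c.cap tl hil.symm hij hjl.symm hT2 hh
  -- `{a, s, u, t}` and `{a, t, u, s}`
  have c3 := fun hh => c.cap tl hij hjl hil (e_qs hT) hh
  have c4 := fun hh => c.cap tl hij hjl hil (e_qs (e_st hT)) hh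
  have kj := tl.at3 j hT
  have kl := tl.at3 l hT
  have q1 := tl.h2' hij hjl hil hT2
  have q2 := tl.h2' hij hjl hil (e_pq (e_qs (e_pq (e_qs hT))))
  have q3 := tl.h2' hij hjl hil (e_pq (e_qs (e_pq (e_qs (e_st hT)))))
  have hE : eC b V C i + eC b V C j + eC b V C l ≤ 2 := by
    rw [← sum_fin3 (fun t => eC b V C t) hij hjl hil,
      sum_fin3 (fun t => eC b V C t) (i := 0) (j := 1) (l := 2) (by decide) (by decide)
      (by decide)]
    exact hsum
  exact num_sdB (eC b V C i) (eC b V C j) (eC b V C l) (c.e_nn i) (c.e_nn j) (c.e_nn l) hE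
    (wt b C i a) (wt b C j a) (wt b C l a) (wt b C i u) (wt b C j u) (wt b C l u)
    (wt b C i s) (wt b C j s) (wt b C l s) (wt b C i t) (wt b C j t) (wt b C l t)
    ha c1 c2 c3 c4 hs.symm ht.symm kj kl (by omega) (by omega) (by omega)

/-- **Lemma B**. -/
theorem Cx.lemB (c : Cx b V U i0 j0 a C r)
    (hsum : eC b V C 0 + eC b V C 1 + eC b V C 2 ≤ 2) (i : Fin 3) : wt b C i a ≤ 3 := by
  by_contra hcon
  rw [not_le] at hcon
  obtain ⟨j, l, hij, hjl, hil⟩ := fin3_ex i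
  have h1 := c.main hij hjl hil (by omega) (c.symm.asdB hsum hij hjl hil hcon)
    (c.asdB hsum hij hjl hil hcon)
  have h2 := h1.1
  have h3 := h1.2
  have h4 := c.e_nn i
  have hE : eC b V C i ≤ 2 := by
    rw [← sum_fin3 (fun t => eC b V C t) (i := 0) (j := 1) (l := 2) (by decide) (by decide)
      (by decide), sum_fin3 (fun t => eC b V C t) hij hjl hil] at hsum
    have := c.e_nn j
    have := c.e_nn l
    omega
  unfold capb at h2
  omega

theorem Cx.asdC (c : Cx b V U i0 j0 a C r) {i j l : Fin 3} (hij : i ≠ j) (hjl : j ≠ l)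
    (hil : i ≠ l) (hi : eC b V C i ≤ 0) (hj : eC b V C j ≤ 0) (hl : eC b V C l ≤ 2)
    (hai : 1 ≤ wt b C i a) (haj : 1 ≤ wt b C j a) (hal : 3 ≤ wt b C l a) :
    ASD b C (b j0 ∩ V) i j := by
  intro u s t hQ
  have hT := c.insT hQ
  have tl := c.tl
  have hm := tl.mem4 hT
  have hs := c.w4 (x := s) (by rw [hQ]; simp)
  have ht := c.w4 (x := t) (by rw [hQ]; simp)
  rw [ws_eq b C _ hij hjl hil] at hs ht
  have hT2 : insert a (b j0 ∩ V) = {s, t, a, u} := e_qs (e_pq (e_st (e_qs hT)))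
  have c1 := fun hh => c.cap tl hij hjl hil hT2 hh
  have c2 := fun hh => c.cap tl hij.symm hil hjl hT2 hh
  have c3 := fun hh => c.cap tl hil.symm hij hjl.symm (e_qs hT) hh
  have c4 := fun hh => c.cap tl hil.symm hij hjl.symm (e_qs (e_st hT)) hh
  have ki := tl.at3 i hT
  have kj := tl.at3 j hT
  have q1 := tl.h2' hil.symm hij hjl.symm hT2
  have q2 := tl.h2' hil.symm hij hjl.symm (e_pq (e_qs (e_pq (e_qs hT))))
  have q3 := tl.h2' hil.symm hij hjl.symm (e_pq (e_qs (e_pq (e_qs (e_st hT)))))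
  exact num_sdC (eC b V C i) (eC b V C j) (eC b V C l) hi hj hl
    (wt b C i a) (wt b C j a) (wt b C l a) (wt b C i u) (wt b C j u) (wt b C l u)
    (wt b C i s) (wt b C j s) (wt b C l s) (wt b C i t) (wt b C j t) (wt b C l t)
    hai haj hal c1 c2 c3 c4 hs.symm ht.symm ki kj (by omega) (by omega) (by omega)

end

end Pool.Agent.Helper74.C5
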