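import Pool.Agent.Helper74.C5.A1b

/-!
# Double cuts with one further point: the end of the case `e = (0, 0, *)`
-/

set_option linter.unusedSectionVars false

open Finset

namespace Pool.Agent.Helper74.C5

open Pool.Agent.Helper20.C5

variable {α ι : Type} [DecidableEq α] [DecidableEq ι] [Fintype ι]

theorem dg_all {b : ι → Finset α} {G W : Finset α} {z : α} (hz : z ∈ G)
    (h : dg b G W ≤ dg b {z} W) {e : ι} (h1 : (b e ∩ G).Nonempty) (h2 : (b e ∩ W).Nonempty) :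
    z ∈ b e := by
  have h3 : (univ.filter fun i => (b i ∩ {z}).Nonempty ∧ (b i ∩ W).Nonempty) ⊆
      univ.filter fun i => (b i ∩ G).Nonempty ∧ (b i ∩ W).Nonempty := by
    intro i hi
    rw [mem_filter] at hi ⊢
    obtain ⟨-, ⟨y, hy⟩, h4⟩ := hi
    rw [mem_inter, mem_singleton] at hy
    rw [hy.2] at hy
    exact ⟨mem_univ i, ⟨z, mem_inter.mpr ⟨hy.1, hz⟩⟩, h4⟩
  have h4 := eq_of_subset_of_card_le h3 h
  have h5 : e ∈ univ.filter fun i => (b i ∩ {z}).Nonempty ∧ (b i ∩ W).Nonempty := by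
    rw [h4]
    exact mem_filter.mpr ⟨mem_univ e, h1, h2⟩
  obtain ⟨-, ⟨y, hy⟩, -⟩ := mem_filter.mp h5
  rw [mem_inter, mem_singleton] at hy
  rw [hy.2] at hy
  exact hy.1

theorem num_bij {xi xj xl yi yj yl : ℕ} (hx : xi + xj + xl = 4) (hy : yi + yj + yl = 4)
    (hx0 : xl = 0) (hy0 : yl = 0) (h1 : xi ≤ 1 ∨ yi ≤ 1) (h2 : xj ≤ 1 ∨ yj ≤ 1) :
    (2 ≤ xi ∧ 2 ≤ yj) ∨ (2 ≤ yi ∧ 2 ≤ xj) := by omega

theorem dg_mono {b : ι → Finset α} {G H W : Finset α} (h : G ⊆ H) : dg b G W ≤ dg b H W := by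
  unfold dg
  apply card_le_card
  intro i hi
  rw [mem_filter] at hi ⊢
  obtain ⟨h1, ⟨y, hy⟩, h2⟩ := hi
  rw [mem_inter] at hy
  exact ⟨h1, ⟨y, mem_inter.mpr ⟨hy.1, h hy.2⟩⟩, h2⟩

section

variable {b : ι → Finset α} {V U : Finset α} {i0 j0 : ι} {a : α} {C : Fin 3 → Finset α}
  {T : Finset α} {r : ℕ}

/-- The final cover. -/
theorem Cx.fin (c : Cx b V U i0 j0 a C r) {i j l : Fin 3} (hij : i ≠ j) (hjl : j ≠ l)
    (hil : i ≠ l) {x y z x' y' z' : α} (hQ : b j0 ∩ V = {x, y, z}) (hP : b i0 ∩ V = {x', y', z'})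
    (h1 : tau b (C i ∪ {x, x'}) ≤ tau b (C i)) (h2 : tau b (C j ∪ {y, y'}) ≤ tau b (C j))
    (h3 : tau b (C l ∪ {z, z'}) ≤ tau b (C l)) : False := by
  have hcb := c.mc.sys.cb
  have hsP := c.h.dv.subP
  have hsQ := c.h.dv.subQ
  rw [hP] at hsP
  rw [hQ] at hsQ
  obtain ⟨e, he⟩ := hcb a (mem_sdiff.mp c.h.ha).1
  have h4 := c.h.cov hcb hij hjl hil (Ti := {x, x'}) (Tj := {y, y'}) (Tl := {z, z'}) (R := {a})
    (r := 1) (by
      intro v hv
      rw [mem_insert, mem_singleton] at hv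
      rcases hv with rfl | rfl
      · exact hsQ (by simp)
      · exact hsP (by simp)) (by
      intro v hv
      rw [mem_insert, mem_singleton] at hv
      rcases hv with rfl | rfl
      · exact hsQ (by simp)
      · exact hsP (by simp)) (by
      intro v hv
      rw [mem_insert, mem_singleton] at hv
      rcases hv with rfl | rfl
      · exact hsQ (by simp)
      · exact hsP (by simp)) (cv_block e (singleton_subset_iff.mpr he)) (by
      intro v hv
      have hvV := (mem_sdiff.mp hv).1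
      rcases c.h.all v hv with h5 | h5 | h5
      · rw [h5]
        simp
      · have h6 : v ∈ b i0 ∩ V := mem_inter.mpr ⟨h5, hvV⟩
        rw [hP] at h6
        simp only [mem_insert, mem_singleton] at h6
        simp only [mem_union, mem_insert, mem_singleton]
        tauto
      · have h6 : v ∈ b j0 ∩ V := mem_inter.mpr ⟨h5, hvV⟩
        rw [hQ] at h6
        simp only [mem_insert, mem_singleton] at h6
        simp only [mem_union, mem_insert, mem_singleton]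
        tauto)
  omega

/-- Two heavy points at a component of excess zero are absorbed. -/
theorem Cx.absH (c : Cx b V U i0 j0 a C r) {i : Fin 3} (hi : eC b V C i ≤ 0) {x y : α}
    (hx : x ∈ V \ U) (hy : y ∈ V \ U) (hxy : x ≠ y) (h1 : 2 ≤ wt b C i x)
    (h2 : 2 ≤ wt b C i y) : tau b (C i ∪ {x, y}) ≤ tau b (C i) := by
  by_contra hcon
  rw [not_le] at hcon
  have h3 := (c.h.capP kp c.mc.sys hx hy hxy hcon).1 hi
  omega

theorem Cx.neQP (c : Cx b V U i0 j0 a C r) {x y : α} (hx : x ∈ b j0 ∩ V) (hy : y ∈ b i0 ∩ V) :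
    x ≠ y := by
  rintro rfl
  exact (disjoint_left.mp c.h.dv.pq) hy hx

theorem Cx.lhQ (c : Cx b V U i0 j0 a C r) {i : Fin 3} (hi : eC b V C i ≤ 0) {u s t : α}
    (hQ : b j0 ∩ V = {u, s, t}) :
    (wt b C i u ≤ 1 ∨ wt b C i s ≤ 1) ∧ (wt b C i u ≤ 1 ∨ wt b C i t ≤ 1) ∧
      (wt b C i s ≤ 1 ∨ wt b C i t ≤ 1) := by
  have hT := c.insT hQ
  have tl := c.tl
  have hm := tl.mem4 hT
  have hne := four_ne tl.c4 hT
  exact ⟨c.lh tl hi hm.2.1 hm.2.2.1 hne.2.2.2.1, c.lh tl hi hm.2.1 hm.2.2.2 hne.2.2.2.2.1,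
    c.lh tl hi hm.2.2.1 hm.2.2.2 hne.2.2.2.2.2⟩

/-- A point which is light at both. -/
theorem Cx.light (c : Cx b V U i0 j0 a C r) {i j : Fin 3}
    (hi : eC b V C i ≤ 0) (hj : eC b V C j ≤ 0) :
    ∃ z ∈ b j0 ∩ V, wt b C i z ≤ 1 ∧ wt b C j z ≤ 1 := by
  obtain ⟨u, s, t, -, -, -, hQ⟩ := card_eq_three.mp c.h.dv.q3
  have h1 := c.lhQ hi hQ
  have h2 := c.lhQ hj hQ
  have hu : u ∈ b j0 ∩ V := by rw [hQ]; simp
  have hs : s ∈ b j0 ∩ V := by rw [hQ]; simp
  have ht : t ∈ b j0 ∩ V := by rw [hQ]; simp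
  by_cases h3 : wt b C i u ≤ 1 ∧ wt b C j u ≤ 1
  · exact ⟨u, hu, h3⟩
  · by_cases h4 : wt b C i s ≤ 1 ∧ wt b C j s ≤ 1
    · exact ⟨s, hs, h4⟩
    · exact ⟨t, ht, by omega⟩

theorem Cx.a113 (c : Cx b V U i0 j0 a C r)
    (hsum : eC b V C 0 + eC b V C 1 + eC b V C 2 ≤ 2) {i j l : Fin 3} (hij : i ≠ j) (hjl : j ≠ l)
    (hil : i ≠ l) (hi : eC b V C i ≤ 0) (hj : eC b V C j ≤ 0) :
    wt b C i a = 1 ∧ wt b C j a = 1 ∧ wt b C l a = 3 := by
  have h1 := c.lemA hi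
  have h2 := c.lemA hj
  have h3 := c.lemB hsum l
  have h4 := c.w5
  rw [ws_eq b C _ hij hjl hil] at h4
  omega

/-- The case `e = (0, 0, *)`: the blocks between the faces and the third component. -/
theorem Cx.two (c : Cx b V U i0 j0 a C r)
    (hsum : eC b V C 0 + eC b V C 1 + eC b V C 2 ≤ 2) {i j l : Fin 3} (hij : i ≠ j) (hjl : j ≠ l)
    (hil : i ≠ l) (hi : eC b V C i ≤ 0) (hj : eC b V C j ≤ 0) :
    eC b V C l ≤ 1 ∧ dg b ((V \ U).erase a) (C l) ≤ 2 := by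
  have h1 := c.a113 hsum hij hjl hil hi hj
  have hl : eC b V C l ≤ 2 := by
    have h2 := c.e_nn 0
    have h3 := c.e_nn 1
    have h4 := c.e_nn 2
    have h5 : ∀ l : Fin 3, l = 0 ∨ l = 1 ∨ l = 2 := by decide
    rcases h5 l with rfl | rfl | rfl <;> omega
  have h2 := c.main hil.symm hij hjl.symm (by omega)
    (c.symm.asdC hij hjl hil hi hj hl (by omega) (by omega) (by omega))
    (c.asdC hij hjl hil hi hj hl (by omega) (by omega) (by omega))
  have h3 := h2.1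
  have h4 := h2.2
  rw [h1.2.2] at h3
  unfold capb at h3
  omega

/-- **The case `e = (0, 0, *)` is impossible.** -/
theorem Cx.no00 (c : Cx b V U i0 j0 a C r)
    (hsum : eC b V C 0 + eC b V C 1 + eC b V C 2 ≤ 2) {i j l : Fin 3} (hij : i ≠ j) (hjl : j ≠ l)
    (hil : i ≠ l) (hi : eC b V C i ≤ 0) (hj : eC b V C j ≤ 0) : False := by
  have hM := (c.two hsum hij hjl hil hi hj).2
  have hsys := c.mc.sys
  obtain ⟨z, hz, hzi, hzj⟩ := c.light hi hj
  obtain ⟨z', hz', hzi', hzj'⟩ := c.symm.light hi hj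
  have hzz := c.neQP hz hz'
  have hz4 := c.w4 hz
  have hz4' := c.symm.w4 hz'
  rw [ws_eq b C _ hij hjl hil] at hz4 hz4'
  have hzE : z ∈ (V \ U).erase a := mem_erase.mpr ⟨(c.memQ hz).2, (c.memQ hz).1⟩
  have hzE' : z' ∈ (V \ U).erase a := mem_erase.mpr ⟨(c.symm.memQ hz').2, (c.symm.memQ hz').1⟩
  have hd : dg b ((V \ U).erase a) (C l) ≤ dg b {z} (C l) := by
    refine hM.trans ?_
    show 2 ≤ wt b C l z
    omega
  have hd' : dg b ((V \ U).erase a) (C l) ≤ dg b {z'} (C l) := by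
    refine hM.trans ?_
    show 2 ≤ wt b C l z'
    omega
  -- every block at `C l` contains `z` and `z'`
  have key : ∀ u ∈ (V \ U).erase a, u ≠ z → u ≠ z' → wt b C l u = 0 := by
    intro u hu huz huz'
    by_contra hne
    obtain ⟨e, hue, k, hk, hke⟩ := dg_aj (b := b) (x := u) (W := C l)
      (Nat.one_le_iff_ne_zero.mpr hne)
    have h1 := dg_all hzE hd ⟨u, mem_inter.mpr ⟨hue, hu⟩⟩ ⟨k, mem_inter.mpr ⟨hke, hk⟩⟩
    have h2 := dg_all hzE' hd' ⟨u, mem_inter.mpr ⟨hue, hu⟩⟩ ⟨k, mem_inter.mpr ⟨hke, hk⟩⟩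
    have hS : ∀ x ∈ (V \ U).erase a, x ≠ k := by
      rintro x hx rfl
      exact (mem_sdiff.mp (mem_of_mem_erase hx)).2 (cps_sub (c.h.mem l) hk)
    have h3 : ({u, z, z', k} : Finset α) ⊆ b e ∩ V := by
      intro x hx
      simp only [mem_insert, mem_singleton] at hx
      rcases hx with rfl | rfl | rfl | rfl
      · exact mem_inter.mpr ⟨hue, (mem_sdiff.mp (mem_of_mem_erase hu)).1⟩
      · exact mem_inter.mpr ⟨h1, (mem_inter.mp hz).2⟩
      · exact mem_inter.mpr ⟨h2, (mem_inter.mp hz').2⟩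
      · exact mem_inter.mpr ⟨hke, c.h.subV l hk⟩
    have h4 := card_le_card h3
    have h5 := hsys.sz e
    rw [card_insert_of_notMem, card_insert_of_notMem, card_pair (hS z' hzE')] at h4
    · omega
    · simp only [mem_insert, mem_singleton, not_or]
      exact ⟨hzz, hS z hzE⟩
    · simp only [mem_insert, mem_singleton, not_or]
      exact ⟨huz, huz', hS u hu⟩
  -- the other points
  have bij : ∀ {i0 j0 : ι}, Cx b V U i0 j0 a C r → ∀ z ∈ b j0 ∩ V,
      (∀ u ∈ b j0 ∩ V, u ≠ z → wt b C l u = 0) →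
      ∃ x y, b j0 ∩ V = {x, y, z} ∧ 2 ≤ wt b C i x ∧ 2 ≤ wt b C j y := by
    intro i0 j0 c z hz hk
    obtain ⟨x, y, hQ, hxy⟩ := three_of c.h.dv.q3 hz
    have hx : x ∈ b j0 ∩ V := by rw [hQ]; simp
    have hy : y ∈ b j0 ∩ V := by rw [hQ]; simp
    have hne := four_ne c.tl.c4 (c.insT hQ)
    have h1 := hk x hx hne.2.2.2.1.symm
    have h2 := hk y hy hne.2.2.2.2.1.symm
    have h3 := c.w4 hx
    have h4 := c.w4 hy
    rw [ws_eq b C _ hij hjl hil] at h3 h4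
    rcases num_bij h3 h4 h1 h2 (c.lhQ hi hQ).2.2 (c.lhQ hj hQ).2.2 with h7 | h7
    · refine ⟨x, y, ?_, h7.1, h7.2⟩
      rw [hQ]
      ext v
      simp only [mem_insert, mem_singleton]
      tauto
    · refine ⟨y, x, ?_, h7.1, h7.2⟩
      rw [hQ]
      ext v
      simp only [mem_insert, mem_singleton]
      tauto
  obtain ⟨x, y, hQ, hx, hy⟩ := bij c z hz (by
    intro u hu huz
    exact key u (mem_erase.mpr ⟨(c.memQ hu).2, (c.memQ hu).1⟩) huz (c.neQP hu hz'))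
  obtain ⟨x', y', hP, hx', hy'⟩ := bij c.symm z' hz' (by
    intro u hu huz
    exact key u (mem_erase.mpr ⟨(c.symm.memQ hu).2, (c.symm.memQ hu).1⟩)
      (c.neQP hz hu).symm huz)
  have mx : x ∈ b j0 ∩ V := by rw [hQ]; simp
  have my : y ∈ b j0 ∩ V := by rw [hQ]; simp
  have mx' : x' ∈ b i0 ∩ V := by rw [hP]; simp
  have my' : y' ∈ b i0 ∩ V := by rw [hP]; simp
  refine c.fin hij hjl hil hQ hP ?_ ?_ ?_
  · exact c.absH hi (c.memQ mx).1 (c.symm.memQ mx').1 (c.neQP mx mx') hx hx'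
  · exact c.absH hj (c.memQ my).1 (c.symm.memQ my').1 (c.neQP my my') hy hy'
  · obtain ⟨e, hze, k, hk, hke⟩ := dg_aj (b := b) (x := z) (W := C l) (by
      show 1 ≤ wt b C l z
      omega)
    have h2 := dg_all hzE' hd' ⟨z, mem_inter.mpr ⟨hze, hzE⟩⟩ ⟨k, mem_inter.mpr ⟨hke, hk⟩⟩
    refine absorb (hsys.cb.mono (c.h.subV l)) (c.h.dv.typ _ (c.h.mem l)) hk hke ?_
    intro v hv
    rw [mem_insert, mem_singleton] at hv
    rcases hv with rfl | rfl
    · exact hze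
    · exact h2

end

end Pool.Agent.Helper74.C5
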