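import Pool.Agent.Helper74.C5.TLv

/-!
# Arithmetic of a level, `e = (0, 1, 1)`
-/

namespace Pool.Agent.Helper74.C5

theorem capb.c1 {E : ℤ} {p q : ℕ} (h : capb E p q) (hE : E ≤ 1) :
    (p ≤ 1 ∨ q ≤ 3) ∧ (p ≤ 3 ∨ q ≤ 1) ∧ (p ≤ 2 ∨ q ≤ 2) :=
  ⟨(h.2.1 hE).1, (h.2.1 hE).2, h.2.2 (by omega)⟩

theorem capb.c3 {E : ℤ} {p q : ℕ} (h : capb E p q) (hE : E ≤ 1) (hp : 3 ≤ p) : q ≤ 2 := by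
  have := h.c1 hE
  omega

theorem capb.c2 {E : ℤ} {p q : ℕ} (h : capb E p q) (hE : E ≤ 1) (hp : 2 ≤ p) : q ≤ 3 := by
  have := h.c1 hE
  omega

/-- Representatives if `al = 3`. -/
theorem num_sdD (ai aj al ui uj ul si sj sl ti tj tl : ℕ) (ha3 : 3 ≤ al) (ha2 : 1 ≤ aj)
    (c1 : ((1 ≤ aj ∧ 1 ≤ ul) ∨ (1 ≤ al ∧ 1 ≤ uj)) → si ≤ 1 ∨ ti ≤ 1)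
    (c2 : ((1 ≤ ai ∧ 1 ≤ ul) ∨ (1 ≤ al ∧ 1 ≤ ui)) →
      (sj ≤ 1 ∨ tj ≤ 3) ∧ (sj ≤ 3 ∨ tj ≤ 1) ∧ (sj ≤ 2 ∨ tj ≤ 2))
    (c3 : ((1 ≤ ui ∧ 1 ≤ tj) ∨ (1 ≤ uj ∧ 1 ≤ ti)) → sl ≤ 2)
    (c4 : ((1 ≤ ui ∧ 1 ≤ sj) ∨ (1 ≤ uj ∧ 1 ≤ si)) → tl ≤ 2)
    (c5 : ((1 ≤ ui ∧ 1 ≤ tj) ∨ (1 ≤ uj ∧ 1 ≤ ti)) → ((1 ≤ ui ∧ 1 ≤ sj) ∨ (1 ≤ uj ∧ 1 ≤ si)) →
      ((1 ≤ ai ∧ 1 ≤ uj) ∨ (1 ≤ aj ∧ 1 ≤ ui)) → sl + tl ≤ 2)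
    (hs : 4 = si + sj + sl) (ht : 4 = ti + tj + tl)
    (ki : 1 ≤ ui ∨ 1 ≤ si ∨ 1 ≤ ti) (kj : 1 ≤ uj ∨ 1 ≤ sj ∨ 1 ≤ tj)
    (q1 : 1 ≤ si + sj + ti + tj) (q2 : 1 ≤ si + sj + ui + uj) (q3 : 1 ≤ ti + tj + ui + uj) :
    (1 ≤ si ∧ 1 ≤ tj) ∨ (1 ≤ sj ∧ 1 ≤ ti) := by
  have h1le : 1 ≤ al := by
    clear c1 c2 c3 c4 c5
    omega
  by_contra hcon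
  have e1 : ¬ (si = 0 ∧ sj = 0) := by
    clear c1 c2 c4 c5
    omega
  have e2 : ¬ (ti = 0 ∧ tj = 0) := by
    clear c1 c2 c3 c5
    omega
  have : (1 ≤ si ∧ 1 ≤ ti ∧ sj = 0 ∧ tj = 0) ∨ (1 ≤ sj ∧ 1 ≤ tj ∧ si = 0 ∧ ti = 0) := by
    clear c1 c2 c3 c4 c5
    omega
  rcases this with h | h
  · have k1 : 1 ≤ uj := by
      clear c1 c2 c3 c4 c5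
      omega
    have d1 := c1 (Or.inr ⟨h1le, k1⟩)
    have d3 := c3 (Or.inr ⟨k1, h.2.1⟩)
    have d4 := c4 (Or.inr ⟨k1, h.1⟩)
    clear c1 c2 c3 c4 c5
    omega
  · have k1 : 1 ≤ ui := by
      clear c1 c2 c3 c4 c5
      omega
    have d2 := c2 (Or.inr ⟨h1le, k1⟩)
    have d3 := c3 (Or.inl ⟨k1, h.2.1⟩)
    have d4 := c4 (Or.inl ⟨k1, h.1⟩)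
    have d5 := c5 (Or.inl ⟨k1, h.2.1⟩) (Or.inl ⟨k1, h.1⟩) (Or.inr ⟨ha2, k1⟩)
    clear c1 c2 c3 c4 c5
    omega

/-- No representatives for `{s, t}` in `i, l`. -/
theorem num_N1 (ai aj al ui uj ul si sj sl ti tj tl : ℕ) (ha1 : ai = 1) (ha2 : aj = 2)
    (ha3 : al = 2)
    (c1 : ((1 ≤ aj ∧ 1 ≤ ul) ∨ (1 ≤ al ∧ 1 ≤ uj)) → si ≤ 1 ∨ ti ≤ 1)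
    (c2 : ((1 ≤ ai ∧ 1 ≤ ul) ∨ (1 ≤ al ∧ 1 ≤ ui)) →
      (sj ≤ 1 ∨ tj ≤ 3) ∧ (sj ≤ 3 ∨ tj ≤ 1) ∧ (sj ≤ 2 ∨ tj ≤ 2))
    (c3 : ((1 ≤ ai ∧ 1 ≤ uj) ∨ (1 ≤ aj ∧ 1 ≤ ui)) →
      (sl ≤ 1 ∨ tl ≤ 3) ∧ (sl ≤ 3 ∨ tl ≤ 1) ∧ (sl ≤ 2 ∨ tl ≤ 2))
    (c4 : ((1 ≤ ui ∧ 1 ≤ tl) ∨ (1 ≤ ul ∧ 1 ≤ ti)) → sj ≤ 3)
    (c5 : ((1 ≤ ui ∧ 1 ≤ sl) ∨ (1 ≤ ul ∧ 1 ≤ si)) → tj ≤ 3)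
    (c6 : ((1 ≤ ui ∧ 1 ≤ tj) ∨ (1 ≤ uj ∧ 1 ≤ ti)) → sl ≤ 3)
    (c7 : ((1 ≤ ui ∧ 1 ≤ sj) ∨ (1 ≤ uj ∧ 1 ≤ si)) → tl ≤ 3)
    (c8 : ((1 ≤ ui ∧ 1 ≤ tl) ∨ (1 ≤ ul ∧ 1 ≤ ti)) → ((1 ≤ ui ∧ 1 ≤ sl) ∨ (1 ≤ ul ∧ 1 ≤ si)) →
      ((1 ≤ ai ∧ 1 ≤ ul) ∨ (1 ≤ al ∧ 1 ≤ ui)) → sj + tj ≤ 3)
    (c9 : ((1 ≤ ui ∧ 1 ≤ tj) ∨ (1 ≤ uj ∧ 1 ≤ ti)) → ((1 ≤ ui ∧ 1 ≤ sj) ∨ (1 ≤ uj ∧ 1 ≤ si)) →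
      ((1 ≤ ai ∧ 1 ≤ uj) ∨ (1 ≤ aj ∧ 1 ≤ ui)) → sl + tl ≤ 3)
    (hs : 4 = si + sj + sl) (ht : 4 = ti + tj + tl)
    (ki : 1 ≤ ui ∨ 1 ≤ si ∨ 1 ≤ ti) (kl : 1 ≤ ul ∨ 1 ≤ sl ∨ 1 ≤ tl)
    (q1 : 1 ≤ si + sl + ti + tl) (q2 : 1 ≤ si + sl + ui + ul) (q3 : 1 ≤ ti + tl + ui + ul)
    (hcon : ¬ ((1 ≤ si ∧ 1 ≤ tl) ∨ (1 ≤ sl ∧ 1 ≤ ti))) :
    (ti = 4 ∧ si = 1 ∧ sj = 3 ∧ 1 ≤ ul) ∨ (si = 4 ∧ ti = 1 ∧ tj = 3 ∧ 1 ≤ ul) := by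
  subst ha1 ha2 ha3
  have e1 : ¬ (si = 0 ∧ sl = 0) := by
    clear c1 c2 c3 c5 c6 c7 c8 c9
    omega
  have e2 : ¬ (ti = 0 ∧ tl = 0) := by
    clear c1 c2 c3 c4 c6 c7 c8 c9
    omega
  have : (1 ≤ si ∧ 1 ≤ ti ∧ sl = 0 ∧ tl = 0) ∨ (1 ≤ sl ∧ 1 ≤ tl ∧ si = 0 ∧ ti = 0) := by
    clear c1 c2 c3 c4 c5 c6 c7 c8 c9
    omega
  rcases this with h | h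
  · have k1 : 1 ≤ ul := by
      clear c1 c2 c3 c4 c5 c6 c7 c8 c9
      omega
    have d1 := c1 (Or.inl ⟨by norm_num, k1⟩)
    have d4 := c4 (Or.inr ⟨k1, h.2.1⟩)
    have d5 := c5 (Or.inr ⟨k1, h.1⟩)
    have d8 := c8 (Or.inr ⟨k1, h.2.1⟩) (Or.inr ⟨k1, h.1⟩) (Or.inl ⟨by norm_num, k1⟩)
    clear c1 c2 c3 c4 c5 c6 c7 c8 c9
    omega
  · exfalso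
    have k1 : 1 ≤ ui := by
      clear c1 c2 c3 c4 c5 c6 c7 c8 c9
      omega
    have d2 := c2 (Or.inr ⟨by norm_num, k1⟩)
    have d3 := c3 (Or.inr ⟨by norm_num, k1⟩)
    have d4 := c4 (Or.inl ⟨k1, h.2.1⟩)
    have d5 := c5 (Or.inl ⟨k1, h.1⟩)
    have d6 : 1 ≤ tj → _ := fun hh => c6 (Or.inl ⟨k1, hh⟩)
    have d7 : 1 ≤ sj → _ := fun hh => c7 (Or.inl ⟨k1, hh⟩)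
    have d8 := c8 (Or.inl ⟨k1, h.2.1⟩) (Or.inl ⟨k1, h.1⟩) (Or.inr ⟨by norm_num, k1⟩)
    have d9 : 1 ≤ tj → 1 ≤ sj → _ := fun hh hh2 => c9 (Or.inl ⟨k1, hh⟩) (Or.inl ⟨k1, hh2⟩)
      (Or.inr ⟨by norm_num, k1⟩)
    clear c1 c2 c3 c4 c5 c6 c7 c8 c9
    omega

end Pool.Agent.Helper74.C5
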