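import Pool.Agent.Helper74.C5.A1c
import Pool.Agent.Helper74.C5.NumB

/-!
# Double cuts with one further point: the case `e = (0, 1, 1)`
-/

set_option linter.unusedSectionVars false

open Finset

namespace Pool.Agent.Helper74.C5

open Pool.Agent.Helper20.C5

variable {α ι : Type} [DecidableEq α] [DecidableEq ι] [Fintype ι]

theorem na_nc {b : ι → Finset α} {W : Finset α} (hc : Cb b W) (hv : Vc b W) {x y : α}
    (h : tau b W + 1 ≤ tau b (W ∪ {x, y})) : ∀ i, x ∈ b i → y ∈ b i → ∀ c ∈ W, c ∉ b i := by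
  intro i hx hy c hcW hci
  have h1 := absorb hc hv hcW hci (T := {x, y}) (by
    intro v hv
    rw [mem_insert, mem_singleton] at hv
    rcases hv with rfl | rfl
    · exact hx
    · exact hy)
  omega

/-- Degrees of disjoint sets without common blocks. -/
theorem dg_add {b : ι → Finset α} {G H W : Finset α}
    (h : ∀ i, ∀ x ∈ G, ∀ y ∈ H, x ∈ b i → y ∈ b i → ∀ c ∈ W, c ∉ b i) :
    dg b (G ∪ H) W = dg b G W + dg b H W := by
  unfold dg
  rw [← card_union_of_disjoint]
  · congr 1
    ext i
    rw [mem_union, mem_filter, mem_filter, mem_filter, inter_union_distrib_left, union_nonempty]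
    tauto
  · rw [disjoint_left]
    intro i hi hi2
    obtain ⟨-, ⟨x, hx⟩, c, hc⟩ := mem_filter.mp hi
    obtain ⟨-, ⟨y, hy⟩, -⟩ := mem_filter.mp hi2
    rw [mem_inter] at hx hy hc
    exact h i x hx.2 y hy.2 hx.1 hy.1 c hc.2 hc.1

section

variable {b : ι → Finset α} {V U : Finset α} {i0 j0 : ι} {a : α} {C : Fin 3 → Finset α}
  {T : Finset α} {r : ℕ}

theorem Cx.nc (c : Cx b V U i0 j0 a C r) {i : Fin 3} {x y : α}
    (h : tau b (C i) + 1 ≤ tau b (C i ∪ {x, y})) :
    ∀ e, x ∈ b e → y ∈ b e → ∀ k ∈ C i, k ∉ b e :=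
  na_nc (c.mc.sys.cb.mono (c.h.subV i)) (c.h.dv.typ _ (c.h.mem i)) h

/-- One point against two. -/
theorem Cx.cap2 (c : Cx b V U i0 j0 a C r) (t : TL b V U C T) {i j l : Fin 3} (hij : i ≠ j)
    (hjl : j ≠ l) (hil : i ≠ l) {p q s v : α} (hT : T = {p, q, s, v}) (h1 : SD b C j l s v)
    (h2 : SD b C j l q v) (h3 : SD b C j l p v) :
    capb (eC b V C i) (wt b C i p) (wt b C i q + wt b C i s) := by
  have hm := t.mem4 hT
  have hne := four_ne t.c4 hT
  have n1 := t.na hij hjl hil hT h1
  have n2 := t.na hij hjl hil (e_qs hT) h2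
  have n3 := t.na hij hjl hil (e_qs (e_pq hT)) h3
  have h4 : wt b C i q + wt b C i s = dg b {q, s} (C i) := (dg_pair (c.nc n3)).symm
  rw [h4]
  apply c.h.capG kp c.mc.sys (singleton_subset_iff.mpr (t.sub hm.1))
  · intro x hx
    rw [mem_insert, mem_singleton] at hx
    rcases hx with rfl | rfl
    · exact t.sub hm.2.1
    · exact t.sub hm.2.2.1
  · rw [disjoint_singleton_left, mem_insert, mem_singleton, not_or]
    exact ⟨hne.1, hne.2.1⟩
  · intro x hx y hy
    rw [mem_singleton.mp hx]
    rw [mem_insert, mem_singleton] at hy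
    rcases hy with rfl | rfl
    · exact n1
    · exact n2

/-- One point against three. -/
theorem Cx.cap3 (c : Cx b V U i0 j0 a C r) (t : TL b V U C T) {i j l : Fin 3} (hij : i ≠ j)
    (hjl : j ≠ l) (hil : i ≠ l) {p q s v : α} (hT : T = {p, q, s, v}) (h1 : SD b C j l s v)
    (h2 : SD b C j l q v) (h3 : SD b C j l q s) (hi : eC b V C i ≤ 0) :
    wt b C i p ≤ 1 ∨ wt b C i q + wt b C i s + wt b C i v ≤ 2 := by
  have hm := t.mem4 hT
  have hne := four_ne t.c4 hT
  have n1 := t.na hij hjl hil hT h1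
  have n2 := t.na hij hjl hil (e_qs hT) h2
  have n3 := t.na hij hjl hil (e_qs (e_st hT)) h3
  have hsub : ({q, s, v} : Finset α) ⊆ V \ U := by
    intro x hx
    simp only [mem_insert, mem_singleton] at hx
    rcases hx with rfl | rfl | rfl
    · exact t.sub hm.2.1
    · exact t.sub hm.2.2.1
    · exact t.sub hm.2.2.2
  have h5 := (c.h.capG kp c.mc.sys (i := i) (G := {p}) (H := {q, s, v})
    (singleton_subset_iff.mpr (t.sub hm.1)) hsub (by
      rw [disjoint_singleton_left]
      simp only [mem_insert, mem_singleton, not_or]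
      exact ⟨hne.1, hne.2.1, hne.2.2.1⟩) (by
      intro x hx y hy
      rw [mem_singleton.mp hx]
      simp only [mem_insert, mem_singleton] at hy
      rcases hy with rfl | rfl | rfl
      · exact n1
      · exact n2
      · exact n3)).1 hi
  have h6 := dg_half c.mc.sys (c.h.subV i) (G := {q, s, v}) (by
    intro x hx
    have h7 := mem_sdiff.mp (hsub hx)
    exact mem_sdiff.mpr ⟨h7.1, fun h8 => h7.2 (cps_sub (c.h.mem i) h8)⟩)
  rw [sum_insert, sum_insert, sum_singleton] at h6
  · have h7 : dg b {p} (C i) = wt b C i p := rfl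
    have h8 : dg b {q} (C i) = wt b C i q := rfl
    have h9 : dg b {s} (C i) = wt b C i s := rfl
    have h10 : dg b {v} (C i) = wt b C i v := rfl
    omega
  · rw [mem_singleton]
    exact hne.2.2.2.2.2
  · simp only [mem_insert, mem_singleton, not_or]
    exact ⟨hne.2.2.2.1, hne.2.2.2.2.1⟩

/-- A face against the further point. -/
theorem Cx.grp (c : Cx b V U i0 j0 a C r) {i j l : Fin 3} (hij : i ≠ j)
    (hjl : j ≠ l) (hil : i ≠ l) (hQ : ASD b C (b j0 ∩ V) j l) (hE : eC b V C i ≤ 1)
    (ha : 2 ≤ wt b C i a) (haj : 1 ≤ wt b C j a) (hal : 1 ≤ wt b C l a) {x y z : α}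
    (hX : b j0 ∩ V = {x, y, z}) : wt b C i x + wt b C i y + wt b C i z ≤ 3 := by
  have tl := c.tl
  have hT := c.insT hX
  have hm := tl.mem4 hT
  have hne := four_ne tl.c4 hT
  have hx : x ∈ b j0 ∩ V := by rw [hX]; simp
  have hy : y ∈ b j0 ∩ V := by rw [hX]; simp
  have hz : z ∈ b j0 ∩ V := by rw [hX]; simp
  have hsub : b j0 ∩ V ⊆ V \ U := c.h.dv.subQ
  have h1 := c.h.capG kp c.mc.sys (i := i) (G := {a}) (H := b j0 ∩ V)
    (singleton_subset_iff.mpr c.h.ha) hsub (by
      rw [disjoint_singleton_left]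
      exact fun h2 => c.h.aj (mem_inter.mp h2).1) (by
      intro x hx y hy
      rw [mem_singleton.mp hx]
      exact c.naA hij hjl hil hQ hy)
  have h2 : dg b (b j0 ∩ V) (C i) ≤ 3 := h1.c2 hE ha
  -- every point of the face sees `j` or `l`
  have key : ∀ u ∈ b j0 ∩ V, SD b C j l a u := by
    intro u hu
    have h3 := c.w4 hu
    rw [ws_eq b C _ hij hjl hil] at h3
    have h4 : wt b C i u ≤ dg b (b j0 ∩ V) (C i) := dg_mono (singleton_subset_iff.mpr hu)
    unfold SD
    by_cases h5 : 1 ≤ wt b C l u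
    · exact Or.inl ⟨haj, h5⟩
    · exact Or.inr ⟨hal, by omega⟩
  have n1 := c.nc (tl.na hij hjl hil (p := y) (q := z) (u := a) (v := x) (by
      rw [hT]
      ext v
      simp only [mem_insert, mem_singleton]
      tauto) (key x hx))
  have n2 := c.nc (tl.na hij hjl hil (p := x) (q := z) (u := a) (v := y) (by
      rw [hT]
      ext v
      simp only [mem_insert, mem_singleton]
      tauto) (key y hy))
  have n3 := c.nc (tl.na hij hjl hil (p := x) (q := y) (u := a) (v := z) (by
      rw [hT]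
      ext v
      simp only [mem_insert, mem_singleton]
      tauto) (key z hz))
  have h6 : dg b (b j0 ∩ V) (C i) = wt b C i x + wt b C i y + wt b C i z := by
    have h7 : b j0 ∩ V = {x} ∪ {y, z} := by
      rw [hX]
      rfl
    rw [h7, dg_add, dg_pair n1]
    · unfold wt
      ring
    · intro e v hv w hw
      rw [mem_singleton.mp hv]
      rw [mem_insert, mem_singleton] at hw
      rcases hw with rfl | rfl
      · exact n3 e
      · exact n2 e
  omega

end

end Pool.Agent.Helper74.C5
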