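import Pool.Agent.Helper74.C5.A1d

/-!
# Double cuts with one further point: the end of the case `e = (0, 1, 1)`
-/

set_option linter.unusedSectionVars false

open Finset

namespace Pool.Agent.Helper74.C5

open Pool.Agent.Helper20.C5

variable {α ι : Type} [DecidableEq α] [DecidableEq ι] [Fintype ι]

section

variable {b : ι → Finset α} {V U : Finset α} {i0 j0 : ι} {a : α} {C : Fin 3 → Finset α}
  {T : Finset α} {r : ℕ}

/-- A bijection of the face `X` and the components with heavy weights. -/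
def HB (b : ι → Finset α) (C : Fin 3 → Finset α) (X : Finset α) (i j l : Fin 3) : Prop :=
  ∃ x y z, X = {x, y, z} ∧ 2 ≤ wt b C i x ∧ 2 ≤ wt b C j y ∧ 2 ≤ wt b C l z

theorem set3_perm {X : Finset α} {x y z : α} (h : X = {x, y, z}) :
    X = {y, x, z} ∧ X = {x, z, y} ∧ X = {z, x, y} ∧ X = {z, y, x} ∧ X = {y, z, x} := by
  subst h
  refine ⟨?_, ?_, ?_, ?_, ?_⟩ <;>
  · ext v
    simp only [mem_insert, mem_singleton]
    tauto

theorem HB.swap {X : Finset α} {i j l : Fin 3} (h : HB b C X i l j) : HB b C X i j l := by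
  obtain ⟨x, y, z, h1, h2, h3, h4⟩ := h
  exact ⟨x, z, y, (set3_perm h1).2.1, h2, h4, h3⟩

theorem num_J {xi xj xl yi yj yl zi zj zl : ℕ} (hx : xi + xj + xl = 4) (hy : yi + yj + yl = 4)
    (hz : zi + zj + zl = 4) (h1 : xj + yj + zj ≤ 3) (h2 : xl + yl + zl ≤ 3)
    (h3 : xi ≤ 1 ∨ yi ≤ 1) (h4 : xi ≤ 1 ∨ zi ≤ 1) (h5 : yi ≤ 1 ∨ zi ≤ 1) :
    (xi = 4 ∧ yi = 1 ∧ zi = 1) ∨ (yi = 4 ∧ xi = 1 ∧ zi = 1) ∨ (zi = 4 ∧ xi = 1 ∧ yi = 1) := by
  omega

theorem num_J2 {yi yj yl zi zj zl xj xl : ℕ} (hy : yi + yj + yl = 4)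
    (hz : zi + zj + zl = 4) (h1 : xj + yj + zj ≤ 3) (h2 : xl + yl + zl ≤ 3) (h3 : yi = 1)
    (h4 : zi = 1) : (1 ≤ yj ∧ 1 ≤ zl) ∨ (1 ≤ yl ∧ 1 ≤ zj) := by
  omega

/-- Not both sides have representatives. -/
theorem Cx.notJ (c : Cx b V U i0 j0 a C r) {i j l : Fin 3} (hij : i ≠ j) (hjl : j ≠ l)
    (hil : i ≠ l) (hi : eC b V C i ≤ 0) (hj : eC b V C j ≤ 1) (hl : eC b V C l ≤ 1)
    (hai : wt b C i a = 1) (haj : wt b C j a = 2) (hal : wt b C l a = 2)
    (h1 : ASD b C (b j0 ∩ V) i l) (h2 : ASD b C (b j0 ∩ V) i j) : False := by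
  obtain ⟨x, y, z, -, -, -, hX⟩ := card_eq_three.mp c.h.dv.q3
  have hx : x ∈ b j0 ∩ V := by rw [hX]; simp
  have hy : y ∈ b j0 ∩ V := by rw [hX]; simp
  have hz : z ∈ b j0 ∩ V := by rw [hX]; simp
  have g1 := c.grp hij.symm hil hjl h1 hj (by omega) (by omega) (by omega) hX
  have g2 := c.grp hil.symm hij hjl.symm h2 hl (by omega) (by omega) (by omega) hX
  have sx := c.w4 hx
  have sy := c.w4 hy
  have sz := c.w4 hz
  rw [ws_eq b C _ hij hjl hil] at sx sy sz
  have hl := c.lhQ hi hX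
  -- the contradiction for a permuted face
  have key : ∀ x y z, b j0 ∩ V = {x, y, z} → wt b C i x = 4 → wt b C i y = 1 →
      wt b C i z = 1 → wt b C j x + wt b C j y + wt b C j z ≤ 3 →
      wt b C l x + wt b C l y + wt b C l z ≤ 3 → False := by
    intro x y z hX hxi hyi hzi g1 g2
    have hy : y ∈ b j0 ∩ V := by rw [hX]; simp
    have hz : z ∈ b j0 ∩ V := by rw [hX]; simp
    have sy := c.w4 hy
    have sz := c.w4 hz
    rw [ws_eq b C _ hij hjl hil] at sy sz
    have hT : insert a (b j0 ∩ V) = {x, a, y, z} := e_pq (c.insT hX)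
    have k1 : SD b C j l y z := num_J2 sy sz g1 g2 hyi hzi
    have k2 : ∀ u, wt b C i u + wt b C j u + wt b C l u = 4 → wt b C i u = 1 →
        SD b C j l a u := by
      intro u hu hu1
      unfold SD
      by_cases h5 : 1 ≤ wt b C l u
      · exact Or.inl ⟨by omega, h5⟩
      · exact Or.inr ⟨by omega, by omega⟩
    have h3 := c.cap3 c.tl hij hjl hil hT k1 (k2 z sz hzi) (k2 y sy hyi) hi
    omega
  rcases num_J sx sy sz g1 g2 hl.1 hl.2.1 hl.2.2 with h3 | h3 | h3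
  · exact key x y z hX h3.1 h3.2.1 h3.2.2 g1 g2
  · exact key y x z (set3_perm hX).1 h3.1 h3.2.1 h3.2.2 (by omega) (by omega)
  · exact key z x y (set3_perm hX).2.2.1 h3.1 h3.2.1 h3.2.2 (by omega) (by omega)

/-- No representatives on one side: a heavy bijection. -/
theorem Cx.hb1 (c : Cx b V U i0 j0 a C r) {i j l : Fin 3} (hij : i ≠ j) (hjl : j ≠ l)
    (hil : i ≠ l) (hi : eC b V C i ≤ 0) (hj : eC b V C j ≤ 1) (hl : eC b V C l ≤ 1)
    (hai : wt b C i a = 1) (haj : wt b C j a = 2) (hal : wt b C l a = 2)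
    (h1 : ¬ ASD b C (b j0 ∩ V) i l) : HB b C (b j0 ∩ V) i j l := by
  unfold ASD at h1
  push Not at h1
  obtain ⟨u, s, t, hQ, hsd⟩ := h1
  have tl := c.tl
  have hT := c.insT hQ
  have hs := c.w4 (x := s) (by rw [hQ]; simp)
  have ht := c.w4 (x := t) (by rw [hQ]; simp)
  have hu := c.w4 (x := u) (by rw [hQ]; simp)
  rw [ws_eq b C _ hij hjl hil] at hs ht hu
  -- the orders
  have hT2 : insert a (b j0 ∩ V) = {s, t, a, u} := e_qs (e_pq (e_st (e_qs hT)))
  have hTs : insert a (b j0 ∩ V) = {a, s, u, t} := e_qs hT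
  have hTt : insert a (b j0 ∩ V) = {a, t, u, s} := e_qs (e_st hT)
  have hTst : insert a (b j0 ∩ V) = {a, s, t, u} := e_st hTs
  have c1 := fun hh => (c.cap tl hij hjl hil hT2 hh).1 hi
  have c2 := fun hh => (c.cap tl hij.symm hil hjl hT2 hh).c1 hj
  have c3 := fun hh => (c.cap tl hil.symm hij hjl.symm hT2 hh).c1 hl
  have c4 := fun hh => (c.cap tl hij.symm hil hjl hTs hh).c2 hj haj.ge
  have c5 := fun hh => (c.cap tl hij.symm hil hjl hTt hh).c2 hj haj.ge
  have c6 := fun hh => (c.cap tl hil.symm hij hjl.symm hTs hh).c2 hl hal.ge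
  have c7 := fun hh => (c.cap tl hil.symm hij hjl.symm hTt hh).c2 hl hal.ge
  have c8 : SD b C i l u t → SD b C i l u s → SD b C i l a u →
      wt b C j s + wt b C j t ≤ 3 := fun k1 k2 k3 =>
    (c.cap2 tl hij.symm hil hjl hTst k1.comm k2.comm k3).c2 hj haj.ge
  have c9 : SD b C i j u t → SD b C i j u s → SD b C i j a u →
      wt b C l s + wt b C l t ≤ 3 := fun k1 k2 k3 =>
    (c.cap2 tl hil.symm hij hjl.symm hTst k1.comm k2.comm k3).c2 hl hal.ge
  have ki := tl.at3 i hT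
  have kl := tl.at3 l hT
  have q1 := tl.h2' hij.symm hil hjl hT2
  have q2 := tl.h2' hij.symm hil hjl (e_pq (e_qs (e_pq (e_qs hT))))
  have q3 := tl.h2' hij.symm hil hjl (e_pq (e_qs (e_pq (e_qs (e_st hT)))))
  have h2 := num_N1 (wt b C i a) (wt b C j a) (wt b C l a) (wt b C i u) (wt b C j u)
    (wt b C l u) (wt b C i s) (wt b C j s) (wt b C l s) (wt b C i t) (wt b C j t) (wt b C l t)
    hai haj hal c1 c2 c3 c4 c5 c6 c7 c8 c9 hs.symm ht.symm ki kl (by omega) (by omega)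
    (by omega) hsd
  clear c1 c2 c3 c4 c5 c6 c7 c8 c9
  -- the final step
  have key : ∀ s t, b j0 ∩ V = {u, s, t} →
      wt b C i t = 4 ∧ wt b C i s = 1 ∧ wt b C j s = 3 ∧ 1 ≤ wt b C l u →
      HB b C (b j0 ∩ V) i j l := by
    intro s t hQ h3
    have hT := c.insT hQ
    refine ⟨t, s, u, (set3_perm hQ).2.2.2.1, by omega, by omega, ?_⟩
    have hT3 : insert a (b j0 ∩ V) = {t, s, a, u} := by
      rw [hT]
      ext v
      simp only [mem_insert, mem_singleton]
      tauto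
    have hT4 : insert a (b j0 ∩ V) = {s, u, a, t} := by
      rw [hT]
      ext v
      simp only [mem_insert, mem_singleton]
      tauto
    have k1 := c.cap3 tl hij hjl hil hT3 (Or.inl ⟨by omega, h3.2.2.2⟩)
      (Or.inl ⟨by omega, h3.2.2.2⟩) (Or.inl ⟨by omega, by omega⟩) hi
    have k2 := (c.cap tl hij.symm hil hjl hT4 (Or.inr ⟨by omega, by omega⟩)).c3 hj
      h3.2.2.1.ge
    omega
  rcases h2 with h3 | h3
  · exact key s t hQ h3
  · exact key t s (set3_perm hQ).2.1 h3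

/-- The heavy bijection. -/
theorem Cx.hb (c : Cx b V U i0 j0 a C r) {i j l : Fin 3} (hij : i ≠ j) (hjl : j ≠ l)
    (hil : i ≠ l) (hi : eC b V C i ≤ 0) (hj : eC b V C j ≤ 1) (hl : eC b V C l ≤ 1)
    (hai : wt b C i a = 1) (haj : wt b C j a = 2) (hal : wt b C l a = 2) :
    HB b C (b j0 ∩ V) i j l := by
  by_cases h1 : ASD b C (b j0 ∩ V) i l
  · by_cases h2 : ASD b C (b j0 ∩ V) i j
    · exact (c.notJ hij hjl hil hi hj hl hai haj hal h1 h2).elim
    · exact (c.hb1 hil hjl.symm hij hi hl hj hai hal haj h2).swap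
  · exact c.hb1 hij hjl hil hi hj hl hai haj hal h1

/-- Absorption of the heavy pair at `j`. -/
theorem Cx.absJ (c : Cx b V U i0 j0 a C r) {i j l : Fin 3} (hij : i ≠ j) (hjl : j ≠ l)
    (hil : i ≠ l) (hj : eC b V C j ≤ 1) (haj : wt b C j a = 2) {x y z x' y' z' : α}
    (hQ : b j0 ∩ V = {x, y, z}) (hP : b i0 ∩ V = {x', y', z'}) (hx : 2 ≤ wt b C i x)
    (hy : 2 ≤ wt b C j y) (hz : 2 ≤ wt b C l z) (hx' : 2 ≤ wt b C i x')
    (hy' : 2 ≤ wt b C j y') (hz' : 2 ≤ wt b C l z') :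
    tau b (C j ∪ {y, y'}) ≤ tau b (C j) := by
  by_contra hcon
  rw [not_le] at hcon
  have my : y ∈ b j0 ∩ V := by rw [hQ]; simp
  have my' : y' ∈ b i0 ∩ V := by rw [hP]; simp
  have n1 := c.tl.na hij.symm hil hjl (p := a) (q := y) (u := x) (v := z) (by
    rw [c.insT hQ]
    ext v
    simp only [mem_insert, mem_singleton]
    tauto) (Or.inl ⟨by omega, by omega⟩)
  have n2 := c.symm.tl.na hij.symm hil hjl (p := a) (q := y') (u := x') (v := z') (by
    rw [c.symm.insT hP]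
    ext v
    simp only [mem_insert, mem_singleton]
    tauto) (Or.inl ⟨by omega, by omega⟩)
  have h1 := dg_pair (c.nc hcon)
  have h2 := (c.h.capG kp c.mc.sys (i := j) (G := {a}) (H := {y, y'})
    (singleton_subset_iff.mpr c.h.ha) (by
      intro v hv
      rw [mem_insert, mem_singleton] at hv
      rcases hv with rfl | rfl
      · exact (c.memQ my).1
      · exact (c.symm.memQ my').1) (by
      rw [disjoint_singleton_left, mem_insert, mem_singleton, not_or]
      exact ⟨(c.memQ my).2.symm, (c.symm.memQ my').2.symm⟩) (by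
      intro v hv w hw
      rw [mem_singleton.mp hv]
      rw [mem_insert, mem_singleton] at hw
      rcases hw with rfl | rfl
      · exact n1
      · exact n2)).c2 hj (show 2 ≤ wt b C j a from by omega)
  have h3 : dg b {y} (C j) = wt b C j y := rfl
  have h4 : dg b {y'} (C j) = wt b C j y' := rfl
  omega

/-- The capacity of a component of excess one. -/
theorem Cx.cap9 (c : Cx b V U i0 j0 a C r) (he : ee b V = -2) {l : Fin 3}
    (hl : eC b V C l = 1) (h1 : wt b C l a ≤ 3) (h2 : dg b ((V \ U).erase a) (C l) ≤ 2) :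
    False := by
  have h3 := labels c.mc.sys c.h.dv.sub (c.h.mem l)
  have h4 := dg_half c.mc.sys (c.h.subV l) (G := (V \ U).erase a) (by
    intro x hx
    have h7 := mem_sdiff.mp (mem_of_mem_erase hx)
    exact mem_sdiff.mpr ⟨h7.1, fun h8 => h7.2 (cps_sub (c.h.mem l) h8)⟩)
  have h5 : ∑ u ∈ V \ U, dg b {u} (C l) = wt b C l a + ∑ u ∈ (V \ U).erase a, dg b {u} (C l) :=
    (add_sum_erase _ _ c.h.ha).symm
  rw [h5] at h3
  rw [c.eq_ee] at hl
  have h6 := c.h.dv.tf (C l) (c.h.mem l)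
  have h7 := ee_nk c.mc.sys
  have h8 := c.mc.tf
  have h9 := c.mc.neg
  unfold Pot at h9
  rw [c.nsp, card_empty, he] at h9
  rw [he] at h7
  unfold ee at hl
  push_cast at h9
  omega

/-- `a` has weight at most 2. -/
theorem Cx.a3 (c : Cx b V U i0 j0 a C r)
    (hsum : eC b V C 0 + eC b V C 1 + eC b V C 2 ≤ 2) (he : ee b V = -2) {i j l : Fin 3}
    (hij : i ≠ j) (hjl : j ≠ l) (hil : i ≠ l) (hi : eC b V C i ≤ 0) (hj : eC b V C j ≤ 1)
    (hl : eC b V C l = 1) : wt b C l a ≤ 2 := by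
  by_contra hcon
  rw [not_le] at hcon
  have hb := c.lemB hsum l
  have hA := c.lemA hi
  have h5 := c.w5
  rw [ws_eq b C _ hij hjl hil] at h5
  have asd : ∀ {i0 j0 : ι}, Cx b V U i0 j0 a C r → ASD b C (b j0 ∩ V) i j := by
    intro i0 j0 c u s t hQ
    have tl := c.tl
    have hT := c.insT hQ
    have hs := c.w4 (x := s) (by rw [hQ]; simp)
    have ht := c.w4 (x := t) (by rw [hQ]; simp)
    rw [ws_eq b C _ hij hjl hil] at hs ht
    have hT2 : insert a (b j0 ∩ V) = {s, t, a, u} := e_qs (e_pq (e_st (e_qs hT)))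
    have hTs : insert a (b j0 ∩ V) = {a, s, u, t} := e_qs hT
    have hTt : insert a (b j0 ∩ V) = {a, t, u, s} := e_qs (e_st hT)
    have hTst : insert a (b j0 ∩ V) = {a, s, t, u} := e_st hTs
    have c1 := fun hh => (c.cap tl hij hjl hil hT2 hh).1 hi
    have c2 := fun hh => (c.cap tl hij.symm hil hjl hT2 hh).c1 hj
    have c3 := fun hh => (c.cap tl hil.symm hij hjl.symm hTs hh).c3 hl.le hcon
    have c4 := fun hh => (c.cap tl hil.symm hij hjl.symm hTt hh).c3 hl.le hcon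
    have c5 : SD b C i j u t → SD b C i j u s → SD b C i j a u →
        wt b C l s + wt b C l t ≤ 2 := fun k1 k2 k3 =>
      (c.cap2 tl hil.symm hij hjl.symm hTst k1.comm k2.comm k3).c3 hl.le hcon
    have ki := tl.at3 i hT
    have kj := tl.at3 j hT
    have q1 := tl.h2' hil.symm hij hjl.symm hT2
    have q2 := tl.h2' hil.symm hij hjl.symm (e_pq (e_qs (e_pq (e_qs hT))))
    have q3 := tl.h2' hil.symm hij hjl.symm (e_pq (e_qs (e_pq (e_qs (e_st hT)))))
    exact num_sdD (wt b C i a) (wt b C j a) (wt b C l a) (wt b C i u) (wt b C j u)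
      (wt b C l u) (wt b C i s) (wt b C j s) (wt b C l s) (wt b C i t) (wt b C j t)
      (wt b C l t) hcon (by omega) c1 c2 c3 c4 c5 hs.symm ht.symm ki kj (by omega) (by omega)
      (by omega)
  have h6 := c.main hil.symm hij hjl.symm (by omega) (asd c.symm) (asd c)
  exact c.cap9 he hl hb (h6.1.c3 hl.le hcon)

/-- **The case `e = (0, 1, 1)` is impossible.** -/
theorem Cx.no011 (c : Cx b V U i0 j0 a C r)
    (hsum : eC b V C 0 + eC b V C 1 + eC b V C 2 ≤ 2) (he : ee b V = -2) {i j l : Fin 3}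
    (hij : i ≠ j) (hjl : j ≠ l) (hil : i ≠ l) (hi : eC b V C i ≤ 0) (hj : eC b V C j = 1)
    (hl : eC b V C l = 1) : False := by
  have h1 := c.a3 hsum he hij hjl hil hi hj.le hl
  have h2 := c.a3 hsum he hil hjl.symm hij hi hl.le hj
  have h3 := c.lemA hi
  have h4 := c.w5
  rw [ws_eq b C _ hij hjl hil] at h4
  obtain ⟨x, y, z, hQ, hx, hy, hz⟩ := c.hb hij hjl hil hi hj.le hl.le (by omega) (by omega)
    (by omega)
  obtain ⟨x', y', z', hP, hx', hy', hz'⟩ := c.symm.hb hij hjl hil hi hj.le hl.le (by omega)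
    (by omega) (by omega)
  have mx : x ∈ b j0 ∩ V := by rw [hQ]; simp
  have mx' : x' ∈ b i0 ∩ V := by rw [hP]; simp
  refine c.fin hij hjl hil hQ hP ?_ ?_ ?_
  · exact c.absH hi (c.memQ mx).1 (c.symm.memQ mx').1 (c.neQP mx mx') hx hx'
  · exact c.absJ hij hjl hil hj.le (by omega) hQ hP hx hy hz hx' hy' hz'
  · exact c.absJ hil hjl.symm hij hl.le (by omega) (set3_perm hQ).2.1 (set3_perm hP).2.1
      hx hz hy hx' hz' hy'

end

end Pool.Agent.Helper74.C5
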