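import Pool.Agent.Helper74.C5.Dbl

/-!
# Corollaries of the ring theorem
-/

set_option linter.unusedSectionVars false

open Finset

namespace Pool.Agent.Helper74.C5

open Pool.Agent.Helper20.C5

variable {α ι : Type} [DecidableEq α] [DecidableEq ι] [Fintype ι]

/-- A minimal counterexample. -/
structure MC (b : ι → Finset α) (V : Finset α) : Prop where
  sys : Sys b V
  con : Con b V
  vc : Vc b V
  tf : 2 * tau b V = V.card
  ih : ClV V.card
  neg : Pot b V < 0
  nD : ¬ Dt b V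
  ne : V.Nonempty

/-- The number of blocks with `k` points in `U`. -/
def nk (b : ι → Finset α) (U : Finset α) (k : ℕ) : ℕ :=
  (univ.filter fun i => (b i ∩ U).card = k).card

theorem nk_nb {b : ι → Finset α} {U : Finset α} (h : Sys b U) :
    nb b U = nk b U 1 + nk b U 2 + nk b U 3 := by
  unfold nb nk
  rw [← card_union_of_disjoint, ← card_union_of_disjoint]
  · congr 1
    ext i
    rw [mem_mt, mem_union, mem_union, mem_filter, mem_filter, mem_filter]
    have h1 := h.sz i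
    constructor
    · rintro ⟨x, hx, hxi⟩
      have h2 := card_pos.mpr ⟨x, mem_inter.mpr ⟨hxi, hx⟩⟩
      have h3 : (b i ∩ U).card = 1 ∨ (b i ∩ U).card = 2 ∨ (b i ∩ U).card = 3 := by omega
      rcases h3 with h3 | h3 | h3
      · exact Or.inl (Or.inl ⟨mem_univ i, h3⟩)
      · exact Or.inl (Or.inr ⟨mem_univ i, h3⟩)
      · exact Or.inr ⟨mem_univ i, h3⟩
    · intro h2
      have h3 : 0 < (b i ∩ U).card := by
        rcases h2 with (⟨-, h2⟩ | ⟨-, h2⟩) | ⟨-, h2⟩ <;> omega
      obtain ⟨x, hx⟩ := card_pos.mp h3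
      rw [mem_inter] at hx
      exact ⟨x, hx.2, hx.1⟩
  · rw [disjoint_left]
    intro i hi hi2
    rw [mem_union, mem_filter, mem_filter] at hi
    rw [mem_filter] at hi2
    omega
  · rw [disjoint_left]
    intro i hi hi2
    rw [mem_filter] at hi hi2
    omega

theorem nk_deg {b : ι → Finset α} {U : Finset α} (h : Sys b U) :
    5 * U.card = nk b U 1 + 2 * nk b U 2 + 3 * nk b U 3 := by
  have h1 : ∑ i, (b i ∩ U).card = 5 * U.card := by
    rw [← sum_deg h]
    symm
    apply sum_subset (subset_univ _)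
    intro i _ hi
    rw [card_eq_zero, eq_empty_iff_forall_notMem]
    intro x hx
    rw [mem_inter] at hx
    exact hi (mem_mt.mpr ⟨x, hx.2, hx.1⟩)
  rw [← h1]
  unfold nk
  rw [card_filter, card_filter, card_filter, mul_sum, mul_sum, ← sum_add_distrib,
    ← sum_add_distrib]
  apply sum_congr rfl
  intro i _
  have h2 := h.sz i
  have h3 : (b i ∩ U).card = 0 ∨ (b i ∩ U).card = 1 ∨ (b i ∩ U).card = 2 ∨
      (b i ∩ U).card = 3 := by omega
  rcases h3 with h3 | h3 | h3 | h3 <;> rw [h3] <;> simp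

/-- The excess in terms of the small blocks. -/
theorem ee_nk {b : ι → Finset α} {U : Finset α} (h : Sys b U) :
    6 * ee b U = 8 * nk b U 1 + 4 * nk b U 2 - U.card + 33 * ((U.card : ℤ) - 2 * tau b U) := by
  have h1 := nk_nb h
  have h2 := nk_deg h
  unfold ee
  rw [h1]
  zify at h2
  push_cast
  linarith

theorem two_sp_nk {b : ι → Finset α} {U : Finset α} :
    2 * (sp b U).card ≤ nk b U 1 := by
  refine (two_sp (Subset.refl _)).trans (card_le_card ?_)
  intro i hi
  obtain ⟨-, s, hs, hs2⟩ := mem_filter.mp hi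
  rw [mem_filter, hs2, card_singleton]
  exact ⟨mem_univ i, rfl⟩

/-- In the case `e* = -1` the set has 10 points, one pair block, and 16 triples. -/
theorem MC.ten {b : ι → Finset α} {V : Finset α} (h : MC b V)
    (he : ee b V - ((sp b V).card : ℤ) = -1) :
    V.card = 10 ∧ nk b V 1 = 0 ∧ nk b V 2 = 1 ∧ nk b V 3 = 16 ∧ tau b V = 5 ∧
      sp b V = ∅ := by
  have h1 := ee_nk h.sys
  have h2 := h.tf
  have h3 := two_sp_nk (b := b) (U := V)
  have h4 := h.neg
  have h5 := nk_deg h.sys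
  have h6 := nk_nb h.sys
  have h7 := card_pos.mpr h.ne
  unfold Pot at h4
  have h8 : (sp b V).card = 0 := by omega
  have h9 : nk b V 1 = 0 := by omega
  have h10 : V.card = 10 := by
    by_contra h11
    have h12 : V.card = 6 := by omega
    apply h.nD
    refine ⟨h12, ?_, ?_⟩ <;> omega
  refine ⟨h10, h9, ?_, ?_, ?_, card_eq_zero.mp h8⟩ <;> omega

/-- All faces are ring faces if `e* ≤ -2`. -/
theorem MC.ring {b : ι → Finset α} {V : Finset α} (h : MC b V) (hKP : KP) (hFM : FM)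
    (he : ee b V - ((sp b V).card : ℤ) ≤ -2) {i0 : ι} (hi : (b i0 ∩ V).card = 3) :
    RF b V i0 := by
  rcases ringV hKP hFM h.sys h.con h.vc h.tf h.ih h.neg hi with h1 | h1
  · exact ⟨hi, h1.1, h1.2.1, h1.2.2⟩
  · omega

/-- The excess of the complement of a ring face. -/
theorem RF.ee {b : ι → Finset α} {V : Finset α} {i0 : ι} (h : RF b V i0) (_hsys : Sys b V)
    (hCt : 2 * tau b V = V.card) :
    ee b (V \ (b i0 ∩ V)) - ((sp b V ∩ (V \ (b i0 ∩ V))).card : ℤ) =
      ee b V - ((sp b V).card : ℤ) + 5 - 2 * (ins b V (V \ (b i0 ∩ V))).card +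
        (sp b V ∩ (b i0 ∩ V)).card := by
  have hPV : b i0 ∩ V ⊆ V := inter_subset_right
  have h2 := ee_cut (b := b) (sdiff_subset : V \ (b i0 ∩ V) ⊆ V)
  have h3 := sp_split (b := b) (sdiff_subset : V \ (b i0 ∩ V) ⊆ V)
  rw [Finset.sdiff_sdiff_eq_self hPV] at h3
  have h4 := h.tf
  have h5 := card_sdiff_of_subset hPV
  have h6 := card_le_card hPV
  have h7 := h.p3
  rw [h3]
  have h8 : (V \ (b i0 ∩ V)).card + 3 = V.card := by omega
  have h9 : tau b (V \ (b i0 ∩ V)) + 1 = tau b V := by omega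
  rw [← h9, ← h8] at h2
  push_cast at h2 ⊢
  linarith

/-- Face `i0`: no other block inside, no special point; `e* ≥ -3`. -/
theorem MC.face {b : ι → Finset α} {V : Finset α} (h : MC b V) (hKP : KP) (hFM : FM)
    (he : ee b V - ((sp b V).card : ℤ) ≤ -2) {i0 : ι} (hi : (b i0 ∩ V).card = 3) :
    (ins b V (V \ (b i0 ∩ V))).card = 1 ∧ sp b V ∩ (b i0 ∩ V) = ∅ ∧
      -3 ≤ ee b V - ((sp b V).card : ℤ) ∧
      ee b (V \ (b i0 ∩ V)) - ((sp b V ∩ (V \ (b i0 ∩ V))).card : ℤ) =
        ee b V - ((sp b V).card : ℤ) + 3 := by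
  have hR := h.ring hKP hFM he hi
  have hPV : b i0 ∩ V ⊆ V := inter_subset_right
  have h1 := hR.ee h.sys h.tf
  have h2 := ee_spV hKP h.sys (sdiff_subset : V \ (b i0 ∩ V) ⊆ V) hR.ne hR.con hR.vc hR.tf
  have h3 := sp_ins (b := b) (V := V) (U := V \ (b i0 ∩ V)) hi (by
    rw [eq_empty_iff_forall_notMem]
    intro x hx
    rw [mem_inter, mem_sdiff] at hx
    exact hx.2.2 (mem_inter.mpr ⟨hx.1, hx.2.1⟩)) sdiff_subset
  rw [Finset.sdiff_sdiff_eq_self hPV] at h3
  have h4 : (sp b V ∩ (b i0 ∩ V)).card = 0 := by omega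
  have h5 : (ins b V (V \ (b i0 ∩ V))).card = 1 := by omega
  refine ⟨h5, card_eq_zero.mp h4, by omega, by omega⟩

/-- No other block inside a face. -/
theorem MC.unique {b : ι → Finset α} {V : Finset α} (h : MC b V) (hKP : KP) (hFM : FM)
    (he : ee b V - ((sp b V).card : ℤ) ≤ -2) {i0 j : ι} (hi : (b i0 ∩ V).card = 3)
    (hj : (b j ∩ V).Nonempty) (hji : b j ∩ V ⊆ b i0) : j = i0 := by
  have h1 := (h.face hKP hFM he hi).1
  obtain ⟨i1, hi1⟩ := card_eq_one.mp h1
  have h2 : i0 ∈ ins b V (V \ (b i0 ∩ V)) := by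
    unfold ins
    rw [mem_filter]
    refine ⟨mem_univ _, card_pos.mp (by omega), ?_⟩
    rw [eq_empty_iff_forall_notMem]
    intro x hx
    rw [mem_inter, mem_sdiff] at hx
    exact hx.2.2 (mem_inter.mpr ⟨hx.1, hx.2.1⟩)
  have h3 : j ∈ ins b V (V \ (b i0 ∩ V)) := by
    unfold ins
    rw [mem_filter]
    refine ⟨mem_univ _, hj, ?_⟩
    rw [eq_empty_iff_forall_notMem]
    intro x hx
    rw [mem_inter, mem_sdiff] at hx
    exact hx.2.2 (mem_inter.mpr ⟨hji (mem_inter.mpr ⟨hx.1, hx.2.1⟩), hx.2.1⟩)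
  rw [hi1, mem_singleton] at h2 h3
  rw [h2, h3]

end Pool.Agent.Helper74.C5
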