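import Pool.Agent.Helper74.C5.RingV

/-!
# Double cuts
-/

set_option linter.unusedSectionVars false

open Finset

namespace Pool.Agent.Helper74.C5

open Pool.Agent.Helper20.C5

variable {α ι : Type} [DecidableEq α] [DecidableEq ι] [Fintype ι]

/-- The general covering inequality. -/
theorem cover_le {b : ι → Finset α} {V U : Finset α} (hcb : Cb b V) (hU : U ⊆ V)
    (T : Finset α → Finset α) (hT : ∀ C ∈ cps b U, T C ⊆ V \ U) {R : Finset α} {r : ℕ}
    (hR : Cv b R r) (hS : V \ U ⊆ (cps b U).biUnion T ∪ R) :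
    tau b V ≤ ∑ C ∈ cps b U, tau b (C ∪ T C) + r := by
  classical
  have hcU := hcb.mono hU
  have hcT : ∀ C ∈ cps b U, Cb b (C ∪ T C) := by
    intro C hC x hx
    rcases mem_union.mp hx with hx | hx
    · exact hcU x (cps_sub hC hx)
    · exact hcb x (mem_sdiff.mp (hT C hC hx)).1
  have hcB : Cb b ((cps b U).biUnion fun C => C ∪ T C) := by
    intro x hx
    obtain ⟨C, hC, hx⟩ := mem_biUnion.mp hx
    exact hcT C hC x hx
  have h1 := cv_union (tau_cv hcB) hR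
  have h2 : tau b V ≤ tau b ((cps b U).biUnion fun C => C ∪ T C) + r := by
    apply tau_le
    refine h1.mono ?_ le_rfl
    intro x hx
    rw [mem_union]
    by_cases hxU : x ∈ U
    · exact Or.inl (mem_biUnion.mpr ⟨Cmp b U x, mem_cps.mpr ⟨x, hxU, rfl⟩,
        mem_union_left _ (self_Cmp hxU)⟩)
    · rcases mem_union.mp (hS (mem_sdiff.mpr ⟨hx, hxU⟩)) with h3 | h3
      · obtain ⟨C, hC, hxC⟩ := mem_biUnion.mp h3
        exact Or.inl (mem_biUnion.mpr ⟨C, hC, mem_union_right _ hxC⟩)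
      · exact Or.inr h3
  exact h2.trans (Nat.add_le_add_right (tau_biUnion _ _ hcT) r)

/-- The ring case at the face `i0`. -/
structure RF (b : ι → Finset α) (V : Finset α) (i0 : ι) : Prop where
  p3 : (b i0 ∩ V).card = 3
  con : Con b (V \ (b i0 ∩ V))
  vc : Vc b (V \ (b i0 ∩ V))
  tf : 2 * tau b (V \ (b i0 ∩ V)) = (V \ (b i0 ∩ V)).card + 1

theorem RF.ne {b : ι → Finset α} {V : Finset α} {i0 : ι} (h : RF b V i0) :
    (V \ (b i0 ∩ V)).Nonempty := by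
  rw [nonempty_iff_ne_empty]
  intro h1
  have h2 := h.tf
  rw [h1, tau_empty, card_empty] at h2
  omega

/-- A double cut. -/
structure DV (b : ι → Finset α) (V U : Finset α) (i0 j0 : ι) (k : ℕ) : Prop where
  sub : U ⊆ V
  p3 : (b i0 ∩ V).card = 3
  q3 : (b j0 ∩ V).card = 3
  pq : Disjoint (b i0 ∩ V) (b j0 ∩ V)
  pu : b i0 ∩ U = ∅
  qu : b j0 ∩ U = ∅
  tt : tau b U + 2 = tau b V
  card : U.card + 6 + k = V.card
  num : (cps b U).card = k + 2
  typ : ∀ C ∈ cps b U, Vc b C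
  tf : ∀ C ∈ cps b U, 2 * tau b C = C.card + 1
  attP : ∀ C ∈ cps b U, ∀ v, ∃ x ∈ V \ U, x ∉ b j0 ∧ x ≠ v ∧ Aj b x C
  attQ : ∀ C ∈ cps b U, ∀ v, ∃ x ∈ V \ U, x ∉ b i0 ∧ x ≠ v ∧ Aj b x C

/-- Double cuts at two disjoint ring faces. -/
theorem exists_DV {b : ι → Finset α} {V : Finset α} (hFM : FM) (hsys : Sys b V)
    (hCt : 2 * tau b V = V.card) {i0 j0 : ι} (hP : RF b V i0) (hQ : RF b V j0)
    (hpq : Disjoint (b i0 ∩ V) (b j0 ∩ V)) :
    ∃ U k, DV b V U i0 j0 k ∧ (k = 0 → U = (V \ (b i0 ∩ V)) \ (b j0 ∩ V)) := by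
  classical
  have hPV : b i0 ∩ V ⊆ V := inter_subset_right
  have hQV : b j0 ∩ V ⊆ V := inter_subset_right
  -- the set `W = V \ Q`
  have hWV : V \ (b j0 ∩ V) ⊆ V := sdiff_subset
  have hsW := hsys.mono hWV
  have hPW : b i0 ∩ (V \ (b j0 ∩ V)) = b i0 ∩ V := by
    ext x
    constructor
    · intro h1
      exact mem_inter.mpr ⟨(mem_inter.mp h1).1, (mem_sdiff.mp (mem_inter.mp h1).2).1⟩
    · intro h1
      exact mem_inter.mpr ⟨(mem_inter.mp h1).1, mem_sdiff.mpr ⟨(mem_inter.mp h1).2,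
        fun h3 => (disjoint_left.mp hpq) h1 h3⟩⟩
  have hP3W : (b i0 ∩ (V \ (b j0 ∩ V))).card = 3 := by rw [hPW]; exact hP.p3
  obtain ⟨U, k, h, hUP, hUk⟩ := exists_FV hsW hQ.vc hP3W
  rw [hPW] at hUP hUk
  have hUV := h.sub.trans hWV
  have hcW := hsW.cb
  have hcU := hcW.mono h.sub
  have htt := h.tt
  have hcard := h.card
  have hSc := h.scard
  have hQtf := hQ.tf
  have hQc := card_sdiff_of_subset hQV
  have hQc2 := card_le_card hQV
  have hQ3 := hQ.p3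
  have hN : (cps b U).card ≤ k + 2 := by
    have h1 : (V \ (b j0 ∩ V)) \ ((V \ (b j0 ∩ V)) \ U) = U := Finset.sdiff_sdiff_eq_self h.sub
    have h2 := comps_lt hcW hQ.con hQ.vc (S := (V \ (b j0 ∩ V)) \ U) sdiff_subset
      (card_pos.mp (by omega)) (by rw [h1]; exact h.typ)
    rw [h1] at h2
    omega
  have hfm : ∀ C ∈ cps b U, 2 * tau b C ≤ C.card + 1 := fun C hC =>
    hFM α ι b C (cps_ne hC) (hsW.mono ((cps_sub hC).trans h.sub)) (cps_con hC) (h.typ C hC)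
  have htU := tau_cps hcU
  have hcdU := card_cps hcU
  have hfsum : ∑ C ∈ cps b U, ((C.card : ℤ) + 1 - 2 * tau b C) =
      (cps b U).card - 2 - k := by
    rw [sum_sub_distrib, sum_add_distrib, ← mul_sum]
    simp only [sum_const, nsmul_eq_mul, mul_one]
    have h1 : (∑ C ∈ cps b U, (C.card : ℤ)) = U.card := by
      rw [hcdU]
      push_cast
      rfl
    have h2 : (∑ C ∈ cps b U, (tau b C : ℤ)) = tau b U := by
      rw [htU]
      push_cast
      rfl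
    rw [h1, h2]
    omega
  have hfnn : ∀ C ∈ cps b U, (0 : ℤ) ≤ (C.card : ℤ) + 1 - 2 * tau b C := by
    intro C hC
    have := hfm C hC
    omega
  have hN2 : (cps b U).card = k + 2 := by
    have := sum_nonneg hfnn
    omega
  have hf : ∀ C ∈ cps b U, 2 * tau b C = C.card + 1 := by
    intro C hC
    have h1 := single_le_sum hfnn hC
    have h2 := hfm C hC
    rw [hfsum, hN2] at h1
    push_cast at h1
    omega
  -- `U` in `V \ P`
  have hUP' : U ⊆ V \ (b i0 ∩ V) := by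
    intro x hx
    have h1 := hUP hx
    rw [mem_sdiff] at h1
    exact mem_sdiff.mpr ⟨hUV hx, h1.2⟩
  have hinj : ∀ x, x ∈ V → (x ∉ b i0 ∩ V ↔ x ∉ b i0) := by
    intro x hx
    rw [mem_inter]
    tauto
  have hinj2 : ∀ x, x ∈ V → (x ∉ b j0 ∩ V ↔ x ∉ b j0) := by
    intro x hx
    rw [mem_inter]
    tauto
  refine ⟨U, k, ⟨hUV, hP.p3, hQ.p3, hpq, h.pu, ?_, ?_, ?_, hN2, h.typ, hf, ?_, ?_⟩, ?_⟩
  · rw [eq_empty_iff_forall_notMem]
    intro x hx
    rw [mem_inter] at hx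
    exact (mem_sdiff.mp (h.sub hx.2)).2 (mem_inter.mpr ⟨hx.1, hUV hx.2⟩)
  · omega
  · omega
  · intro C hC v
    obtain ⟨x, hx, hxv, hxC⟩ := h.att hcW hQ.con hQ.vc hC v
    rw [mem_sdiff, mem_sdiff] at hx
    exact ⟨x, mem_sdiff.mpr ⟨hx.1.1, hx.2⟩, (hinj2 x hx.1.1).mp hx.1.2, hxv, hxC⟩
  · intro C hC v
    have h1 : (V \ (b i0 ∩ V)) \ ((V \ (b i0 ∩ V)) \ U) = U :=
      Finset.sdiff_sdiff_eq_self hUP'
    have hne : ((V \ (b i0 ∩ V)) \ U).Nonempty := by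
      obtain ⟨y, hy⟩ : (b j0 ∩ V).Nonempty := card_pos.mp (by omega)
      have hyV := hQV hy
      refine ⟨y, mem_sdiff.mpr ⟨mem_sdiff.mpr ⟨hyV, fun h3 => (disjoint_left.mp hpq) h3 hy⟩,
        fun h3 => (mem_sdiff.mp (h.sub h3)).2 hy⟩⟩
    have hC' := hC
    rw [← h1] at hC'
    obtain ⟨x, hx, hxv, hxC⟩ := attach (hsys.mono sdiff_subset).cb hP.con hP.vc sdiff_subset
      hne hC' (h.typ C hC) v
    rw [mem_sdiff, mem_sdiff] at hx
    exact ⟨x, mem_sdiff.mpr ⟨hx.1.1, hx.2⟩, (hinj x hx.1.1).mp hx.1.2, hxv, hxC⟩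
  · intro hk
    rw [hUk hk]
    ext x
    rw [mem_sdiff, mem_sdiff, mem_sdiff, mem_sdiff]
    tauto

/-- The sum of the excesses in a double cut. -/
theorem DV.sum {b : ι → Finset α} {V U : Finset α} {i0 j0 : ι} {k : ℕ} (h : DV b V U i0 j0 k)
    (hsys : Sys b V) :
    ∑ C ∈ cps b U, (ee b C - ((sp b V ∩ C).card : ℤ)) =
      ee b V - ((sp b V).card : ℤ) + 10 - 2 * (ins b V U).card - 2 * k +
        (sp b V ∩ (V \ U)).card := by
  have hcU := hsys.cb.mono h.sub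
  have h1 := sum_eX (V := V) hcU
  have h2 := ee_cut (b := b) h.sub
  have h3 := sp_split (b := b) h.sub
  have h4 := h.tt
  have h5 := h.card
  rw [h1, h3]
  rw [← h4, ← h5] at h2
  push_cast at h2 ⊢
  linarith

theorem DV.nn {b : ι → Finset α} {V U : Finset α} {i0 j0 : ι} {k : ℕ} (h : DV b V U i0 j0 k)
    (hKP : KP) (hsys : Sys b V) {C : Finset α} (hC : C ∈ cps b U) :
    0 ≤ ee b C - ((sp b V ∩ C).card : ℤ) :=
  ee_spV hKP hsys ((cps_sub hC).trans h.sub) (cps_ne hC) (cps_con hC) (h.typ C hC) (h.tf C hC)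

theorem DV.scard {b : ι → Finset α} {V U : Finset α} {i0 j0 : ι} {k : ℕ}
    (h : DV b V U i0 j0 k) : (V \ U).card = 6 + k := by
  rw [card_sdiff_of_subset h.sub]
  have := h.card
  omega

/-- The covering inequality in a double cut. -/
theorem DV.cover {b : ι → Finset α} {V U : Finset α} {i0 j0 : ι} {k : ℕ}
    (h : DV b V U i0 j0 k) (hcb : Cb b V) (T : Finset α → Finset α)
    (hT : ∀ C ∈ cps b U, T C ⊆ V \ U) {R : Finset α} {r : ℕ} (hR : Cv b R r)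
    (hS : V \ U ⊆ (cps b U).biUnion T ∪ R) :
    ∑ C ∈ cps b U, tau b C + 2 ≤ ∑ C ∈ cps b U, tau b (C ∪ T C) + r := by
  have h1 := cover_le hcb h.sub T hT hR hS
  have h2 := tau_cps (hcb.mono h.sub)
  have h3 := h.tt
  omega

/-- The pair cap in a double cut. -/
theorem DV.cap {b : ι → Finset α} {V U : Finset α} {i0 j0 : ι} {k : ℕ} (h : DV b V U i0 j0 k)
    (hKP : KP) (hsys : Sys b V) {C : Finset α} (hC : C ∈ cps b U)
    {G H : Finset α} (hG : G ⊆ V \ U) (hH : H ⊆ V \ U) (hGH : Disjoint G H) {a c : ℕ}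
    (ha : 1 ≤ a) (hac : a ≤ c) (hc : c ≤ 4) (h0 : a ≤ dg b G C) (h1 : c ≤ dg b H C)
    (habs : ∀ x ∈ G, ∀ y ∈ H, tau b C + 1 ≤ tau b (C ∪ {x, y})) :
    (if a + 2 ≤ c then 1 else 0) + 2 * (a : ℤ) ≤ ee b C - ((sp b V ∩ C).card : ℤ) + 3 := by
  have h4 : V \ U ⊆ V \ C := sdiff_subset_sdiff (Subset.refl V) (cps_sub hC)
  have hCV := (cps_sub hC).trans h.sub
  have hp := (pairV hsys hCV (cps_ne hC) (cps_con hC) (h.typ C hC) (hG.trans h4) (hH.trans h4)
    hGH ha hac hc h0 h1 habs).1 hKP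
  have hf := h.tf C hC
  zify at hf
  linarith

end Pool.Agent.Helper74.C5
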