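import Pool.Agent.Helper74.C5.TLv

/-!
# Arithmetic of a level
-/

namespace Pool.Agent.Helper74.C5

theorem num_lh3 (pi pj pl qi qj ql si sj sl ti tj tl : ℕ)
    (h1 : ((1 ≤ sj ∧ 1 ≤ tl) ∨ (1 ≤ sl ∧ 1 ≤ tj)) → (pi ≤ 1 ∨ qi ≤ 1))
    (h2 : ((1 ≤ qj ∧ 1 ≤ tl) ∨ (1 ≤ ql ∧ 1 ≤ tj)) → (pi ≤ 1 ∨ si ≤ 1))
    (h3 : ((1 ≤ pj ∧ 1 ≤ tl) ∨ (1 ≤ pl ∧ 1 ≤ tj)) → (qi ≤ 1 ∨ si ≤ 1))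
    (h4 : ((1 ≤ qj ∧ 1 ≤ sl) ∨ (1 ≤ ql ∧ 1 ≤ sj)) → (pi ≤ 1 ∨ ti ≤ 1))
    (h5 : ((1 ≤ pj ∧ 1 ≤ sl) ∨ (1 ≤ pl ∧ 1 ≤ sj)) → (qi ≤ 1 ∨ ti ≤ 1))
    (h6 : ((1 ≤ pi ∧ 1 ≤ ql) ∨ (1 ≤ pl ∧ 1 ≤ qi)) → (sj ≤ 1 ∨ tj ≤ 1))
    (h7 : ((1 ≤ pi ∧ 1 ≤ qj) ∨ (1 ≤ pj ∧ 1 ≤ qi)) → (sl ≤ 1 ∨ tl ≤ 1))
    (hs : 3 ≤ si + sj + sl) (ht : 3 ≤ ti + tj + tl)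
    (aj : 1 ≤ pj ∨ 1 ≤ qj ∨ 1 ≤ tj) (aj2 : 1 ≤ pj ∨ 1 ≤ qj ∨ 1 ≤ sj)
    (al : 1 ≤ pl ∨ 1 ≤ ql ∨ 1 ≤ tl) (al2 : 1 ≤ pl ∨ 1 ≤ ql ∨ 1 ≤ sl)
    (hst : 1 ≤ sj + sl + tj + tl) (hp : 2 ≤ pi) (hq : 2 ≤ qi) : False := by
  omega

theorem num_lh4 (pi pj pl qi qj ql si sj sl ti tj tl : ℕ)
    (h1 : ((1 ≤ sj ∧ 1 ≤ tl) ∨ (1 ≤ sl ∧ 1 ≤ tj)) → (pi ≤ 1 ∨ qi ≤ 1))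
    (h2 : ((1 ≤ qj ∧ 1 ≤ tl) ∨ (1 ≤ ql ∧ 1 ≤ tj)) → (pi ≤ 1 ∨ si ≤ 1))
    (h3 : ((1 ≤ pj ∧ 1 ≤ tl) ∨ (1 ≤ pl ∧ 1 ≤ tj)) → (qi ≤ 1 ∨ si ≤ 1))
    (h4 : ((1 ≤ qj ∧ 1 ≤ sl) ∨ (1 ≤ ql ∧ 1 ≤ sj)) → (pi ≤ 1 ∨ ti ≤ 1))
    (h5 : ((1 ≤ pj ∧ 1 ≤ sl) ∨ (1 ≤ pl ∧ 1 ≤ sj)) → (qi ≤ 1 ∨ ti ≤ 1))
    (h6 : ((1 ≤ pi ∧ 1 ≤ ql) ∨ (1 ≤ pl ∧ 1 ≤ qi)) → (sj ≤ 2 ∨ tj ≤ 2))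
    (h7 : ((1 ≤ pi ∧ 1 ≤ qj) ∨ (1 ≤ pj ∧ 1 ≤ qi)) → (sl ≤ 2 ∨ tl ≤ 2))
    (hs : 4 ≤ si + sj + sl) (ht : 4 ≤ ti + tj + tl)
    (aj : 1 ≤ pj ∨ 1 ≤ qj ∨ 1 ≤ tj) (aj2 : 1 ≤ pj ∨ 1 ≤ qj ∨ 1 ≤ sj)
    (al : 1 ≤ pl ∨ 1 ≤ ql ∨ 1 ≤ tl) (al2 : 1 ≤ pl ∨ 1 ≤ ql ∨ 1 ≤ sl)
    (hst : 1 ≤ sj + sl + tj + tl) (hp : 2 ≤ pi) (hq : 2 ≤ qi) : False := by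
  omega

/-- Representatives, `a` attached, the others light. -/
theorem num_sdA (Ej El : ℤ) (r : ℕ) (hE : (r = 4 ∧ Ej ≤ 2 ∧ El ≤ 2) ∨ (r = 3 ∧ Ej ≤ 0 ∧ El ≤ 0))
    (ai aj al ui uj ul si sj sl ti tj tl : ℕ) (ha : 1 ≤ ai)
    (c1 : ((1 ≤ ai ∧ 1 ≤ ul) ∨ (1 ≤ al ∧ 1 ≤ ui)) → capb Ej sj tj)
    (c2 : ((1 ≤ ai ∧ 1 ≤ uj) ∨ (1 ≤ aj ∧ 1 ≤ ui)) → capb El sl tl)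
    (hs : r ≤ si + sj + sl) (ht : r ≤ ti + tj + tl) (hsi : si ≤ 1) (hti : ti ≤ 1)
    (kj : 1 ≤ uj ∨ 1 ≤ sj ∨ 1 ≤ tj) (kl : 1 ≤ ul ∨ 1 ≤ sl ∨ 1 ≤ tl) :
    (1 ≤ sj ∧ 1 ≤ tl) ∨ (1 ≤ sl ∧ 1 ≤ tj) := by
  unfold capb at c1 c2
  omega

/-- Representatives, `a` very heavy. -/
theorem num_sdB (Ei Ej El : ℤ) (h1 : 0 ≤ Ei) (h2 : 0 ≤ Ej) (h3 : 0 ≤ El) (hE : Ei + Ej + El ≤ 2)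
    (ai aj al ui uj ul si sj sl ti tj tl : ℕ) (ha : 4 ≤ ai)
    (c1 : ((1 ≤ ai ∧ 1 ≤ ul) ∨ (1 ≤ al ∧ 1 ≤ ui)) → capb Ej sj tj)
    (c2 : ((1 ≤ ai ∧ 1 ≤ uj) ∨ (1 ≤ aj ∧ 1 ≤ ui)) → capb El sl tl)
    (c3 : ((1 ≤ uj ∧ 1 ≤ tl) ∨ (1 ≤ ul ∧ 1 ≤ tj)) → capb Ei ai si)
    (c4 : ((1 ≤ uj ∧ 1 ≤ sl) ∨ (1 ≤ ul ∧ 1 ≤ sj)) → capb Ei ai ti)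
    (hs : 4 = si + sj + sl) (ht : 4 = ti + tj + tl)
    (kj : 1 ≤ uj ∨ 1 ≤ sj ∨ 1 ≤ tj) (kl : 1 ≤ ul ∨ 1 ≤ sl ∨ 1 ≤ tl)
    (q1 : 1 ≤ sj + sl + tj + tl) (q2 : 1 ≤ sj + sl + uj + ul) (q3 : 1 ≤ tj + tl + uj + ul) :
    (1 ≤ sj ∧ 1 ≤ tl) ∨ (1 ≤ sl ∧ 1 ≤ tj) := by
  unfold capb at c1 c2 c3 c4
  by_contra hcon
  have : (sj = 0 ∧ sl = 0) ∨ (tj = 0 ∧ tl = 0) ∨ (sl = 0 ∧ tl = 0) ∨ (sj = 0 ∧ tj = 0) := by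
    omega
  rcases this with h | h | h | h
  · clear c1 c2 c4
    omega
  · clear c1 c2 c3
    omega
  · clear c2
    omega
  · clear c1
    omega

/-- Representatives in the case `e = (0, 0, *)`, `a = (1, 1, 3)`. -/
theorem num_sdC (Ei Ej El : ℤ) (h1 : Ei ≤ 0) (h2 : Ej ≤ 0) (h3 : El ≤ 2)
    (ai aj al ui uj ul si sj sl ti tj tl : ℕ) (ha : 1 ≤ ai) (ha2 : 1 ≤ aj) (ha3 : 3 ≤ al)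
    (c1 : ((1 ≤ aj ∧ 1 ≤ ul) ∨ (1 ≤ al ∧ 1 ≤ uj)) → capb Ei si ti)
    (c2 : ((1 ≤ ai ∧ 1 ≤ ul) ∨ (1 ≤ al ∧ 1 ≤ ui)) → capb Ej sj tj)
    (c3 : ((1 ≤ ui ∧ 1 ≤ tj) ∨ (1 ≤ uj ∧ 1 ≤ ti)) → capb El al sl)
    (c4 : ((1 ≤ ui ∧ 1 ≤ sj) ∨ (1 ≤ uj ∧ 1 ≤ si)) → capb El al tl)
    (hs : 4 = si + sj + sl) (ht : 4 = ti + tj + tl)
    (ki : 1 ≤ ui ∨ 1 ≤ si ∨ 1 ≤ ti) (kj : 1 ≤ uj ∨ 1 ≤ sj ∨ 1 ≤ tj)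
    (q1 : 1 ≤ si + sj + ti + tj) (q2 : 1 ≤ si + sj + ui + uj) (q3 : 1 ≤ ti + tj + ui + uj) :
    (1 ≤ si ∧ 1 ≤ tj) ∨ (1 ≤ sj ∧ 1 ≤ ti) := by
  unfold capb at c1 c2 c3 c4
  by_contra hcon
  have : (si = 0 ∧ sj = 0) ∨ (ti = 0 ∧ tj = 0) ∨ (sj = 0 ∧ tj = 0) ∨ (si = 0 ∧ ti = 0) := by
    omega
  rcases this with h | h | h | h
  · clear c1 c2 c4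
    omega
  · clear c1 c2 c3
    omega
  · clear c2
    omega
  · clear c1
    omega

end Pool.Agent.Helper74.C5
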