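import Pool.Agent.Helper74.C5.ThmK

/-!
# The potential for C-types and the pair cap for C-types
-/

set_option linter.unusedSectionVars false

open Finset

namespace Pool.Agent.Helper74.C5

open Pool.Agent.Helper20.C5

variable {α ι : Type} [DecidableEq α] [DecidableEq ι] [Fintype ι]

/-- The potential. -/
noncomputable def Pot (b : ι → Finset α) (U : Finset α) : ℤ :=
  34 * (ee b U - ((sp b U).card : ℤ)) + 3 * U.card

/-- The potential of a part, with the special points of the whole. -/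
noncomputable def PotX (b : ι → Finset α) (V U : Finset α) : ℤ :=
  34 * (ee b U - ((sp b V ∩ U).card : ℤ)) + 3 * U.card

/-- The claim for C-types. -/
def ClC (n : ℕ) : Prop :=
  ∀ (α ι : Type) [DecidableEq α] [DecidableEq ι] [Fintype ι] (b : ι → Finset α) (U : Finset α),
    U.card < n → Sys b U → CT b U → ¬ Dt b U → 0 ≤ Pot b U

/-- The claim for connected sets of defect zero. -/
def ClE (n : ℕ) : Prop :=
  ∀ (α ι : Type) [DecidableEq α] [DecidableEq ι] [Fintype ι] (b : ι → Finset α) (U : Finset α),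
    U.card < n → U.Nonempty → Sys b U → CC b U → Con b U → 2 * tau b U = U.card → ¬ Dt b U →
    0 ≤ Pot b U

/-- Type `D` is closed. -/
theorem not_dt {b : ι → Finset α} {V C : Finset α} (hsys : Sys b V) (hcon : Con b V)
    (hC : C ⊆ V) (hne : C.Nonempty) (hne2 : (V \ C).Nonempty) : ¬ Dt b C := by
  intro hD
  apply con_not_sep hcon hC hne hne2
  intro i x hx y hy hxi hyi
  have h1 := dt_card (hsys.mono hC) hD i (mem_mt.mpr ⟨x, hx, hxi⟩)
  have h2 : insert y (b i ∩ C) ⊆ b i ∩ V := by
    intro z hz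
    rcases mem_insert.mp hz with rfl | hz
    · exact mem_inter.mpr ⟨hyi, (mem_sdiff.mp hy).1⟩
    · rw [mem_inter] at hz
      exact mem_inter.mpr ⟨hz.1, hC hz.2⟩
  have h3 := card_le_card h2
  rw [card_insert_of_notMem] at h3
  · have h4 := hsys.sz i
    omega
  · intro h4
    exact (mem_sdiff.mp hy).2 (mem_inter.mp h4).2

theorem sp_ins' {b : ι → Finset α} {V U : Finset α} (hUV : U ⊆ V) :
    2 * (sp b V ∩ (V \ U)).card ≤ (ins b V U).card := by
  classical
  have h1 := two_sp (b := b) (V := V) (T := sp b V ∩ (V \ U)) inter_subset_left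
  refine h1.trans (card_le_card ?_)
  intro i hi
  unfold ins
  rw [mem_filter]
  obtain ⟨-, s, hs, hs2⟩ := mem_filter.mp hi
  refine ⟨mem_univ i, ⟨s, by rw [hs2]; exact mem_singleton_self s⟩, ?_⟩
  rw [eq_empty_iff_forall_notMem]
  intro x hx
  rw [mem_inter] at hx
  have h3 : x ∈ b i ∩ V := mem_inter.mpr ⟨hx.1, hUV hx.2⟩
  rw [hs2, mem_singleton] at h3
  rw [h3] at hx
  exact (mem_sdiff.mp (mem_inter.mp hs).2).2 hx.2

theorem sp_split {b : ι → Finset α} {V U : Finset α} (hU : U ⊆ V) :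
    (sp b V).card = (sp b V ∩ U).card + (sp b V ∩ (V \ U)).card := by
  have hspV : sp b V ∩ V = sp b V := inter_eq_left.mpr (filter_subset _ _)
  rw [← card_union_of_disjoint, ← inter_union_distrib_left, union_sdiff_of_subset hU, hspV]
  exact disjoint_of_subset_left inter_subset_right
    (disjoint_of_subset_right inter_subset_right disjoint_sdiff)

/-- Additivity of the potential. -/
theorem sum_PotX {b : ι → Finset α} {V U : Finset α} (hc : Cb b U) :
    ∑ C ∈ cps b U, PotX b V C = PotX b V U := by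
  unfold PotX
  rw [sum_add_distrib, ← mul_sum, sum_eX hc, ← mul_sum, card_cps hc]
  push_cast
  rfl

/-- The budget equation for the potential. -/
theorem pot_cut {b : ι → Finset α} {V U : Finset α} (hU : U ⊆ V) :
    Pot b V + 374 * tau b V + 34 * (sp b V ∩ (V \ U)).card =
      PotX b V U + 374 * tau b U + 68 * (ins b V U).card + 71 * (V.card - U.card) := by
  have h1 := ee_cut (b := b) hU
  have h2 := sp_split (b := b) hU
  unfold Pot PotX
  rw [h2]
  push_cast
  linarith

theorem ee_sp {b : ι → Finset α} {V C : Finset α} (hsys : Sys b V) (hC : C ⊆ V) (hK : KT b C) :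
    0 ≤ ee b C - ((sp b V ∩ C).card : ℤ) := by
  have h3 := K (C.card + 1) α ι b C (by omega) (hsys.mono hC) hK
  have h4 : ((sp b V ∩ C).card : ℤ) ≤ (sp b C).card := by
    exact_mod_cast card_le_card (sp_sub hC)
  linarith

theorem KT.potX {b : ι → Finset α} {V C : Finset α} (hsys : Sys b V) (hC : C ⊆ V)
    (hK : KT b C) : 3 ≤ PotX b V C := by
  have h1 := ee_sp hsys hC hK
  have h2 := card_pos.mpr (KT.ne hK)
  unfold PotX
  omega

theorem Pot.le {b : ι → Finset α} {V C : Finset α} (hC : C ⊆ V) : Pot b C ≤ PotX b V C := by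
  have h4 : ((sp b V ∩ C).card : ℤ) ≤ (sp b C).card := by
    exact_mod_cast card_le_card (sp_sub hC)
  unfold Pot PotX
  linarith

theorem ClC.ext {n : ℕ} (h : ClC n) : ClE n := by
  intro α ι _ _ _ b U hn hne hsys hcc hcon htau hD
  classical
  obtain ⟨A, hA, hA2, hcr⟩ := exists_crit hsys.cb
  rcases A.eq_empty_or_nonempty with h0 | h0
  · subst h0
    rw [sdiff_empty] at hcr
    rcases kt_or_ct hsys.cb hcc hcon hcr hne with h1 | h1
    · have := h1.tau
      omega
    · exact h α ι b U hn hsys h1 hD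
  · have hcb := hsys.cb
    have hcU : Cb b (U \ A) := hcb.mono sdiff_subset
    have hty := types hcU (cc_red hcb hcc hA hA2) hcr
    have hUA : U \ A ⊆ U := sdiff_subset
    have h1 := pot_cut (b := b) hUA
    have h2 := sum_PotX (V := U) hcU
    have h3 : 0 ≤ ∑ C ∈ cps b (U \ A), PotX b U C := by
      apply sum_nonneg
      intro C hC
      have hCU := (cps_sub hC).trans hUA
      rcases hty C hC with h4 | h4
      · have := KT.potX hsys hCU h4
        omega
      · have h5 : ¬ Dt b C := by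
          apply not_dt hsys hcon hCU (cps_ne hC)
          obtain ⟨x, hx⟩ := h0
          exact ⟨x, mem_sdiff.mpr ⟨hA hx, fun h6 => (mem_sdiff.mp (cps_sub hC h6)).2 hx⟩⟩
        have h6 := h α ι b C ((card_le_card hCU).trans_lt hn) (hsys.mono hCU) h4 h5
        exact h6.trans (Pot.le hCU)
    have h4 := sp_ins' (b := b) hUA
    have h5 := card_sdiff_of_subset hA
    have h6 := card_le_card hA
    rw [hA2] at h1
    rw [h2] at h3
    have h7 : ((U.card : ℤ) - (U \ A).card) = A.card := by omega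
    rw [h7] at h1
    omega

variable {K : Type} [DecidableEq K] [Fintype K]

/-- The set-up of the pair cap. -/
theorem pair_setup {b : ι → Finset α} {V W : Finset α} {g : Fin 2 → Finset α}
    {I : Fin 2 → Finset ι} (hsys : Sys b V) (hWV : W ⊆ V) (hne : W.Nonempty) (hcon : Con b W)
    (hg : ∀ j, g j ⊆ V \ W) (hgd : Disjoint (g 0) (g 1))
    (hIW : ∀ j, ∀ i ∈ I j, ∃ x ∈ W, x ∈ b i) (hIg : ∀ j, ∀ i ∈ I j, ∃ y ∈ g j, y ∈ b i)
    {a c : ℕ} (ha : 1 ≤ a) (hac : a ≤ c) (hc : c ≤ 4) (h0 : (I 0).card = a)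
    (h1 : (I 1).card = c)
    (habs : ∀ x ∈ g 0, ∀ y ∈ g 1, tau b W + 1 ≤ tau b (W ∪ {x, y})) :
    Cap b V W g I (Op a c) ∧ Abs b W g (Op a c) 1 := by
  have hCap : Cap b V W g I (Op a c) := by
    refine ⟨hsys, hWV, hne, hcon, hg, ?_, hIW, hIg, ?_, ?_, Op_le a c, Op_one a c⟩
    · intro j j' hjj
      fin_cases j <;> fin_cases j'
      · exact absurd rfl hjj
      · exact hgd
      · exact hgd.symm
      · exact absurd rfl hjj
    · intro j
      rw [← card_pos]
      fin_cases j
      · show 0 < (I 0).card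
        omega
      · show 0 < (I 1).card
        omega
    · intro j
      fin_cases j
      · show (I 0).card + (univ.filter fun t => (0 : Fin 2) ∈ Op a c t).card = 5
        rw [Op_zero]
        omega
      · show (I 1).card + (univ.filter fun t => (1 : Fin 2) ∈ Op a c t).card = 5
        rw [Op_two hac]
        omega
  refine ⟨hCap, ?_⟩
  have hcbW : Cb b W := (hsys.mono hWV).cb
  intro T f hf
  rcases T.eq_empty_or_nonempty with hT | hT
  · subst hT
    have h2 : uc (Op a c) ∅ = univ := by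
      ext j
      simp [uc]
    rw [h2] at hf ⊢
    have h3 := habs (f 0) (hf 0 (mem_univ 0)) (f 1) (hf 1 (mem_univ 1))
    have h4 : (univ : Finset (Fin 2)).image f = {f 0, f 1} := by
      ext y
      rw [mem_image, mem_insert, mem_singleton]
      constructor
      · rintro ⟨j, -, rfl⟩
        fin_cases j
        · exact Or.inl rfl
        · exact Or.inr rfl
      · rintro (rfl | rfl)
        · exact ⟨0, mem_univ _, rfl⟩
        · exact ⟨1, mem_univ _, rfl⟩
    rw [h4, card_empty]
    omega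
  · have h2 := card_pos.mpr hT
    have h3 : tau b W ≤ tau b (W ∪ (uc (Op a c) T).image f) := by
      apply tau_mono
      · intro x hx
        rcases mem_union.mp hx with hx | hx
        · exact hcbW x hx
        · obtain ⟨j, hj, rfl⟩ := mem_image.mp hx
          exact hsys.cb _ (mem_sdiff.mp (hg j (hf j hj))).1
      · exact subset_union_left
    omega

theorem CT.ne' {b : ι → Finset α} {W : Finset α} (hne : W.Nonempty) (_h : CT b W) :
    W.Nonempty := hne

/-- The pair cap for C-types, ordered form. -/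
theorem pairC_aux {b : ι → Finset α} {V W : Finset α} {g : Fin 2 → Finset α}
    {I : Fin 2 → Finset ι} (hsys : Sys b V) {n : ℕ} (hIH : ClE n) (hWV : W ⊆ V)
    (hne : W.Nonempty) (hC : CT b W)
    (hn : W.card + 2 < n) (hg : ∀ j, g j ⊆ V \ W) (hgd : Disjoint (g 0) (g 1))
    (hIW : ∀ j, ∀ i ∈ I j, ∃ x ∈ W, x ∈ b i) (hIg : ∀ j, ∀ i ∈ I j, ∃ y ∈ g j, y ∈ b i)
    {a c : ℕ} (ha : 1 ≤ a) (hac : a ≤ c) (hc : c ≤ 4) (h0 : (I 0).card = a)
    (h1 : (I 1).card = c)
    (habs : ∀ x ∈ g 0, ∀ y ∈ g 1, tau b W + 1 ≤ tau b (W ∪ {x, y})) :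
    34 * ((if a + 2 ≤ c then 1 else 0) + 2 * (a : ℤ)) ≤ PotX b V W + 108 := by
  obtain ⟨hCap, hA⟩ := pair_setup hsys hWV hne hC.con hg hgd hIW hIg ha hac hc h0 h1 habs
  have hcb := hCap.cap_sys.cb
  have htg := hCap.tau_ge hA
  have hCt := hC.tau
  have ho : (0 : Fin 2) ∈ Op a c ⟨0, by omega⟩ ∧ (1 : Fin 2) ∈ Op a c ⟨0, by omega⟩ := by
    unfold Op
    rw [if_pos (by show 0 < 5 - c; omega)]
    simp
  have hswap : ∀ j : Fin 2, (1 - j : Fin 2) ≠ j → ∃ t, j ∈ Op a c t ∧
      (1 - j : Fin 2) ∈ Op a c t := by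
    intro j _
    refine ⟨⟨0, by omega⟩, ?_⟩
    fin_cases j
    · exact ho
    · exact ⟨ho.2, ho.1⟩
  have hcard : (cU (Fin 2) W).card = W.card + 2 := by
    rw [card_cU, Fintype.card_fin]
  obtain ⟨ν, hν, hν0⟩ := hC.pm
  have hmt := mupl_mt (I := I) (O := Op a c) (mo := fun j : Fin 2 => 1 - j) hν.1 (by decide)
    hswap
  have hex : ex ν W = ∅ := by
    rw [eq_empty_iff_forall_notMem]
    intro x hx
    rw [mem_ex] at hx
    exact hν0 x hx.1 hx.2
  have hex2 : (ex (mupl ν fun j : Fin 2 => 1 - j) (cU (Fin 2) W)).card = 0 := by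
    rw [mupl_ex, fix_swap, hex, card_empty, card_empty]
  have h2 := hmt.two_tau_le hcb
  rw [hex2, hcard] at h2
  have htau : 2 * tau (cb b W I (Op a c)) (cU (Fin 2) W) = (cU (Fin 2) W).card := by
    rw [hcard]
    omega
  have hcc : CC (cb b W I (Op a c)) (cU (Fin 2) W) := ⟨_, hmt, by rw [hex2, htau]; rfl⟩
  have hnD : ¬ Dt (cb b W I (Op a c)) (cU (Fin 2) W) := by
    intro hD
    have h3 := dt_card hCap.cap_sys hD (Sum.inr ⟨0, by omega⟩)
      (mem_mt.mpr ⟨Sum.inr 0, inr_cU, inr_cb'.mpr ho.1⟩)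
    have h4 : (cb b W I (Op a c) (Sum.inr ⟨0, by omega⟩) ∩ cU (Fin 2) W).card ≤ 2 := by
      refine (card_le_card inter_subset_left).trans ?_
      show ((Op a c ⟨0, by omega⟩).map Function.Embedding.inr).card ≤ 2
      rw [card_map]
      exact (card_le_univ _).trans (by simp)
    omega
  have h3 := hIH (α ⊕ Fin 2) (ι ⊕ Fin (5 - a)) (cb b W I (Op a c)) (cU (Fin 2) W)
    (by rw [hcard]; exact hn) (card_pos.mp (by rw [hcard]; omega)) hCap.cap_sys hcc hCap.cap_con
    htau hnD
  have h4 := hCap.sp_ge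
  have h5 := hCap.nb_le
  rw [Fintype.card_fin] at h5
  rw [hcard] at htau
  unfold Pot ee at h3
  unfold PotX ee
  rw [h5, hcard] at h3
  have h7 : ((5 - a : ℕ) : ℤ) = 5 - a := by omega
  have h9 : (if a + 2 ≤ c then (1 : ℤ) else 0) ≤ (sq (Op a c)).card := by
    split_ifs with h8
    · have := Op_sq h8 (by omega)
      exact_mod_cast this
    · positivity
  push_cast at h3
  rw [h7] at h3
  zify at h4 htau hCt
  linarith

end Pool.Agent.Helper74.C5
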