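import Pool.Agent.Helper20.C5.Cap

/-!
# The pair cap for K-type traces
-/

set_option linter.unusedSectionVars false

open Finset

namespace Pool.Agent.Helper74.C5

open Pool.Agent.Helper20.C5

/-- The induction hypothesis for K-types. -/
def IHK (n : ℕ) : Prop :=
  ∀ (α ι : Type) [DecidableEq α] [DecidableEq ι] [Fintype ι] (b : ι → Finset α) (U : Finset α),
    U.card < n → Sys b U → KT b U → ((sp b U).card : ℤ) ≤ ee b U

variable {α ι : Type} [DecidableEq α] [DecidableEq ι] [Fintype ι]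
variable {J K : Type} [DecidableEq J] [Fintype J] [DecidableEq K] [Fintype K]

theorem KT.ne {b : ι → Finset α} {W : Finset α} (h : KT b W) : W.Nonempty := by
  rw [nonempty_iff_ne_empty]
  intro h1
  have h2 := h.tau
  rw [h1, tau_empty, card_empty] at h2
  omega

theorem Om.ex_one {b : ι → Finset α} {W : Finset α} (h : KT b W) {ν : α → α} (hν : Om b W ν)
    {x : α} (hx : x ∈ W) (hx2 : ν x = x) : ex ν W = {x} := by
  have h1 := hν.2
  have h2 := h.tau
  have h3 : (ex ν W).card = 1 := by omega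
  obtain ⟨y, hy⟩ := card_eq_one.mp h3
  have h4 : x ∈ ex ν W := mem_ex.mpr ⟨hx, hx2⟩
  rw [hy, mem_singleton] at h4
  rw [hy, h4]

/-- A matching of the capped system without link. -/
def mupl (ν : α → α) (mo : J → J) : α ⊕ J → α ⊕ J
  | Sum.inl x => Sum.inl (ν x)
  | Sum.inr j => Sum.inr (mo j)

/-- A matching of the capped system with the link `x0, j0`. -/
def muli (ν : α → α) (mo : J → J) (x0 : α) (j0 : J) : α ⊕ J → α ⊕ J
  | Sum.inl x => if x = x0 then Sum.inr j0 else Sum.inl (ν x)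
  | Sum.inr j => if j = j0 then Sum.inl x0 else Sum.inr (mo j)

section

variable {b : ι → Finset α} {V W : Finset α} {g : J → Finset α} {I : J → Finset ι}
  {O : K → Finset J}

theorem mupl_mt {ν : α → α} {mo : J → J} (hν : Mt b W ν) (hmo : ∀ j, mo (mo j) = j)
    (hmt : ∀ j, mo j ≠ j → ∃ t, j ∈ O t ∧ mo j ∈ O t) :
    Mt (cb b W I O) (cU J W) (mupl ν mo) := by
  refine ⟨?_, ?_, ?_⟩
  · intro z
    cases z with
    | inl x => exact congrArg Sum.inl (hν.inv x)
    | inr j => exact congrArg Sum.inr (hmo j)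
  · intro z hz
    cases z with
    | inl x =>
      rw [inl_cU] at hz
      exact congrArg Sum.inl (hν.out x hz)
    | inr j => exact absurd inr_cU hz
  · intro z hz
    cases z with
    | inl x =>
      have h1 : ν x ≠ x := fun h => hz (congrArg Sum.inl h)
      obtain ⟨i, hi, hi2⟩ := hν.adj x h1
      have hxW : x ∈ W := by
        by_contra h2
        exact h1 (hν.out x h2)
      exact ⟨Sum.inl i, inl_cb.mpr ⟨hi, hxW⟩, inl_cb.mpr ⟨hi2, hν.mem hxW⟩⟩
    | inr j =>
      have h1 : mo j ≠ j := fun h => hz (congrArg Sum.inr h)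
      obtain ⟨t, ht, ht2⟩ := hmt j h1
      exact ⟨Sum.inr t, inr_cb'.mpr ht, inr_cb'.mpr ht2⟩

theorem mupl_ex {ν : α → α} {mo : J → J} :
    (ex (mupl ν mo) (cU J W)).card = (ex ν W).card + (univ.filter fun j => mo j = j).card := by
  have h1 : ex (mupl ν mo) (cU J W) = (ex ν W).map Function.Embedding.inl ∪
      (univ.filter fun j => mo j = j).map Function.Embedding.inr := by
    ext z
    rw [mem_ex, mem_union, mem_map, mem_map]
    cases z with
    | inl x =>
      rw [inl_cU]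
      constructor
      · rintro ⟨h1, h2⟩
        exact Or.inl ⟨x, mem_ex.mpr ⟨h1, Sum.inl_injective h2⟩, rfl⟩
      · rintro (⟨y, hy, h⟩ | ⟨j, -, h⟩)
        · rw [← Sum.inl_injective h]
          have h2 := mem_ex.mp hy
          exact ⟨h2.1, congrArg Sum.inl h2.2⟩
        · exact absurd h (by simp)
    | inr j =>
      constructor
      · rintro ⟨h1, h2⟩
        exact Or.inr ⟨j, mem_filter.mpr ⟨mem_univ j, Sum.inr_injective h2⟩, rfl⟩
      · rintro (⟨y, hy, h⟩ | ⟨j', hj, h⟩)
        · exact absurd h (by simp)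
        · rw [← Sum.inr_injective h]
          exact ⟨inr_cU, congrArg Sum.inr (mem_filter.mp hj).2⟩
  rw [h1, card_union_of_disjoint, card_map, card_map]
  rw [disjoint_left]
  intro x hx hx2
  obtain ⟨y, hy, rfl⟩ := mem_map.mp hx
  obtain ⟨j, -, h⟩ := mem_map.mp hx2
  exact absurd h (by simp)

theorem muli_mt {ν : α → α} {mo : J → J} {x0 : α} {j0 : J} {i0 : ι} (hν : Mt b W ν)
    (hx0 : x0 ∈ W) (hν0 : ν x0 = x0) (hi0 : i0 ∈ I j0) (hx1 : x0 ∈ b i0)
    (hmo : ∀ j, mo (mo j) = j) (hm0 : mo j0 = j0)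
    (hmt : ∀ j, mo j ≠ j → ∃ t, j ∈ O t ∧ mo j ∈ O t) :
    Mt (cb b W I O) (cU J W) (muli ν mo x0 j0) := by
  have e1 : muli ν mo x0 j0 (Sum.inl x0) = Sum.inr j0 := if_pos rfl
  have e2 : ∀ x, x ≠ x0 → muli ν mo x0 j0 (Sum.inl x) = Sum.inl (ν x) := fun x hx => if_neg hx
  have e3 : muli ν mo x0 j0 (Sum.inr j0) = Sum.inl x0 := if_pos rfl
  have e4 : ∀ j, j ≠ j0 → muli ν mo x0 j0 (Sum.inr j) = Sum.inr (mo j) := fun x hx => if_neg hx
  refine ⟨?_, ?_, ?_⟩
  · intro z
    cases z with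
    | inl x =>
      by_cases hx : x = x0
      · rw [hx, e1, e3]
      · rw [e2 x hx, e2, hν.inv]
        intro h1
        apply hx
        rw [← hν.inv x, h1, hν0]
    | inr j =>
      by_cases hj : j = j0
      · rw [hj, e3, e1]
      · rw [e4 j hj, e4, hmo]
        intro h1
        apply hj
        rw [← hmo j, h1, hm0]
  · intro z hz
    cases z with
    | inl x =>
      rw [inl_cU] at hz
      have hx : x ≠ x0 := fun h => hz (h ▸ hx0)
      rw [e2 x hx, hν.out x hz]
    | inr j => exact absurd inr_cU hz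
  · intro z hz
    cases z with
    | inl x =>
      by_cases hx : x = x0
      · rw [hx, e1]
        exact ⟨Sum.inl i0, inl_cb.mpr ⟨hx1, hx0⟩, inr_cb.mpr hi0⟩
      · rw [e2 x hx] at hz ⊢
        have h1 : ν x ≠ x := fun h => hz (by rw [h])
        obtain ⟨i, hi, hi2⟩ := hν.adj x h1
        have hxW : x ∈ W := by
          by_contra h2
          exact h1 (hν.out x h2)
        exact ⟨Sum.inl i, inl_cb.mpr ⟨hi, hxW⟩, inl_cb.mpr ⟨hi2, hν.mem hxW⟩⟩
    | inr j =>
      by_cases hj : j = j0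
      · rw [hj, e3]
        exact ⟨Sum.inl i0, inr_cb.mpr hi0, inl_cb.mpr ⟨hx1, hx0⟩⟩
      · rw [e4 j hj] at hz ⊢
        have h1 : mo j ≠ j := fun h => hz (by rw [h])
        obtain ⟨t, ht, ht2⟩ := hmt j h1
        exact ⟨Sum.inr t, inr_cb'.mpr ht, inr_cb'.mpr ht2⟩

theorem muli_ex {ν : α → α} {mo : J → J} {x0 : α} {j0 : J} (hν0 : ν x0 = x0)
    (hx0 : x0 ∈ W) (hm0 : mo j0 = j0) :
    (ex (muli ν mo x0 j0) (cU J W)).card + 2 =
      (ex ν W).card + (univ.filter fun j => mo j = j).card := by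
  have e1 : muli ν mo x0 j0 (Sum.inl x0) = Sum.inr j0 := if_pos rfl
  have e2 : ∀ x, x ≠ x0 → muli ν mo x0 j0 (Sum.inl x) = Sum.inl (ν x) := fun x hx => if_neg hx
  have e3 : muli ν mo x0 j0 (Sum.inr j0) = Sum.inl x0 := if_pos rfl
  have e4 : ∀ j, j ≠ j0 → muli ν mo x0 j0 (Sum.inr j) = Sum.inr (mo j) := fun x hx => if_neg hx
  have h1 : ex (muli ν mo x0 j0) (cU J W) = ((ex ν W).erase x0).map Function.Embedding.inl ∪
      ((univ.filter fun j => mo j = j).erase j0).map Function.Embedding.inr := by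
    ext z
    rw [mem_ex, mem_union, mem_map, mem_map]
    cases z with
    | inl x =>
      rw [inl_cU]
      constructor
      · rintro ⟨h1, h2⟩
        by_cases hx : x = x0
        · rw [hx, e1] at h2
          exact absurd h2 (by simp)
        · rw [e2 x hx] at h2
          exact Or.inl ⟨x, mem_erase.mpr ⟨hx, mem_ex.mpr ⟨h1, Sum.inl_injective h2⟩⟩, rfl⟩
      · rintro (⟨y, hy, h⟩ | ⟨j, -, h⟩)
        · rw [← Sum.inl_injective h]
          rw [mem_erase] at hy
          have h2 := mem_ex.mp hy.2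
          exact ⟨h2.1, by rw [e2 y hy.1, h2.2]⟩
        · exact absurd h (by simp)
    | inr j =>
      constructor
      · rintro ⟨h1, h2⟩
        by_cases hj : j = j0
        · rw [hj, e3] at h2
          exact absurd h2 (by simp)
        · rw [e4 j hj] at h2
          exact Or.inr ⟨j, mem_erase.mpr ⟨hj, mem_filter.mpr ⟨mem_univ j,
            Sum.inr_injective h2⟩⟩, rfl⟩
      · rintro (⟨y, hy, h⟩ | ⟨j', hj, h⟩)
        · exact absurd h (by simp)
        · rw [← Sum.inr_injective h]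
          rw [mem_erase] at hj
          exact ⟨inr_cU, by rw [e4 j' hj.1, (mem_filter.mp hj.2).2]⟩
  have h2 : x0 ∈ ex ν W := mem_ex.mpr ⟨hx0, hν0⟩
  have h3 : j0 ∈ univ.filter fun j => mo j = j := mem_filter.mpr ⟨mem_univ j0, hm0⟩
  rw [h1, card_union_of_disjoint, card_map, card_map, card_erase_of_mem h2, card_erase_of_mem h3]
  · have h4 : 0 < (ex ν W).card := card_pos.mpr ⟨x0, h2⟩
    have h5 : 0 < (univ.filter fun j => mo j = j).card := card_pos.mpr ⟨j0, h3⟩
    omega
  · rw [disjoint_left]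
    intro x hx hx2
    obtain ⟨y, hy, rfl⟩ := mem_map.mp hx
    obtain ⟨j, -, h⟩ := mem_map.mp hx2
    exact absurd h (by simp)

end

section

variable {b : ι → Finset α} {V W : Finset α} {g : Fin 2 → Finset α} {I : Fin 2 → Finset ι}
  {O : K → Finset (Fin 2)}

theorem fix_swap : (univ.filter fun j : Fin 2 => (1 - j) = j) = ∅ := by decide

theorem ne_flip : ∀ j : Fin 2, j ≠ 1 - j := by decide

theorem fix_id : (univ.filter fun j : Fin 2 => id j = j).card = 2 := by decide

/-- The capped system is of K-type. -/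
theorem capKT (h : Cap b V W g I O) (hA : Abs b W g O 1) (hK : KT b W)
    (ho : ∃ t, (0 : Fin 2) ∈ O t ∧ (1 : Fin 2) ∈ O t) : KT (cb b W I O) (cU (Fin 2) W) := by
  have hcb := h.cap_sys.cb
  have h1 := h.tau_ge hA
  have hKt := hK.tau
  have hswap : ∀ j : Fin 2, (1 - j : Fin 2) ≠ j → ∃ t, j ∈ O t ∧ (1 - j : Fin 2) ∈ O t := by
    obtain ⟨t, ht, ht2⟩ := ho
    intro j _
    refine ⟨t, ?_⟩
    fin_cases j
    · exact ⟨ht, ht2⟩
    · exact ⟨ht2, ht⟩
  have hcard : (cU (Fin 2) W).card = W.card + 2 := by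
    rw [card_cU, Fintype.card_fin]
  -- the value of tau
  have htau : 2 * tau (cb b W I O) (cU (Fin 2) W) = (cU (Fin 2) W).card + 1 := by
    obtain ⟨x, hx⟩ := KT.ne hK
    obtain ⟨ν, hν, hν0⟩ := hK.fc x hx
    have h2 := (mupl_mt (I := I) (O := O) (mo := fun j : Fin 2 => 1 - j) hν.1 (by decide)
      hswap).two_tau_le hcb
    rw [mupl_ex, fix_swap, Om.ex_one hK hν hx hν0, card_singleton, card_empty, hcard] at h2
    rw [hcard]
    omega
  have hOm : ∀ μ, Mt (cb b W I O) (cU (Fin 2) W) μ → (ex μ (cU (Fin 2) W)).card = 1 →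
      Om (cb b W I O) (cU (Fin 2) W) μ := by
    intro μ h2 h3
    refine ⟨h2, ?_⟩
    rw [h3, htau]
  refine ⟨h.cap_con, htau, ?_⟩
  intro z hz
  cases z with
  | inl x =>
    rw [inl_cU] at hz
    obtain ⟨ν, hν, hν0⟩ := hK.fc x hz
    refine ⟨mupl ν (fun j : Fin 2 => 1 - j), hOm _ (mupl_mt hν.1 (by decide) hswap) ?_, ?_⟩
    · rw [mupl_ex, fix_swap, Om.ex_one hK hν hz hν0, card_singleton, card_empty]
    · exact congrArg Sum.inl hν0
  | inr j =>
    obtain ⟨i0, hi0⟩ := h.Ine (1 - j)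
    obtain ⟨x0, hx0, hx1⟩ := h.IW (1 - j) i0 hi0
    obtain ⟨ν, hν, hν0⟩ := hK.fc x0 hx0
    have hne : j ≠ 1 - j := ne_flip j
    refine ⟨muli ν id x0 (1 - j), hOm _ (muli_mt hν.1 hx0 hν0 hi0 hx1 (fun _ => rfl) rfl
      (fun j hj => absurd rfl hj)) ?_, ?_⟩
    · have h3 := muli_ex (J := Fin 2) (mo := id) (j0 := 1 - j) hν0 hx0 rfl
      rw [fix_id, Om.ex_one hK hν hx0 hν0, card_singleton] at h3
      omega
    · show (if j = 1 - j then Sum.inl x0 else Sum.inr (id j)) = Sum.inr j
      rw [if_neg hne]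
      rfl

/-- The own blocks of the pair cap. -/
def Op (a c : ℕ) (t : Fin (5 - a)) : Finset (Fin 2) := if (t : ℕ) < 5 - c then {0, 1} else {0}

theorem Op_one (a c : ℕ) (t : Fin (5 - a)) : (Op a c t).Nonempty := by
  unfold Op
  split_ifs
  · exact ⟨0, by simp⟩
  · exact ⟨0, by simp⟩

theorem Op_le (a c : ℕ) (t : Fin (5 - a)) : (Op a c t).card ≤ 3 := by
  unfold Op
  split_ifs
  · exact (card_le_univ _).trans (by simp)
  · exact (card_le_univ _).trans (by simp)

theorem Op_zero (a c : ℕ) : (univ.filter fun t => (0 : Fin 2) ∈ Op a c t).card = 5 - a := by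
  have h1 : (univ.filter fun t => (0 : Fin 2) ∈ Op a c t) = univ := by
    ext t
    rw [mem_filter]
    refine ⟨fun _ => mem_univ t, fun _ => ⟨mem_univ t, ?_⟩⟩
    unfold Op
    split_ifs <;> simp
  rw [h1, card_univ, Fintype.card_fin]

theorem Op_two {a c : ℕ} (hac : a ≤ c) :
    (univ.filter fun t => (1 : Fin 2) ∈ Op a c t).card = 5 - c := by
  have h1 : (univ.filter fun t => (1 : Fin 2) ∈ Op a c t) =
      univ.filter fun t : Fin (5 - a) => (t : ℕ) < 5 - c := by
    ext t
    rw [mem_filter, mem_filter]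
    constructor
    · rintro ⟨h1, h2⟩
      refine ⟨h1, ?_⟩
      unfold Op at h2
      split_ifs at h2 with h3
      · exact h3
      · simp at h2
    · rintro ⟨h1, h2⟩
      refine ⟨h1, ?_⟩
      unfold Op
      rw [if_pos h2]
      simp
  rw [h1]
  have h2 : (univ.filter fun t : Fin (5 - a) => (t : ℕ) < 5 - c).card =
      (range (5 - c)).card := by
    rw [← card_map Fin.valEmbedding]
    congr 1
    ext x
    rw [mem_map, mem_range]
    constructor
    · rintro ⟨t, ht, rfl⟩
      exact (mem_filter.mp ht).2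
    · intro hx
      exact ⟨⟨x, by omega⟩, mem_filter.mpr ⟨mem_univ _, hx⟩, rfl⟩
  rw [h2, card_range]

theorem Op_sq {a c : ℕ} (hac : a + 2 ≤ c) (hc : c ≤ 5) : 1 ≤ (sq (Op a c)).card := by
  rw [Nat.one_le_iff_ne_zero, ← Nat.pos_iff_ne_zero, card_pos]
  refine ⟨0, mem_filter.mpr ⟨mem_univ _, ?_⟩⟩
  have h1 : ({⟨5 - c, by omega⟩, ⟨5 - c + 1, by omega⟩} : Finset (Fin (5 - a))) ⊆
      univ.filter fun t => Op a c t = {0} := by
    intro t ht
    rw [mem_insert, mem_singleton] at ht
    rw [mem_filter]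
    refine ⟨mem_univ t, ?_⟩
    unfold Op
    rw [if_neg]
    rcases ht with rfl | rfl
    · simp
    · simp
  refine le_trans ?_ (card_le_card h1)
  rw [card_pair]
  simp

/-- The pair cap, ordered form. -/
theorem pairK_aux (hsys : Sys b V) {n : ℕ} (hIH : IHK n) (hWV : W ⊆ V) (hK : KT b W)
    (hn : W.card + 2 < n) (hg : ∀ j, g j ⊆ V \ W) (hgd : Disjoint (g 0) (g 1))
    (hIW : ∀ j, ∀ i ∈ I j, ∃ x ∈ W, x ∈ b i) (hIg : ∀ j, ∀ i ∈ I j, ∃ y ∈ g j, y ∈ b i)
    {a c : ℕ} (ha : 1 ≤ a) (hac : a ≤ c) (hc : c ≤ 4) (h0 : (I 0).card = a)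
    (h1 : (I 1).card = c)
    (habs : ∀ x ∈ g 0, ∀ y ∈ g 1, tau b W + 1 ≤ tau b (W ∪ {x, y})) :
    ((sp b V ∩ W).card : ℤ) + (if a + 2 ≤ c then 1 else 0) + 2 * a ≤ ee b W + 3 := by
  have hCap : Cap b V W g I (Op a c) := by
    refine ⟨hsys, hWV, KT.ne hK, hK.con, hg, ?_, hIW, hIg, ?_, ?_, Op_le a c, Op_one a c⟩
    · intro j j' hjj
      fin_cases j <;> fin_cases j'
      · exact absurd rfl hjj
      · exact hgd
      · exact hgd.symm
      · exact absurd rfl hjj
    · intro j
      rw [← card_pos]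
      fin_cases j
      · show 0 < (I 0).card
        omega
      · show 0 < (I 1).card
        omega
    · intro j
      fin_cases j
      · show (I 0).card + (univ.filter fun t => (0 : Fin 2) ∈ Op a c t).card = 5
        rw [Op_zero]
        omega
      · show (I 1).card + (univ.filter fun t => (1 : Fin 2) ∈ Op a c t).card = 5
        rw [Op_two hac]
        omega
  have hcbW : Cb b W := (hsys.mono hWV).cb
  have hA : Abs b W g (Op a c) 1 := by
    intro T f hf
    rcases T.eq_empty_or_nonempty with hT | hT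
    · subst hT
      have h2 : uc (Op a c) ∅ = univ := by
        ext j
        simp [uc]
      rw [h2] at hf ⊢
      have h3 := habs (f 0) (hf 0 (mem_univ 0)) (f 1) (hf 1 (mem_univ 1))
      have h4 : (univ : Finset (Fin 2)).image f = {f 0, f 1} := by
        ext y
        rw [mem_image, mem_insert, mem_singleton]
        constructor
        · rintro ⟨j, -, rfl⟩
          fin_cases j
          · exact Or.inl rfl
          · exact Or.inr rfl
        · rintro (rfl | rfl)
          · exact ⟨0, mem_univ _, rfl⟩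
          · exact ⟨1, mem_univ _, rfl⟩
      rw [h4, card_empty]
      omega
    · have h2 := card_pos.mpr hT
      have h3 : tau b W ≤ tau b (W ∪ (uc (Op a c) T).image f) := by
        apply tau_mono
        · intro x hx
          rcases mem_union.mp hx with hx | hx
          · exact hcbW x hx
          · obtain ⟨j, hj, rfl⟩ := mem_image.mp hx
            exact hsys.cb _ (mem_sdiff.mp (hg j (hf j hj))).1
        · exact subset_union_left
      omega
  have hKT := capKT hCap hA hK ⟨⟨0, by omega⟩, by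
    unfold Op
    rw [if_pos (by show 0 < 5 - c; omega)]
    simp⟩
  have h2 := hIH (α ⊕ Fin 2) (ι ⊕ Fin (5 - a)) (cb b W I (Op a c)) (cU (Fin 2) W)
    (by rw [card_cU, Fintype.card_fin]; exact hn) hCap.cap_sys hKT
  have h3 := hCap.sp_ge
  have h4 := hCap.nb_le
  have h5 := hKT.tau
  have h6 := hK.tau
  rw [card_cU, Fintype.card_fin] at h5
  rw [Fintype.card_fin] at h4
  unfold ee at h2 ⊢
  rw [h4, card_cU, Fintype.card_fin] at h2
  have h7 : ((5 - a : ℕ) : ℤ) = 5 - a := by omega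
  have h9 : (if a + 2 ≤ c then (1 : ℤ) else 0) ≤ (sq (Op a c)).card := by
    split_ifs with h8
    · have := Op_sq h8 (by omega)
      exact_mod_cast this
    · positivity
  push_cast at h2
  rw [h7] at h2
  zify at h3 h5 h6
  have h10 : (tau (cb b W I (Op a c)) (cU (Fin 2) W) : ℤ) = tau b W + 1 := by linarith
  rw [h10] at h2
  linarith

end

end Pool.Agent.Helper74.C5
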