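import Pool.Agent.Helper74.C5.PairC

/-!
# Single cuts: general lemmas
-/

set_option linter.unusedSectionVars false

open Finset

namespace Pool.Agent.Helper74.C5

open Pool.Agent.Helper20.C5

variable {α ι : Type} [DecidableEq α] [DecidableEq ι] [Fintype ι]

/-- **The pair cap for C-types.** -/
theorem pairC {b : ι → Finset α} {V W : Finset α} (hsys : Sys b V) {n : ℕ} (hIH : ClE n)
    (hWV : W ⊆ V) (hne : W.Nonempty) (hC : CT b W) (hn : W.card + 2 < n) {G H : Finset α}
    (hG : G ⊆ V \ W) (hH : H ⊆ V \ W) (hGH : Disjoint G H) {a c : ℕ} (ha : 1 ≤ a) (hac : a ≤ c)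
    (hc : c ≤ 4) (h0 : a ≤ dg b G W) (h1 : c ≤ dg b H W)
    (habs : ∀ x ∈ G, ∀ y ∈ H, tau b W + 1 ≤ tau b (W ∪ {x, y})) :
    34 * ((if a + 2 ≤ c then 1 else 0) + 2 * (a : ℤ)) ≤ PotX b V W + 108 := by
  obtain ⟨I0, hI0, hI0c⟩ := exists_subset_card_eq h0
  obtain ⟨I1, hI1, hI1c⟩ := exists_subset_card_eq h1
  have key : ∀ (T : Finset α) (I : Finset ι),
      I ⊆ univ.filter (fun i => (b i ∩ T).Nonempty ∧ (b i ∩ W).Nonempty) →
      (∀ i ∈ I, ∃ x ∈ W, x ∈ b i) ∧ (∀ i ∈ I, ∃ y ∈ T, y ∈ b i) := by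
    intro T I hI
    constructor
    · intro i hi
      obtain ⟨-, -, x, hx⟩ := mem_filter.mp (hI hi)
      rw [mem_inter] at hx
      exact ⟨x, hx.2, hx.1⟩
    · intro i hi
      obtain ⟨-, ⟨x, hx⟩, -⟩ := mem_filter.mp (hI hi)
      rw [mem_inter] at hx
      exact ⟨x, hx.2, hx.1⟩
  have k0 := key G I0 hI0
  have k1 := key H I1 hI1
  refine pairC_aux (g := ![G, H]) (I := ![I0, I1]) hsys hIH hWV hne hC hn ?_ ?_ ?_ ?_ ha hac hc
    hI0c hI1c habs
  · intro j
    fin_cases j
    · exact hG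
    · exact hH
  · exact hGH
  · intro j
    fin_cases j
    · exact k0.1
    · exact k1.1
  · intro j
    fin_cases j
    · exact k0.2
    · exact k1.2

/-- A cut at an allowed face. -/
theorem exists_FC' {b : ι → Finset α} {V : Finset α} (hsys : Sys b V) (hvc : Vc b V) {i0 : ι}
    (hP3 : (b i0 ∩ V).card = 3) (hcc : CC b (V \ (b i0 ∩ V))) :
    ∃ U k, FC b V U i0 k ∧ U ⊆ V \ (b i0 ∩ V) ∧ (k = 0 → U = V \ (b i0 ∩ V)) := by
  classical
  have hPV : b i0 ∩ V ⊆ V := inter_subset_right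
  have hcb := hsys.cb
  obtain ⟨p, hp⟩ : (b i0 ∩ V).Nonempty := card_pos.mp (by omega)
  have hpV := hPV hp
  have ht : tau b (V \ (b i0 ∩ V)) + 1 = tau b V := by
    have h1 := hvc p hpV
    have h2 : tau b (V \ (b i0 ∩ V)) ≤ tau b (V.erase p) := by
      apply tau_mono (hcb.mono (erase_subset p V))
      intro x hx
      rw [mem_sdiff] at hx
      exact mem_erase.mpr ⟨fun h => hx.2 (h ▸ hp), hx.1⟩
    have h3 := tau_union (hcb.mono (sdiff_subset : V \ (b i0 ∩ V) ⊆ V))
      (hcb.mono hPV)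
    rw [sdiff_union_of_subset hPV] at h3
    have h4 : tau b (b i0 ∩ V) ≤ 1 := tau_le (cv_block i0 inter_subset_left)
    omega
  have hcb' : Cb b (V \ (b i0 ∩ V)) := hcb.mono sdiff_subset
  obtain ⟨A, hA, hA2, hcr⟩ := exists_crit hcb'
  have hcb'' : Cb b ((V \ (b i0 ∩ V)) \ A) := hcb'.mono sdiff_subset
  refine ⟨(V \ (b i0 ∩ V)) \ A, A.card, ⟨sdiff_subset.trans sdiff_subset, hP3, ?_, ?_, ?_, ?_⟩,
    sdiff_subset, ?_⟩
  · rw [eq_empty_iff_forall_notMem]
    intro x hx
    rw [mem_inter, mem_sdiff, mem_sdiff] at hx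
    exact hx.2.1.2 (mem_inter.mpr ⟨hx.1, hx.2.1.1⟩)
  · rw [hA2]
    exact ht
  · rw [card_sdiff_of_subset hA, card_sdiff_of_subset hPV, hP3]
    have h1 := card_le_card hA
    rw [card_sdiff_of_subset hPV, hP3] at h1
    have h2 := card_le_card hPV
    rw [hP3] at h2
    omega
  · exact types hcb'' (cc_red hcb' hcc hA hA2) hcr
  · intro h1
    rw [card_eq_zero.mp h1, sdiff_empty]

theorem FC.vcC {b : ι → Finset α} {V U : Finset α} {i0 : ι} {k : ℕ} (h : FC b V U i0 k)
    (hcb : Cb b V) {C : Finset α} (hC : C ∈ cps b U) : Vc b C := by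
  rcases h.typ C hC with h3 | h3
  · exact KT.vc (hcb.mono ((cps_sub hC).trans h.sub)) h3
  · exact CT.vc h3

theorem FC.ne2 {b : ι → Finset α} {V U : Finset α} {i0 : ι} {k : ℕ} (h : FC b V U i0 k)
    {C : Finset α} (hC : C ∈ cps b U) : (V \ C).Nonempty := by
  have h1 := h.scard
  obtain ⟨x, hx⟩ : (V \ U).Nonempty := card_pos.mp (by omega)
  exact ⟨x, mem_sdiff.mpr ⟨(mem_sdiff.mp hx).1, fun h2 => (mem_sdiff.mp hx).2 (cps_sub hC h2)⟩⟩

/-- The components have nonnegative potential. -/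
theorem FC.nn {b : ι → Finset α} {V U : Finset α} {i0 : ι} {k : ℕ} (h : FC b V U i0 k)
    (hsys : Sys b V) (hcon : Con b V) (hIH : ClC V.card) {C : Finset α} (hC : C ∈ cps b U) :
    0 ≤ PotX b V C := by
  have hCV := (cps_sub hC).trans h.sub
  rcases h.typ C hC with h3 | h3
  · have := KT.potX hsys hCV h3
    omega
  · have h1 := card_le_card (cps_sub hC)
    have h2 := h.card
    exact (hIH α ι b C (by omega) (hsys.mono hCV) h3
      (not_dt hsys hcon hCV (cps_ne hC) (h.ne2 hC))).trans (Pot.le hCV)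

/-- The pair caps in a cut. -/
theorem FC.capG {b : ι → Finset α} {V U : Finset α} {i0 : ι} {k : ℕ} (h : FC b V U i0 k)
    (hsys : Sys b V) (hIH : ClE V.card) {C : Finset α} (hC : C ∈ cps b U)
    {G H : Finset α} (hG : G ⊆ V \ U) (hH : H ⊆ V \ U) (hGH : Disjoint G H) {a c : ℕ}
    (ha : 1 ≤ a) (hac : a ≤ c) (hc : c ≤ 4) (h0 : a ≤ dg b G C) (h1 : c ≤ dg b H C)
    (habs : ∀ x ∈ G, ∀ y ∈ H, tau b C + 1 ≤ tau b (C ∪ {x, y})) :
    34 * ((if a + 2 ≤ c then 1 else 0) + 2 * (a : ℤ)) ≤ PotX b V C + 108 ∧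
    (KT b C → (if a + 2 ≤ c then 1 else 0) + 2 * (a : ℤ) ≤
      ee b C - ((sp b V ∩ C).card : ℤ) + 3) := by
  have h2 := card_le_card (cps_sub hC)
  have h3 := h.card
  have h4 : V \ U ⊆ V \ C := sdiff_subset_sdiff (Subset.refl V) (cps_sub hC)
  have hCV := (cps_sub hC).trans h.sub
  have hKc : KT b C → (if a + 2 ≤ c then 1 else 0) + 2 * (a : ℤ) ≤
      ee b C - ((sp b V ∩ C).card : ℤ) + 3 := by
    intro hK
    have := pairK hsys (K V.card) hCV hK (by omega) (hG.trans h4) (hH.trans h4) hGH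
      ha hac hc h0 h1 habs
    linarith
  refine ⟨?_, hKc⟩
  rcases h.typ C hC with h5 | h5
  · have h6 := hKc h5
    have h7 := card_pos.mpr (KT.ne h5)
    unfold PotX
    have h8 : (0 : ℤ) < C.card := by exact_mod_cast h7
    linarith
  · exact pairC hsys hIH hCV (cps_ne hC) h5 (by omega) (hG.trans h4) (hH.trans h4) hGH
      ha hac hc h0 h1 habs

theorem FC.nonabs' {b : ι → Finset α} {V U : Finset α} {i0 : ι} {k : ℕ} (h : FC b V U i0 k)
    (hcb : Cb b V) {C C' : Finset α} (hcps : cps b U = {C, C'}) (hne : C ≠ C')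
    {x y z : α} (hS : V \ U = {x, y, z}) (hz : Aj b z C') :
    tau b C + 1 ≤ tau b (C ∪ {x, y}) := by
  classical
  by_contra hcon
  have hC' : C' ∈ cps b U := by
    rw [hcps]
    exact mem_insert_of_mem (mem_singleton_self _)
  refine h.notsaved hcb (fun D => if D = C then {x, y} else {z}) ?_ ?_ ?_
  · intro D hD
    show tau b (D ∪ (if D = C then {x, y} else {z})) ≤ tau b D
    rw [hcps, mem_insert, mem_singleton] at hD
    rcases hD with rfl | rfl
    · rw [if_pos rfl]
      omega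
    · rw [if_neg hne.symm]
      have h1 := hcb.mono ((cps_sub hC').trans h.sub)
      exact absorb_aj h1 (h.vcC hcb hC') hz
  · intro D _
    show (if D = C then {x, y} else {z}) ⊆ V \ U
    rw [hS]
    split_ifs
    · intro w hw
      rw [mem_insert, mem_singleton] at hw
      rw [mem_insert, mem_insert, mem_singleton]
      rcases hw with h1 | h1
      · exact Or.inl h1
      · exact Or.inr (Or.inl h1)
    · intro w hw
      rw [mem_singleton] at hw
      rw [mem_insert, mem_insert, mem_singleton]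
      exact Or.inr (Or.inr hw)
  · intro w hw
    rw [hS, mem_insert, mem_insert, mem_singleton] at hw
    rw [hcps, mem_biUnion]
    rcases hw with h1 | h1 | h1
    · refine ⟨C, mem_insert_self _ _, ?_⟩
      show w ∈ (if C = C then {x, y} else {z})
      rw [if_pos rfl, h1]
      exact mem_insert_self _ _
    · refine ⟨C, mem_insert_self _ _, ?_⟩
      show w ∈ (if C = C then {x, y} else {z})
      rw [if_pos rfl, h1]
      exact mem_insert_of_mem (mem_singleton_self _)
    · refine ⟨C', mem_insert_of_mem (mem_singleton_self _), ?_⟩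
      show w ∈ (if C' = C then {x, y} else {z})
      rw [if_neg hne.symm, h1]
      exact mem_singleton_self _

/-- The rules for two components. -/
theorem FC.twoG {b : ι → Finset α} {V U : Finset α} {i0 : ι} {k : ℕ} (h : FC b V U i0 k)
    (hsys : Sys b V) (hIH : ClE V.card) {C C' : Finset α} (hcps : cps b U = {C, C'})
    (hne : C ≠ C') {x y z : α} (hS : V \ U = {x, y, z}) (hxy : x ≠ y) (hz : 1 ≤ dg b {z} C')
    {a c : ℕ} (ha : 1 ≤ a) (hac : a ≤ c) (hc : c ≤ 4) (h0 : a ≤ dg b {x} C)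
    (h1 : c ≤ dg b {y} C) :
    34 * ((if a + 2 ≤ c then 1 else 0) + 2 * (a : ℤ)) ≤ PotX b V C + 108 ∧
    (KT b C → (if a + 2 ≤ c then 1 else 0) + 2 * (a : ℤ) ≤
      ee b C - ((sp b V ∩ C).card : ℤ) + 3) := by
  have hC : C ∈ cps b U := by
    rw [hcps]
    exact mem_insert_self _ _
  apply h.capG hsys hIH hC (G := {x}) (H := {y}) ?_ ?_ ?_ ha hac hc h0 h1
  · intro x' hx' y' hy'
    rw [mem_singleton] at hx' hy'
    rw [hx', hy']
    exact h.nonabs' hsys.cb hcps hne hS (dg_aj hz)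
  · rw [hS, singleton_subset_iff, mem_insert]
    exact Or.inl rfl
  · rw [hS, singleton_subset_iff, mem_insert, mem_insert]
    exact Or.inr (Or.inl rfl)
  · rw [disjoint_singleton]
    exact hxy

theorem FC.threeG {b : ι → Finset α} {V U : Finset α} {i0 : ι} {k : ℕ} (h : FC b V U i0 k)
    (hsys : Sys b V) (hIH : ClE V.card) {C C' : Finset α} (hcps : cps b U = {C, C'})
    (hne : C ≠ C') {x y z : α} (hS : V \ U = {x, y, z}) (hxy : x ≠ y) (hxz : x ≠ z)
    (hx : 1 ≤ dg b {x} C') (hy : 1 ≤ dg b {y} C') (hz : 1 ≤ dg b {z} C')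
    {a c : ℕ} (ha : 1 ≤ a) (hac : a ≤ c) (hc : c ≤ 4) (h0 : a ≤ dg b {x} C)
    (h1 : c ≤ dg b {y} C + dg b {z} C) :
    34 * ((if a + 2 ≤ c then 1 else 0) + 2 * (a : ℤ)) ≤ PotX b V C + 108 ∧
    (KT b C → (if a + 2 ≤ c then 1 else 0) + 2 * (a : ℤ) ≤
      ee b C - ((sp b V ∩ C).card : ℤ) + 3) := by
  have hC : C ∈ cps b U := by
    rw [hcps]
    exact mem_insert_self _ _
  have hS2 : V \ U = {x, z, y} := by
    rw [hS]
    ext w
    rw [mem_insert, mem_insert, mem_singleton, mem_insert, mem_insert, mem_singleton]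
    tauto
  have hS3 : V \ U = {y, z, x} := by
    rw [hS]
    ext w
    rw [mem_insert, mem_insert, mem_singleton, mem_insert, mem_insert, mem_singleton]
    tauto
  have hcC := hsys.cb.mono ((cps_sub hC).trans h.sub)
  have h2 : dg b {y, z} C = dg b {y} C + dg b {z} C := by
    apply dg_pair
    intro i hyi hzi c hcC' hci
    have h3 := absorb hcC (h.vcC hsys.cb hC) hcC' hci (T := {y, z}) (by
      intro w hw
      rw [mem_insert, mem_singleton] at hw
      rcases hw with rfl | rfl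
      · exact hyi
      · exact hzi)
    have h4 := h.nonabs' hsys.cb hcps hne hS3 (dg_aj hx)
    omega
  rw [← h2] at h1
  apply h.capG hsys hIH hC (G := {x}) (H := {y, z}) ?_ ?_ ?_ ha hac hc h0 h1
  · intro x' hx' y' hy'
    rw [mem_singleton] at hx'
    rw [mem_insert, mem_singleton] at hy'
    rw [hx']
    rcases hy' with h3 | h3
    · rw [h3]
      exact h.nonabs' hsys.cb hcps hne hS (dg_aj hz)
    · rw [h3]
      exact h.nonabs' hsys.cb hcps hne hS2 (dg_aj hy)
  · rw [hS, singleton_subset_iff, mem_insert]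
    exact Or.inl rfl
  · rw [hS]
    exact subset_insert _ _
  · rw [disjoint_singleton_left, mem_insert, mem_singleton]
    rintro (h3 | h3)
    · exact hxy h3
    · exact hxz h3

/-- Three components and four points. -/
theorem FC.threeComps {b : ι → Finset α} {V U : Finset α} {i0 : ι} {k : ℕ} (h : FC b V U i0 k)
    (hcb : Cb b V) (hcon : Con b V) (hvc : Vc b V) (hSc : (V \ U).card = 4)
    {C1 C2 C3 : Finset α} (h12 : C1 ≠ C2) (h13 : C1 ≠ C3) (h23 : C2 ≠ C3)
    (hcps : cps b U = {C1, C2, C3})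
    (hab : ∀ C ∈ cps b U, ∀ x ∈ V \ U, ∀ y ∈ V \ U, x ≠ y → 2 ≤ dg b {x} C →
        2 ≤ dg b {y} C → tau b (C ∪ {x, y}) ≤ tau b C)
    (hdeg : ∀ x ∈ V \ U, 4 ≤ ∑ C ∈ cps b U, dg b {x} C) : False := by
  classical
  have hcU := hcb.mono h.sub
  have hC1 : C1 ∈ cps b U := by rw [hcps]; simp
  have hC2 : C2 ∈ cps b U := by rw [hcps]; simp
  have hC3 : C3 ∈ cps b U := by rw [hcps]; simp
  obtain ⟨T, hT1, hT2, hT3⟩ := comb3 (fun j x => Aj b x ((![C1, C2, C3] : Fin 3 → Finset α) j))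
    (fun j x => 2 ≤ dg b {x} ((![C1, C2, C3] : Fin 3 → Finset α) j)) (V \ U) hSc
    (fun j x hq => dg_aj (by omega))
    (by
      intro x hx
      have h1 := hdeg x hx
      have h2 : ∑ C ∈ cps b U, dg b {x} C = dg b {x} C1 + (dg b {x} C2 + dg b {x} C3) := by
        rw [hcps, sum_insert (by simp [h12, h13]), sum_insert (by simp [h23]), sum_singleton]
      rw [h2] at h1
      by_contra hcon2
      rw [not_exists] at hcon2
      have g0 : ¬ 2 ≤ dg b {x} C1 := hcon2 0
      have g1 : ¬ 2 ≤ dg b {x} C2 := hcon2 1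
      have g2 : ¬ 2 ≤ dg b {x} C3 := hcon2 2
      omega)
    (by
      intro j v
      have hj : (![C1, C2, C3] : Fin 3 → Finset α) j ∈ cps b U := by
        fin_cases j
        · exact hC1
        · exact hC2
        · exact hC3
      exact h.att hcb hcon hvc hj v)
  have hTab : ∀ j, ∀ C ∈ cps b U, C = (![C1, C2, C3] : Fin 3 → Finset α) j →
      tau b (C ∪ T j) ≤ tau b C := by
    intro j C hC hCj
    have hcC := hcU.mono (cps_sub hC)
    rcases hT3 j with ⟨x, hx, hx2⟩ | ⟨x, y, hxy, hx, hx2, hy2⟩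
    · rw [hx]
      rw [← hCj] at hx2
      exact absorb_aj hcC (h.vcC hcb hC) hx2
    · rw [hx]
      rw [← hCj] at hx2 hy2
      have h1 := hT1 j
      rw [hx] at h1
      exact hab C hC x (h1 (mem_insert_self _ _)) y
        (h1 (mem_insert_of_mem (mem_singleton_self _))) hxy hx2 hy2
  refine h.notsaved hcb
    (fun C => if C = C1 then T 0 else if C = C2 then T 1 else T 2) ?_ ?_ ?_
  · intro C hC
    show tau b (C ∪ (if C = C1 then T 0 else if C = C2 then T 1 else T 2)) ≤ tau b C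
    have hC' := hC
    rw [hcps, mem_insert, mem_insert, mem_singleton] at hC'
    rcases hC' with h1 | h1 | h1
    · rw [if_pos h1]
      exact hTab 0 C hC h1
    · rw [if_neg (by rw [h1]; exact h12.symm), if_pos h1]
      exact hTab 1 C hC h1
    · rw [if_neg (by rw [h1]; exact h13.symm), if_neg (by rw [h1]; exact h23.symm)]
      exact hTab 2 C hC h1
  · intro C _
    show (if C = C1 then T 0 else if C = C2 then T 1 else T 2) ⊆ V \ U
    split_ifs
    · exact hT1 0
    · exact hT1 1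
    · exact hT1 2
  · intro x hx
    rw [mem_biUnion]
    obtain ⟨j, hj⟩ := hT2 x hx
    fin_cases j
    · refine ⟨C1, hC1, ?_⟩
      show x ∈ (if C1 = C1 then T 0 else if C1 = C2 then T 1 else T 2)
      rw [if_pos rfl]
      exact hj
    · refine ⟨C2, hC2, ?_⟩
      show x ∈ (if C2 = C1 then T 0 else if C2 = C2 then T 1 else T 2)
      rw [if_neg h12.symm, if_pos rfl]
      exact hj
    · refine ⟨C3, hC3, ?_⟩
      show x ∈ (if C3 = C1 then T 0 else if C3 = C2 then T 1 else T 2)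
      rw [if_neg h13.symm, if_neg h23.symm]
      exact hj

open Classical in
/-- Hall: if the points of the cut have distinct components, the cut is saved. -/
theorem FC.hall {b : ι → Finset α} {V U : Finset α} {i0 : ι} {k : ℕ} (h : FC b V U i0 k)
    (hcb : Cb b V)
    (H : ∀ T, T ⊆ V \ U → T.card ≤
      ((cps b U).filter fun C => ∃ x ∈ T, Aj b x C).card) : False := by
  classical
  have h1 := (Finset.all_card_le_biUnion_card_iff_exists_injective
    (fun x : {x // x ∈ V \ U} => (cps b U).filter fun C => Aj b x.1 C)).mp (by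
      intro s
      have h2 := H (s.map (Function.Embedding.subtype _)) (by
        intro x hx
        obtain ⟨y, -, rfl⟩ := mem_map.mp hx
        exact y.2)
      rw [card_map] at h2
      refine h2.trans (card_le_card ?_)
      intro C hC
      obtain ⟨hC1, x, hx, hx2⟩ := mem_filter.mp hC
      obtain ⟨y, hy, rfl⟩ := mem_map.mp hx
      exact mem_biUnion.mpr ⟨y, hy, mem_filter.mpr ⟨hC1, hx2⟩⟩)
  obtain ⟨f, hf, hf2⟩ := h1
  refine h.notsaved hcb (fun C => (V \ U).filter fun x => ∃ hx, f ⟨x, hx⟩ = C) ?_ ?_ ?_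
  · intro C hC
    show tau b (C ∪ (V \ U).filter fun x => ∃ hx, f ⟨x, hx⟩ = C) ≤ tau b C
    rcases ((V \ U).filter fun x => ∃ hx, f ⟨x, hx⟩ = C).eq_empty_or_nonempty with h2 | h2
    · rw [h2, union_empty]
    · obtain ⟨x, hx⟩ := h2
      obtain ⟨hxS, hx', hfx⟩ := mem_filter.mp hx
      have h3 : ((V \ U).filter fun x => ∃ hx, f ⟨x, hx⟩ = C) = {x} := by
        ext y
        rw [mem_singleton, mem_filter]
        constructor
        · rintro ⟨hyS, hy', hfy⟩
          have h4 := hf (hfy.trans hfx.symm)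
          exact congrArg Subtype.val h4
        · rintro rfl
          exact ⟨hxS, hx', hfx⟩
      rw [h3]
      have h4 := (mem_filter.mp (hf2 ⟨x, hx'⟩)).2
      rw [hfx] at h4
      exact absorb_aj (hcb.mono ((cps_sub hC).trans h.sub)) (h.vcC hcb hC) h4
  · intro C _
    exact filter_subset _ _
  · intro x hx
    rw [mem_biUnion]
    exact ⟨f ⟨x, hx⟩, (mem_filter.mp (hf2 ⟨x, hx⟩)).1, mem_filter.mpr ⟨hx, hx, rfl⟩⟩

end Pool.Agent.Helper74.C5
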