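import Pool.Agent.Helper74.C5.RingA

/-!
# Single cuts of C-types: every allowed face is a ring face
-/

set_option linter.unusedSectionVars false

open Finset

namespace Pool.Agent.Helper74.C5

open Pool.Agent.Helper20.C5

variable {α ι : Type} [DecidableEq α] [DecidableEq ι] [Fintype ι]

open Classical in
/-- The value of a component in units of the excess. -/
noncomputable def vl (b : ι → Finset α) (V D : Finset α) : ℤ :=
  if KT b D then ee b D - ((sp b V ∩ D).card : ℤ) else (PotX b V D + 6) / 34

theorem le_vl {b : ι → Finset α} {V D : Finset α} {v : ℤ} (h1 : 34 * v ≤ PotX b V D + 108)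
    (h2 : KT b D → v ≤ ee b D - ((sp b V ∩ D).card : ℤ) + 3) : v ≤ vl b V D + 3 := by
  unfold vl
  split_ifs with h
  · exact h2 h
  · omega

theorem vl_le {b : ι → Finset α} {V D : Finset α} : 34 * vl b V D ≤ PotX b V D + 6 := by
  unfold vl
  split_ifs with h
  · unfold PotX
    omega
  · omega

theorem vl_K {b : ι → Finset α} {V D : Finset α} (h : KT b D) :
    34 * vl b V D + 3 ≤ PotX b V D := by
  unfold vl
  rw [if_pos h]
  have := card_pos.mpr (KT.ne h)
  unfold PotX
  omega

theorem vl_nn {b : ι → Finset α} {V D : Finset α} (hsys : Sys b V) (hD : D ⊆ V)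
    (h0 : 0 ≤ PotX b V D) : 0 ≤ vl b V D := by
  unfold vl
  split_ifs with h
  · exact ee_sp hsys hD h
  · omega

/-- Two components. -/
theorem FC.twoComps {b : ι → Finset α} {V U : Finset α} {i0 : ι} {k : ℕ} (h : FC b V U i0 k)
    (hsys : Sys b V) (hIH : ClE V.card) (hcon : Con b V) (hvc : Vc b V)
    {C C' : Finset α} (hne : C ≠ C') (hcps : cps b U = {C, C'}) (hSc : (V \ U).card = 3)
    (hns1 : 1 ≤ (ins b V U).card) (hns2 : (ins b V U).card ≤ 2)
    (hsum : vl b V C + vl b V C' ≤ 4 - 2 * (ins b V U).card)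
    (e0 : 0 ≤ vl b V C) (e0' : 0 ≤ vl b V C') : False := by
  classical
  have hcb := hsys.cb
  have hcU := hcb.mono h.sub
  have hdeg : ∀ x ∈ V \ U, 5 ≤ (∑ C ∈ cps b U, dg b {x} C) + (ins b V U).card := by
    intro x hx
    rw [← dg_cps hcU]
    exact dg_ins hsys (mem_sdiff.mp hx).1
  have hC : C ∈ cps b U := by rw [hcps]; simp
  have hC' : C' ∈ cps b U := by rw [hcps]; simp
  obtain ⟨x, y, z, hxy, hxz, hyz, hS⟩ := card_eq_three.mp hSc
  have hdg : ∀ w ∈ V \ U, 5 ≤ dg b {w} C + dg b {w} C' + (ins b V U).card := by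
    intro w hw
    have h1 := hdeg w hw
    rwa [hcps, sum_pair hne] at h1
  have hcps' : cps b U = {C', C} := by rw [hcps, pair_comm]
  have hmem : ∀ w, w ∈ V \ U ↔ w = x ∨ w = y ∨ w = z := by
    intro w
    rw [hS, mem_insert, mem_insert, mem_singleton]
  have hx := (hmem x).mpr (Or.inl rfl)
  have hy := (hmem y).mpr (Or.inr (Or.inl rfl))
  have hz := (hmem z).mpr (Or.inr (Or.inr rfl))
  -- the case of a component that is not attached to a point
  have caseZ : ∀ D D' : Finset α, cps b U = {D, D'} → D ≠ D' → vl b V D + vl b V D' ≤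
      4 - 2 * (ins b V U).card → 0 ≤ vl b V D → 0 ≤ vl b V D' → ∀ x y z : α,
      V \ U = {x, y, z} → x ≠ y → x ≠ z → y ≠ z → dg b {z} D = 0 → False := by
    intro D D' hcps hne hsum f0 f0' x y z hS hxy hxz hyz h0
    have hD : D ∈ cps b U := by rw [hcps]; simp
    have hD' : D' ∈ cps b U := by rw [hcps]; simp
    have hmem : ∀ w, w ∈ V \ U ↔ w = x ∨ w = y ∨ w = z := by
      intro w
      rw [hS, mem_insert, mem_insert, mem_singleton]
    have hx := (hmem x).mpr (Or.inl rfl)
    have hy := (hmem y).mpr (Or.inr (Or.inl rfl))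
    have hz := (hmem z).mpr (Or.inr (Or.inr rfl))
    have hdg : ∀ w ∈ V \ U, 5 ≤ dg b {w} D + dg b {w} D' + (ins b V U).card := by
      intro w hw
      have h1 := hdeg w hw
      rwa [hcps, sum_pair hne] at h1
    have hatt : ∀ v, ∃ w ∈ V \ U, w ≠ v ∧ Aj b w D := fun v => h.att hcb hcon hvc hD v
    have hxD : 1 ≤ dg b {x} D := by
      obtain ⟨w, hw, hwv, hwa⟩ := hatt y
      rcases (hmem w).mp hw with h1 | h1 | h1
      · rw [← h1]
        exact aj_dg hwa
      · exact absurd h1 hwv
      · have := aj_dg hwa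
        rw [h1] at this
        omega
    have hyD : 1 ≤ dg b {y} D := by
      obtain ⟨w, hw, hwv, hwa⟩ := hatt x
      rcases (hmem w).mp hw with h1 | h1 | h1
      · exact absurd h1 hwv
      · rw [← h1]
        exact aj_dg hwa
      · have := aj_dg hwa
        rw [h1] at this
        omega
    have hxx := hdg x hx
    have hyy := hdg y hy
    have hzz := hdg z hz
    rw [h0] at hzz
    have hzD' : 1 ≤ dg b {z} D' := by omega
    have hcps' : cps b U = {D', D} := by rw [hcps, pair_comm]
    have hSxzy : V \ U = {x, z, y} := by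
      ext w
      rw [hmem, mem_insert, mem_insert, mem_singleton]
      tauto
    have hSyzx : V \ U = {y, z, x} := by
      ext w
      rw [hmem, mem_insert, mem_insert, mem_singleton]
      tauto
    refine arith_zero (e := vl b V D) (e' := vl b V D') (z' := dg b {z} D') hxD hyD hxx hyy
      (by omega) hns2 hns1 hsum f0 f0' ?_ ?_ ?_
    · intro a c ha hac hc hax hcy
      have := h.twoG hsys hIH hcps hne hS hxy hzD' ha hac hc hax hcy
      exact le_vl this.1 this.2
    · intro a c ha hac hc hax hcy
      have := h.twoG hsys hIH hcps' hne.symm hSxzy hxz hyD ha hac hc hax hcy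
      exact le_vl this.1 this.2
    · intro a c ha hac hc hax hcy
      have := h.twoG hsys hIH hcps' hne.symm hSyzx hyz hxD ha hac hc hax hcy
      exact le_vl this.1 this.2
  have hSxzy : V \ U = {x, z, y} := by
    ext w
    rw [hmem, mem_insert, mem_insert, mem_singleton]
    tauto
  have hSyzx : V \ U = {y, z, x} := by
    ext w
    rw [hmem, mem_insert, mem_insert, mem_singleton]
    tauto
  have hSzxy : V \ U = {z, x, y} := by
    ext w
    rw [hmem, mem_insert, mem_insert, mem_singleton]
    tauto
  have pos : ∀ D D' : Finset α, cps b U = {D, D'} → D ≠ D' → vl b V D + vl b V D' ≤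
      4 - 2 * (ins b V U).card → 0 ≤ vl b V D → 0 ≤ vl b V D' → 1 ≤ dg b {x} D ∧
      1 ≤ dg b {y} D ∧ 1 ≤ dg b {z} D := by
    intro D D' hcps hne hsum f0 f0'
    refine ⟨?_, ?_, ?_⟩
    · by_contra h1
      exact caseZ D D' hcps hne hsum f0 f0' y z x hSyzx hyz hxy.symm hxz.symm (by omega)
    · by_contra h1
      exact caseZ D D' hcps hne hsum f0 f0' x z y hSxzy hxz hxy hyz.symm (by omega)
    · by_contra h1
      exact caseZ D D' hcps hne hsum f0 f0' x y z hS hxy hxz hyz (by omega)
  obtain ⟨px, py, pz⟩ := pos C C' hcps hne hsum e0 e0'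
  obtain ⟨px', py', pz'⟩ := pos C' C hcps' hne.symm (by omega) e0' e0
  refine arith_pos (e := vl b V C) (e' := vl b V C') px py pz px' py' pz' (hdg x hx) (hdg y hy)
    (hdg z hz) hns2 hns1 hsum e0 e0' ?_ ?_ ?_ ?_ ?_ ?_
  · intro a c ha hac hc hax hcy
    have := h.threeG hsys hIH hcps hne hS hxy hxz px' py' pz' ha hac hc hax hcy
    exact le_vl this.1 this.2
  · intro a c ha hac hc hax hcy
    have := h.threeG hsys hIH hcps hne hSyzx hyz hxy.symm py' pz' px' ha hac hc hax hcy
    exact le_vl this.1 this.2
  · intro a c ha hac hc hax hcy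
    have := h.threeG hsys hIH hcps hne hSzxy hxz.symm hyz.symm pz' px' py' ha hac hc hax hcy
    exact le_vl this.1 this.2
  · intro a c ha hac hc hax hcy
    have := h.threeG hsys hIH hcps' hne.symm hS hxy hxz px py pz ha hac hc hax hcy
    exact le_vl this.1 this.2
  · intro a c ha hac hc hax hcy
    have := h.threeG hsys hIH hcps' hne.symm hSyzx hyz hxy.symm py pz px ha hac hc hax hcy
    exact le_vl this.1 this.2
  · intro a c ha hac hc hax hcy
    have := h.threeG hsys hIH hcps' hne.symm hSzxy hxz.symm hyz.symm pz px py ha hac hc hax hcy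
    exact le_vl this.1 this.2

/-- Four or more components and four points. -/
theorem FC.manyComps {b : ι → Finset α} {V U : Finset α} {i0 : ι} {k : ℕ} (h : FC b V U i0 k)
    (hcb : Cb b V) (hcon : Con b V) (hvc : Vc b V) (hSc : (V \ U).card = 4)
    (hN : 4 ≤ (cps b U).card)
    (hab : ∀ C ∈ cps b U, ∀ x ∈ V \ U, ∀ y ∈ V \ U, x ≠ y → 2 ≤ dg b {x} C →
        2 ≤ dg b {y} C → tau b (C ∪ {x, y}) ≤ tau b C)
    (hdeg : ∀ x ∈ V \ U, 4 ≤ ∑ C ∈ cps b U, dg b {x} C) : False := by
  classical
  have hcU := hcb.mono h.sub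
  -- every point is attached to a component
  have hone : ∀ x ∈ V \ U, ∃ C ∈ cps b U, Aj b x C := by
    intro x hx
    by_contra h1
    have h2 : ∑ C ∈ cps b U, dg b {x} C = 0 := by
      apply sum_eq_zero
      intro C hC
      by_contra h3
      exact h1 ⟨C, hC, dg_aj (by omega)⟩
    have := hdeg x hx
    omega
  -- two points attached to the same single component
  have htwo : ∀ x ∈ V \ U, ∀ y ∈ V \ U, x ≠ y → ∀ C0 ∈ cps b U,
      (∀ C ∈ cps b U, C ≠ C0 → ¬ Aj b x C ∧ ¬ Aj b y C) → False := by
    intro x hx y hy hxy C0 hC0 hno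
    have hw : ∀ w ∈ V \ U, (∀ C ∈ cps b U, C ≠ C0 → ¬ Aj b w C) → 4 ≤ dg b {w} C0 := by
      intro w hwS hwn
      have h1 := hdeg w hwS
      rw [← add_sum_erase _ _ hC0, sum_eq_zero (s := (cps b U).erase C0), add_zero] at h1
      · exact h1
      · intro C hC
        rw [mem_erase] at hC
        by_contra h3
        exact hwn C hC.2 hC.1 (dg_aj (by omega))
    have hwx := hw x hx fun C hC hne => (hno C hC hne).1
    have hwy := hw y hy fun C hC hne => (hno C hC hne).2
    have h0 := hab C0 hC0 x hx y hy hxy (by omega) (by omega)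
    have hyx : y ∈ (V \ U).erase x := mem_erase.mpr ⟨hxy.symm, hy⟩
    have h3 : (((V \ U).erase x).erase y).card = 2 := by
      rw [card_erase_of_mem hyx, card_erase_of_mem hx, hSc]
    obtain ⟨u, v, huv, hS2⟩ := card_eq_two.mp h3
    have hu : u ∈ V \ U := by
      have : u ∈ ((V \ U).erase x).erase y := by rw [hS2]; exact mem_insert_self _ _
      exact mem_of_mem_erase (mem_of_mem_erase this)
    have hv : v ∈ V \ U := by
      have : v ∈ ((V \ U).erase x).erase y := by
        rw [hS2]; exact mem_insert_of_mem (mem_singleton_self _)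
      exact mem_of_mem_erase (mem_of_mem_erase this)
    have hall : ∀ z ∈ V \ U, z = x ∨ z = y ∨ z = u ∨ z = v := by
      intro z hz
      by_cases h4 : z = x
      · exact Or.inl h4
      by_cases h5 : z = y
      · exact Or.inr (Or.inl h5)
      have : z ∈ ((V \ U).erase x).erase y := mem_erase.mpr ⟨h5, mem_erase.mpr ⟨h4, hz⟩⟩
      rw [hS2, mem_insert, mem_singleton] at this
      exact Or.inr (Or.inr this)
    -- the other components are attached to u and v
    have huv' : ∀ C ∈ cps b U, C ≠ C0 → Aj b u C ∧ Aj b v C := by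
      intro C hC hne
      constructor
      · obtain ⟨w, hw1, hw2, hw3⟩ := h.att hcb hcon hvc hC v
        rcases hall w hw1 with rfl | rfl | rfl | rfl
        · exact absurd hw3 (hno C hC hne).1
        · exact absurd hw3 (hno C hC hne).2
        · exact hw3
        · exact absurd rfl hw2
      · obtain ⟨w, hw1, hw2, hw3⟩ := h.att hcb hcon hvc hC u
        rcases hall w hw1 with rfl | rfl | rfl | rfl
        · exact absurd hw3 (hno C hC hne).1
        · exact absurd hw3 (hno C hC hne).2
        · exact absurd rfl hw2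
        · exact hw3
    have h5 : 2 ≤ ((cps b U).erase C0).card := by
      rw [card_erase_of_mem hC0]
      omega
    obtain ⟨C1, hC1, C2, hC2, h12⟩ := one_lt_card.mp h5
    rw [mem_erase] at hC1 hC2
    refine h.notsaved hcb
      (fun C => if C = C0 then {x, y} else if C = C1 then {u} else if C = C2 then {v} else ∅)
      ?_ ?_ ?_
    · intro C hC
      show tau b (C ∪ (if C = C0 then {x, y} else if C = C1 then {u} else
        if C = C2 then {v} else ∅)) ≤ tau b C
      have hCb := hcU.mono (cps_sub hC)
      split_ifs with g0 g1 g2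
      · rw [g0]
        exact h0
      · exact absorb_aj hCb (h.vcC hcb hC) (huv' C hC g0).1
      · exact absorb_aj hCb (h.vcC hcb hC) (huv' C hC g0).2
      · rw [union_empty]
    · intro C _
      show (if C = C0 then {x, y} else if C = C1 then {u} else
        if C = C2 then {v} else ∅) ⊆ V \ U
      split_ifs
      · intro w hw
        rw [mem_insert, mem_singleton] at hw
        rcases hw with rfl | rfl
        · exact hx
        · exact hy
      · exact singleton_subset_iff.mpr hu
      · exact singleton_subset_iff.mpr hv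
      · exact empty_subset _
    · intro w hw
      rw [mem_biUnion]
      rcases hall w hw with rfl | rfl | rfl | rfl
      · refine ⟨C0, hC0, ?_⟩
        show w ∈ (if C0 = C0 then {w, y} else if C0 = C1 then {u} else
          if C0 = C2 then {v} else ∅)
        rw [if_pos rfl]
        exact mem_insert_self _ _
      · refine ⟨C0, hC0, ?_⟩
        show w ∈ (if C0 = C0 then {x, w} else if C0 = C1 then {u} else
          if C0 = C2 then {v} else ∅)
        rw [if_pos rfl]
        exact mem_insert_of_mem (mem_singleton_self _)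
      · refine ⟨C1, hC1.2, ?_⟩
        show w ∈ (if C1 = C0 then {x, y} else if C1 = C1 then {w} else
          if C1 = C2 then {v} else ∅)
        rw [if_neg hC1.1, if_pos rfl]
        exact mem_singleton_self _
      · refine ⟨C2, hC2.2, ?_⟩
        show w ∈ (if C2 = C0 then {x, y} else if C2 = C1 then {u} else
          if C2 = C2 then {w} else ∅)
        rw [if_neg hC2.1, if_neg h12.symm, if_pos rfl]
        exact mem_singleton_self _
  apply h.hall hcb
  intro T hT
  have hTc := card_le_card hT
  rw [hSc] at hTc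
  rcases T.eq_empty_or_nonempty with h0 | ⟨x, hx⟩
  · rw [h0, card_empty]
    exact Nat.zero_le _
  by_cases h1 : T.card = 1
  · obtain ⟨C, hC, hCx⟩ := hone x (hT hx)
    rw [h1]
    exact card_pos.mpr ⟨C, mem_filter.mpr ⟨hC, x, hx, hCx⟩⟩
  by_cases h2 : T.card = 2
  · rw [h2]
    obtain ⟨C0, hC0, hCx⟩ := hone x (hT hx)
    have hmem : C0 ∈ (cps b U).filter fun C => ∃ x ∈ T, Aj b x C :=
      mem_filter.mpr ⟨hC0, x, hx, hCx⟩
    by_contra hcon2
    have h3 : ((cps b U).filter fun C => ∃ x ∈ T, Aj b x C).card = 1 := by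
      have := card_pos.mpr ⟨C0, hmem⟩
      omega
    obtain ⟨C1, hC1⟩ := card_eq_one.mp h3
    have hC01 : C0 = C1 := by
      rw [hC1, mem_singleton] at hmem
      exact hmem
    obtain ⟨y, hy, hyx⟩ := exists_mem_ne (by omega : 1 < T.card) x
    refine htwo x (hT hx) y (hT hy) hyx.symm C0 hC0 ?_
    intro C hC hne
    constructor
    · intro h4
      have h5 : C ∈ (cps b U).filter fun C => ∃ x ∈ T, Aj b x C :=
        mem_filter.mpr ⟨hC, x, hx, h4⟩
      rw [hC1, mem_singleton] at h5
      exact hne (h5.trans hC01.symm)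
    · intro h4
      have h5 : C ∈ (cps b U).filter fun C => ∃ x ∈ T, Aj b x C :=
        mem_filter.mpr ⟨hC, y, hy, h4⟩
      rw [hC1, mem_singleton] at h5
      exact hne (h5.trans hC01.symm)
  · -- three or four points: all components
    have hTpos := card_pos.mpr ⟨x, hx⟩
    have h3 : ((V \ U) \ T).card ≤ 1 := by
      rw [card_sdiff_of_subset hT, hSc]
      omega
    have h4 : (cps b U).filter (fun C => ∃ x ∈ T, Aj b x C) = cps b U := by
      rw [filter_eq_self]
      intro C hC
      rcases ((V \ U) \ T).eq_empty_or_nonempty with h5 | ⟨v, hv⟩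
      · obtain ⟨w, hw1, hw2, hw3⟩ := h.att hcb hcon hvc hC x
        refine ⟨w, ?_, hw3⟩
        by_contra h6
        have h7 : w ∈ (V \ U) \ T := mem_sdiff.mpr ⟨hw1, h6⟩
        rw [h5] at h7
        exact notMem_empty w h7
      · obtain ⟨w, hw1, hw2, hw3⟩ := h.att hcb hcon hvc hC v
        refine ⟨w, ?_, hw3⟩
        by_contra h6
        have h7 : w ∈ (V \ U) \ T := mem_sdiff.mpr ⟨hw1, h6⟩
        exact hw2 (card_le_one.mp h3 w h7 v hv)
    rw [h4]
    omega

/-- Three or more components and three points. -/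
theorem FC.manyComps3 {b : ι → Finset α} {V U : Finset α} {i0 : ι} {k : ℕ}
    (h : FC b V U i0 k) (hcb : Cb b V) (hcon : Con b V) (hvc : Vc b V)
    (hSc : (V \ U).card = 3) (hN : 3 ≤ (cps b U).card)
    (hdeg : ∀ x ∈ V \ U, 1 ≤ ∑ C ∈ cps b U, dg b {x} C) : False := by
  classical
  have hone : ∀ x ∈ V \ U, ∃ C ∈ cps b U, Aj b x C := by
    intro x hx
    by_contra h1
    have h2 : ∑ C ∈ cps b U, dg b {x} C = 0 := by
      apply sum_eq_zero
      intro C hC
      by_contra h3
      exact h1 ⟨C, hC, dg_aj (by omega)⟩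
    have := hdeg x hx
    omega
  apply h.hall hcb
  intro T hT
  have hTc := card_le_card hT
  rw [hSc] at hTc
  rcases T.eq_empty_or_nonempty with h0 | ⟨x, hx⟩
  · rw [h0, card_empty]
    exact Nat.zero_le _
  by_cases h1 : T.card = 1
  · obtain ⟨C, hC, hCx⟩ := hone x (hT hx)
    rw [h1]
    exact card_pos.mpr ⟨C, mem_filter.mpr ⟨hC, x, hx, hCx⟩⟩
  · have hTpos := card_pos.mpr ⟨x, hx⟩
    have h3 : ((V \ U) \ T).card ≤ 1 := by
      rw [card_sdiff_of_subset hT, hSc]
      omega
    have h4 : (cps b U).filter (fun C => ∃ x ∈ T, Aj b x C) = cps b U := by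
      rw [filter_eq_self]
      intro C hC
      rcases ((V \ U) \ T).eq_empty_or_nonempty with h5 | ⟨v, hv⟩
      · obtain ⟨w, hw1, hw2, hw3⟩ := h.att hcb hcon hvc hC x
        refine ⟨w, ?_, hw3⟩
        by_contra h6
        have h7 : w ∈ (V \ U) \ T := mem_sdiff.mpr ⟨hw1, h6⟩
        rw [h5] at h7
        exact notMem_empty w h7
      · obtain ⟨w, hw1, hw2, hw3⟩ := h.att hcb hcon hvc hC v
        refine ⟨w, ?_, hw3⟩
        by_contra h6
        have h7 : w ∈ (V \ U) \ T := mem_sdiff.mpr ⟨hw1, h6⟩
        exact hw2 (card_le_one.mp h3 w h7 v hv)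
    rw [h4]
    omega

/-- **Ring faces.** -/
theorem ring_face {b : ι → Finset α} {V : Finset α} (hsys : Sys b V) (hCT : CT b V)
    (hIH : ClC V.card) (hneg : Pot b V < 0) {i0 : ι} (hP3 : (b i0 ∩ V).card = 3)
    (hcc : CC b (V \ (b i0 ∩ V))) :
    KT b (V \ (b i0 ∩ V)) ∨ (ee b V - ((sp b V).card : ℤ) = -1 ∧ V.card ≤ 10) := by
  classical
  have hcb := hsys.cb
  have hcon := hCT.con
  have hvc := CT.vc hCT
  have hIHE := ClC.ext hIH
  obtain ⟨U, k, h, hUP, hUk⟩ := exists_FC' hsys hvc hP3 hcc
  have hcU := hcb.mono h.sub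
  obtain ⟨F, hF, hFK, hFC, hcnt⟩ := kt_count hcU h.typ
  have htt := h.tt
  have hcard := h.card
  have hCt := hCT.tau
  have hFcard : F.card = k + 1 := by omega
  have hnn : ∀ C ∈ cps b U, 0 ≤ PotX b V C := fun C hC => h.nn hsys hcon hIH hC
  have hpc := pot_cut (b := b) h.sub
  have hsum := sum_PotX (V := V) hcU
  have hins := sp_ins hP3 h.pu h.sub
  have hle : Pot b V = ∑ C ∈ cps b U, PotX b V C - 161 + 68 * (ins b V U).card + 71 * k -
      34 * (sp b V ∩ (V \ U)).card := by
    rw [hsum]
    rw [← htt, ← hcard] at hpc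
    push_cast at hpc
    linarith
  have hge := sum_nonneg hnn
  have hSc := h.scard
  have hdeg : ∀ x ∈ V \ U, 5 ≤ (∑ C ∈ cps b U, dg b {x} C) + (ins b V U).card := by
    intro x hx
    rw [← dg_cps hcU]
    exact dg_ins hsys (mem_sdiff.mp hx).1
  have hk : k ≤ 1 := by omega
  have hNF := card_le_card hF
  rcases Nat.lt_or_ge 0 k with hk1 | hk0
  · have hk1' : k = 1 := by omega
    subst hk1'
    have hns : (ins b V U).card = 1 := by omega
    have hs0 : (sp b V ∩ (V \ U)).card = 0 := by omega
    have hsm : ∀ C ∈ cps b U, PotX b V C ≤ 21 := by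
      intro C hC
      have h1 := single_le_sum hnn hC
      omega
    have hab : ∀ C ∈ cps b U, ∀ x ∈ V \ U, ∀ y ∈ V \ U, x ≠ y → 2 ≤ dg b {x} C →
        2 ≤ dg b {y} C → tau b (C ∪ {x, y}) ≤ tau b C := by
      intro C hC x hx y hy hxy hwx hwy
      by_contra hcon2
      have h1 := (h.capG hsys hIHE hC (G := {x}) (H := {y}) (a := 2) (c := 2)
        (singleton_subset_iff.mpr hx) (singleton_subset_iff.mpr hy)
        (by rw [disjoint_singleton]; exact hxy) (by norm_num) le_rfl (by norm_num) hwx hwy
        (by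
          intro x' hx' y' hy'
          rw [mem_singleton] at hx' hy'
          rw [hx', hy']
          omega)).1
      have h2 := hsm C hC
      norm_num at h1
      omega
    have hdeg4 : ∀ x ∈ V \ U, 4 ≤ ∑ C ∈ cps b U, dg b {x} C := by
      intro x hx
      have := hdeg x hx
      omega
    by_cases hN2 : (cps b U).card = 2
    · right
      have hFe : F = cps b U := eq_of_subset_of_card_le hF (by omega)
      obtain ⟨C, C', hne, hcps⟩ := card_eq_two.mp hN2
      have hC : C ∈ cps b U := by rw [hcps]; simp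
      have hC' : C' ∈ cps b U := by rw [hcps]; simp
      have hKC : KT b C := hFK C (by rw [hFe]; exact hC)
      have hKC' : KT b C' := hFK C' (by rw [hFe]; exact hC')
      have e1 := ee_sp hsys ((cps_sub hC).trans h.sub) hKC
      have e2 := ee_sp hsys ((cps_sub hC').trans h.sub) hKC'
      have hUc := card_cps hcU
      rw [hcps, sum_pair hne] at hle hUc
      unfold Pot PotX at hle
      unfold Pot at hneg
      have h5 : (U.card : ℤ) + 4 = V.card := by omega
      have h6 : (U.card : ℤ) = C.card + C'.card := by exact_mod_cast hUc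
      rw [hs0, hns] at hle
      push_cast at hle
      constructor
      · omega
      · omega
    by_cases hN3 : (cps b U).card = 3
    · exfalso
      obtain ⟨C1, C2, C3, h12, h13, h23, hcps⟩ := card_eq_three.mp hN3
      exact h.threeComps hcb hcon hvc hSc h12 h13 h23 hcps hab hdeg4
    · exfalso
      exact h.manyComps hcb hcon hvc hSc (by omega) hab hdeg4
  · have hk0' : k = 0 := by omega
    subst hk0'
    have hU := hUk rfl
    have hns1 : 1 ≤ (ins b V U).card := by omega
    have hns2 : (ins b V U).card ≤ 2 := by omega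
    by_cases hN1 : (cps b U).card = 1
    · left
      have hFe : F = cps b U := eq_of_subset_of_card_le hF (by omega)
      obtain ⟨C, hcps⟩ := card_eq_one.mp hN1
      have hCU : C = U := by
        have h1 := cps_union (b := b) (U := U)
        rw [hcps, singleton_biUnion] at h1
        exact h1
      rw [← hU, ← hCU]
      exact hFK C (by rw [hFe, hcps]; exact mem_singleton_self C)
    by_cases hN2 : (cps b U).card = 2
    · exfalso
      obtain ⟨C, hFC1⟩ := card_eq_one.mp hFcard
      have hCF : C ∈ F := by rw [hFC1]; exact mem_singleton_self C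
      have hC := hF hCF
      have hN2' : ((cps b U).erase C).card = 1 := by rw [card_erase_of_mem hC, hN2]
      obtain ⟨C', hC'1⟩ := card_eq_one.mp hN2'
      have hC'2 : C' ∈ (cps b U).erase C := by rw [hC'1]; exact mem_singleton_self C'
      have hne : C ≠ C' := (ne_of_mem_erase hC'2).symm
      have hcps : cps b U = {C, C'} := by
        rw [← insert_erase hC, hC'1]
      have hC' := mem_of_mem_erase hC'2
      have hKC := hFK C hCF
      have g1 := vl_K (V := V) hKC
      have g2 := vl_le (b := b) (V := V) (D := C')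
      rw [hcps, sum_pair hne] at hle
      refine h.twoComps hsys hIHE hcon hvc hne hcps hSc hns1 hns2 ?_
        (vl_nn hsys ((cps_sub hC).trans h.sub) (hnn C hC))
        (vl_nn hsys ((cps_sub hC').trans h.sub) (hnn C' hC'))
      rcases Nat.lt_or_ge (ins b V U).card 2 with h3 | h3
      · have h4 : (ins b V U).card = 1 := by omega
        have hs0 : (sp b V ∩ (V \ U)).card = 0 := by omega
        rw [h4, hs0] at hle
        rw [h4]
        push_cast at hle ⊢
        omega
      · have h4 : (ins b V U).card = 2 := by omega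
        have hs0 : (sp b V ∩ (V \ U)).card = 0 := by omega
        rw [h4, hs0] at hle
        rw [h4]
        push_cast at hle ⊢
        omega
    · exfalso
      refine h.manyComps3 hcb hcon hvc hSc (by omega) ?_
      intro x hx
      have := hdeg x hx
      omega

end Pool.Agent.Helper74.C5
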