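import Pool.Agent.Helper74.C5.CapV

/-!
# Single cuts in the class of critical connected sets
-/

set_option linter.unusedSectionVars false

open Finset

namespace Pool.Agent.Helper74.C5

open Pool.Agent.Helper20.C5

variable {α ι : Type} [DecidableEq α] [DecidableEq ι] [Fintype ι]

/-- A cut at a face, class version. -/
structure FV (b : ι → Finset α) (V U : Finset α) (i0 : ι) (k : ℕ) : Prop where
  sub : U ⊆ V
  p3 : (b i0 ∩ V).card = 3
  pu : b i0 ∩ U = ∅
  tt : tau b U + 1 = tau b V
  card : U.card + 3 + k = V.card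
  typ : ∀ C ∈ cps b U, Vc b C

theorem Crit.vc {b : ι → Finset α} {U : Finset α} (hc : Cb b U) (h : Crit b U) : Vc b U := by
  intro c hcU
  have h1 := h {c} (singleton_subset_iff.mpr hcU) (singleton_nonempty c)
  rw [sdiff_singleton_eq_erase] at h1
  have h2 := tau_erase_le hc hcU
  omega

/-- A cut at a face. -/
theorem exists_FV {b : ι → Finset α} {V : Finset α} (hsys : Sys b V) (hvc : Vc b V) {i0 : ι}
    (hP3 : (b i0 ∩ V).card = 3) :
    ∃ U k, FV b V U i0 k ∧ U ⊆ V \ (b i0 ∩ V) ∧ (k = 0 → U = V \ (b i0 ∩ V)) := by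
  classical
  have hPV : b i0 ∩ V ⊆ V := inter_subset_right
  have hcb := hsys.cb
  obtain ⟨p, hp⟩ : (b i0 ∩ V).Nonempty := card_pos.mp (by omega)
  have hpV := hPV hp
  have ht : tau b (V \ (b i0 ∩ V)) + 1 = tau b V := by
    have h1 := hvc p hpV
    have h2 : tau b (V \ (b i0 ∩ V)) ≤ tau b (V.erase p) := by
      apply tau_mono (hcb.mono (erase_subset p V))
      intro x hx
      rw [mem_sdiff] at hx
      exact mem_erase.mpr ⟨fun h => hx.2 (h ▸ hp), hx.1⟩
    have h3 := tau_union (hcb.mono (sdiff_subset : V \ (b i0 ∩ V) ⊆ V))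
      (hcb.mono hPV)
    rw [sdiff_union_of_subset hPV] at h3
    have h4 : tau b (b i0 ∩ V) ≤ 1 := tau_le (cv_block i0 inter_subset_left)
    omega
  have hcb' : Cb b (V \ (b i0 ∩ V)) := hcb.mono sdiff_subset
  obtain ⟨A, hA, hA2, hcr⟩ := exists_crit hcb'
  have hcb'' : Cb b ((V \ (b i0 ∩ V)) \ A) := hcb'.mono sdiff_subset
  refine ⟨(V \ (b i0 ∩ V)) \ A, A.card, ⟨sdiff_subset.trans sdiff_subset, hP3, ?_, ?_, ?_, ?_⟩,
    sdiff_subset, ?_⟩
  · rw [eq_empty_iff_forall_notMem]
    intro x hx
    rw [mem_inter, mem_sdiff, mem_sdiff] at hx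
    exact hx.2.1.2 (mem_inter.mpr ⟨hx.1, hx.2.1.1⟩)
  · rw [hA2]
    exact ht
  · rw [card_sdiff_of_subset hA, card_sdiff_of_subset hPV, hP3]
    have h1 := card_le_card hA
    rw [card_sdiff_of_subset hPV, hP3] at h1
    have h2 := card_le_card hPV
    rw [hP3] at h2
    omega
  · intro C hC
    exact Crit.vc (hcb''.mono (cps_sub hC)) (crit_cps hcb'' hcr hC)
  · intro h1
    rw [card_eq_zero.mp h1, sdiff_empty]

theorem FV.scard {b : ι → Finset α} {V U : Finset α} {i0 : ι} {k : ℕ} (h : FV b V U i0 k) :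
    (V \ U).card = 3 + k := by
  rw [card_sdiff_of_subset h.sub]
  have := h.card
  omega

theorem FV.notsaved {b : ι → Finset α} {V U : Finset α} {i0 : ι} {k : ℕ} (h : FV b V U i0 k)
    (hcb : Cb b V) (T : Finset α → Finset α) (hT : ∀ C ∈ cps b U, tau b (C ∪ T C) ≤ tau b C)
    (hT2 : ∀ C ∈ cps b U, T C ⊆ V \ U) (hS2 : V \ U ⊆ (cps b U).biUnion T) : False := by
  have h1 := saved (hcb.mono h.sub) (hcb.mono sdiff_subset) T hT hT2 hS2
  rw [union_sdiff_of_subset h.sub] at h1
  have h2 := h.tt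
  omega

theorem FV.vcC {b : ι → Finset α} {V U : Finset α} {i0 : ι} {k : ℕ} (h : FV b V U i0 k)
    (_hcb : Cb b V) {C : Finset α} (hC : C ∈ cps b U) : Vc b C := h.typ C hC

theorem FV.att {b : ι → Finset α} {V U : Finset α} {i0 : ι} {k : ℕ} (h : FV b V U i0 k)
    (hcb : Cb b V) (hcon : Con b V) (hvc : Vc b V) {C : Finset α} (hC : C ∈ cps b U) (v : α) :
    ∃ x ∈ V \ U, x ≠ v ∧ Aj b x C := by
  have h1 : V \ (V \ U) = U := Finset.sdiff_sdiff_eq_self h.sub
  have h2 := h.scard
  have hvC : Vc b C := h.typ C hC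
  rw [← h1] at hC
  exact attach hcb hcon hvc sdiff_subset (card_pos.mp (by omega)) hC hvC v

theorem FV.ne2 {b : ι → Finset α} {V U : Finset α} {i0 : ι} {k : ℕ} (h : FV b V U i0 k)
    {C : Finset α} (hC : C ∈ cps b U) : (V \ C).Nonempty := by
  have h1 := h.scard
  obtain ⟨x, hx⟩ : (V \ U).Nonempty := card_pos.mp (by omega)
  exact ⟨x, mem_sdiff.mpr ⟨(mem_sdiff.mp hx).1, fun h2 => (mem_sdiff.mp hx).2 (cps_sub hC h2)⟩⟩

theorem ee_spV {b : ι → Finset α} {V C : Finset α} (hKP : KP) (hsys : Sys b V) (hC : C ⊆ V)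
    (hne : C.Nonempty) (hcon : Con b C) (hvc : Vc b C) (hf : 2 * tau b C = C.card + 1) :
    0 ≤ ee b C - ((sp b V ∩ C).card : ℤ) := by
  have h3 := hKP α ι b C hne (hsys.mono hC) hcon hvc
  have h4 : ((sp b V ∩ C).card : ℤ) ≤ (sp b C).card := by
    exact_mod_cast card_le_card (sp_sub hC)
  zify at hf
  linarith

/-- The components have nonnegative potential. -/
theorem FV.nn {b : ι → Finset α} {V U : Finset α} {i0 : ι} {k : ℕ} (h : FV b V U i0 k)
    (hKP : KP) (hsys : Sys b V) (hcon : Con b V) (hIH : ClV V.card) {C : Finset α}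
    (hC : C ∈ cps b U) (hf : 2 * tau b C = C.card + 1 ∨ 2 * tau b C = C.card) :
    0 ≤ PotX b V C := by
  have hCV := (cps_sub hC).trans h.sub
  rcases hf with h3 | h3
  · have := ee_spV hKP hsys hCV (cps_ne hC) (cps_con hC) (h.typ C hC) h3
    have h5 := card_pos.mpr (cps_ne hC)
    unfold PotX
    omega
  · have h1 := card_le_card (cps_sub hC)
    have h2 := h.card
    exact (hIH α ι b C (by omega) (cps_ne hC) (hsys.mono hCV) (cps_con hC) (h.typ C hC) h3
      (not_dt hsys hcon hCV (cps_ne hC) (h.ne2 hC))).trans (Pot.le hCV)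

/-- The pair caps in a cut. -/
theorem FV.capG {b : ι → Finset α} {V U : Finset α} {i0 : ι} {k : ℕ} (h : FV b V U i0 k)
    (hKP : KP) (hsys : Sys b V) (hIH : ClV V.card) {C : Finset α} (hC : C ∈ cps b U)
    (hf : 2 * tau b C = C.card + 1 ∨ 2 * tau b C = C.card)
    {G H : Finset α} (hG : G ⊆ V \ U) (hH : H ⊆ V \ U) (hGH : Disjoint G H) {a c : ℕ}
    (ha : 1 ≤ a) (hac : a ≤ c) (hc : c ≤ 4) (h0 : a ≤ dg b G C) (h1 : c ≤ dg b H C)
    (habs : ∀ x ∈ G, ∀ y ∈ H, tau b C + 1 ≤ tau b (C ∪ {x, y})) :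
    34 * ((if a + 2 ≤ c then 1 else 0) + 2 * (a : ℤ)) ≤ PotX b V C + 108 ∧
    (2 * tau b C = C.card + 1 → (if a + 2 ≤ c then 1 else 0) + 2 * (a : ℤ) ≤
      ee b C - ((sp b V ∩ C).card : ℤ) + 3) := by
  have h2 := card_le_card (cps_sub hC)
  have h3 := h.card
  have h4 : V \ U ⊆ V \ C := sdiff_subset_sdiff (Subset.refl V) (cps_sub hC)
  have hCV := (cps_sub hC).trans h.sub
  have hp := pairV hsys hCV (cps_ne hC) (cps_con hC) (h.typ C hC) (hG.trans h4) (hH.trans h4) hGH
      ha hac hc h0 h1 habs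
  have hKc : 2 * tau b C = C.card + 1 → (if a + 2 ≤ c then 1 else 0) + 2 * (a : ℤ) ≤
      ee b C - ((sp b V ∩ C).card : ℤ) + 3 := by
    intro hK
    have := hp.1 hKP
    zify at hK
    linarith
  refine ⟨?_, hKc⟩
  rcases hf with h5 | h5
  · have h6 := hKc h5
    have h7 := card_pos.mpr (cps_ne hC)
    unfold PotX
    have h8 : (0 : ℤ) < C.card := by exact_mod_cast h7
    linarith
  · exact hp.2 V.card hIH (by omega) h5

theorem FV.nonabs' {b : ι → Finset α} {V U : Finset α} {i0 : ι} {k : ℕ} (h : FV b V U i0 k)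
    (hcb : Cb b V) {C C' : Finset α} (hcps : cps b U = {C, C'}) (hne : C ≠ C')
    {x y z : α} (hS : V \ U = {x, y, z}) (hz : Aj b z C') :
    tau b C + 1 ≤ tau b (C ∪ {x, y}) := by
  classical
  by_contra hcon
  have hC' : C' ∈ cps b U := by
    rw [hcps]
    exact mem_insert_of_mem (mem_singleton_self _)
  refine h.notsaved hcb (fun D => if D = C then {x, y} else {z}) ?_ ?_ ?_
  · intro D hD
    show tau b (D ∪ (if D = C then {x, y} else {z})) ≤ tau b D
    rw [hcps, mem_insert, mem_singleton] at hD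
    rcases hD with rfl | rfl
    · rw [if_pos rfl]
      omega
    · rw [if_neg hne.symm]
      have h1 := hcb.mono ((cps_sub hC').trans h.sub)
      exact absorb_aj h1 (h.vcC hcb hC') hz
  · intro D _
    show (if D = C then {x, y} else {z}) ⊆ V \ U
    rw [hS]
    split_ifs
    · intro w hw
      rw [mem_insert, mem_singleton] at hw
      rw [mem_insert, mem_insert, mem_singleton]
      rcases hw with h1 | h1
      · exact Or.inl h1
      · exact Or.inr (Or.inl h1)
    · intro w hw
      rw [mem_singleton] at hw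
      rw [mem_insert, mem_insert, mem_singleton]
      exact Or.inr (Or.inr hw)
  · intro w hw
    rw [hS, mem_insert, mem_insert, mem_singleton] at hw
    rw [hcps, mem_biUnion]
    rcases hw with h1 | h1 | h1
    · refine ⟨C, mem_insert_self _ _, ?_⟩
      show w ∈ (if C = C then {x, y} else {z})
      rw [if_pos rfl, h1]
      exact mem_insert_self _ _
    · refine ⟨C, mem_insert_self _ _, ?_⟩
      show w ∈ (if C = C then {x, y} else {z})
      rw [if_pos rfl, h1]
      exact mem_insert_of_mem (mem_singleton_self _)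
    · refine ⟨C', mem_insert_of_mem (mem_singleton_self _), ?_⟩
      show w ∈ (if C' = C then {x, y} else {z})
      rw [if_neg hne.symm, h1]
      exact mem_singleton_self _

/-- The rules for two components. -/
theorem FV.twoG {b : ι → Finset α} {V U : Finset α} {i0 : ι} {k : ℕ} (h : FV b V U i0 k)
    (hKP : KP) (hsys : Sys b V) (hIH : ClV V.card)
    (hf : ∀ C ∈ cps b U, 2 * tau b C = C.card + 1 ∨ 2 * tau b C = C.card) {C C' : Finset α} (hcps : cps b U = {C, C'})
    (hne : C ≠ C') {x y z : α} (hS : V \ U = {x, y, z}) (hxy : x ≠ y) (hz : 1 ≤ dg b {z} C')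
    {a c : ℕ} (ha : 1 ≤ a) (hac : a ≤ c) (hc : c ≤ 4) (h0 : a ≤ dg b {x} C)
    (h1 : c ≤ dg b {y} C) :
    34 * ((if a + 2 ≤ c then 1 else 0) + 2 * (a : ℤ)) ≤ PotX b V C + 108 ∧
    (2 * tau b C = C.card + 1 → (if a + 2 ≤ c then 1 else 0) + 2 * (a : ℤ) ≤
      ee b C - ((sp b V ∩ C).card : ℤ) + 3) := by
  have hC : C ∈ cps b U := by
    rw [hcps]
    exact mem_insert_self _ _
  apply h.capG hKP hsys hIH hC (hf C hC) (G := {x}) (H := {y}) ?_ ?_ ?_ ha hac hc h0 h1
  · intro x' hx' y' hy'
    rw [mem_singleton] at hx' hy'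
    rw [hx', hy']
    exact h.nonabs' hsys.cb hcps hne hS (dg_aj hz)
  · rw [hS, singleton_subset_iff, mem_insert]
    exact Or.inl rfl
  · rw [hS, singleton_subset_iff, mem_insert, mem_insert]
    exact Or.inr (Or.inl rfl)
  · rw [disjoint_singleton]
    exact hxy

theorem FV.threeG {b : ι → Finset α} {V U : Finset α} {i0 : ι} {k : ℕ} (h : FV b V U i0 k)
    (hKP : KP) (hsys : Sys b V) (hIH : ClV V.card)
    (hf : ∀ C ∈ cps b U, 2 * tau b C = C.card + 1 ∨ 2 * tau b C = C.card) {C C' : Finset α} (hcps : cps b U = {C, C'})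
    (hne : C ≠ C') {x y z : α} (hS : V \ U = {x, y, z}) (hxy : x ≠ y) (hxz : x ≠ z)
    (hx : 1 ≤ dg b {x} C') (hy : 1 ≤ dg b {y} C') (hz : 1 ≤ dg b {z} C')
    {a c : ℕ} (ha : 1 ≤ a) (hac : a ≤ c) (hc : c ≤ 4) (h0 : a ≤ dg b {x} C)
    (h1 : c ≤ dg b {y} C + dg b {z} C) :
    34 * ((if a + 2 ≤ c then 1 else 0) + 2 * (a : ℤ)) ≤ PotX b V C + 108 ∧
    (2 * tau b C = C.card + 1 → (if a + 2 ≤ c then 1 else 0) + 2 * (a : ℤ) ≤
      ee b C - ((sp b V ∩ C).card : ℤ) + 3) := by
  have hC : C ∈ cps b U := by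
    rw [hcps]
    exact mem_insert_self _ _
  have hS2 : V \ U = {x, z, y} := by
    rw [hS]
    ext w
    rw [mem_insert, mem_insert, mem_singleton, mem_insert, mem_insert, mem_singleton]
    tauto
  have hS3 : V \ U = {y, z, x} := by
    rw [hS]
    ext w
    rw [mem_insert, mem_insert, mem_singleton, mem_insert, mem_insert, mem_singleton]
    tauto
  have hcC := hsys.cb.mono ((cps_sub hC).trans h.sub)
  have h2 : dg b {y, z} C = dg b {y} C + dg b {z} C := by
    apply dg_pair
    intro i hyi hzi c hcC' hci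
    have h3 := absorb hcC (h.vcC hsys.cb hC) hcC' hci (T := {y, z}) (by
      intro w hw
      rw [mem_insert, mem_singleton] at hw
      rcases hw with rfl | rfl
      · exact hyi
      · exact hzi)
    have h4 := h.nonabs' hsys.cb hcps hne hS3 (dg_aj hx)
    omega
  rw [← h2] at h1
  apply h.capG hKP hsys hIH hC (hf C hC) (G := {x}) (H := {y, z}) ?_ ?_ ?_ ha hac hc h0 h1
  · intro x' hx' y' hy'
    rw [mem_singleton] at hx'
    rw [mem_insert, mem_singleton] at hy'
    rw [hx']
    rcases hy' with h3 | h3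
    · rw [h3]
      exact h.nonabs' hsys.cb hcps hne hS (dg_aj hz)
    · rw [h3]
      exact h.nonabs' hsys.cb hcps hne hS2 (dg_aj hy)
  · rw [hS, singleton_subset_iff, mem_insert]
    exact Or.inl rfl
  · rw [hS]
    exact subset_insert _ _
  · rw [disjoint_singleton_left, mem_insert, mem_singleton]
    rintro (h3 | h3)
    · exact hxy h3
    · exact hxz h3

/-- Three components and four points. -/
theorem FV.threeComps {b : ι → Finset α} {V U : Finset α} {i0 : ι} {k : ℕ} (h : FV b V U i0 k)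
    (hcb : Cb b V) (hcon : Con b V) (hvc : Vc b V) (hSc : (V \ U).card = 4)
    {C1 C2 C3 : Finset α} (h12 : C1 ≠ C2) (h13 : C1 ≠ C3) (h23 : C2 ≠ C3)
    (hcps : cps b U = {C1, C2, C3})
    (hab : ∀ C ∈ cps b U, ∀ x ∈ V \ U, ∀ y ∈ V \ U, x ≠ y → 2 ≤ dg b {x} C →
        2 ≤ dg b {y} C → tau b (C ∪ {x, y}) ≤ tau b C)
    (hdeg : ∀ x ∈ V \ U, 4 ≤ ∑ C ∈ cps b U, dg b {x} C) : False := by
  classical
  have hcU := hcb.mono h.sub
  have hC1 : C1 ∈ cps b U := by rw [hcps]; simp
  have hC2 : C2 ∈ cps b U := by rw [hcps]; simp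
  have hC3 : C3 ∈ cps b U := by rw [hcps]; simp
  obtain ⟨T, hT1, hT2, hT3⟩ := comb3 (fun j x => Aj b x ((![C1, C2, C3] : Fin 3 → Finset α) j))
    (fun j x => 2 ≤ dg b {x} ((![C1, C2, C3] : Fin 3 → Finset α) j)) (V \ U) hSc
    (fun j x hq => dg_aj (by omega))
    (by
      intro x hx
      have h1 := hdeg x hx
      have h2 : ∑ C ∈ cps b U, dg b {x} C = dg b {x} C1 + (dg b {x} C2 + dg b {x} C3) := by
        rw [hcps, sum_insert (by simp [h12, h13]), sum_insert (by simp [h23]), sum_singleton]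
      rw [h2] at h1
      by_contra hcon2
      rw [not_exists] at hcon2
      have g0 : ¬ 2 ≤ dg b {x} C1 := hcon2 0
      have g1 : ¬ 2 ≤ dg b {x} C2 := hcon2 1
      have g2 : ¬ 2 ≤ dg b {x} C3 := hcon2 2
      omega)
    (by
      intro j v
      have hj : (![C1, C2, C3] : Fin 3 → Finset α) j ∈ cps b U := by
        fin_cases j
        · exact hC1
        · exact hC2
        · exact hC3
      exact h.att hcb hcon hvc hj v)
  have hTab : ∀ j, ∀ C ∈ cps b U, C = (![C1, C2, C3] : Fin 3 → Finset α) j →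
      tau b (C ∪ T j) ≤ tau b C := by
    intro j C hC hCj
    have hcC := hcU.mono (cps_sub hC)
    rcases hT3 j with ⟨x, hx, hx2⟩ | ⟨x, y, hxy, hx, hx2, hy2⟩
    · rw [hx]
      rw [← hCj] at hx2
      exact absorb_aj hcC (h.vcC hcb hC) hx2
    · rw [hx]
      rw [← hCj] at hx2 hy2
      have h1 := hT1 j
      rw [hx] at h1
      exact hab C hC x (h1 (mem_insert_self _ _)) y
        (h1 (mem_insert_of_mem (mem_singleton_self _))) hxy hx2 hy2
  refine h.notsaved hcb
    (fun C => if C = C1 then T 0 else if C = C2 then T 1 else T 2) ?_ ?_ ?_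
  · intro C hC
    show tau b (C ∪ (if C = C1 then T 0 else if C = C2 then T 1 else T 2)) ≤ tau b C
    have hC' := hC
    rw [hcps, mem_insert, mem_insert, mem_singleton] at hC'
    rcases hC' with h1 | h1 | h1
    · rw [if_pos h1]
      exact hTab 0 C hC h1
    · rw [if_neg (by rw [h1]; exact h12.symm), if_pos h1]
      exact hTab 1 C hC h1
    · rw [if_neg (by rw [h1]; exact h13.symm), if_neg (by rw [h1]; exact h23.symm)]
      exact hTab 2 C hC h1
  · intro C _
    show (if C = C1 then T 0 else if C = C2 then T 1 else T 2) ⊆ V \ U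
    split_ifs
    · exact hT1 0
    · exact hT1 1
    · exact hT1 2
  · intro x hx
    rw [mem_biUnion]
    obtain ⟨j, hj⟩ := hT2 x hx
    fin_cases j
    · refine ⟨C1, hC1, ?_⟩
      show x ∈ (if C1 = C1 then T 0 else if C1 = C2 then T 1 else T 2)
      rw [if_pos rfl]
      exact hj
    · refine ⟨C2, hC2, ?_⟩
      show x ∈ (if C2 = C1 then T 0 else if C2 = C2 then T 1 else T 2)
      rw [if_neg h12.symm, if_pos rfl]
      exact hj
    · refine ⟨C3, hC3, ?_⟩
      show x ∈ (if C3 = C1 then T 0 else if C3 = C2 then T 1 else T 2)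
      rw [if_neg h13.symm, if_neg h23.symm]
      exact hj

/-- The value of a component in units of the excess. -/
noncomputable def vl' (b : ι → Finset α) (V D : Finset α) : ℤ :=
  if 2 * tau b D = D.card + 1 then ee b D - ((sp b V ∩ D).card : ℤ) else (PotX b V D + 6) / 34

theorem le_vl' {b : ι → Finset α} {V D : Finset α} {v : ℤ} (h1 : 34 * v ≤ PotX b V D + 108)
    (h2 : 2 * tau b D = D.card + 1 → v ≤ ee b D - ((sp b V ∩ D).card : ℤ) + 3) :
    v ≤ vl' b V D + 3 := by
  unfold vl'
  split_ifs with h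
  · exact h2 h
  · omega

theorem vl_le' {b : ι → Finset α} {V D : Finset α} : 34 * vl' b V D ≤ PotX b V D + 6 := by
  unfold vl'
  split_ifs with h
  · unfold PotX
    omega
  · omega

theorem vl_K' {b : ι → Finset α} {V D : Finset α} (hne : D.Nonempty)
    (h : 2 * tau b D = D.card + 1) : 34 * vl' b V D + 3 ≤ PotX b V D := by
  unfold vl'
  rw [if_pos h]
  have := card_pos.mpr hne
  unfold PotX
  omega

/-- Two components. -/
theorem FV.twoComps {b : ι → Finset α} {V U : Finset α} {i0 : ι} {k : ℕ} (h : FV b V U i0 k)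
    (hKP : KP) (hsys : Sys b V) (hIH : ClV V.card)
    (hf : ∀ C ∈ cps b U, 2 * tau b C = C.card + 1 ∨ 2 * tau b C = C.card) (hcon : Con b V) (hvc : Vc b V)
    {C C' : Finset α} (hne : C ≠ C') (hcps : cps b U = {C, C'}) (hSc : (V \ U).card = 3)
    (hns1 : 1 ≤ (ins b V U).card) (hns2 : (ins b V U).card ≤ 2)
    (hsum : vl' b V C + vl' b V C' ≤ 4 - 2 * (ins b V U).card)
    (e0 : 0 ≤ vl' b V C) (e0' : 0 ≤ vl' b V C') : False := by
  classical
  have hcb := hsys.cb
  have hcU := hcb.mono h.sub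
  have hdeg : ∀ x ∈ V \ U, 5 ≤ (∑ C ∈ cps b U, dg b {x} C) + (ins b V U).card := by
    intro x hx
    rw [← dg_cps hcU]
    exact dg_ins hsys (mem_sdiff.mp hx).1
  have hC : C ∈ cps b U := by rw [hcps]; simp
  have hC' : C' ∈ cps b U := by rw [hcps]; simp
  obtain ⟨x, y, z, hxy, hxz, hyz, hS⟩ := card_eq_three.mp hSc
  have hdg : ∀ w ∈ V \ U, 5 ≤ dg b {w} C + dg b {w} C' + (ins b V U).card := by
    intro w hw
    have h1 := hdeg w hw
    rwa [hcps, sum_pair hne] at h1
  have hcps' : cps b U = {C', C} := by rw [hcps, pair_comm]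
  have hmem : ∀ w, w ∈ V \ U ↔ w = x ∨ w = y ∨ w = z := by
    intro w
    rw [hS, mem_insert, mem_insert, mem_singleton]
  have hx := (hmem x).mpr (Or.inl rfl)
  have hy := (hmem y).mpr (Or.inr (Or.inl rfl))
  have hz := (hmem z).mpr (Or.inr (Or.inr rfl))
  -- the case of a component that is not attached to a point
  have caseZ : ∀ D D' : Finset α, cps b U = {D, D'} → D ≠ D' → vl' b V D + vl' b V D' ≤
      4 - 2 * (ins b V U).card → 0 ≤ vl' b V D → 0 ≤ vl' b V D' → ∀ x y z : α,
      V \ U = {x, y, z} → x ≠ y → x ≠ z → y ≠ z → dg b {z} D = 0 → False := by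
    intro D D' hcps hne hsum f0 f0' x y z hS hxy hxz hyz h0
    have hD : D ∈ cps b U := by rw [hcps]; simp
    have hD' : D' ∈ cps b U := by rw [hcps]; simp
    have hmem : ∀ w, w ∈ V \ U ↔ w = x ∨ w = y ∨ w = z := by
      intro w
      rw [hS, mem_insert, mem_insert, mem_singleton]
    have hx := (hmem x).mpr (Or.inl rfl)
    have hy := (hmem y).mpr (Or.inr (Or.inl rfl))
    have hz := (hmem z).mpr (Or.inr (Or.inr rfl))
    have hdg : ∀ w ∈ V \ U, 5 ≤ dg b {w} D + dg b {w} D' + (ins b V U).card := by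
      intro w hw
      have h1 := hdeg w hw
      rwa [hcps, sum_pair hne] at h1
    have hatt : ∀ v, ∃ w ∈ V \ U, w ≠ v ∧ Aj b w D := fun v => h.att hcb hcon hvc hD v
    have hxD : 1 ≤ dg b {x} D := by
      obtain ⟨w, hw, hwv, hwa⟩ := hatt y
      rcases (hmem w).mp hw with h1 | h1 | h1
      · rw [← h1]
        exact aj_dg hwa
      · exact absurd h1 hwv
      · have := aj_dg hwa
        rw [h1] at this
        omega
    have hyD : 1 ≤ dg b {y} D := by
      obtain ⟨w, hw, hwv, hwa⟩ := hatt x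
      rcases (hmem w).mp hw with h1 | h1 | h1
      · exact absurd h1 hwv
      · rw [← h1]
        exact aj_dg hwa
      · have := aj_dg hwa
        rw [h1] at this
        omega
    have hxx := hdg x hx
    have hyy := hdg y hy
    have hzz := hdg z hz
    rw [h0] at hzz
    have hzD' : 1 ≤ dg b {z} D' := by omega
    have hcps' : cps b U = {D', D} := by rw [hcps, pair_comm]
    have hSxzy : V \ U = {x, z, y} := by
      ext w
      rw [hmem, mem_insert, mem_insert, mem_singleton]
      tauto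
    have hSyzx : V \ U = {y, z, x} := by
      ext w
      rw [hmem, mem_insert, mem_insert, mem_singleton]
      tauto
    refine arith_zero (e := vl' b V D) (e' := vl' b V D') (z' := dg b {z} D') hxD hyD hxx hyy
      (by omega) hns2 hns1 hsum f0 f0' ?_ ?_ ?_
    · intro a c ha hac hc hax hcy
      have := h.twoG hKP hsys hIH hf hcps hne hS hxy hzD' ha hac hc hax hcy
      exact le_vl' this.1 this.2
    · intro a c ha hac hc hax hcy
      have := h.twoG hKP hsys hIH hf hcps' hne.symm hSxzy hxz hyD ha hac hc hax hcy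
      exact le_vl' this.1 this.2
    · intro a c ha hac hc hax hcy
      have := h.twoG hKP hsys hIH hf hcps' hne.symm hSyzx hyz hxD ha hac hc hax hcy
      exact le_vl' this.1 this.2
  have hSxzy : V \ U = {x, z, y} := by
    ext w
    rw [hmem, mem_insert, mem_insert, mem_singleton]
    tauto
  have hSyzx : V \ U = {y, z, x} := by
    ext w
    rw [hmem, mem_insert, mem_insert, mem_singleton]
    tauto
  have hSzxy : V \ U = {z, x, y} := by
    ext w
    rw [hmem, mem_insert, mem_insert, mem_singleton]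
    tauto
  have pos : ∀ D D' : Finset α, cps b U = {D, D'} → D ≠ D' → vl' b V D + vl' b V D' ≤
      4 - 2 * (ins b V U).card → 0 ≤ vl' b V D → 0 ≤ vl' b V D' → 1 ≤ dg b {x} D ∧
      1 ≤ dg b {y} D ∧ 1 ≤ dg b {z} D := by
    intro D D' hcps hne hsum f0 f0'
    refine ⟨?_, ?_, ?_⟩
    · by_contra h1
      exact caseZ D D' hcps hne hsum f0 f0' y z x hSyzx hyz hxy.symm hxz.symm (by omega)
    · by_contra h1
      exact caseZ D D' hcps hne hsum f0 f0' x z y hSxzy hxz hxy hyz.symm (by omega)
    · by_contra h1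
      exact caseZ D D' hcps hne hsum f0 f0' x y z hS hxy hxz hyz (by omega)
  obtain ⟨px, py, pz⟩ := pos C C' hcps hne hsum e0 e0'
  obtain ⟨px', py', pz'⟩ := pos C' C hcps' hne.symm (by omega) e0' e0
  refine arith_pos (e := vl' b V C) (e' := vl' b V C') px py pz px' py' pz' (hdg x hx) (hdg y hy)
    (hdg z hz) hns2 hns1 hsum e0 e0' ?_ ?_ ?_ ?_ ?_ ?_
  · intro a c ha hac hc hax hcy
    have := h.threeG hKP hsys hIH hf hcps hne hS hxy hxz px' py' pz' ha hac hc hax hcy
    exact le_vl' this.1 this.2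
  · intro a c ha hac hc hax hcy
    have := h.threeG hKP hsys hIH hf hcps hne hSyzx hyz hxy.symm py' pz' px' ha hac hc hax hcy
    exact le_vl' this.1 this.2
  · intro a c ha hac hc hax hcy
    have := h.threeG hKP hsys hIH hf hcps hne hSzxy hxz.symm hyz.symm pz' px' py' ha hac hc hax hcy
    exact le_vl' this.1 this.2
  · intro a c ha hac hc hax hcy
    have := h.threeG hKP hsys hIH hf hcps' hne.symm hS hxy hxz px py pz ha hac hc hax hcy
    exact le_vl' this.1 this.2
  · intro a c ha hac hc hax hcy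
    have := h.threeG hKP hsys hIH hf hcps' hne.symm hSyzx hyz hxy.symm py pz px ha hac hc hax hcy
    exact le_vl' this.1 this.2
  · intro a c ha hac hc hax hcy
    have := h.threeG hKP hsys hIH hf hcps' hne.symm hSzxy hxz.symm hyz.symm pz px py ha hac hc hax hcy
    exact le_vl' this.1 this.2

/-- **Ring faces, class version.** -/
theorem ringV {b : ι → Finset α} {V : Finset α} (hKP : KP) (hFM : FM) (hsys : Sys b V)
    (hcon : Con b V) (hvc : Vc b V) (hCt : 2 * tau b V = V.card) (hIH : ClV V.card)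
    (hneg : Pot b V < 0) {i0 : ι} (hP3 : (b i0 ∩ V).card = 3) :
    (Con b (V \ (b i0 ∩ V)) ∧ Vc b (V \ (b i0 ∩ V)) ∧
      2 * tau b (V \ (b i0 ∩ V)) = (V \ (b i0 ∩ V)).card + 1) ∨
    (ee b V - ((sp b V).card : ℤ) = -1 ∧ V.card ≤ 10) := by
  classical
  have hcb := hsys.cb
  obtain ⟨U, k, h, hUP, hUk⟩ := exists_FV hsys hvc hP3
  have hcU := hcb.mono h.sub
  have htt := h.tt
  have hcard := h.card
  have hSc := h.scard
  -- the number of components
  have hN : (cps b U).card ≤ k + 2 := by
    have h1 : V \ (V \ U) = U := Finset.sdiff_sdiff_eq_self h.sub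
    have h2 := comps_lt hcb hcon hvc (S := V \ U) sdiff_subset (card_pos.mp (by omega))
      (by rw [h1]; exact h.typ)
    rw [h1] at h2
    omega
  have hfm : ∀ C ∈ cps b U, 2 * tau b C ≤ C.card + 1 := fun C hC =>
    hFM α ι b C (cps_ne hC) (hsys.mono ((cps_sub hC).trans h.sub)) (cps_con hC) (h.typ C hC)
  have htU := tau_cps hcU
  have hcdU := card_cps hcU
  have hfsum : ∑ C ∈ cps b U, ((C.card : ℤ) + 1 - 2 * tau b C) =
      (cps b U).card - 1 - k := by
    rw [sum_sub_distrib, sum_add_distrib, ← mul_sum]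
    simp only [sum_const, nsmul_eq_mul, mul_one]
    have h1 : (∑ C ∈ cps b U, (C.card : ℤ)) = U.card := by
      rw [hcdU]
      push_cast
      rfl
    have h2 : (∑ C ∈ cps b U, (tau b C : ℤ)) = tau b U := by
      rw [htU]
      push_cast
      rfl
    rw [h1, h2]
    omega
  have hfnn : ∀ C ∈ cps b U, (0 : ℤ) ≤ (C.card : ℤ) + 1 - 2 * tau b C := by
    intro C hC
    have := hfm C hC
    omega
  have hNge : k + 1 ≤ (cps b U).card := by
    have := sum_nonneg hfnn
    omega
  have hf : ∀ C ∈ cps b U, 2 * tau b C = C.card + 1 ∨ 2 * tau b C = C.card := by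
    intro C hC
    have h1 := single_le_sum hfnn hC
    have h2 := hfm C hC
    omega
  have hnn : ∀ C ∈ cps b U, 0 ≤ PotX b V C := fun C hC => h.nn hKP hsys hcon hIH hC (hf C hC)
  have hpc := pot_cut (b := b) h.sub
  have hsum := sum_PotX (V := V) hcU
  have hins := sp_ins hP3 h.pu h.sub
  have hle : Pot b V = ∑ C ∈ cps b U, PotX b V C - 161 + 68 * (ins b V U).card + 71 * k -
      34 * (sp b V ∩ (V \ U)).card := by
    rw [hsum]
    rw [← htt, ← hcard] at hpc
    push_cast at hpc
    linarith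
  have hge := sum_nonneg hnn
  have hdeg : ∀ x ∈ V \ U, 5 ≤ (∑ C ∈ cps b U, dg b {x} C) + (ins b V U).card := by
    intro x hx
    rw [← dg_cps hcU]
    exact dg_ins hsys (mem_sdiff.mp hx).1
  have hk : k ≤ 1 := by omega
  rcases Nat.lt_or_ge 0 k with hk1 | hk0
  · have hk1' : k = 1 := by omega
    subst hk1'
    have hns : (ins b V U).card = 1 := by omega
    have hs0 : (sp b V ∩ (V \ U)).card = 0 := by omega
    have hsm : ∀ C ∈ cps b U, PotX b V C ≤ 21 := by
      intro C hC
      have h1 := single_le_sum hnn hC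
      omega
    have hab : ∀ C ∈ cps b U, ∀ x ∈ V \ U, ∀ y ∈ V \ U, x ≠ y → 2 ≤ dg b {x} C →
        2 ≤ dg b {y} C → tau b (C ∪ {x, y}) ≤ tau b C := by
      intro C hC x hx y hy hxy hwx hwy
      by_contra hcon2
      have h1 := (h.capG hKP hsys hIH hC (hf C hC) (G := {x}) (H := {y}) (a := 2) (c := 2)
        (singleton_subset_iff.mpr hx) (singleton_subset_iff.mpr hy)
        (by rw [disjoint_singleton]; exact hxy) (by norm_num) le_rfl (by norm_num) hwx hwy
        (by
          intro x' hx' y' hy'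
          rw [mem_singleton] at hx' hy'
          rw [hx', hy']
          omega)).1
      have h2 := hsm C hC
      norm_num at h1
      omega
    have hdeg4 : ∀ x ∈ V \ U, 4 ≤ ∑ C ∈ cps b U, dg b {x} C := by
      intro x hx
      have := hdeg x hx
      omega
    by_cases hN2 : (cps b U).card = 2
    · right
      obtain ⟨C, C', hne, hcps⟩ := card_eq_two.mp hN2
      have hC : C ∈ cps b U := by rw [hcps]; simp
      have hC' : C' ∈ cps b U := by rw [hcps]; simp
      have g1 := hfnn C hC
      have g2 := hfnn C' hC'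
      rw [hcps, sum_pair hne, ← hcps, hN2] at hfsum
      have hKC : 2 * tau b C = C.card + 1 := by omega
      have hKC' : 2 * tau b C' = C'.card + 1 := by omega
      have e1 := ee_spV hKP hsys ((cps_sub hC).trans h.sub) (cps_ne hC) (cps_con hC)
        (h.typ C hC) hKC
      have e2 := ee_spV hKP hsys ((cps_sub hC').trans h.sub) (cps_ne hC') (cps_con hC')
        (h.typ C' hC') hKC'
      rw [hcps, sum_pair hne] at hle hcdU
      unfold Pot PotX at hle
      unfold Pot at hneg
      have h5 : (U.card : ℤ) + 4 = V.card := by omega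
      have h6 : (U.card : ℤ) = C.card + C'.card := by exact_mod_cast hcdU
      rw [hs0, hns] at hle
      push_cast at hle
      constructor
      · omega
      · omega
    · exfalso
      have hN3 : (cps b U).card = 3 := by omega
      obtain ⟨C1, C2, C3, h12, h13, h23, hcps⟩ := card_eq_three.mp hN3
      exact h.threeComps hcb hcon hvc hSc h12 h13 h23 hcps hab hdeg4
  · have hk0' : k = 0 := by omega
    subst hk0'
    have hU := hUk rfl
    have hns1 : 1 ≤ (ins b V U).card := by omega
    have hns2 : (ins b V U).card ≤ 2 := by omega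
    by_cases hN1 : (cps b U).card = 1
    · left
      obtain ⟨C, hcps⟩ := card_eq_one.mp hN1
      have hC : C ∈ cps b U := by rw [hcps]; exact mem_singleton_self C
      have hCU : C = U := by
        have h1 := cps_union (b := b) (U := U)
        rw [hcps, singleton_biUnion] at h1
        exact h1
      rw [hcps, sum_singleton, ← hcps, hN1] at hfsum
      rw [← hU, ← hCU]
      exact ⟨cps_con hC, h.typ C hC, by omega⟩
    · exfalso
      have hN2 : (cps b U).card = 2 := by omega
      obtain ⟨C, C', hne, hcps⟩ := card_eq_two.mp hN2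
      have hC : C ∈ cps b U := by rw [hcps]; simp
      have hC' : C' ∈ cps b U := by rw [hcps]; simp
      have g1 := hfnn C hC
      have g2 := hfnn C' hC'
      have hfs := hfsum
      rw [hcps, sum_pair hne, ← hcps, hN2] at hfs
      have g3 : 34 * (vl' b V C + vl' b V C') ≤ PotX b V C + PotX b V C' + 3 := by
        have u1 := vl_le' (b := b) (V := V) (D := C)
        have u2 := vl_le' (b := b) (V := V) (D := C')
        rcases hf C hC with h7 | h7
        · have := vl_K' (V := V) (cps_ne hC) h7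
          omega
        · have h8 : 2 * tau b C' = C'.card + 1 := by omega
          have := vl_K' (V := V) (cps_ne hC') h8
          omega
      have nnv : ∀ D ∈ cps b U, 0 ≤ vl' b V D := by
        intro D hD
        unfold vl'
        split_ifs with h7
        · exact ee_spV hKP hsys ((cps_sub hD).trans h.sub) (cps_ne hD) (cps_con hD)
            (h.typ D hD) h7
        · have := hnn D hD
          omega
      rw [hcps, sum_pair hne] at hle
      refine h.twoComps hKP hsys hIH hf hcon hvc hne hcps hSc hns1 hns2 ?_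
        (nnv C hC) (nnv C' hC')
      rcases Nat.lt_or_ge (ins b V U).card 2 with h3 | h3
      · have h4 : (ins b V U).card = 1 := by omega
        have hs0 : (sp b V ∩ (V \ U)).card = 0 := by omega
        rw [h4, hs0] at hle
        rw [h4]
        push_cast at hle ⊢
        omega
      · have h4 : (ins b V U).card = 2 := by omega
        have hs0 : (sp b V ∩ (V \ U)).card = 0 := by omega
        rw [h4, hs0] at hle
        rw [h4]
        push_cast at hle ⊢
        omega

end Pool.Agent.Helper74.C5
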