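import Pool.Agent.Helper74.C5.D1a

/-!
# The four-point levels of a double cut
-/

set_option linter.unusedSectionVars false

open Finset

namespace Pool.Agent.Helper74.C5

open Pool.Agent.Helper20.C5

variable {α ι : Type} [DecidableEq α] [DecidableEq ι] [Fintype ι]

/-- The pair cap in numbers. -/
def capb (E : ℤ) (p q : ℕ) : Prop :=
  (E ≤ 0 → p ≤ 1 ∨ q ≤ 1) ∧ (E ≤ 1 → (p ≤ 1 ∨ q ≤ 3) ∧ (p ≤ 3 ∨ q ≤ 1)) ∧
    (E ≤ 2 → p ≤ 2 ∨ q ≤ 2)

/-- A level. -/
structure TL (b : ι → Finset α) (V U : Finset α) (C : Fin 3 → Finset α) (T : Finset α) :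
    Prop where
  sub : T ⊆ V \ U
  c4 : T.card = 4
  NA : ∀ i j l, i ≠ j → j ≠ l → i ≠ l → ∀ p q s t, T = {p, q, s, t} → 1 ≤ wt b C j s →
    1 ≤ wt b C l t → tau b (C i) + 1 ≤ tau b (C i ∪ {p, q})
  at2 : ∀ i v, ∃ x ∈ T, x ≠ v ∧ 1 ≤ wt b C i x
  h2 : ∀ s ∈ T, ∀ t ∈ T, s ≠ t → ∀ i, ∃ j, j ≠ i ∧ (1 ≤ wt b C j s ∨ 1 ≤ wt b C j t)

theorem e_pq {T : Finset α} {p q s t : α} (h : T = {p, q, s, t}) : T = {q, p, s, t} := by
  rw [h]
  ext x
  simp only [mem_insert, mem_singleton]
  tauto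

theorem e_qs {T : Finset α} {p q s t : α} (h : T = {p, q, s, t}) : T = {p, s, q, t} := by
  rw [h]
  ext x
  simp only [mem_insert, mem_singleton]
  tauto

theorem e_st {T : Finset α} {p q s t : α} (h : T = {p, q, s, t}) : T = {p, q, t, s} := by
  rw [h]
  ext x
  simp only [mem_insert, mem_singleton]
  tauto

theorem exists_four {T : Finset α} (hT : T.card = 4) {p q : α} (hp : p ∈ T) (hq : q ∈ T)
    (hpq : p ≠ q) : ∃ s t, T = {p, q, s, t} := by
  have hq2 : q ∈ T.erase p := mem_erase.mpr ⟨hpq.symm, hq⟩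
  have h1 : ((T.erase p).erase q).card = 2 := by
    rw [card_erase_of_mem hq2, card_erase_of_mem hp, hT]
  obtain ⟨s, t, -, hst⟩ := card_eq_two.mp h1
  exact ⟨s, t, by rw [← hst, insert_erase hq2, insert_erase hp]⟩

theorem four_ne {T : Finset α} (hT : T.card = 4) {p q s t : α} (h : T = {p, q, s, t}) :
    p ≠ q ∧ p ≠ s ∧ p ≠ t ∧ q ≠ s ∧ q ≠ t ∧ s ≠ t := by
  have key : ∀ {p q s t : α}, T = {p, q, s, t} → p ≠ q := by
    intro p q s t h
    rintro rfl
    have h1 : T = {p, s, t} := by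
      rw [h]
      ext x
      simp only [mem_insert, mem_singleton]
      tauto
    have h2 := card_le_three (a := p) (b := s) (c := t)
    rw [← h1] at h2
    omega
  have h1 := e_qs h
  have h2 := e_qs (e_st h)
  refine ⟨key h, key h1, key h2, ?_, ?_, ?_⟩
  · exact key (e_qs (e_pq h))
  · exact key (e_qs (e_pq (e_st h)))
  · exact key (e_qs (e_pq (e_st (e_qs h))))

section

variable {b : ι → Finset α} {V U : Finset α} {i0 j0 : ι} {a : α} {C : Fin 3 → Finset α}
  {T : Finset α}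

theorem TL.mem4 (_h : TL b V U C T) {p q s t : α} (hT : T = {p, q, s, t}) :
    p ∈ T ∧ q ∈ T ∧ s ∈ T ∧ t ∈ T := by
  rw [hT]
  simp

/-- The level of `Q`. -/
theorem D1.tl (h : D1 b V U i0 j0 a C) (hsys : Sys b V) (hP : RF b V i0) :
    TL b V U C (insert a (b j0 ∩ V)) := by
  have haV := (mem_sdiff.mp h.ha).1
  have hanQ : a ∉ b j0 ∩ V := fun h1 => h.aj (mem_inter.mp h1).1
  have hsub : insert a (b j0 ∩ V) ⊆ V \ U := by
    intro x hx
    rcases mem_insert.mp hx with rfl | hx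
    · exact h.ha
    · exact h.dv.subQ hx
  have hmem : ∀ x ∈ V \ U, x ∉ b i0 → x ∈ insert a (b j0 ∩ V) := by
    intro x hx hxi
    rcases h.all x hx with h1 | h1 | h1
    · exact mem_insert.mpr (Or.inl h1)
    · exact absurd h1 hxi
    · exact mem_insert_of_mem (mem_inter.mpr ⟨h1, (mem_sdiff.mp hx).1⟩)
  have hc4 : (insert a (b j0 ∩ V)).card = 4 := by
    rw [card_insert_of_notMem hanQ, h.dv.q3]
  -- the set `V \ P`
  have hUP : U ⊆ V \ (b i0 ∩ V) := by
    intro x hx
    refine mem_sdiff.mpr ⟨h.dv.sub hx, fun h1 => ?_⟩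
    exact (mem_sdiff.mp (h.dv.subP h1)).2 hx
  have hS : (V \ (b i0 ∩ V)) \ U = insert a (b j0 ∩ V) := by
    ext x
    rw [mem_sdiff, mem_sdiff]
    constructor
    · rintro ⟨⟨h1, h2⟩, h3⟩
      exact hmem x (mem_sdiff.mpr ⟨h1, h3⟩) fun h4 => h2 (mem_inter.mpr ⟨h4, h1⟩)
    · intro hx
      have h1 := mem_sdiff.mp (hsub hx)
      refine ⟨⟨h1.1, fun h2 => ?_⟩, h1.2⟩
      rcases mem_insert.mp hx with rfl | hx
      · exact h.ai (mem_inter.mp h2).1
      · exact (disjoint_left.mp h.dv.pq) h2 hx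
  have hUS : (V \ (b i0 ∩ V)) \ insert a (b j0 ∩ V) = U := by
    rw [← hS]
    exact Finset.sdiff_sdiff_eq_self hUP
  refine ⟨hsub, hc4, ?_, ?_, ?_⟩
  · intro i j l hij hjl hil p q s t hT h1 h2
    have hm : p ∈ V \ U ∧ q ∈ V \ U ∧ s ∈ V \ U ∧ t ∈ V \ U := by
      rw [hT] at hsub
      refine ⟨hsub ?_, hsub ?_, hsub ?_, hsub ?_⟩ <;> simp
    have h3 := h.cov hsys.cb hij hjl hil (Ti := {p, q}) (Tj := {s}) (Tl := {t})
      (R := b i0 ∩ V) (r := 1) (by
        intro x hx
        rw [mem_insert, mem_singleton] at hx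
        rcases hx with rfl | rfl
        · exact hm.1
        · exact hm.2.1) (singleton_subset_iff.mpr hm.2.2.1)
      (singleton_subset_iff.mpr hm.2.2.2) (cv_block i0 inter_subset_left) (by
        intro x hx
        by_cases hxi : x ∈ b i0
        · exact mem_union_right _ (mem_inter.mpr ⟨hxi, (mem_sdiff.mp hx).1⟩)
        · have h4 := hmem x hx hxi
          rw [hT] at h4
          apply mem_union_left
          simp only [mem_insert, mem_singleton] at h4
          simp only [mem_union, mem_insert, mem_singleton]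
          tauto)
    have h4 := h.abs1 hsys h1
    have h5 := h.abs1 hsys h2
    omega
  · intro i v
    obtain ⟨x, hx, hxi, hxv, hxC⟩ := h.dv.attQ (C i) (h.mem i) v
    exact ⟨x, hmem x hx hxi, hxv, aj_dg hxC⟩
  · intro s hs t ht hst i
    classical
    have hWV : V \ (b i0 ∩ V) ⊆ V := sdiff_subset
    have h1 := hall (hsys.mono hWV).cb hP.con hP.vc (S := insert a (b j0 ∩ V)) (by
      rw [← hS]
      exact sdiff_subset) ⟨a, mem_insert_self _ _⟩ (by
      rw [hUS]
      exact h.dv.typ) (by rw [hUS, h.dv.num, hc4]) (T := {s, t}) (by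
      intro x hx
      rw [mem_insert, mem_singleton] at hx
      rcases hx with rfl | rfl
      · exact hs
      · exact ht) (by
      intro h1
      have h2 := card_le_two (a := s) (b := t)
      rw [h1, hc4] at h2
      omega)
    rw [hUS, card_pair hst] at h1
    have h2 : (((cps b U).filter fun D => ∃ x ∈ ({s, t} : Finset α), Aj b x D).erase (C i)).Nonempty := by
      rw [← card_pos]
      have := pred_card_le_card_erase (s := (cps b U).filter fun D =>
        ∃ x ∈ ({s, t} : Finset α), Aj b x D) (a := C i)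
      omega
    obtain ⟨D, hD⟩ := h2
    rw [mem_erase, mem_filter] at hD
    obtain ⟨hDi, hDU, x, hx, hxD⟩ := hD
    rw [h.cs, mem_image] at hDU
    obtain ⟨j, -, rfl⟩ := hDU
    refine ⟨j, fun h3 => hDi (by rw [h3]), ?_⟩
    rw [mem_insert, mem_singleton] at hx
    rcases hx with rfl | rfl
    · exact Or.inl (aj_dg hxD)
    · exact Or.inr (aj_dg hxD)

theorem D1.capG (h : D1 b V U i0 j0 a C) (hKP : KP) (hsys : Sys b V) {i : Fin 3}
    {G H : Finset α} (hG : G ⊆ V \ U) (hH : H ⊆ V \ U) (hGH : Disjoint G H)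
    (habs : ∀ x ∈ G, ∀ y ∈ H, tau b (C i) + 1 ≤ tau b (C i ∪ {x, y})) :
    capb (eC b V C i) (dg b G (C i)) (dg b H (C i)) := by
  have habs' : ∀ x ∈ H, ∀ y ∈ G, tau b (C i) + 1 ≤ tau b (C i ∪ {x, y}) := by
    intro x hx y hy
    rw [pair_comm]
    exact habs y hy x hx
  refine ⟨?_, ?_, ?_⟩
  · intro hE
    by_contra hcon
    rw [not_or, not_le, not_le] at hcon
    have h1 := h.dv.cap hKP hsys (h.mem i) hG hH hGH (a := 2) (c := 2) (by norm_num)
      (by norm_num) (by norm_num) hcon.1 hcon.2 habs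
    unfold eC at hE
    rw [if_neg (by norm_num)] at h1
    push_cast at h1
    omega
  · intro hE
    unfold eC at hE
    constructor
    · by_contra hcon
      rw [not_or, not_le, not_le] at hcon
      have h1 := h.dv.cap hKP hsys (h.mem i) hG hH hGH (a := 2) (c := 4) (by norm_num)
        (by norm_num) (by norm_num) hcon.1 hcon.2 habs
      rw [if_pos (by norm_num)] at h1
      push_cast at h1
      omega
    · by_contra hcon
      rw [not_or, not_le, not_le] at hcon
      have h1 := h.dv.cap hKP hsys (h.mem i) hH hG hGH.symm (a := 2) (c := 4) (by norm_num)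
        (by norm_num) (by norm_num) hcon.2 hcon.1 habs'
      rw [if_pos (by norm_num)] at h1
      push_cast at h1
      omega
  · intro hE
    by_contra hcon
    rw [not_or, not_le, not_le] at hcon
    have h1 := h.dv.cap hKP hsys (h.mem i) hG hH hGH (a := 3) (c := 3) (by norm_num)
      (by norm_num) (by norm_num) hcon.1 hcon.2 habs
    unfold eC at hE
    rw [if_neg (by norm_num)] at h1
    push_cast at h1
    omega

theorem D1.capP (h : D1 b V U i0 j0 a C) (hKP : KP) (hsys : Sys b V) {i : Fin 3} {x y : α}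
    (hx : x ∈ V \ U) (hy : y ∈ V \ U) (hxy : x ≠ y)
    (habs : tau b (C i) + 1 ≤ tau b (C i ∪ {x, y})) :
    capb (eC b V C i) (wt b C i x) (wt b C i y) := by
  apply h.capG hKP hsys (singleton_subset_iff.mpr hx) (singleton_subset_iff.mpr hy)
  · rw [disjoint_singleton]
    exact hxy
  · intro x' hx' y' hy'
    rw [mem_singleton.mp hx', mem_singleton.mp hy']
    exact habs

/-- The pair cap on a level. -/
theorem TL.cap (t : TL b V U C T) (h : D1 b V U i0 j0 a C) (hKP : KP) (hsys : Sys b V)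
    {i j l : Fin 3} (hij : i ≠ j) (hjl : j ≠ l) (hil : i ≠ l) {p q u v : α}
    (hT : T = {p, q, u, v})
    (hs : (1 ≤ wt b C j u ∧ 1 ≤ wt b C l v) ∨ (1 ≤ wt b C l u ∧ 1 ≤ wt b C j v)) :
    capb (eC b V C i) (wt b C i p) (wt b C i q) := by
  have hm := t.mem4 hT
  apply h.capP hKP hsys (t.sub hm.1) (t.sub hm.2.1) (four_ne t.c4 hT).1
  rcases hs with hs | hs
  · exact t.NA i j l hij hjl hil p q u v hT hs.1 hs.2
  · exact t.NA i l j hil hjl.symm hij p q u v hT hs.1 hs.2

theorem fin3_other {i j l k : Fin 3} (hij : i ≠ j) (hjl : j ≠ l) (hil : i ≠ l) (h : k ≠ i) :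
    k = j ∨ k = l := by
  revert i j l k
  decide

theorem TL.h2' (t : TL b V U C T) {i j l : Fin 3} (hij : i ≠ j) (hjl : j ≠ l) (hil : i ≠ l)
    {p q u v : α} (hT : T = {p, q, u, v}) :
    1 ≤ wt b C j p + wt b C l p + wt b C j q + wt b C l q := by
  have hm := t.mem4 hT
  obtain ⟨k, hk, h1⟩ := t.h2 p hm.1 q hm.2.1 (four_ne t.c4 hT).1 i
  rcases fin3_other hij hjl hil hk with rfl | rfl <;> rcases h1 with h1 | h1 <;> omega

theorem TL.at3 (t : TL b V U C T) (i : Fin 3) {p q u v : α} (hT : T = {p, q, u, v}) :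
    1 ≤ wt b C i q ∨ 1 ≤ wt b C i u ∨ 1 ≤ wt b C i v := by
  obtain ⟨x, hx, hxv, h1⟩ := t.at2 i p
  rw [hT] at hx
  simp only [mem_insert, mem_singleton] at hx
  rcases hx with rfl | rfl | rfl | rfl
  · exact absurd rfl hxv
  · exact Or.inl h1
  · exact Or.inr (Or.inl h1)
  · exact Or.inr (Or.inr h1)

end

end Pool.Agent.Helper74.C5
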