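import Pool.Agent.Helper74.C5.Cutting

/-!
# Theorem K
-/

set_option linter.unusedSectionVars false

open Finset

namespace Pool.Agent.Helper74.C5

open Pool.Agent.Helper20.C5

variable {α ι : Type} [DecidableEq α] [DecidableEq ι] [Fintype ι]

theorem perm3 : ∀ j : Fin 3, ∃ j' j'' : Fin 3, j ≠ j' ∧ j ≠ j'' ∧ j' ≠ j'' ∧
    ∀ i, i = j ∨ i = j' ∨ i = j'' := by decide

theorem pm1 {A B C D : Prop} (h : A ∨ B ∨ C ∨ D) : C ∨ B ∨ D ∨ A := by tauto
theorem pm2 {A B C D : Prop} (h : A ∨ B ∨ C ∨ D) : C ∨ A ∨ D ∨ B := by tauto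
theorem pm3 {A B C D : Prop} (h : A ∨ B ∨ C ∨ D) : C ∨ D ∨ B ∨ A := by tauto
theorem pm4 {A B C D : Prop} (h : A ∨ B ∨ C ∨ D) : A ∨ B ∨ D ∨ C := by tauto
theorem pm5 {A B C D : Prop} (h : A ∨ B ∨ C ∨ D) : D ∨ A ∨ C ∨ B := by tauto
theorem pm6 {A B C : Prop} (h : A ∨ B ∨ C) : B ∨ C ∨ A := by tauto

/-- The conclusion of the assignment lemma. -/
def As3 (p q : Fin 3 → α → Prop) (S : Finset α) : Prop :=
  ∃ T : Fin 3 → Finset α, (∀ j, T j ⊆ S) ∧ (∀ x ∈ S, ∃ j, x ∈ T j) ∧
    ∀ j, (∃ x, T j = {x} ∧ p j x) ∨ (∃ x y, x ≠ y ∧ T j = {x, y} ∧ q j x ∧ q j y)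

theorem As3.mk {p q : Fin 3 → α → Prop} {S : Finset α} (i1 i2 i3 : Fin 3) (a1 a2 a3 a4 : α)
    (h12 : i1 ≠ i2) (h13 : i1 ≠ i3) (h23 : i2 ≠ i3) (hi : ∀ i, i = i1 ∨ i = i2 ∨ i = i3)
    (ha12 : a1 ≠ a2) (ha1 : a1 ∈ S) (ha2 : a2 ∈ S) (ha3 : a3 ∈ S) (ha4 : a4 ∈ S)
    (hall : ∀ x ∈ S, x = a1 ∨ x = a2 ∨ x = a3 ∨ x = a4) (hq1 : q i1 a1) (hq2 : q i1 a2)
    (hp3 : p i2 a3) (hp4 : p i3 a4) : As3 p q S := by
  obtain ⟨T, e1, e2, e3⟩ : ∃ T : Fin 3 → Finset α, T i1 = {a1, a2} ∧ T i2 = {a3} ∧
      T i3 = {a4} :=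
    ⟨fun i => if i = i1 then {a1, a2} else if i = i2 then {a3} else {a4}, if_pos rfl,
      (if_neg h12.symm).trans (if_pos rfl), (if_neg h13.symm).trans (if_neg h23.symm)⟩
  refine ⟨T, ?_, ?_, ?_⟩
  · intro j
    rcases hi j with rfl | rfl | rfl
    · rw [e1]
      intro z hz
      rw [mem_insert, mem_singleton] at hz
      rcases hz with rfl | rfl
      · exact ha1
      · exact ha2
    · rw [e2]
      exact singleton_subset_iff.mpr ha3
    · rw [e3]
      exact singleton_subset_iff.mpr ha4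
  · intro z hz
    rcases hall z hz with rfl | rfl | rfl | rfl
    · exact ⟨i1, by rw [e1]; exact mem_insert_self _ _⟩
    · exact ⟨i1, by rw [e1]; exact mem_insert_of_mem (mem_singleton_self _)⟩
    · exact ⟨i2, by rw [e2]; exact mem_singleton_self _⟩
    · exact ⟨i3, by rw [e3]; exact mem_singleton_self _⟩
  · intro j
    rcases hi j with rfl | rfl | rfl
    · exact Or.inr ⟨a1, a2, ha12, e1, hq1, hq2⟩
    · exact Or.inl ⟨a3, e2, hp3⟩
    · exact Or.inl ⟨a4, e3, hp4⟩

/-- The case that a point `u` is attached to the component `j` only. -/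
theorem As3.caseI {p q : Fin 3 → α → Prop} {S : Finset α}
    (hqp : ∀ j x, q j x → p j x) (h1 : ∀ x ∈ S, ∃ j, q j x)
    (h2 : ∀ j, ∀ v, ∃ x ∈ S, x ≠ v ∧ p j x) {j j' j'' : Fin 3} (hj1 : j ≠ j') (hj2 : j ≠ j'')
    (hj3 : j' ≠ j'') (hj : ∀ i, i = j ∨ i = j' ∨ i = j'') {x y u v : α} (hx : x ∈ S)
    (hy : y ∈ S) (hu : u ∈ S) (hv : v ∈ S) (huv : u ≠ v) (hux : u ≠ x) (huy : u ≠ y)
    (hall : ∀ z ∈ S, z = x ∨ z = y ∨ z = u ∨ z = v) (hqx : q j x) (hqy : q j y)
    (h4 : ¬ p j' u) (h5 : ¬ p j'' u) : As3 p q S := by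
  have hj' : ∀ i, i = j ∨ i = j'' ∨ i = j' := fun i => by
    rcases hj i with h4 | h4 | h4
    · exact Or.inl h4
    · exact Or.inr (Or.inr h4)
    · exact Or.inr (Or.inl h4)
  have hqu : q j u := by
    obtain ⟨k, hk⟩ := h1 u hu
    rcases hj k with rfl | rfl | rfl
    · exact hk
    · exact absurd (hqp _ _ hk) h4
    · exact absurd (hqp _ _ hk) h5
  by_cases hv1 : p j' v
  · obtain ⟨z, hz, hzv, hpz⟩ := h2 j'' v
    rcases hall z hz with rfl | rfl | rfl | rfl
    · exact As3.mk j j' j'' u y v z hj1 hj2 hj3 hj huy hu hy hv hz (fun w hw => pm1 (hall w hw))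
        hqu hqy hv1 hpz
    · exact As3.mk j j' j'' u x v z hj1 hj2 hj3 hj hux hu hx hv hz (fun w hw => pm2 (hall w hw))
        hqu hqx hv1 hpz
    · exact absurd hpz h5
    · exact absurd rfl hzv
  by_cases hv2 : p j'' v
  · obtain ⟨z, hz, hzv, hpz⟩ := h2 j' v
    rcases hall z hz with rfl | rfl | rfl | rfl
    · exact As3.mk j j'' j' u y v z hj2 hj1 hj3.symm hj' huy hu hy hv hz
        (fun w hw => pm1 (hall w hw)) hqu hqy hv2 hpz
    · exact As3.mk j j'' j' u x v z hj2 hj1 hj3.symm hj' hux hu hx hv hz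
        (fun w hw => pm2 (hall w hw)) hqu hqx hv2 hpz
    · exact absurd hpz h4
    · exact absurd rfl hzv
  have hqv : q j v := by
    obtain ⟨k, hk⟩ := h1 v hv
    rcases hj k with rfl | rfl | rfl
    · exact hk
    · exact absurd (hqp _ _ hk) hv1
    · exact absurd (hqp _ _ hk) hv2
  have e1 : p j' y := by
    obtain ⟨z, hz, hzv, hpz⟩ := h2 j' x
    rcases hall z hz with rfl | rfl | rfl | rfl
    · exact absurd rfl hzv
    · exact hpz
    · exact absurd hpz h4
    · exact absurd hpz hv1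
  have e2 : p j'' x := by
    obtain ⟨z, hz, hzv, hpz⟩ := h2 j'' y
    rcases hall z hz with rfl | rfl | rfl | rfl
    · exact hpz
    · exact absurd rfl hzv
    · exact absurd hpz h5
    · exact absurd hpz hv2
  exact As3.mk j j' j'' u v y x hj1 hj2 hj3 hj huv hu hv hy hx (fun w hw => pm3 (hall w hw))
    hqu hqv e1 e2

/-- The case that both other points are attached to the component `k` and not to `k'`. -/
theorem As3.caseII {p q : Fin 3 → α → Prop} {S : Finset α}
    (hqp : ∀ j x, q j x → p j x) (h1 : ∀ x ∈ S, ∃ j, q j x)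
    (h2 : ∀ j, ∀ v, ∃ x ∈ S, x ≠ v ∧ p j x) {j k k' : Fin 3} (hk : j ≠ k) (hk' : j ≠ k')
    (hkk : k ≠ k') (hik : ∀ i, i = j ∨ i = k ∨ i = k') {x y u v : α} (hx : x ∈ S)
    (hy : y ∈ S) (hu : u ∈ S) (hv : v ∈ S) (huv : u ≠ v) (hux : u ≠ x) (hvx : v ≠ x)
    (hall : ∀ z ∈ S, z = x ∨ z = y ∨ z = u ∨ z = v) (hqx : q j x)
    (hpu : p k u) (hpv : p k v) (hnu : ¬ p k' u) (hnv : ¬ p k' v) : As3 p q S := by
  have e1 : p k' y := by
    obtain ⟨z, hz, hzv, hpz⟩ := h2 k' x
    rcases hall z hz with rfl | rfl | rfl | rfl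
    · exact absurd rfl hzv
    · exact hpz
    · exact absurd hpz hnu
    · exact absurd hpz hnv
  have key : ∀ w : α, w ∈ S → ¬ p k' w → ¬ q k w → q j w := by
    intro w hw h4 h5
    obtain ⟨l, hl⟩ := h1 w hw
    rcases hik l with rfl | rfl | rfl
    · exact hl
    · exact absurd hl h5
    · exact absurd (hqp _ _ hl) h4
  by_cases q1 : q k u
  · by_cases q2 : q k v
    · exact As3.mk k k' j u v y x hkk hk.symm hk'.symm (fun i => pm6 (hik i)) huv hu hv hy hx
        (fun w hw => pm3 (hall w hw)) q1 q2 e1 (hqp _ _ hqx)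
    · exact As3.mk j k k' v x u y hk hk' hkk hik hvx hv hx hu hy (fun w hw => pm5 (hall w hw))
        (key v hv hnv q2) hqx hpu e1
  · exact As3.mk j k k' u x v y hk hk' hkk hik hux hu hx hv hy (fun w hw => pm2 (hall w hw))
      (key u hu hnu q1) hqx hpv e1

/-- Assigning four points to three components. -/
theorem comb3 (p q : Fin 3 → α → Prop) (S : Finset α) (hS : S.card = 4)
    (hqp : ∀ j x, q j x → p j x) (h1 : ∀ x ∈ S, ∃ j, q j x)
    (h2 : ∀ j, ∀ v, ∃ x ∈ S, x ≠ v ∧ p j x) : As3 p q S := by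
  classical
  have h1' := h1
  choose! h hh using h1'
  obtain ⟨x, hx, y, hy, hxy, hxyh⟩ := exists_ne_map_eq_of_card_lt_of_maps_to (s := S)
    (t := (univ : Finset (Fin 3))) (f := h) (by rw [hS]; decide) (fun a _ => mem_univ (h a))
  have hqx := hh x hx
  have hqy := hh y hy
  rw [← hxyh] at hqy
  have hyx : y ∈ S.erase x := mem_erase.mpr ⟨hxy.symm, hy⟩
  have h3 : ((S.erase x).erase y).card = 2 := by
    rw [card_erase_of_mem hyx, card_erase_of_mem hx, hS]
  obtain ⟨u, v, huv, hS2⟩ := card_eq_two.mp h3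
  have hu : u ∈ S ∧ u ≠ x ∧ u ≠ y := by
    have : u ∈ (S.erase x).erase y := by rw [hS2]; exact mem_insert_self _ _
    rw [mem_erase, mem_erase] at this
    exact ⟨this.2.2, this.2.1, this.1⟩
  have hv : v ∈ S ∧ v ≠ x ∧ v ≠ y := by
    have : v ∈ (S.erase x).erase y := by rw [hS2]; exact mem_insert_of_mem (mem_singleton_self _)
    rw [mem_erase, mem_erase] at this
    exact ⟨this.2.2, this.2.1, this.1⟩
  have hall : ∀ z ∈ S, z = x ∨ z = y ∨ z = u ∨ z = v := by
    intro z hz
    by_cases h4 : z = x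
    · exact Or.inl h4
    by_cases h5 : z = y
    · exact Or.inr (Or.inl h5)
    have : z ∈ (S.erase x).erase y := mem_erase.mpr ⟨h5, mem_erase.mpr ⟨h4, hz⟩⟩
    rw [hS2, mem_insert, mem_singleton] at this
    exact Or.inr (Or.inr this)
  obtain ⟨j', j'', hj1, hj2, hj3, hj⟩ := perm3 (h x)
  have hj' : ∀ i, i = h x ∨ i = j'' ∨ i = j' := fun i => by
    rcases hj i with h4 | h4 | h4
    · exact Or.inl h4
    · exact Or.inr (Or.inr h4)
    · exact Or.inr (Or.inl h4)
  by_cases c1 : ¬ p j' u ∧ ¬ p j'' u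
  · exact As3.caseI hqp h1 h2 hj1 hj2 hj3 hj hx hy hu.1 hv.1 huv hu.2.1 hu.2.2 hall hqx hqy
      c1.1 c1.2
  by_cases c2 : ¬ p j' v ∧ ¬ p j'' v
  · exact As3.caseI hqp h1 h2 hj1 hj2 hj3 hj hx hy hv.1 hu.1 huv.symm hv.2.1 hv.2.2
      (fun w hw => pm4 (hall w hw)) hqx hqy c2.1 c2.2
  by_cases c3 : p j' u ∧ p j'' v
  · exact As3.mk (h x) j' j'' x y u v hj1 hj2 hj3 hj hxy hx hy hu.1 hv.1 hall hqx hqy c3.1 c3.2
  by_cases c4 : p j'' u ∧ p j' v
  · exact As3.mk (h x) j'' j' x y u v hj2 hj1 hj3.symm hj' hxy hx hy hu.1 hv.1 hall hqx hqy c4.1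
      c4.2
  by_cases d1 : p j' u
  · have d2 : ¬ p j'' v := fun h8 => c3 ⟨d1, h8⟩
    have d3 : p j' v := by
      by_contra h8
      exact c2 ⟨h8, d2⟩
    have d4 : ¬ p j'' u := fun h8 => c4 ⟨h8, d3⟩
    exact As3.caseII hqp h1 h2 hj1 hj2 hj3 hj hx hy hu.1 hv.1 huv hu.2.1 hv.2.1 hall hqx
      d1 d3 d4 d2
  · have d2 : p j'' u := by
      by_contra h8
      exact c1 ⟨d1, h8⟩
    have d3 : ¬ p j' v := fun h8 => c4 ⟨d2, h8⟩
    have d4 : p j'' v := by
      by_contra h8
      exact c2 ⟨d3, h8⟩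
    exact As3.caseII hqp h1 h2 hj2 hj1 hj3.symm hj' hx hy hu.1 hv.1 huv hu.2.1 hv.2.1 hall hqx
      d2 d4 d1 d3

/-- The case without faces. -/
theorem facefree {b : ι → Finset α} {V : Finset α} (hsys : Sys b V) (hK : KT b V)
    (hf : ∀ i, (b i ∩ V).card ≤ 2) : ((sp b V).card : ℤ) ≤ ee b V := by
  classical
  have h1 : ((mt b V).filter fun i => (b i ∩ V).card = 1).card +
      ((mt b V).filter fun i => ¬ (b i ∩ V).card = 1).card = nb b V :=
    card_filter_add_card_filter_not _
  have h2 : ((mt b V).filter fun i => (b i ∩ V).card = 1).card +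
      2 * ((mt b V).filter fun i => ¬ (b i ∩ V).card = 1).card = 5 * V.card := by
    rw [← sum_deg hsys, ← sum_filter_add_sum_filter_not (mt b V) (fun i => (b i ∩ V).card = 1)]
    congr 1
    · rw [card_eq_sum_ones]
      apply sum_congr rfl
      intro i hi
      exact (mem_filter.mp hi).2.symm
    · rw [card_eq_sum_ones, mul_sum]
      apply sum_congr rfl
      intro i hi
      obtain ⟨h3, h4⟩ := mem_filter.mp hi
      obtain ⟨x, hx, hx2⟩ := mem_mt.mp h3
      have h5 : 0 < (b i ∩ V).card := card_pos.mpr ⟨x, mem_inter.mpr ⟨hx2, hx⟩⟩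
      have h6 := hf i
      omega
  have h3 : 2 * (sp b V).card ≤ ((mt b V).filter fun i => (b i ∩ V).card = 1).card := by
    refine (two_sp (Subset.refl _)).trans (card_le_card ?_)
    intro i hi
    obtain ⟨-, s, hs, hs2⟩ := mem_filter.mp hi
    rw [mem_filter, mem_mt, hs2, card_singleton]
    have h4 : s ∈ b i ∩ V := by rw [hs2]; exact mem_singleton_self s
    rw [mem_inter] at h4
    exact ⟨⟨s, h4.2, h4.1⟩, rfl⟩
  have h4 := hK.tau
  unfold ee
  rw [← h1]
  by_cases h5 : V.card = 1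
  · have h6 : (mt b V).filter (fun i => ¬ (b i ∩ V).card = 1) = ∅ := by
      rw [filter_eq_empty_iff]
      intro i hi
      obtain ⟨x, hx, hx2⟩ := mem_mt.mp hi
      have h6 : 0 < (b i ∩ V).card := card_pos.mpr ⟨x, mem_inter.mpr ⟨hx2, hx⟩⟩
      have h7 : (b i ∩ V).card ≤ V.card := card_le_card inter_subset_right
      rw [not_not]
      omega
    have h7 : (sp b V).card ≤ V.card := card_le_card (filter_subset _ _)
    rw [h6, card_empty] at h2 ⊢
    push_cast
    omega
  · have h6 := card_pos.mpr (KT.ne hK)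
    push_cast
    omega

theorem sp_sub {b : ι → Finset α} {V W : Finset α} (hW : W ⊆ V) : sp b V ∩ W ⊆ sp b W := by
  intro x hx
  rw [mem_inter] at hx
  unfold sp at hx ⊢
  rw [mem_filter] at hx ⊢
  refine ⟨hx.2, hx.1.2.trans (card_le_card ?_)⟩
  intro i hi
  rw [mem_filter] at hi ⊢
  refine ⟨hi.1, ?_⟩
  have h1 := hi.2
  ext y
  rw [mem_inter, mem_singleton]
  constructor
  · rintro ⟨h2, h3⟩
    have h4 : y ∈ b i ∩ V := mem_inter.mpr ⟨h2, hW h3⟩
    rwa [h1, mem_singleton] at h4
  · rintro rfl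
    have h4 : y ∈ b i ∩ V := by rw [h1]; exact mem_singleton_self y
    exact ⟨(mem_inter.mp h4).1, hx.2⟩

/-- A cut at a face. -/
structure FC (b : ι → Finset α) (V U : Finset α) (i0 : ι) (k : ℕ) : Prop where
  sub : U ⊆ V
  p3 : (b i0 ∩ V).card = 3
  pu : b i0 ∩ U = ∅
  tt : tau b U + 1 = tau b V
  card : U.card + 3 + k = V.card
  typ : ∀ C ∈ cps b U, KT b C ∨ CT b C

theorem exists_FC {b : ι → Finset α} {V : Finset α} (hsys : Sys b V) (hK : KT b V) {i0 : ι}
    (hi0 : (b i0 ∩ V).card = 3) : ∃ U k, FC b V U i0 k := by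
  classical
  have hP3 : (b i0 ∩ V).card = 3 := hi0
  have hPV : b i0 ∩ V ⊆ V := inter_subset_right
  have hcb := hsys.cb
  have hvc := KT.vc hcb hK
  obtain ⟨p, hp⟩ : (b i0 ∩ V).Nonempty := card_pos.mp (by omega)
  have hpV := hPV hp
  have ht : tau b (V \ (b i0 ∩ V)) + 1 = tau b V := by
    have h1 := hvc p hpV
    have h2 : tau b (V \ (b i0 ∩ V)) ≤ tau b (V.erase p) := by
      apply tau_mono (hcb.mono (erase_subset p V))
      intro x hx
      rw [mem_sdiff] at hx
      exact mem_erase.mpr ⟨fun h => hx.2 (h ▸ hp), hx.1⟩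
    have h3 := tau_union (hcb.mono (sdiff_subset : V \ (b i0 ∩ V) ⊆ V))
      (hcb.mono hPV)
    rw [sdiff_union_of_subset hPV] at h3
    have h4 : tau b (b i0 ∩ V) ≤ 1 := tau_le (cv_block i0 inter_subset_left)
    omega
  obtain ⟨ν, hν, hν0⟩ := hK.fc p hpV
  have hcc := cc_face hcb hν hPV hP3 hp hν0 ht
  have hcb' : Cb b (V \ (b i0 ∩ V)) := hcb.mono sdiff_subset
  obtain ⟨A, hA, hA2, hcr⟩ := exists_crit hcb'
  have hcb'' : Cb b ((V \ (b i0 ∩ V)) \ A) := hcb'.mono sdiff_subset
  refine ⟨(V \ (b i0 ∩ V)) \ A, A.card, ⟨sdiff_subset.trans sdiff_subset, hP3, ?_, ?_, ?_, ?_⟩⟩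
  · rw [eq_empty_iff_forall_notMem]
    intro x hx
    rw [mem_inter, mem_sdiff, mem_sdiff] at hx
    exact hx.2.1.2 (mem_inter.mpr ⟨hx.1, hx.2.1.1⟩)
  · rw [hA2]
    exact ht
  · rw [card_sdiff_of_subset hA, card_sdiff_of_subset hPV, hP3]
    have h1 := card_le_card hA
    rw [card_sdiff_of_subset hPV, hP3] at h1
    have h2 := card_le_card hPV
    rw [hP3] at h2
    omega
  · exact types hcb'' (cc_red hcb' hcc hA hA2) hcr

theorem FC.scard {b : ι → Finset α} {V U : Finset α} {i0 : ι} {k : ℕ} (h : FC b V U i0 k) :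
    (V \ U).card = 3 + k := by
  rw [card_sdiff_of_subset h.sub]
  have := h.card
  omega

theorem FC.notsaved {b : ι → Finset α} {V U : Finset α} {i0 : ι} {k : ℕ} (h : FC b V U i0 k)
    (hcb : Cb b V) (T : Finset α → Finset α) (hT : ∀ C ∈ cps b U, tau b (C ∪ T C) ≤ tau b C)
    (hT2 : ∀ C ∈ cps b U, T C ⊆ V \ U) (hS2 : V \ U ⊆ (cps b U).biUnion T) : False := by
  have h1 := saved (hcb.mono h.sub) (hcb.mono sdiff_subset) T hT hT2 hS2
  rw [union_sdiff_of_subset h.sub] at h1
  have h2 := h.tt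
  omega

theorem FC.att {b : ι → Finset α} {V U : Finset α} {i0 : ι} {k : ℕ} (h : FC b V U i0 k)
    (hcb : Cb b V) (hcon : Con b V) (hvc : Vc b V) {C : Finset α} (hC : C ∈ cps b U) (v : α) :
    ∃ x ∈ V \ U, x ≠ v ∧ Aj b x C := by
  have h1 : V \ (V \ U) = U := Finset.sdiff_sdiff_eq_self h.sub
  have h2 := h.scard
  have hvC : Vc b C := by
    rcases h.typ C hC with h3 | h3
    · exact KT.vc (hcb.mono ((cps_sub hC).trans h.sub)) h3
    · exact CT.vc h3
  rw [← h1] at hC
  exact attach hcb hcon hvc sdiff_subset (card_pos.mp (by omega)) hC hvC v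

/-- All components of the cut of a K-type set are of K-type. -/
theorem FC.allK {b : ι → Finset α} {V U : Finset α} {i0 : ι} {k : ℕ} (h : FC b V U i0 k)
    (hcb : Cb b V) (hK : KT b V) :
    (∀ C ∈ cps b U, KT b C) ∧ (cps b U).card = k + 2 := by
  classical
  have hcU := hcb.mono h.sub
  obtain ⟨F, hF, hFK, hFC, hcnt⟩ := kt_count hcU h.typ
  have hFcard : F.card = k + 2 := by
    have h1 := h.tt
    have h2 := h.card
    have h3 := hK.tau
    omega
  have hS := h.scard
  have hall : ∀ C ∈ cps b U, C ∈ F := by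
    intro C0 hC0
    by_contra hC0F
    obtain ⟨x, hx, -, hxC⟩ := h.att hcb hK.con (KT.vc hcb hK) hC0 ((KT.ne hK).choose)
    obtain ⟨μ, hμ, hμ0⟩ := hK.fc x (mem_sdiff.mp hx).1
    have h1 : V \ (V \ U) = U := Finset.sdiff_sdiff_eq_self h.sub
    have hF' := hF
    rw [← h1] at hF'
    obtain ⟨g, hg, hginj⟩ := kt_sdr (sdiff_subset) hx hμ.1
      (Om.ex_one hK hμ (mem_sdiff.mp hx).1 hμ0) hF' hFK
    have himg : F.image g = (V \ U).erase x := by
      apply eq_of_subset_of_card_le
      · intro y hy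
        obtain ⟨C, hC, rfl⟩ := mem_image.mp hy
        exact mem_erase.mpr ⟨(hg C hC).2.1, (hg C hC).1⟩
      · rw [card_image_of_injOn hginj, card_erase_of_mem hx, hS, hFcard]
        omega
    refine h.notsaved hcb (fun C => if C ∈ F then {g C} else if C = C0 then {x} else ∅) ?_ ?_ ?_
    · intro C hC
      show tau b (C ∪ (if C ∈ F then {g C} else if C = C0 then {x} else ∅)) ≤ tau b C
      have hCb : Cb b C := hcU.mono (cps_sub hC)
      split_ifs with h3 h4
      · exact absorb_aj hCb (KT.vc hCb (hFK C h3)) (hg C h3).2.2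
      · rw [h4] at hCb ⊢
        exact absorb_aj hCb (CT.vc (hFC C0 hC0 hC0F)) hxC
      · rw [union_empty]
    · intro C hC
      show (if C ∈ F then {g C} else if C = C0 then {x} else ∅) ⊆ V \ U
      split_ifs with h3 h4
      · exact singleton_subset_iff.mpr (hg C h3).1
      · exact singleton_subset_iff.mpr hx
      · exact empty_subset _
    · intro y hy
      rw [mem_biUnion]
      by_cases hyx : y = x
      · refine ⟨C0, hC0, ?_⟩
        show y ∈ (if C0 ∈ F then {g C0} else if C0 = C0 then {x} else ∅)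
        rw [if_neg hC0F, if_pos rfl, hyx]
        exact mem_singleton_self x
      · have h3 : y ∈ F.image g := by
          rw [himg]
          exact mem_erase.mpr ⟨hyx, hy⟩
        obtain ⟨C, hC, rfl⟩ := mem_image.mp h3
        refine ⟨C, hF hC, ?_⟩
        show g C ∈ (if C ∈ F then {g C} else if C = C0 then {x} else ∅)
        rw [if_pos hC]
        exact mem_singleton_self _
  have heq : cps b U = F := Subset.antisymm hall hF
  refine ⟨fun C hC => hFK C (hall C hC), ?_⟩
  rw [heq, hFcard]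

theorem FC.cap {b : ι → Finset α} {V U : Finset α} {i0 : ι} {k : ℕ} (h : FC b V U i0 k)
    (hsys : Sys b V) (hIH : IHK V.card) {C : Finset α} (hC : C ∈ cps b U) (hK : KT b C)
    {G H : Finset α} (hG : G ⊆ V \ U) (hH : H ⊆ V \ U) (hGH : Disjoint G H) {a c : ℕ}
    (ha : 1 ≤ a) (hac : a ≤ c) (hc : c ≤ 4) (h0 : a ≤ dg b G C) (h1 : c ≤ dg b H C)
    (habs : ∀ x ∈ G, ∀ y ∈ H, tau b C + 1 ≤ tau b (C ∪ {x, y})) :
    ((sp b V ∩ C).card : ℤ) + (if a + 2 ≤ c then 1 else 0) + 2 * a ≤ ee b C + 3 := by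
  have h2 := card_le_card (cps_sub hC)
  have h3 := h.card
  have h4 : V \ U ⊆ V \ C := sdiff_subset_sdiff (Subset.refl V) (cps_sub hC)
  exact pairK hsys hIH ((cps_sub hC).trans h.sub) hK (by omega) (hG.trans h4) (hH.trans h4) hGH
    ha hac hc h0 h1 habs

theorem FC.nonabs {b : ι → Finset α} {V U : Finset α} {i0 : ι} {k : ℕ} (h : FC b V U i0 k)
    (hcb : Cb b V) {C C' : Finset α} (hcps : cps b U = {C, C'}) (hne : C ≠ C')
    {x y z : α} (hS : V \ U = {x, y, z}) (hz : Aj b z C') (hK' : KT b C') :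
    tau b C + 1 ≤ tau b (C ∪ {x, y}) := by
  classical
  by_contra hcon
  have hC' : C' ∈ cps b U := by
    rw [hcps]
    exact mem_insert_of_mem (mem_singleton_self _)
  refine h.notsaved hcb (fun D => if D = C then {x, y} else {z}) ?_ ?_ ?_
  · intro D hD
    show tau b (D ∪ (if D = C then {x, y} else {z})) ≤ tau b D
    rw [hcps, mem_insert, mem_singleton] at hD
    rcases hD with rfl | rfl
    · rw [if_pos rfl]
      omega
    · rw [if_neg hne.symm]
      have h1 := hcb.mono ((cps_sub hC').trans h.sub)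
      exact absorb_aj h1 (KT.vc h1 hK') hz
  · intro D _
    show (if D = C then {x, y} else {z}) ⊆ V \ U
    rw [hS]
    split_ifs
    · intro w hw
      rw [mem_insert, mem_singleton] at hw
      rw [mem_insert, mem_insert, mem_singleton]
      rcases hw with h1 | h1
      · exact Or.inl h1
      · exact Or.inr (Or.inl h1)
    · intro w hw
      rw [mem_singleton] at hw
      rw [mem_insert, mem_insert, mem_singleton]
      exact Or.inr (Or.inr hw)
  · intro w hw
    rw [hS, mem_insert, mem_insert, mem_singleton] at hw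
    rw [hcps, mem_biUnion]
    rcases hw with h1 | h1 | h1
    · refine ⟨C, mem_insert_self _ _, ?_⟩
      show w ∈ (if C = C then {x, y} else {z})
      rw [if_pos rfl, h1]
      exact mem_insert_self _ _
    · refine ⟨C, mem_insert_self _ _, ?_⟩
      show w ∈ (if C = C then {x, y} else {z})
      rw [if_pos rfl, h1]
      exact mem_insert_of_mem (mem_singleton_self _)
    · refine ⟨C', mem_insert_of_mem (mem_singleton_self _), ?_⟩
      show w ∈ (if C' = C then {x, y} else {z})
      rw [if_neg hne.symm, h1]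
      exact mem_singleton_self _

/-- The rules for two components. -/
theorem FC.two {b : ι → Finset α} {V U : Finset α} {i0 : ι} {k : ℕ} (h : FC b V U i0 k)
    (hsys : Sys b V) (hIH : IHK V.card) {C C' : Finset α} (hcps : cps b U = {C, C'})
    (hne : C ≠ C') (hK : KT b C) (hK' : KT b C')
    {x y z : α} (hS : V \ U = {x, y, z}) (hxy : x ≠ y) (hz : 1 ≤ dg b {z} C')
    {a c : ℕ} (ha : 1 ≤ a) (hac : a ≤ c) (hc : c ≤ 4) (h0 : a ≤ dg b {x} C)
    (h1 : c ≤ dg b {y} C) :
    ((sp b V ∩ C).card : ℤ) + (if a + 2 ≤ c then 1 else 0) + 2 * a ≤ ee b C + 3 := by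
  have hC : C ∈ cps b U := by
    rw [hcps]
    exact mem_insert_self _ _
  apply h.cap hsys hIH hC hK (G := {x}) (H := {y}) ?_ ?_ ?_ ha hac hc h0 h1
  · intro x' hx' y' hy'
    rw [mem_singleton] at hx' hy'
    rw [hx', hy']
    exact h.nonabs hsys.cb hcps hne hS (dg_aj hz) hK'
  · rw [hS, singleton_subset_iff, mem_insert]
    exact Or.inl rfl
  · rw [hS, singleton_subset_iff, mem_insert, mem_insert]
    exact Or.inr (Or.inl rfl)
  · rw [disjoint_singleton]
    exact hxy

theorem FC.three {b : ι → Finset α} {V U : Finset α} {i0 : ι} {k : ℕ} (h : FC b V U i0 k)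
    (hsys : Sys b V) (hIH : IHK V.card) {C C' : Finset α} (hcps : cps b U = {C, C'})
    (hne : C ≠ C') (hK : KT b C) (hK' : KT b C')
    {x y z : α} (hS : V \ U = {x, y, z}) (hxy : x ≠ y) (hxz : x ≠ z)
    (hx : 1 ≤ dg b {x} C') (hy : 1 ≤ dg b {y} C') (hz : 1 ≤ dg b {z} C')
    {a c : ℕ} (ha : 1 ≤ a) (hac : a ≤ c) (hc : c ≤ 4) (h0 : a ≤ dg b {x} C)
    (h1 : c ≤ dg b {y} C + dg b {z} C) :
    ((sp b V ∩ C).card : ℤ) + (if a + 2 ≤ c then 1 else 0) + 2 * a ≤ ee b C + 3 := by
  have hC : C ∈ cps b U := by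
    rw [hcps]
    exact mem_insert_self _ _
  have hS2 : V \ U = {x, z, y} := by
    rw [hS]
    ext w
    rw [mem_insert, mem_insert, mem_singleton, mem_insert, mem_insert, mem_singleton]
    tauto
  have hS3 : V \ U = {y, z, x} := by
    rw [hS]
    ext w
    rw [mem_insert, mem_insert, mem_singleton, mem_insert, mem_insert, mem_singleton]
    tauto
  have hcC := hsys.cb.mono ((cps_sub hC).trans h.sub)
  have h2 : dg b {y, z} C = dg b {y} C + dg b {z} C := by
    apply dg_pair
    intro i hyi hzi c hcC' hci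
    have h3 := absorb hcC (KT.vc hcC hK) hcC' hci (T := {y, z}) (by
      intro w hw
      rw [mem_insert, mem_singleton] at hw
      rcases hw with rfl | rfl
      · exact hyi
      · exact hzi)
    have h4 := h.nonabs hsys.cb hcps hne hS3 (dg_aj hx) hK'
    omega
  rw [← h2] at h1
  apply h.cap hsys hIH hC hK (G := {x}) (H := {y, z}) ?_ ?_ ?_ ha hac hc h0 h1
  · intro x' hx' y' hy'
    rw [mem_singleton] at hx'
    rw [mem_insert, mem_singleton] at hy'
    rw [hx']
    rcases hy' with h3 | h3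
    · rw [h3]
      exact h.nonabs hsys.cb hcps hne hS (dg_aj hz) hK'
    · rw [h3]
      exact h.nonabs hsys.cb hcps hne hS2 (dg_aj hy) hK'
  · rw [hS, singleton_subset_iff, mem_insert]
    exact Or.inl rfl
  · rw [hS]
    exact subset_insert _ _
  · rw [disjoint_singleton_left, mem_insert, mem_singleton]
    rintro (h3 | h3)
    · exact hxy h3
    · exact hxz h3

/-- The arithmetic of the case of two components, one of which is not attached to `z`. -/
theorem arith_zero {e e' : ℤ} {ns x x' y y' z' : ℕ} (hx : 1 ≤ x) (hy : 1 ≤ y)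
    (hxx : 5 ≤ x + x' + ns) (hyy : 5 ≤ y + y' + ns) (hzz : 5 ≤ z' + ns)
    (hns : ns ≤ 2) (hns1 : 1 ≤ ns)
    (hsum : e + e' ≤ 4 - 2 * ns) (h0 : 0 ≤ e) (h0' : 0 ≤ e')
    (r1 : ∀ a c : ℕ, 1 ≤ a → a ≤ c → c ≤ 4 → a ≤ x → c ≤ y →
      (if a + 2 ≤ c then 1 else 0) + 2 * (a : ℤ) ≤ e + 3)
    (r2 : ∀ a c : ℕ, 1 ≤ a → a ≤ c → c ≤ 4 → a ≤ x' → c ≤ z' →
      (if a + 2 ≤ c then 1 else 0) + 2 * (a : ℤ) ≤ e' + 3)
    (r3 : ∀ a c : ℕ, 1 ≤ a → a ≤ c → c ≤ 4 → a ≤ y' → c ≤ z' →
      (if a + 2 ≤ c then 1 else 0) + 2 * (a : ℤ) ≤ e' + 3) : False := by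
  by_cases c1 : ns = 1
  · subst c1
    by_cases c2 : x ≤ 1
    · have := r2 3 3 (by norm_num) le_rfl (by norm_num) (by omega) (by omega)
      norm_num at this
      omega
    by_cases c3 : y ≤ 1
    · have := r3 3 3 (by norm_num) le_rfl (by norm_num) (by omega) (by omega)
      norm_num at this
      omega
    by_cases c4 : 2 ≤ x'
    · have h1 := r1 2 2 (by norm_num) le_rfl (by norm_num) (by omega) (by omega)
      have h2 := r2 2 4 (by norm_num) (by norm_num) (by norm_num) (by omega) (by omega)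
      norm_num at h1 h2
      omega
    by_cases c5 : 2 ≤ y'
    · have h1 := r1 2 2 (by norm_num) le_rfl (by norm_num) (by omega) (by omega)
      have h2 := r3 2 4 (by norm_num) (by norm_num) (by norm_num) (by omega) (by omega)
      norm_num at h1 h2
      omega
    have h1 := r1 3 3 (by norm_num) le_rfl (by norm_num) (by omega) (by omega)
    norm_num at h1
    omega
  · have c6 : ns = 2 := by omega
    subst c6
    by_cases c2 : x ≤ 1
    · have := r2 2 2 (by norm_num) le_rfl (by norm_num) (by omega) (by omega)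
      norm_num at this
      omega
    by_cases c3 : y ≤ 1
    · have := r3 2 2 (by norm_num) le_rfl (by norm_num) (by omega) (by omega)
      norm_num at this
      omega
    have h1 := r1 2 2 (by norm_num) le_rfl (by norm_num) (by omega) (by omega)
    norm_num at h1
    omega

/-- The arithmetic of the case of two components attached to all points. -/
theorem arith_pos {e e' : ℤ} {ns x x' y y' z z' : ℕ} (hx : 1 ≤ x) (hy : 1 ≤ y) (hz : 1 ≤ z)
    (hx' : 1 ≤ x') (hy' : 1 ≤ y') (hz' : 1 ≤ z')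
    (hxx : 5 ≤ x + x' + ns) (hyy : 5 ≤ y + y' + ns) (hzz : 5 ≤ z + z' + ns)
    (hns : ns ≤ 2) (hns1 : 1 ≤ ns)
    (hsum : e + e' ≤ 4 - 2 * ns) (h0 : 0 ≤ e) (h0' : 0 ≤ e')
    (r1 : ∀ a c : ℕ, 1 ≤ a → a ≤ c → c ≤ 4 → a ≤ x → c ≤ y + z →
      (if a + 2 ≤ c then 1 else 0) + 2 * (a : ℤ) ≤ e + 3)
    (r2 : ∀ a c : ℕ, 1 ≤ a → a ≤ c → c ≤ 4 → a ≤ y → c ≤ z + x →
      (if a + 2 ≤ c then 1 else 0) + 2 * (a : ℤ) ≤ e + 3)
    (r3 : ∀ a c : ℕ, 1 ≤ a → a ≤ c → c ≤ 4 → a ≤ z → c ≤ x + y →
      (if a + 2 ≤ c then 1 else 0) + 2 * (a : ℤ) ≤ e + 3)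
    (r1' : ∀ a c : ℕ, 1 ≤ a → a ≤ c → c ≤ 4 → a ≤ x' → c ≤ y' + z' →
      (if a + 2 ≤ c then 1 else 0) + 2 * (a : ℤ) ≤ e' + 3)
    (r2' : ∀ a c : ℕ, 1 ≤ a → a ≤ c → c ≤ 4 → a ≤ y' → c ≤ z' + x' →
      (if a + 2 ≤ c then 1 else 0) + 2 * (a : ℤ) ≤ e' + 3)
    (r3' : ∀ a c : ℕ, 1 ≤ a → a ≤ c → c ≤ 4 → a ≤ z' → c ≤ x' + y' →
      (if a + 2 ≤ c then 1 else 0) + 2 * (a : ℤ) ≤ e' + 3) : False := by
  have p1 := r1 3 3 (by norm_num) le_rfl (by norm_num)
  have p2 := r2 3 3 (by norm_num) le_rfl (by norm_num)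
  have p3 := r3 3 3 (by norm_num) le_rfl (by norm_num)
  have p1' := r1' 3 3 (by norm_num) le_rfl (by norm_num)
  have p2' := r2' 3 3 (by norm_num) le_rfl (by norm_num)
  have p3' := r3' 3 3 (by norm_num) le_rfl (by norm_num)
  have q1 := r1 2 2 (by norm_num) le_rfl (by norm_num)
  have q2 := r2 2 2 (by norm_num) le_rfl (by norm_num)
  have q3 := r3 2 2 (by norm_num) le_rfl (by norm_num)
  have q1' := r1' 2 2 (by norm_num) le_rfl (by norm_num)
  have t1 := r1 2 4 (by norm_num) (by norm_num) (by norm_num)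
  have t1' := r1' 2 4 (by norm_num) (by norm_num) (by norm_num)
  norm_num at p1 p2 p3 p1' p2' p3' q1 q2 q3 q1' t1 t1'
  by_cases c1 : ns = 1
  · subst c1
    by_cases d1 : 3 ≤ x
    · have f1 : ¬ 3 ≤ y + z := fun h => by have := p1 d1 h; omega
      have f2 := p2' (by omega) (by omega)
      omega
    by_cases d2 : 3 ≤ y
    · have f1 : ¬ 3 ≤ z + x := fun h => by have := p2 d2 h; omega
      have f2 := p1' (by omega) (by omega)
      omega
    by_cases d3 : 3 ≤ z
    · have f1 : ¬ 3 ≤ x + y := fun h => by have := p3 d3 h; omega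
      have f2 := p1' (by omega) (by omega)
      omega
    by_cases d4 : 3 ≤ x'
    · have f1 := p1' d4 (by omega)
      omega
    by_cases d5 : 3 ≤ y'
    · have f1 := p2' d5 (by omega)
      omega
    by_cases d6 : 3 ≤ z'
    · have f1 := p3' d6 (by omega)
      omega
    have f1 := t1 (by omega) (by omega)
    have f2 := t1' (by omega) (by omega)
    omega
  · have c6 : ns = 2 := by omega
    subst c6
    by_cases d1 : 2 ≤ x
    · have := q1 d1 (by omega)
      omega
    have := q1' (by omega) (by omega)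
    omega

/-- **Theorem K**, the induction step. -/
theorem K_step {b : ι → Finset α} {V : Finset α} (hsys : Sys b V) (hK : KT b V)
    (hIH : IHK V.card) : ((sp b V).card : ℤ) ≤ ee b V := by
  classical
  by_contra hcon
  rw [not_le] at hcon
  by_cases hf : ∀ i, (b i ∩ V).card ≤ 2
  · exact absurd (facefree hsys hK hf) (not_le.mpr hcon)
  rw [not_forall] at hf
  obtain ⟨i0, hi0⟩ := hf
  have hi3 : (b i0 ∩ V).card = 3 := by
    have := hsys.sz i0
    omega
  obtain ⟨U, k, h⟩ := exists_FC hsys hK hi3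
  have hcb := hsys.cb
  have hcU := hcb.mono h.sub
  obtain ⟨hall, hnum⟩ := h.allK hcb hK
  have hnn : ∀ C ∈ cps b U, 0 ≤ ee b C - ((sp b V ∩ C).card : ℤ) := by
    intro C hC
    have h1 := card_le_card (cps_sub hC)
    have h2 := h.card
    have h3 := hIH α ι b C (by omega) (hsys.mono ((cps_sub hC).trans h.sub)) (hall C hC)
    have h4 : ((sp b V ∩ C).card : ℤ) ≤ (sp b C).card := by
      exact_mod_cast card_le_card (sp_sub ((cps_sub hC).trans h.sub))
    linarith
  have hsum := sum_eX (V := V) hcU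
  have hcut := ee_cut (b := b) h.sub
  have hsp : (sp b V).card = (sp b V ∩ U).card + (sp b V ∩ (V \ U)).card := by
    have hspV : sp b V ∩ V = sp b V := inter_eq_left.mpr (filter_subset _ _)
    rw [← card_union_of_disjoint, ← inter_union_distrib_left, union_sdiff_of_subset h.sub, hspV]
    exact disjoint_of_subset_left inter_subset_right
      (disjoint_of_subset_right inter_subset_right disjoint_sdiff)
  have hins := sp_ins hi3 h.pu h.sub
  have htt := h.tt
  have hcard := h.card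
  have hle : ∑ C ∈ cps b U, (ee b C - ((sp b V ∩ C).card : ℤ)) ≤
      4 + (sp b V ∩ (V \ U)).card - 2 * (ins b V U).card - 2 * k := by
    rw [hsum]
    rw [hsp] at hcon
    rw [← htt, ← hcard] at hcut
    push_cast at hcut hcon ⊢
    linarith
  have hge := sum_nonneg hnn
  have hk : k ≤ 1 := by omega
  have hSc := h.scard
  have hdeg : ∀ x ∈ V \ U, 5 ≤ (∑ C ∈ cps b U, dg b {x} C) + (ins b V U).card := by
    intro x hx
    rw [← dg_cps hcU]
    exact dg_ins hsys (mem_sdiff.mp hx).1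
  rcases Nat.lt_or_ge 0 k with hk1 | hk0
  · -- three components
    have hk1' : k = 1 := by omega
    subst hk1'
    obtain ⟨C1, C2, C3, h12, h13, h23, hcps⟩ := card_eq_three.mp hnum
    have hC1 : C1 ∈ cps b U := by rw [hcps]; simp
    have hC2 : C2 ∈ cps b U := by rw [hcps]; simp
    have hC3 : C3 ∈ cps b U := by rw [hcps]; simp
    have hns : (ins b V U).card ≤ 1 := by omega
    have hzero : ∀ C ∈ cps b U, ee b C - ((sp b V ∩ C).card : ℤ) ≤ 0 := by
      intro C hC
      have h1 := single_le_sum hnn hC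
      omega
    have hab : ∀ C ∈ cps b U, ∀ x ∈ V \ U, ∀ y ∈ V \ U, x ≠ y → 2 ≤ dg b {x} C →
        2 ≤ dg b {y} C → tau b (C ∪ {x, y}) ≤ tau b C := by
      intro C hC x hx y hy hxy hwx hwy
      by_contra hcon2
      have h1 := h.cap hsys hIH hC (hall C hC) (G := {x}) (H := {y}) (a := 2) (c := 2)
        (singleton_subset_iff.mpr hx) (singleton_subset_iff.mpr hy)
        (by rw [disjoint_singleton]; exact hxy) (by norm_num) le_rfl (by norm_num) hwx hwy
        (by
          intro x' hx' y' hy'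
          rw [mem_singleton] at hx' hy'
          rw [hx', hy']
          omega)
      have h2 := hzero C hC
      norm_num at h1
      omega
    obtain ⟨T, hT1, hT2, hT3⟩ := comb3 (fun j x => Aj b x ((![C1, C2, C3] : Fin 3 → Finset α) j))
      (fun j x => 2 ≤ dg b {x} ((![C1, C2, C3] : Fin 3 → Finset α) j)) (V \ U) hSc
      (fun j x hq => dg_aj (by omega))
      (by
        intro x hx
        have h1 := hdeg x hx
        have h2 : ∑ C ∈ cps b U, dg b {x} C = dg b {x} C1 + (dg b {x} C2 + dg b {x} C3) := by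
          rw [hcps, sum_insert (by simp [h12, h13]), sum_insert (by simp [h23]), sum_singleton]
        rw [h2] at h1
        by_contra hcon2
        rw [not_exists] at hcon2
        have g0 : ¬ 2 ≤ dg b {x} C1 := hcon2 0
        have g1 : ¬ 2 ≤ dg b {x} C2 := hcon2 1
        have g2 : ¬ 2 ≤ dg b {x} C3 := hcon2 2
        omega)
      (by
        intro j v
        have hj : (![C1, C2, C3] : Fin 3 → Finset α) j ∈ cps b U := by
          fin_cases j
          · exact hC1
          · exact hC2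
          · exact hC3
        exact h.att hcb hK.con (KT.vc hcb hK) hj v)
    have hTab : ∀ j, ∀ C ∈ cps b U, C = (![C1, C2, C3] : Fin 3 → Finset α) j →
        tau b (C ∪ T j) ≤ tau b C := by
      intro j C hC hCj
      have hcC := hcU.mono (cps_sub hC)
      rcases hT3 j with ⟨x, hx, hx2⟩ | ⟨x, y, hxy, hx, hx2, hy2⟩
      · rw [hx]
        rw [← hCj] at hx2
        exact absorb_aj hcC (KT.vc hcC (hall C hC)) hx2
      · rw [hx]
        rw [← hCj] at hx2 hy2
        have h1 := hT1 j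
        rw [hx] at h1
        exact hab C hC x (h1 (mem_insert_self _ _)) y
          (h1 (mem_insert_of_mem (mem_singleton_self _))) hxy hx2 hy2
    refine h.notsaved hcb
      (fun C => if C = C1 then T 0 else if C = C2 then T 1 else T 2) ?_ ?_ ?_
    · intro C hC
      show tau b (C ∪ (if C = C1 then T 0 else if C = C2 then T 1 else T 2)) ≤ tau b C
      have hC' := hC
      rw [hcps, mem_insert, mem_insert, mem_singleton] at hC'
      rcases hC' with h1 | h1 | h1
      · rw [if_pos h1]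
        exact hTab 0 C hC h1
      · rw [if_neg (by rw [h1]; exact h12.symm), if_pos h1]
        exact hTab 1 C hC h1
      · rw [if_neg (by rw [h1]; exact h13.symm), if_neg (by rw [h1]; exact h23.symm)]
        exact hTab 2 C hC h1
    · intro C _
      show (if C = C1 then T 0 else if C = C2 then T 1 else T 2) ⊆ V \ U
      split_ifs
      · exact hT1 0
      · exact hT1 1
      · exact hT1 2
    · intro x hx
      rw [mem_biUnion]
      obtain ⟨j, hj⟩ := hT2 x hx
      fin_cases j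
      · refine ⟨C1, hC1, ?_⟩
        show x ∈ (if C1 = C1 then T 0 else if C1 = C2 then T 1 else T 2)
        rw [if_pos rfl]
        exact hj
      · refine ⟨C2, hC2, ?_⟩
        show x ∈ (if C2 = C1 then T 0 else if C2 = C2 then T 1 else T 2)
        rw [if_neg h12.symm, if_pos rfl]
        exact hj
      · refine ⟨C3, hC3, ?_⟩
        show x ∈ (if C3 = C1 then T 0 else if C3 = C2 then T 1 else T 2)
        rw [if_neg h13.symm, if_neg h23.symm]
        exact hj
  · -- two components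
    have hk0' : k = 0 := by omega
    subst hk0'
    obtain ⟨C, C', hne, hcps⟩ := card_eq_two.mp hnum
    have hC : C ∈ cps b U := by rw [hcps]; simp
    have hC' : C' ∈ cps b U := by rw [hcps]; simp
    obtain ⟨x, y, z, hxy, hxz, hyz, hS⟩ := card_eq_three.mp hSc
    have hns1 : 1 ≤ (ins b V U).card := by omega
    have hns2 : (ins b V U).card ≤ 2 := by omega
    have hsum2 : (ee b C - ((sp b V ∩ C).card : ℤ)) + (ee b C' - ((sp b V ∩ C').card : ℤ)) ≤
        4 - 2 * (ins b V U).card := by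
      rw [hcps, sum_pair hne] at hle hge
      push_cast at hle
      omega
    have e0 := hnn C hC
    have e0' := hnn C' hC'
    have hdg : ∀ w ∈ V \ U, 5 ≤ dg b {w} C + dg b {w} C' + (ins b V U).card := by
      intro w hw
      have h1 := hdeg w hw
      rwa [hcps, sum_pair hne] at h1
    have hcps' : cps b U = {C', C} := by rw [hcps, pair_comm]
    have hKC := hall C hC
    have hKC' := hall C' hC'
    have hmem : ∀ w, w ∈ V \ U ↔ w = x ∨ w = y ∨ w = z := by
      intro w
      rw [hS, mem_insert, mem_insert, mem_singleton]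
    have hx := (hmem x).mpr (Or.inl rfl)
    have hy := (hmem y).mpr (Or.inr (Or.inl rfl))
    have hz := (hmem z).mpr (Or.inr (Or.inr rfl))
    -- the case of a component that is not attached to a point
    have caseZ : ∀ D D' : Finset α, cps b U = {D, D'} → D ≠ D' → ∀ x y z : α,
        V \ U = {x, y, z} → x ≠ y → x ≠ z → y ≠ z → dg b {z} D = 0 → False := by
      intro D D' hcps hne x y z hS hxy hxz hyz h0
      have hD : D ∈ cps b U := by rw [hcps]; simp
      have hD' : D' ∈ cps b U := by rw [hcps]; simp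
      have hmem : ∀ w, w ∈ V \ U ↔ w = x ∨ w = y ∨ w = z := by
        intro w
        rw [hS, mem_insert, mem_insert, mem_singleton]
      have hx := (hmem x).mpr (Or.inl rfl)
      have hy := (hmem y).mpr (Or.inr (Or.inl rfl))
      have hz := (hmem z).mpr (Or.inr (Or.inr rfl))
      have hdg : ∀ w ∈ V \ U, 5 ≤ dg b {w} D + dg b {w} D' + (ins b V U).card := by
        intro w hw
        have h1 := hdeg w hw
        rwa [hcps, sum_pair hne] at h1
      have hatt : ∀ v, ∃ w ∈ V \ U, w ≠ v ∧ Aj b w D := fun v =>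
        h.att hcb hK.con (KT.vc hcb hK) hD v
      have hxD : 1 ≤ dg b {x} D := by
        obtain ⟨w, hw, hwv, hwa⟩ := hatt y
        rcases (hmem w).mp hw with h1 | h1 | h1
        · rw [← h1]
          exact aj_dg hwa
        · exact absurd h1 hwv
        · have := aj_dg hwa
          rw [h1] at this
          omega
      have hyD : 1 ≤ dg b {y} D := by
        obtain ⟨w, hw, hwv, hwa⟩ := hatt x
        rcases (hmem w).mp hw with h1 | h1 | h1
        · exact absurd h1 hwv
        · rw [← h1]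
          exact aj_dg hwa
        · have := aj_dg hwa
          rw [h1] at this
          omega
      have hxx := hdg x hx
      have hyy := hdg y hy
      have hzz := hdg z hz
      rw [h0] at hzz
      have hzD' : 1 ≤ dg b {z} D' := by omega
      have hcps' : cps b U = {D', D} := by rw [hcps, pair_comm]
      have hKD := hall D hD
      have hKD' := hall D' hD'
      have hSxzy : V \ U = {x, z, y} := by
        ext w
        rw [hmem, mem_insert, mem_insert, mem_singleton]
        tauto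
      have hSyzx : V \ U = {y, z, x} := by
        ext w
        rw [hmem, mem_insert, mem_insert, mem_singleton]
        tauto
      have hsum2 : (ee b D - ((sp b V ∩ D).card : ℤ)) + (ee b D' - ((sp b V ∩ D').card : ℤ)) ≤
          4 - 2 * (ins b V U).card := by
        rw [hcps, sum_pair hne] at hle hge
        push_cast at hle
        omega
      refine arith_zero (e := ee b D - ((sp b V ∩ D).card : ℤ))
        (e' := ee b D' - ((sp b V ∩ D').card : ℤ)) (z' := dg b {z} D') hxD hyD hxx hyy (by omega) hns2 hns1 hsum2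
        (hnn D hD) (hnn D' hD') ?_ ?_ ?_
      · intro a c ha hac hc hax hcy
        have := h.two hsys hIH hcps hne hKD hKD' hS hxy hzD' ha hac hc hax hcy
        linarith
      · intro a c ha hac hc hax hcy
        have := h.two hsys hIH hcps' hne.symm hKD' hKD hSxzy hxz hyD ha hac hc hax hcy
        linarith
      · intro a c ha hac hc hax hcy
        have := h.two hsys hIH hcps' hne.symm hKD' hKD hSyzx hyz hxD ha hac hc hax hcy
        linarith
    have hSxzy : V \ U = {x, z, y} := by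
      ext w
      rw [hmem, mem_insert, mem_insert, mem_singleton]
      tauto
    have hSyzx : V \ U = {y, z, x} := by
      ext w
      rw [hmem, mem_insert, mem_insert, mem_singleton]
      tauto
    have hSzxy : V \ U = {z, x, y} := by
      ext w
      rw [hmem, mem_insert, mem_insert, mem_singleton]
      tauto
    have pos : ∀ D D' : Finset α, cps b U = {D, D'} → D ≠ D' → 1 ≤ dg b {x} D ∧
        1 ≤ dg b {y} D ∧ 1 ≤ dg b {z} D := by
      intro D D' hcps hne
      refine ⟨?_, ?_, ?_⟩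
      · by_contra h1
        exact caseZ D D' hcps hne y z x hSyzx hyz hxy.symm hxz.symm (by omega)
      · by_contra h1
        exact caseZ D D' hcps hne x z y hSxzy hxz hxy hyz.symm (by omega)
      · by_contra h1
        exact caseZ D D' hcps hne x y z hS hxy hxz hyz (by omega)
    obtain ⟨px, py, pz⟩ := pos C C' hcps hne
    obtain ⟨px', py', pz'⟩ := pos C' C hcps' hne.symm
    refine arith_pos (e := ee b C - ((sp b V ∩ C).card : ℤ))
      (e' := ee b C' - ((sp b V ∩ C').card : ℤ)) px py pz px' py' pz' (hdg x hx) (hdg y hy)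
      (hdg z hz) hns2 hns1 hsum2 e0 e0' ?_ ?_ ?_ ?_ ?_ ?_
    · intro a c ha hac hc hax hcy
      have := h.three hsys hIH hcps hne hKC hKC' hS hxy hxz px' py' pz' ha hac hc hax hcy
      linarith
    · intro a c ha hac hc hax hcy
      have := h.three hsys hIH hcps hne hKC hKC' hSyzx hyz hxy.symm py' pz' px' ha hac hc hax hcy
      linarith
    · intro a c ha hac hc hax hcy
      have := h.three hsys hIH hcps hne hKC hKC' hSzxy hxz.symm hyz.symm pz' px' py' ha hac hc
        hax hcy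
      linarith
    · intro a c ha hac hc hax hcy
      have := h.three hsys hIH hcps' hne.symm hKC' hKC hS hxy hxz px py pz ha hac hc hax hcy
      linarith
    · intro a c ha hac hc hax hcy
      have := h.three hsys hIH hcps' hne.symm hKC' hKC hSyzx hyz hxy.symm py pz px ha hac hc
        hax hcy
      linarith
    · intro a c ha hac hc hax hcy
      have := h.three hsys hIH hcps' hne.symm hKC' hKC hSzxy hxz.symm hyz.symm pz px py ha hac hc
        hax hcy
      linarith

/-- **Theorem K.** -/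
theorem K : ∀ n, IHK n := by
  intro n
  induction n with
  | zero => exact fun α ι _ _ _ b U h => absurd h (Nat.not_lt_zero _)
  | succ n ih =>
    intro α ι _ _ _ b U h hsys hK
    rcases Nat.lt_or_ge U.card n with h1 | h1
    · exact ih α ι b U h1 hsys hK
    · have h2 : U.card = n := by omega
      exact K_step hsys hK (by rw [h2]; exact ih)

end Pool.Agent.Helper74.C5
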